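import Mathlib

/-!
# Lowest terms of polynomials with respect to an additive order on exponents
-/

namespace Pool.Agent.EP.Aux

open MvPolynomial

variable {σ R Γ : Type*} [CommSemiring R] [AddCommMonoid Γ] [LinearOrder Γ]
  [IsOrderedCancelAddMonoid Γ]

/-- `r` has the term of exponent `e` with coefficient one and all other exponents are larger. -/
def Low (φ : (σ →₀ ℕ) →+ Γ) (e : σ →₀ ℕ) (r : MvPolynomial σ R) : Prop :=
  r.coeff e = 1 ∧ ∀ e', r.coeff e' ≠ 0 → φ e ≤ φ e'

omit [IsOrderedCancelAddMonoid Γ] in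
theorem Low.one [Nontrivial R] (φ : (σ →₀ ℕ) →+ Γ) : Low φ 0 (1 : MvPolynomial σ R) := by
  classical
  refine ⟨by simp, fun e' he' => ?_⟩
  rw [MvPolynomial.coeff_one] at he'
  split_ifs at he' with h
  · rw [← h]
  · exact absurd rfl he'

theorem Low.mul {φ : (σ →₀ ℕ) →+ Γ} (hφ : Function.Injective φ) {e e' : σ →₀ ℕ}
    {r r' : MvPolynomial σ R} (h : Low φ e r) (h' : Low φ e' r') : Low φ (e + e') (r * r') := by
  classical
  constructor
  · rw [MvPolynomial.coeff_mul, Finset.sum_eq_single (e, e')]
    · simp [h.1, h'.1]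
    · rintro ⟨a, b⟩ hab hne
      rw [Finset.HasAntidiagonal.mem_antidiagonal] at hab
      by_contra hcon
      have ha : r.coeff a ≠ 0 := fun h0 => hcon (by simp [h0])
      have hb : r'.coeff b ≠ 0 := fun h0 => hcon (by simp [h0])
      have h1 := h.2 a ha
      have h2 := h'.2 b hb
      have h3 : φ a + φ b = φ e + φ e' := by
        rw [← map_add, ← map_add]
        exact congrArg φ hab
      have h4 : φ a = φ e := by
        rcases h1.lt_or_eq with h5 | h5
        · exfalso
          have := add_lt_add_of_lt_of_le h5 h2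
          rw [h3] at this
          exact lt_irrefl _ this
        · exact h5.symm
      have h5 : a = e := hφ h4
      have h6 : b = e' := by
        rw [h5] at hab
        exact add_left_cancel hab
      exact hne (by rw [h5, h6])
    · intro hne
      have h0 : (e, e') ∈ Finset.HasAntidiagonal.antidiagonal (e + e') := by
        rw [Finset.HasAntidiagonal.mem_antidiagonal]
      exact absurd h0 hne
  · intro d hd
    rw [MvPolynomial.coeff_mul] at hd
    obtain ⟨⟨a, b⟩, hab, hne⟩ := Finset.exists_ne_zero_of_sum_ne_zero hd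
    rw [Finset.HasAntidiagonal.mem_antidiagonal] at hab
    have ha : r.coeff a ≠ 0 := fun h0 => hne (by simp [h0])
    have hb : r'.coeff b ≠ 0 := fun h0 => hne (by simp [h0])
    have h1 := add_le_add (h.2 a ha) (h'.2 b hb)
    rw [← map_add, ← map_add] at h1
    rw [← hab]
    exact h1

theorem Low.pow [Nontrivial R] {φ : (σ →₀ ℕ) →+ Γ} (hφ : Function.Injective φ) {e : σ →₀ ℕ}
    {r : MvPolynomial σ R} (h : Low φ e r) (n : ℕ) : Low φ (n • e) (r ^ n) := by
  induction n with
  | zero => simpa using Low.one φ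
  | succ n ih =>
    rw [pow_succ, succ_nsmul]
    exact ih.mul hφ h

theorem Low.prod [Nontrivial R] {φ : (σ →₀ ℕ) →+ Γ} (hφ : Function.Injective φ) {ι : Type*}
    (s : Finset ι) (e : ι → σ →₀ ℕ) (r : ι → MvPolynomial σ R) (h : ∀ i ∈ s, Low φ (e i) (r i)) :
    Low φ (∑ i ∈ s, e i) (∏ i ∈ s, r i) := by
  classical
  induction s using Finset.induction_on with
  | empty => simpa using Low.one φ
  | insert i s hi ih =>
    rw [Finset.sum_insert hi, Finset.prod_insert hi]
    exact (h i (Finset.mem_insert_self i s)).mul hφ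
      (ih fun j hj => h j (Finset.mem_insert_of_mem hj))

/-- Substituting polynomials with lowest terms `X i` into a monomial. -/
theorem Low.aeval_monomial [Nontrivial R] {φ : (σ →₀ ℕ) →+ Γ} (hφ : Function.Injective φ)
    (P : σ → MvPolynomial σ R) (h : ∀ i, Low φ (Finsupp.single i 1) (P i)) (e : σ →₀ ℕ) :
    Low φ e (aeval P (monomial e (1 : R))) := by
  classical
  rw [MvPolynomial.aeval_monomial, map_one, one_mul, Finsupp.prod]
  have h1 : Low φ (∑ i ∈ e.support, (e i) • Finsupp.single i 1) (∏ i ∈ e.support, P i ^ e i) :=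
    Low.prod hφ _ _ _ fun i _ => (h i).pow hφ (e i)
  have h2 : ∑ i ∈ e.support, (e i) • (Finsupp.single i 1 : σ →₀ ℕ) = e := by
    conv_rhs => rw [← Finsupp.sum_single e]
    rw [Finsupp.sum]
    refine Finset.sum_congr rfl fun i _ => ?_
    simp
  rwa [h2] at h1

end Pool.Agent.EP.Aux
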