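import Pool.Agent.EP.Defs
import Pool.Agent.EP.Low

/-!
# The action of a polynomial ring on the functions that are right invariant under `B`
-/

namespace Pool.Agent.EP.Aux

open MvPolynomial

variable {G : Type*} [Group G] {D : ℕ}

theorem rho_apply (g : G) (f : Fn G D) (p : G) : rho g f p = f (p * g) := rfl

theorem rho_mul (g g' : G) (f : Fn G D) : rho (g * g') f = rho g (rho g' f) := by
  funext p
  simp only [rho_apply, mul_assoc]

theorem rho_one (f : Fn G D) : rho (1 : G) f = f := by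
  funext p
  simp [rho_apply]

theorem rho_pow (g : G) (n : ℕ) : (rho (g ^ n) : Fn G D →ₗ[ZMod 2] Fn G D) = (rho g) ^ n := by
  induction n with
  | zero =>
    ext1 f
    rw [pow_zero, rho_one, pow_zero]
    rfl
  | succ n ih =>
    ext1 f
    rw [pow_succ, rho_mul, ih, pow_succ]
    rfl

theorem rho_conj (g p : G) (f : Fn G D) : rho p (rho g f) = rho g (rho (g⁻¹ * p * g) f) := by
  rw [← rho_mul, ← rho_mul]
  congr 1
  group

theorem CC_mono {S : OSys G} {Q Q' : Subgroup G} (h : Q ≤ Q') : CC S Q' D ≤ CC S Q D :=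
  fun _ hf => ⟨hf.1, fun q hq => hf.2 q (h hq)⟩

theorem mem_CC_iff {S : OSys G} {Q : Subgroup G} (f : Fn G D) :
    f ∈ CC S Q D ↔ (∃ U : Subgroup G, S.Op U ∧ ∀ u ∈ U, rho u f = f) ∧ ∀ q ∈ Q, rho q f = f :=
  Iff.rfl

/-- A locally constant right `Q`-invariant function is right invariant under an open normal
subgroup. -/
theorem CC_exists_normal {S : OSys G} {Q : Subgroup G} {f : Fn G D} (hf : f ∈ CC S Q D) :
    ∃ U : Subgroup G, S.Op U ∧ U.Normal ∧ ∀ u ∈ U, rho u f = f := by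
  obtain ⟨⟨U, hU, h⟩, -⟩ := hf
  exact ⟨U.normalCore, S.core U hU, inferInstance, fun u hu => h u (U.normalCore_le hu)⟩

theorem CC_exists_normal' {S : OSys G} {Q : Subgroup G} (hQ : Q.Normal) {f : Fn G D}
    (hf : f ∈ CC S Q D) :
    ∃ U : Subgroup G, S.Op U ∧ U.Normal ∧ Q ≤ U ∧ ∀ u ∈ U, rho u f = f := by
  obtain ⟨U, hU, hUn, h⟩ := CC_exists_normal hf
  refine ⟨U ⊔ Q, S.up _ _ hU le_sup_left, inferInstance, le_sup_right, fun u hu => ?_⟩
  obtain ⟨a, ha, b, hb, rfl⟩ := Subgroup.mem_sup_of_normal_right.1 hu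
  rw [rho_mul, hf.2 b hb, h a ha]

/-- The functions that are right invariant under `Q` form a stable space if `Q` is normal. -/
theorem CC_stable (S : OSys G) {Q : Subgroup G} (hQ : Q.Normal) (D : ℕ) : Stable (CC S Q D) := by
  intro g f hf
  obtain ⟨U, hU, hUn, h⟩ := CC_exists_normal hf
  refine ⟨⟨U, hU, fun u hu => ?_⟩, fun q hq => ?_⟩
  · rw [rho_conj, h _ (by simpa using hUn.conj_mem u hu g⁻¹)]
  · rw [rho_conj, hf.2 _ (by simpa using hQ.conj_mem q hq g⁻¹)]

theorem exists_aeval_comm {R A σ : Type*} [CommRing R] [Ring A] [Algebra R A] (a : σ → A)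
    (h : ∀ i j, a i * a j = a j * a i) :
    ∃ φ : MvPolynomial σ R →ₐ[R] A, ∀ i, φ (X i) = a i := by
  have hc : ∀ x ∈ Set.range a, ∀ y ∈ Set.range a, x * y = y * x := by
    rintro _ ⟨i, rfl⟩ _ ⟨j, rfl⟩
    exact h i j
  have hcomm := Algebra.isMulCommutative_adjoin R hc
  let _ : CommRing (Algebra.adjoin R (Set.range a)) :=
    { (inferInstance : Ring (Algebra.adjoin R (Set.range a))) with
      mul_comm := fun x y => hcomm.is_comm.comm x y }
  let ψ : MvPolynomial σ R →ₐ[R] Algebra.adjoin R (Set.range a) :=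
    MvPolynomial.aeval
      fun i => (⟨a i, Algebra.subset_adjoin ⟨i, rfl⟩⟩ : Algebra.adjoin R (Set.range a))
  refine ⟨(Algebra.adjoin R (Set.range a)).val.comp ψ, fun i => ?_⟩
  have : ψ (X i) = ⟨a i, Algebra.subset_adjoin ⟨i, rfl⟩⟩ := MvPolynomial.aeval_X _ _
  rw [AlgHom.comp_apply, this]
  rfl

/-- The restriction of a right translation to the functions that are right `B`-invariant. -/
def rhoC (S : OSys G) {B : Subgroup G} (hB : B.Normal) (D : ℕ) (g : G) :
    Module.End (ZMod 2) (CC S B D) :=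
  (rho g).restrict fun f hf => CC_stable S hB D g f hf

theorem rhoC_val (S : OSys G) {B : Subgroup G} (hB : B.Normal) (D : ℕ) (g : G) (f : CC S B D) :
    (rhoC S hB D g f : Fn G D) = rho g (f : Fn G D) := rfl

theorem rhoC_comm (S : OSys G) {B : Subgroup G} (hB : B.Normal) (D : ℕ) (a b : G)
    (h : a * b * a⁻¹ * b⁻¹ ∈ B) :
    rhoC S hB D a * rhoC S hB D b = rhoC S hB D b * rhoC S hB D a := by
  ext1 f
  apply Subtype.ext
  show rho a (rho b (f : Fn G D)) = rho b (rho a (f : Fn G D))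
  rw [← rho_mul, ← rho_mul]
  have h1 : a * b = b * a * ((b * a)⁻¹ * (a * b * a⁻¹ * b⁻¹) * (b * a)) := by group
  rw [h1, rho_mul (b * a), f.2.2 _ (by simpa using hB.conj_mem _ h (b * a)⁻¹)]

end Pool.Agent.EP.Aux
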