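import Pool.Agent.EP.Ln

/-!
# Exact pairs: monotonicity (M) (MP_2429c0)

(1) `ln_inv_step`: `U ≤ V` of index two: apply `rho u - 1` (`u ∈ V \ U`).
(2) `ln_inv_le`: between `U'` and `U` there is a chain of subgroups, each of index two in the next one
(`exists_relIndex_two`, from the Sylow theorem in the finite 2-group `G / core`).
(3) `ratio_anti`: divide by the index.
(4) `exists_common`: finitely many ranks are approximated simultaneously.
-/

open scoped ENNReal

namespace Pool.Agent.EP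

variable {G : Type*} [Group G] {D : ℕ}

theorem rho_mul (g h : G) (f : Fn G D) : rho (g * h) f = rho g (rho h f) := by
  funext p
  simp only [rho, LinearMap.coe_mk, AddHom.coe_mk, mul_assoc]

theorem rho_one (f : Fn G D) : rho (1 : G) f = f := by
  funext p
  simp only [rho, LinearMap.coe_mk, AddHom.coe_mk, mul_one]

omit [Group G] in
theorem two_fn (f : Fn G D) : f + f = 0 := by
  funext p i
  simp only [Pi.add_apply, Pi.zero_apply]
  exact CharTwo.add_self_eq_zero _

theorem le_inv {Y Y' : Submodule (ZMod 2) (Fn G D)} (hY : Stable Y) (h : Y ≤ Y')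
    (U : Subgroup G) : Y ≤ inv Y Y' U :=
  fun f hf => ⟨h hf, fun u _ => Y.sub_mem (hY u f hf) hf⟩

theorem inv_mono (Y Y' : Submodule (ZMod 2) (Fn G D)) {U V : Subgroup G} (h : U ≤ V) :
    inv Y Y' V ≤ inv Y Y' U := fun _ hf => ⟨hf.1, fun u hu => hf.2 u (h hu)⟩

/-- One step of (M). -/
theorem ln_inv_step {Y Y' : Submodule (ZMod 2) (Fn G D)} (hY : Stable Y) (hY' : Stable Y')
    {U V : Subgroup G} (hUV : U ≤ V) (h2 : U.relIndex V = 2) :
    ln Y (inv Y Y' U) ≤ 2 * ln Y (inv Y Y' V) := by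
  have hidx : (U.subgroupOf V).index = 2 := h2
  obtain ⟨u, huV, huU, hu⟩ := Subgroup.relIndex_eq_two_iff_exists_notMem_and.1 h2
  have hmul : ∀ a ∈ V, ∀ b ∈ V, (a * b ∈ U ↔ (a ∈ U ↔ b ∈ U)) := by
    intro a ha b hb
    have := Subgroup.mul_mem_iff_of_index_two hidx (a := ⟨a, ha⟩) (b := ⟨b, hb⟩)
    simpa [Subgroup.mem_subgroupOf] using this
  have huu : u * u ∈ U := (hmul u huV u huV).2 Iff.rfl
  -- normality
  have hnorm : ∀ w ∈ U, u⁻¹ * w * u ∈ U := by
    intro w hw
    have h3 : u⁻¹ ∉ U := fun h => huU (by simpa using U.inv_mem h)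
    have h4 : u⁻¹ * w ∉ U := by
      rw [hmul _ (V.inv_mem huV) _ (hUV hw)]
      intro h
      exact h3 (h.2 hw)
    rw [hmul _ (V.mul_mem (V.inv_mem huV) (hUV hw)) _ huV]
    exact iff_of_false h4 huU
  set T : Fn G D →ₗ[ZMod 2] Fn G D := rho u - LinearMap.id with hT
  have hTf : ∀ f, T f = rho u f - f := fun f => rfl
  -- `T` maps `inv U` into `inv V`
  have h1 : ∀ f ∈ inv Y Y' U, T f ∈ inv Y Y' V := by
    intro f hf
    refine ⟨Y'.sub_mem (hY' u f hf.1) hf.1, ?_⟩
    have hU : ∀ w ∈ U, rho w (T f) - T f ∈ Y := by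
      intro w hw
      have e1 : rho w (rho u f) = rho u (rho (u⁻¹ * w * u) f) := by
        rw [← rho_mul, ← rho_mul]
        congr 1
        group
      have e2 : rho w (T f) - T f =
          rho u (rho (u⁻¹ * w * u) f - f) - (rho w f - f) := by
        rw [hTf, map_sub, e1, map_sub]
        abel
      rw [e2]
      exact Y.sub_mem (hY u _ (hf.2 _ (hnorm w hw))) (hf.2 w hw)
    have hu' : rho u (T f) - T f ∈ Y := by
      have e2 : rho u (T f) - T f = (rho (u * u) f - f) - ((rho u f - f) + (rho u f - f)) := by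
        rw [hTf, map_sub, ← rho_mul]
        abel
      rw [e2, two_fn, sub_zero]
      exact hf.2 _ huu
    intro v hv
    rcases hu v hv with h | h
    · -- `v * u ∈ U`
      have e1 : rho v (T f) = rho (v * u * u⁻¹) (T f) := by
        congr 2
        group
      have h5 : rho u⁻¹ (T f) - T f ∈ Y := by
        have e3 : rho u⁻¹ (T f) - T f = - rho u⁻¹ (rho u (T f) - T f) := by
          rw [map_sub, ← rho_mul, inv_mul_cancel, rho_one]
          abel
        rw [e3]
        exact Y.neg_mem (hY _ _ hu')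
      have e2 : rho v (T f) - T f = rho (v * u) (rho u⁻¹ (T f) - T f) +
          (rho (v * u) (T f) - T f) := by
        rw [e1, rho_mul, map_sub]
        abel
      rw [e2]
      exact Y.add_mem (hY _ _ h5) (hU _ h)
    · exact hU v h
  have h2' : ∀ f ∈ inv Y Y' U, T f ∈ Y → f ∈ inv Y Y' V := by
    intro f hf hTfY
    refine ⟨hf.1, fun v hv => ?_⟩
    rcases hu v hv with h | h
    · have h5 : rho u⁻¹ f - f ∈ Y := by
        have e3 : rho u⁻¹ f - f = - rho u⁻¹ (rho u f - f) := by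
          rw [map_sub, ← rho_mul, inv_mul_cancel, rho_one]
          abel
        rw [e3]
        exact Y.neg_mem (hY _ _ hTfY)
      have e1 : rho v f = rho (v * u) (rho u⁻¹ f) := by
        rw [← rho_mul]
        congr 2
        group
      have e2 : rho v f - f = rho (v * u) (rho u⁻¹ f - f) + (rho (v * u) f - f) := by
        rw [e1, map_sub]
        abel
      rw [e2]
      exact Y.add_mem (hY _ _ h5) (hf.2 _ h)
    · exact hf.2 v h
  calc ln Y (inv Y Y' U) ≤ ln Y (inv Y Y' V ⊓ inv Y Y' U) + ln (inv Y Y' V) (inv Y Y' U) :=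
        ln_triangle _ _ _
    _ ≤ ln Y (inv Y Y' V) + ln Y (inv Y Y' V) :=
        add_le_add (ln_mono_right inf_le_left) (ln_le_of_map T _ _ _ _ h1 h2')
    _ = 2 * ln Y (inv Y Y' V) := (two_mul _).symm

/-- Existence of intermediate subgroups. -/
theorem exists_relIndex_two (S : OSys G) {U V : Subgroup G} (hU : S.Op U) (hUV : U ≤ V)
    (hne : U ≠ V) : ∃ W : Subgroup G, U ≤ W ∧ W ≤ V ∧ U.relIndex W = 2 := by
  classical
  set N := U.normalCore with hN
  obtain ⟨m, hm⟩ := S.idx N (S.core U hU)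
  have hNi : N.index ≠ 0 := by rw [hm]; positivity
  have : N.FiniteIndex := ⟨hNi⟩
  have : Finite (G ⧸ N) := inferInstance
  set f : G →* G ⧸ N := QuotientGroup.mk' N with hf
  have hsurj : Function.Surjective f := QuotientGroup.mk'_surjective N
  have hker : f.ker = N := QuotientGroup.ker_mk' N
  have hcardQ : Nat.card (G ⧸ N) = 2 ^ m := hm
  have hNU : N ≤ U := U.normalCore_le
  set H : Subgroup (G ⧸ N) := V.map f with hH
  set L : Subgroup H := (U.map f).subgroupOf H with hL
  have hUcomap : (U.map f).comap f = U := by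
    rw [Subgroup.comap_map_eq, hker, sup_eq_left.2 hNU]
  have hVcomap : (V.map f).comap f = V := by
    rw [Subgroup.comap_map_eq, hker, sup_eq_left.2 (hNU.trans hUV)]
  obtain ⟨b, -, hb⟩ := (Nat.dvd_prime_pow Nat.prime_two).1 (hcardQ ▸ Subgroup.card_subgroup_dvd_card H)
  obtain ⟨a, hab, ha⟩ := (Nat.dvd_prime_pow Nat.prime_two).1 (hb ▸ Subgroup.card_subgroup_dvd_card L)
  have hle' : U.map f ≤ H := Subgroup.map_mono hUV
  have hab' : a < b := by
    rcases lt_or_eq_of_le hab with h | h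
    · exact h
    · exfalso
      have h1 : Nat.card L = Nat.card H := by rw [ha, hb, h]
      have h2 : L = ⊤ := Subgroup.eq_top_of_card_eq L h1
      have h3 : H ≤ U.map f := Subgroup.subgroupOf_eq_top.1 h2
      have h4 : U.map f = V.map f := le_antisymm hle' h3
      apply hne
      rw [← hUcomap, ← hVcomap, h4]
  have : Fact (Nat.Prime 2) := ⟨Nat.prime_two⟩
  obtain ⟨K, hK, hLK⟩ := Sylow.exists_subgroup_card_pow_succ (p := 2) (n := a) (G := H)
    (by rw [hb]; exact pow_dvd_pow 2 hab') ha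
  set W : Subgroup G := (K.map H.subtype).comap f with hW
  have hUW : U ≤ W := by
    rw [← hUcomap]
    refine Subgroup.comap_mono ?_
    have : U.map f = L.map H.subtype := by
      rw [hL, Subgroup.map_subgroupOf_eq_of_le hle']
    rw [this]
    exact Subgroup.map_mono hLK
  have hWV : W ≤ V := by
    rw [← hVcomap]
    refine Subgroup.comap_mono ?_
    exact Subgroup.map_subtype_le K
  refine ⟨W, hUW, hWV, ?_⟩
  have h1 := Subgroup.relIndex_mul_index hUW
  have h2 : W.index * (2 ^ (a + 1)) = 2 ^ m := by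
    rw [hW, Subgroup.index_comap_of_surjective _ hsurj, ← hcardQ,
      ← Subgroup.index_mul_card (K.map H.subtype), ← hK]
    congr 1
    exact (Subgroup.card_map_of_injective H.subtype_injective).symm
  have h3 : U.index * (2 ^ a) = 2 ^ m := by
    have e1 : Nat.card (U.map f) = 2 ^ a := by
      rw [← ha, hL]
      exact (Nat.card_congr (Subgroup.subgroupOfEquivOfLe hle').toEquiv).symm
    calc U.index * 2 ^ a = (U.map f).index * 2 ^ a := by
          rw [← Subgroup.index_comap_of_surjective (U.map f) hsurj, hUcomap]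
      _ = 2 ^ m := by
          rw [← hcardQ, ← Subgroup.index_mul_card (U.map f), e1]
  rw [← h1] at h3
  have h4 : W.index * 2 ^ a ≠ 0 := by
    intro h0
    rw [pow_succ, ← mul_assoc, h0, zero_mul] at h2
    exact absurd h2.symm (by positivity)
  have h5 : U.relIndex W * (W.index * 2 ^ a) = 2 * (W.index * 2 ^ a) := by
    calc U.relIndex W * (W.index * 2 ^ a) = U.relIndex W * W.index * 2 ^ a := by ring
      _ = W.index * 2 ^ (a + 1) := by rw [h3, h2]
      _ = 2 * (W.index * 2 ^ a) := by ring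
  exact Nat.eq_of_mul_eq_mul_right (Nat.pos_of_ne_zero h4) h5

/-- (M): the invariants of a smaller subgroup. -/
theorem ln_inv_le (S : OSys G) {Y Y' : Submodule (ZMod 2) (Fn G D)} (hY : Stable Y)
    (hY' : Stable Y') (h : Y ≤ Y') {U U' : Subgroup G} (hU : S.Op U) (hU' : S.Op U')
    (hle : U' ≤ U) :
    ln Y (inv Y Y' U') ≤ ((U'.relIndex U : ℕ) : ℕ∞) * ln Y (inv Y Y' U) := by
  have key : ∀ n : ℕ, ∀ U' : Subgroup G, S.Op U' → U' ≤ U → U'.relIndex U = n →
      ln Y (inv Y Y' U') ≤ (n : ℕ∞) * ln Y (inv Y Y' U) := by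
    intro n
    induction n using Nat.strong_induction_on with
    | _ n ih =>
      intro U' hU' hle hn
      by_cases hne : U' = U
      · subst hne
        rw [Subgroup.relIndex_self] at hn
        rw [← hn]
        simp
      · obtain ⟨W, hUW, hWV, h2⟩ := exists_relIndex_two S hU' hle hne
        have hmul := Subgroup.relIndex_mul_relIndex U' W U hUW hWV
        rw [h2, hn] at hmul
        have hn0 : n ≠ 0 := by
          obtain ⟨k, hk⟩ := S.idx U' hU'
          have h3 := Subgroup.relIndex_mul_index hle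
          intro h0
          rw [hn, h0, zero_mul, hk] at h3
          exact absurd h3.symm (by positivity)
        have hlt : W.relIndex U < n := by omega
        have h4 := ih _ hlt W (S.up U' W hU' hUW) hWV rfl
        calc ln Y (inv Y Y' U') ≤ 2 * ln Y (inv Y Y' W) := ln_inv_step hY hY' hUW h2
          _ ≤ 2 * ((W.relIndex U : ℕ∞) * ln Y (inv Y Y' U)) := mul_le_mul_right h4 _
          _ = (n : ℕ∞) * ln Y (inv Y Y' U) := by
              rw [← mul_assoc, ← hmul]
              push_cast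
              rfl
  have _ := h
  have _ := hU
  exact key _ U' hU' hle rfl

/-- The ratio is antitone. -/
theorem ratio_anti (S : OSys G) {Y Y' : Submodule (ZMod 2) (Fn G D)} (hY : Stable Y)
    (hY' : Stable Y') (h : Y ≤ Y') {U U' : Subgroup G} (hU : S.Op U) (hU' : S.Op U')
    (hle : U' ≤ U) : ratio Y Y' U' ≤ ratio Y Y' U := by
  have h1 := ln_inv_le S hY hY' h hU hU' hle
  have h2 := Subgroup.relIndex_mul_index hle
  obtain ⟨m, hm⟩ := S.idx U' hU'
  have hr : U'.relIndex U ≠ 0 := by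
    intro h0
    rw [h0, zero_mul, hm] at h2
    exact absurd h2.symm (by positivity)
  have h3 : ((ln Y (inv Y Y' U') : ℕ∞) : ℝ≥0∞) ≤
      (U'.relIndex U : ℝ≥0∞) * ((ln Y (inv Y Y' U) : ℕ∞) : ℝ≥0∞) := by
    have := ENat.toENNReal_le.2 h1
    rwa [ENat.toENNReal_mul, ENat.toENNReal_coe] at this
  have hr0 : (U'.relIndex U : ℝ≥0∞) ≠ 0 := by exact_mod_cast hr
  have hrt : (U'.relIndex U : ℝ≥0∞) ≠ ⊤ := ENNReal.natCast_ne_top _
  unfold ratio
  rw [← h2, Nat.cast_mul]
  calc ((ln Y (inv Y Y' U') : ℕ∞) : ℝ≥0∞) / ((U'.relIndex U : ℝ≥0∞) * (U.index : ℝ≥0∞))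
      ≤ ((U'.relIndex U : ℝ≥0∞) * ((ln Y (inv Y Y' U) : ℕ∞) : ℝ≥0∞)) /
        ((U'.relIndex U : ℝ≥0∞) * (U.index : ℝ≥0∞)) := ENNReal.div_le_div_right h3 _
    _ = _ := ENNReal.mul_div_mul_left _ _ hr0 hrt

instance (S : OSys G) (Q : Subgroup G) : Nonempty (Nb S Q) :=
  ⟨⟨⊤, S.top, inferInstance, le_top⟩⟩

/-- Intersection of two elements of `Nb`. -/
def Nb.inf {S : OSys G} {Q : Subgroup G} (U V : Nb S Q) : Nb S Q :=
  ⟨U.1 ⊓ V.1, S.inf _ _ U.2.1 V.2.1, by
    have := U.2.2.1
    have := V.2.2.1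
    exact inferInstance, le_inf U.2.2.2 V.2.2.2⟩

theorem rk_le_ratio (S : OSys G) (Q : Subgroup G) {Y Y' : Submodule (ZMod 2) (Fn G D)}
    (hY : Stable Y) (hY' : Stable Y') (h : Y ≤ Y') {U : Subgroup G} (hU : S.Op U)
    (hN : U.Normal) (hQ : Q ≤ U) : rk S Q Y Y' ≤ ratio Y Y' U := by
  have _ := hY
  have _ := hY'
  have _ := h
  exact iInf_le (fun U : Nb S Q => ratio Y Y' U.1) ⟨U, hU, hN, hQ⟩

/-- The rank is at most the ratio of any open subgroup. -/
theorem rk_le_of_open (S : OSys G) {Q : Subgroup G} (hQ : Q.Normal)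
    {Y Y' : Submodule (ZMod 2) (Fn G D)} (hY : Stable Y) (hY' : Stable Y') (h : Y ≤ Y')
    {U : Subgroup G} (hU : S.Op U) (hQU : Q ≤ U) : rk S Q Y Y' ≤ ratio Y Y' U :=
  (rk_le_ratio S Q hY hY' h (S.core U hU) U.normalCore_normal
    (Subgroup.normal_le_normalCore.2 hQU)).trans
    (ratio_anti S hY hY' h hU (S.core U hU) U.normalCore_le)

/-- Finitely many ranks are approximated by the same subgroup and all smaller ones. -/
theorem exists_common_lt (S : OSys G) (Q : Subgroup G) {ι : Type*} (T : Finset ι)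
    (Y Y' : ι → Submodule (ZMod 2) (Fn G D)) (hY : ∀ i, Stable (Y i)) (hY' : ∀ i, Stable (Y' i))
    (h : ∀ i, Y i ≤ Y' i) (c : ι → ℝ≥0∞) (hc : ∀ i ∈ T, rk S Q (Y i) (Y' i) < c i)
    (V : Nb S Q) : ∃ U : Nb S Q, U.1 ≤ V.1 ∧ ∀ W : Subgroup G, S.Op W → W ≤ U.1 →
      ∀ i ∈ T, ratio (Y i) (Y' i) W < c i := by
  classical
  induction T using Finset.induction_on with
  | empty => exact ⟨V, le_rfl, fun _ _ _ i hi => absurd hi (Finset.notMem_empty i)⟩
  | insert a s ha ih =>
    obtain ⟨U, hU, h'⟩ := ih (fun i hi => hc i (Finset.mem_insert_of_mem hi))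
    obtain ⟨U', hU'⟩ := iInf_lt_iff.1 (hc a (Finset.mem_insert_self a s))
    refine ⟨U.inf U', inf_le_left.trans hU, fun W hW hWU i hi => ?_⟩
    rcases Finset.mem_insert.1 hi with rfl | hi
    · exact (ratio_anti S (hY _) (hY' _) (h _) U'.2.1 hW
        (hWU.trans inf_le_right)).trans_lt hU'
    · exact h' W hW (hWU.trans inf_le_left) i hi

/-- Finitely many ranks are approximated simultaneously. -/
theorem exists_common (S : OSys G) (Q : Subgroup G) {ι : Type*} (T : Finset ι)
    (Y Y' : ι → Submodule (ZMod 2) (Fn G D)) (hY : ∀ i, Stable (Y i)) (hY' : ∀ i, Stable (Y' i))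
    (h : ∀ i, Y i ≤ Y' i) (hfin : ∀ i ∈ T, rk S Q (Y i) (Y' i) ≠ ⊤) (ε : ℝ≥0∞) (hε : ε ≠ 0) :
    ∃ V : Subgroup G, S.Op V ∧ V.Normal ∧ Q ≤ V ∧ ∀ i ∈ T, ∀ U : Subgroup G, S.Op U → U ≤ V →
      ratio (Y i) (Y' i) U ≤ rk S Q (Y i) (Y' i) + ε := by
  obtain ⟨U, -, hU⟩ := exists_common_lt S Q T Y Y' hY hY' h
    (fun i => rk S Q (Y i) (Y' i) + ε) (fun i hi => ENNReal.lt_add_right (hfin i hi) hε)
    (Classical.arbitrary (Nb S Q))
  exact ⟨U.1, U.2.1, U.2.2.1, U.2.2.2, fun i hi W hW hWU => (hU W hW hWU i hi).le⟩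

end Pool.Agent.EP
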