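import Pool.Agent.EP.Kum
import Pool.Agent.EP.Mono

/-!
# Exact pairs: the biquadratic relation for open subgroups (MP_2429c0)

`bq`: for `U₀` with fixed field `K` the three subgroups of index two belong to three square classes `a, b, a + b`:
`dd E + sv a + 1 = 2 dd K` (`GoReal.finrank_ext`) and `sv_E (res b) + sv a = sv b + sv (a + b)` (`KRad.sv_step`);
`KRad.exists_QL` (module Genuine) gives the structures `QL` for genuine quadratic extensions of fields.
`dd_mono`: `sv a + 1 ≤ dd K` if `-1` is a square (`GoReal.sv_lt`), so `dd K ≤ dd E`; chain of subgroups of index two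
(`exists_relIndex_two` of `Mono`).  `dd_sub`: `dd E + 1 ≤ 2 dd K`, same chain.
-/

universe u

namespace Pool.Agent.EP

open Pool.Agent.Hhelper2 Pool.Agent.KRad

namespace BqAux

open Pool.Agent.Hhelper2.QuadExt Pool.Agent.Hhelper2.Tower Pool.Agent.Hhelper2.FieldAx Additive
open IntermediateField Module

variable {F Ω : Type u} [Field F] [Field Ω] [Algebra F Ω]

theorem two_ne (h2 : (2 : F) ≠ 0) (K : IntermediateField F Ω) : (2 : K) ≠ 0 := by
  intro h
  apply h2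
  apply (algebraMap F K).injective
  rw [map_ofNat, h, map_zero]

/-- The units of a subextension. -/
noncomputable def um {K L : IntermediateField F Ω} (h : K ≤ L) : Kˣ →* Lˣ :=
  Units.map (inclusion h).toRingHom.toMonoidHom

theorem um_coe {K L : IntermediateField F Ω} (h : K ≤ L) (x : Kˣ) :
    ((um h x : L) : Ω) = ((x : K) : Ω) := rfl

/-- A quadratic extension inside `Ω`. -/
theorem exists_q (h2 : (2 : F) ≠ 0) {K L : IntermediateField F Ω} [FiniteDimensional F K]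
    [FiniteDimensional F L] (h : K ≤ L) (hf : finrank F L = 2 * finrank F K) (a : Kˣ) (α : Ω)
    (hαL : α ∈ L) (hα : α ^ 2 = ((a : K) : Ω)) (hns : ¬ ∃ t : K, (a : K) = t ^ 2) :
    ∃ q : QL K L (sqClass a), ∀ x : Kˣ, q.res (sqClass x) = sqClass (um h x) := by
  let _ : Algebra K L := (inclusion h).toRingHom.toAlgebra
  have : IsScalarTower F K L := IsScalarTower.of_algebraMap_eq fun x => rfl
  have h1 : finrank K L = 2 := by
    have h3 := finrank_mul_finrank F K L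
    have h4 : 0 < finrank F K := finrank_pos
    rw [hf, mul_comm] at h3
    exact Nat.eq_of_mul_eq_mul_right h4 h3
  obtain ⟨q, hq, -⟩ := exists_QL (two_ne h2 K) h1 a (⟨α, hαL⟩ : L)
    (Subtype.ext hα) hns
  refine ⟨q, fun x => ?_⟩
  rw [hq]
  rfl

/-- Generators of quadratic extensions. -/
theorem exists_gen (h2 : (2 : F) ≠ 0) {K L : IntermediateField F Ω} [FiniteDimensional F K]
    [FiniteDimensional F L] (h : K ≤ L) (hf : finrank F L = 2 * finrank F K) :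
    ∃ (a : Kˣ) (α : Ω), α ∈ L ∧ α ^ 2 = ((a : K) : Ω) ∧ (¬ ∃ t : K, (a : K) = t ^ 2) ∧
      ∀ x ∈ L, ∃ u v : K, x = u + v * α := by
  let _ : Algebra K L := (inclusion h).toRingHom.toAlgebra
  have : IsScalarTower F K L := IsScalarTower.of_algebraMap_eq fun x => rfl
  have h1 : finrank K L = 2 := by
    have h3 := finrank_mul_finrank F K L
    have h4 : 0 < finrank F K := finrank_pos
    rw [hf, mul_comm] at h3
    exact Nat.eq_of_mul_eq_mul_right h4 h3
  obtain ⟨a, α, hα, hns⟩ := exists_sqrt (two_ne h2 K) h1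
  refine ⟨a, α, α.2, congrArg Subtype.val hα, hns, fun x hx => ?_⟩
  obtain ⟨c, -⟩ := Biquad.coords h1 (a : K) α hα hns
  obtain ⟨u, v, huv⟩ := c ⟨x, hx⟩
  exact ⟨u, v, congrArg Subtype.val huv⟩

variable [QC F Ω]

theorem finrank_step {V W : Subgroup (Ω ≃ₐ[F] Ω)} (hV : (galS F Ω).Op V) (hW : (galS F Ω).Op W)
    (l : V ≤ W) (r : V.relIndex W = 2) :
    finrank F (fixedField V) = 2 * finrank F (fixedField W) := by
  rw [(finite_fixedField V hV).2.2, (finite_fixedField W hW).2.2, ← r]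
  exact (Subgroup.relIndex_mul_index l).symm

/-- Elements of `W` which fix the generator are in `V`. -/
theorem exists_gen' (h2 : (2 : F) ≠ 0) {V W : Subgroup (Ω ≃ₐ[F] Ω)} (hV : (galS F Ω).Op V)
    (hW : (galS F Ω).Op W) (l : V ≤ W) (r : V.relIndex W = 2) :
    ∃ (a : (fixedField W)ˣ) (α : Ω), α ∈ fixedField V ∧
      α ^ 2 = ((a : fixedField W) : Ω) ∧ (¬ ∃ t : fixedField W, (a : fixedField W) = t ^ 2) ∧
      ∀ σ ∈ W, (σ ∈ V ∧ σ α = α) ∨ (σ ∉ V ∧ σ α = -α) := by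
  have := (finite_fixedField V hV).1
  have := (finite_fixedField W hW).1
  obtain ⟨a, α, h1, h3, h4, h5⟩ := exists_gen h2 (fixedField_le l) (finrank_step hV hW l r)
  refine ⟨a, α, h1, h3, h4, fun σ hσ => ?_⟩
  have hfix : ∀ x : fixedField W, σ x = x := fun x => (mem_fixedField_iff W _).1 x.2 σ hσ
  by_cases hσV : σ ∈ V
  · exact Or.inl ⟨hσV, (mem_fixedField_iff V α).1 h1 σ hσV⟩
  · refine Or.inr ⟨hσV, ?_⟩
    have h6 : (σ α) ^ 2 = α ^ 2 := by
      rw [← map_pow, h3]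
      exact hfix a
    rcases sq_eq_sq_iff_eq_or_eq_neg.1 h6 with h7 | h7
    · exfalso
      apply hσV
      rw [← (finite_fixedField V hV).2.1, IntermediateField.mem_fixingSubgroup_iff]
      intro x hx
      obtain ⟨u, v, rfl⟩ := h5 x hx
      rw [map_add, map_mul, h7, hfix, hfix]
    · exact h7

/-- One step. -/
theorem step (h2 : (2 : F) ≠ 0) [Finite (SqClass F)] {V W : Subgroup (Ω ≃ₐ[F] Ω)}
    (hV : (galS F Ω).Op V) (hW : (galS F Ω).Op W) (l : V ≤ W) (r : V.relIndex W = 2) :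
    dd (galS F Ω) V + 1 ≤ 2 * dd (galS F Ω) W ∧
      ((∃ i : F, i ^ 2 = -1) → dd (galS F Ω) W ≤ dd (galS F Ω) V) := by
  have := (finite_fixedField V hV).1
  have := (finite_fixedField W hW).1
  have := finite_sqClass h2 (fixedField W)
  obtain ⟨a, α, h1, h3, h4, -⟩ := exists_gen' h2 hV hW l r
  obtain ⟨q, -⟩ := exists_q h2 (fixedField_le l) (finrank_step hV hW l r) a α h1 h3 h4
  have ha : sqClass a ≠ 1 := fun h => h4 ((one_iff a).1 h)
  have h5 := GoReal.finrank_ext (two_ne h2 (fixedField W)) q.toQE ha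
  rw [dd_eq h2 hV, dd_eq h2 hW]
  refine ⟨by omega, fun hi => ?_⟩
  obtain ⟨i, hi⟩ := hi
  have h6 : GoReal.ee (fixedField W) = 0 := by
    show (sqClass (-1 : (fixedField W)ˣ)) = 1
    rw [one_iff]
    refine ⟨algebraMap F _ i, ?_⟩
    rw [← map_pow, hi, map_neg, map_one]
    rfl
  have h7 := GoReal.sv_lt (two_ne h2 (fixedField W)) (x := ofMul (sqClass a))
    (by rw [h6]; exact ha)
  omega

/-- Induction along a chain. -/
theorem chain {U : Subgroup (Ω ≃ₐ[F] Ω)} (P : Subgroup (Ω ≃ₐ[F] Ω) → Prop) (h0 : P U)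
    (hs : ∀ V W : Subgroup (Ω ≃ₐ[F] Ω), (galS F Ω).Op V → (galS F Ω).Op W → V ≤ W → W ≤ U →
      V.relIndex W = 2 → P W → P V) {U' : Subgroup (Ω ≃ₐ[F] Ω)} (hU' : (galS F Ω).Op U')
    (h : U' ≤ U) : P U' := by
  have key : ∀ n : ℕ, ∀ U' : Subgroup (Ω ≃ₐ[F] Ω), (galS F Ω).Op U' → U' ≤ U →
      U'.relIndex U = n → P U' := by
    intro n
    induction n using Nat.strong_induction_on with
    | _ n ih =>
      intro U' hU' hle hn
      by_cases hne : U' = U
      · rw [hne]; exact h0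
      · obtain ⟨W, hUW, hWV, h2⟩ := exists_relIndex_two (galS F Ω) hU' hle hne
        have hmul := Subgroup.relIndex_mul_relIndex U' W U hUW hWV
        rw [h2, hn] at hmul
        have hn0 : n ≠ 0 := by
          obtain ⟨k, hk⟩ := (galS F Ω).idx U' hU'
          have h3 := Subgroup.relIndex_mul_index hle
          intro h0
          rw [hn, h0, zero_mul, hk] at h3
          exact absurd h3.symm (by positivity)
        have hW := (galS F Ω).up U' W hU' hUW
        exact hs U' W hU' hW hUW hWV h2 (ih _ (by omega) W hW hWV rfl)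
  exact key _ U' hU' h rfl

end BqAux

open BqAux IntermediateField Module Additive
open Pool.Agent.Hhelper2.QuadExt Pool.Agent.Hhelper2.Tower Pool.Agent.Hhelper2.FieldAx

variable {F Ω : Type u} [Field F] [Field Ω] [Algebra F Ω] [QC F Ω]

/-- The biquadratic relation. -/
theorem bq (h2 : (2 : F) ≠ 0) [Finite (SqClass F)] {U₀ U₁ U₂ U₃ : Subgroup (Ω ≃ₐ[F] Ω)}
    (h0 : (galS F Ω).Op U₀) (h1 : (galS F Ω).Op U₁) (h2' : (galS F Ω).Op U₂)
    (h3 : (galS F Ω).Op U₃) (l1 : U₁ ≤ U₀) (l2 : U₂ ≤ U₀) (l3 : U₃ ≤ U₀)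
    (r1 : U₁.relIndex U₀ = 2) (r2 : U₂.relIndex U₀ = 2) (r3 : U₃.relIndex U₀ = 2)
    (n12 : U₁ ≠ U₂) (n13 : U₁ ≠ U₃) (n23 : U₂ ≠ U₃) (l : U₁ ⊓ U₂ ≤ U₃) :
    dd (galS F Ω) (U₁ ⊓ U₂) + 2 * dd (galS F Ω) U₀ =
      dd (galS F Ω) U₁ + dd (galS F Ω) U₂ + dd (galS F Ω) U₃ := by
  have mul2 : ∀ {V : Subgroup (Ω ≃ₐ[F] Ω)}, V ≤ U₀ → V.relIndex U₀ = 2 →
      ∀ a ∈ U₀, ∀ b ∈ U₀, (a * b ∈ V ↔ (a ∈ V ↔ b ∈ V)) := by
    intro V lV rV a ha b hb
    have hidx : (V.subgroupOf U₀).index = 2 := rV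
    have := Subgroup.mul_mem_iff_of_index_two hidx (a := ⟨a, ha⟩) (b := ⟨b, hb⟩)
    simpa [Subgroup.mem_subgroupOf] using this
  have noteq : ∀ {V W : Subgroup (Ω ≃ₐ[F] Ω)}, V ≤ U₀ → W ≤ U₀ → V.relIndex U₀ = 2 →
      W.relIndex U₀ = 2 → V ≠ W → ¬ V ≤ W := by
    intro V W lV lW rV rW hne hle
    apply hne
    have h4 := Subgroup.relIndex_mul_relIndex V W U₀ hle lW
    rw [rV, rW] at h4
    have h5 : V.relIndex W = 1 := by omega
    exact le_antisymm hle (Subgroup.relIndex_eq_one.1 h5)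
  -- elements of `U₃` are in both or in none of `U₁`, `U₂`
  have m1 := mul2 l1 r1
  have m2 := mul2 l2 r2
  have e3 : ∀ σ ∈ U₃, (σ ∈ U₁ ↔ σ ∈ U₂) := by
    intro σ hσ
    constructor
    · intro hσ1
      by_contra hσ2
      apply noteq l1 l3 r1 r3 n13
      intro τ hτ
      by_cases hτ2 : τ ∈ U₂
      · exact l ⟨hτ, hτ2⟩
      · have h4 : τ * σ⁻¹ ∈ U₁ ⊓ U₂ := by
          refine ⟨U₁.mul_mem hτ (U₁.inv_mem hσ1), ?_⟩
          have hσ2' : σ⁻¹ ∉ U₂ := fun h => hσ2 (by simpa using U₂.inv_mem h)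
          exact (m2 _ (l1 hτ) _ (U₀.inv_mem (l1 hσ1))).2 (iff_of_false hτ2 hσ2')
        have h5 := U₃.mul_mem (l h4) hσ
        rwa [inv_mul_cancel_right] at h5
    · intro hσ2
      by_contra hσ1
      apply noteq l2 l3 r2 r3 n23
      intro τ hτ
      by_cases hτ1 : τ ∈ U₁
      · exact l ⟨hτ1, hτ⟩
      · have h4 : τ * σ⁻¹ ∈ U₁ ⊓ U₂ := by
          refine ⟨?_, U₂.mul_mem hτ (U₂.inv_mem hσ2)⟩
          have hσ1' : σ⁻¹ ∉ U₁ := fun h => hσ1 (by simpa using U₁.inv_mem h)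
          exact (m1 _ (l2 hτ) _ (U₀.inv_mem (l2 hσ2))).2 (iff_of_false hτ1 hσ1')
        have h5 := U₃.mul_mem (l h4) hσ
        rwa [inv_mul_cancel_right] at h5
  -- the square classes
  obtain ⟨a, α, a1, a3, a4, a5⟩ := exists_gen' h2 h1 h0 l1 r1
  obtain ⟨b, β, b1, b3, b4, b5⟩ := exists_gen' h2 h2' h0 l2 r2
  have hΩ : (2 : Ω) ≠ 0 := by
    intro h
    apply h2
    apply (algebraMap F Ω).injective
    rw [map_ofNat, h, map_zero]
  have hαβ3 : α * β ∈ fixedField U₃ := by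
    rw [mem_fixedField_iff]
    intro σ hσ
    have h4 := e3 σ hσ
    rw [map_mul]
    rcases a5 σ (l3 hσ) with ⟨p1, p2⟩ | ⟨p1, p2⟩ <;> rcases b5 σ (l3 hσ) with ⟨p3, p4⟩ | ⟨p3, p4⟩
    · rw [p2, p4]
    · exact absurd (h4.1 p1) p3
    · exact absurd (h4.2 p3) p1
    · rw [p2, p4, neg_mul_neg]
  have hα0 : α ≠ 0 := by
    rintro rfl
    apply a4
    exact ⟨0, Subtype.ext (by rw [← a3]; simp)⟩
  have hβ0 : β ≠ 0 := by
    rintro rfl
    apply b4
    exact ⟨0, Subtype.ext (by rw [← b3]; simp)⟩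
  have c3 : (α * β) ^ 2 = (((a * b : (fixedField U₀)ˣ) : fixedField U₀) : Ω) := by
    rw [mul_pow, a3, b3]
    rfl
  have c4 : ¬ ∃ t : fixedField U₀, ((a * b : (fixedField U₀)ˣ) : fixedField U₀) = t ^ 2 := by
    rintro ⟨t, ht⟩
    have h4 : (α * β) ^ 2 = (t : Ω) ^ 2 := by
      rw [c3, ht]
      rfl
    have h5 : ∀ σ ∈ U₀, σ (α * β) = α * β := by
      intro σ hσ
      have h6 : σ (t : Ω) = t := (mem_fixedField_iff U₀ _).1 t.2 σ hσ
      rcases sq_eq_sq_iff_eq_or_eq_neg.1 h4 with h7 | h7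
      · rw [h7, h6]
      · rw [h7, map_neg, h6]
    obtain ⟨σ, hσ1, hσ2⟩ := SetLike.not_le_iff_exists.1 (noteq l1 l2 r1 r2 n12)
    have h6 := h5 σ (l1 hσ1)
    rw [map_mul] at h6
    rcases a5 σ (l1 hσ1) with ⟨p1, p2⟩ | ⟨p1, p2⟩
    · rcases b5 σ (l1 hσ1) with ⟨p3, p4⟩ | ⟨p3, p4⟩
      · exact hσ2 p3
      · rw [p2, p4] at h6
        have h7 : 2 * (α * β) = 0 := by linear_combination -h6
        rcases mul_eq_zero.1 h7 with h8 | h8
        · exact hΩ h8
        · exact mul_ne_zero hα0 hβ0 h8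
    · exact p1 hσ1
  -- finiteness
  have f0 := (finite_fixedField U₀ h0).1
  have f1 := (finite_fixedField U₁ h1).1
  have f2 := (finite_fixedField U₂ h2').1
  have f3 := (finite_fixedField U₃ h3).1
  have h12 := (galS F Ω).inf _ _ h1 h2'
  have f4 := (finite_fixedField _ h12).1
  have s0 := finite_sqClass h2 (fixedField U₀)
  have s1 := finite_sqClass h2 (fixedField U₁)
  -- the relative index
  have r12 : (U₁ ⊓ U₂).relIndex U₁ = 2 := by
    rw [inf_comm, Subgroup.inf_relIndex_right]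
    obtain ⟨σ, hσ1, hσ2⟩ := SetLike.not_le_iff_exists.1 (noteq l1 l2 r1 r2 n12)
    rw [Subgroup.relIndex_eq_two_iff_exists_notMem_and]
    refine ⟨σ, hσ1, hσ2, fun τ hτ => ?_⟩
    by_cases hτ2 : τ ∈ U₂
    · exact Or.inr hτ2
    · exact Or.inl ((m2 _ (l1 hτ) _ (l1 hσ1)).2 (iff_of_false hτ2 hσ2))
  -- the quadratic extensions
  obtain ⟨q₁, t₁⟩ := exists_q h2 (fixedField_le l1) (finrank_step h1 h0 l1 r1) a α a1 a3 a4
  obtain ⟨q₂, -⟩ := exists_q h2 (fixedField_le l2) (finrank_step h2' h0 l2 r2) b β b1 b3 b4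
  obtain ⟨q₃, -⟩ := exists_q h2 (fixedField_le l3) (finrank_step h3 h0 l3 r3) (a * b) (α * β)
    hαβ3 c3 c4
  have na : sqClass a ≠ 1 := fun h => a4 ((one_iff a).1 h)
  have nb : sqClass b ≠ 1 := fun h => b4 ((one_iff b).1 h)
  have nc : sqClass (a * b) ≠ 1 := fun h => c4 ((one_iff (a * b)).1 h)
  have nbb : sqClass (um (fixedField_le l1) b) ≠ 1 := by
    rw [← t₁]
    intro h
    rcases (q₁.res_one _).1 h with h4 | h4
    · exact nb h4
    · apply nc
      show sqClass a * sqClass b = 1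
      rw [h4, ← QuotientGroup.mk_mul, one_iff]
      exact ⟨a, by rw [Units.val_mul, sq]⟩
  obtain ⟨p, -⟩ := exists_q h2 (fixedField_le (inf_le_left : U₁ ⊓ U₂ ≤ U₁))
    (finrank_step h12 h1 inf_le_left r12) (um (fixedField_le l1) b) β
    (fixedField_le inf_le_right b1) b3 (fun h => nbb ((one_iff _).2 h))
  have g0 := two_ne h2 (fixedField U₀)
  have g1 := two_ne h2 (fixedField U₁)
  have k1 := GoReal.finrank_ext g0 q₁.toQE na
  have k2 := GoReal.finrank_ext g0 q₂.toQE nb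
  have k3 := GoReal.finrank_ext g0 q₃.toQE nc
  have k4 := GoReal.finrank_ext g1 p.toQE nbb
  have k5 := sv_step g0 q₁.toQE (ofMul (sqClass b))
  have e1 : (ofMul (sqClass b) : VV (fixedField U₀)) + ofMul (sqClass a) =
      ofMul (sqClass (a * b)) := by
    show sqClass b * sqClass a = sqClass a * sqClass b
    exact mul_comm _ _
  have e2 : lin q₁.toQE.res (ofMul (sqClass b)) = ofMul (sqClass (um (fixedField_le l1) b)) :=
    t₁ b
  rw [e1, e2] at k5
  rw [dd_eq h2 h12, dd_eq h2 h0, dd_eq h2 h1, dd_eq h2 h2', dd_eq h2 h3]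
  omega

theorem dd_mono (h2 : (2 : F) ≠ 0) [Finite (SqClass F)] (hi : ∃ i : F, i ^ 2 = -1)
    {U U' : Subgroup (Ω ≃ₐ[F] Ω)} (hU : (galS F Ω).Op U) (hU' : (galS F Ω).Op U') (h : U' ≤ U) :
    dd (galS F Ω) U ≤ dd (galS F Ω) U' := by
  have _ := hU
  refine chain (fun V => dd (galS F Ω) U ≤ dd (galS F Ω) V) le_rfl ?_ hU' h
  intro V W hV hW l _ r ih
  exact ih.trans ((step h2 hV hW l r).2 hi)

/-- `d(U') - 1 ≤ [U : U'] (d(U) - 1)`. -/
theorem dd_sub (h2 : (2 : F) ≠ 0) [Finite (SqClass F)]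
    {U U' : Subgroup (Ω ≃ₐ[F] Ω)} (hU : (galS F Ω).Op U) (hU' : (galS F Ω).Op U') (h : U' ≤ U) :
    dd (galS F Ω) U' + U'.relIndex U ≤ U'.relIndex U * dd (galS F Ω) U + 1 := by
  have _ := hU
  refine chain (fun V => dd (galS F Ω) V + V.relIndex U ≤ V.relIndex U * dd (galS F Ω) U + 1)
    ?_ ?_ hU' h
  · rw [Subgroup.relIndex_self]
    omega
  · intro V W hV hW l l' r ih
    have h1 := (step h2 hV hW l r).1
    have h3 := Subgroup.relIndex_mul_relIndex V W U l l'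
    rw [← h3, r]
    have h4 : 2 * W.relIndex U * dd (galS F Ω) U = 2 * (W.relIndex U * dd (galS F Ω) U) := by ring
    rw [h4]
    omega

end Pool.Agent.EP
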