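import Pool.Agent.EP.Kum

/-!
# Exact pairs: topological generators of the Galois group (MP_2429c0)
-/

universe u

namespace Pool.Agent.EP

open Pool.Agent.Hhelper2 Pool.Agent.KRad

namespace TGalAux

theorem exists_index_two {G : Type u} [Group G] (S : OSys G) : ∀ n : ℕ, ∀ H : Subgroup G,
    H.index = n → S.Op H → H ≠ ⊤ → ∃ M : Subgroup G, H ≤ M ∧ M.index = 2 ∧ S.Op M := by
  intro n
  induction n using Nat.strong_induction_on with
  | _ n ih =>
    intro H hn hH hne
    obtain ⟨W, hHW, -, h2⟩ := exists_relIndex_two S hH le_top hne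
    have hW : S.Op W := S.up H W hH hHW
    have hmul := Subgroup.relIndex_mul_index hHW
    rw [h2] at hmul
    by_cases hWt : W = ⊤
    · refine ⟨H, le_rfl, ?_, hH⟩
      rw [← hmul, hWt, Subgroup.index_top]
    · obtain ⟨m, hm⟩ := S.idx H hH
      have hpos : 0 < H.index := by rw [hm]; positivity
      obtain ⟨M, h3, h4, h5⟩ := ih W.index (by omega) W rfl hW hWt
      exact ⟨M, hHW.trans h3, h4, h5⟩

variable {F Ω : Type u} [Field F] [Field Ω] [Algebra F Ω]

/-- an element which is multiplied by `-1`. -/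
theorem exists_neg {U : Subgroup (Ω ≃ₐ[F] Ω)}
    (hfix : (IntermediateField.fixedField U).fixingSubgroup = U) {τ : Ω ≃ₐ[F] Ω} (hτ : τ ∉ U)
    (hττ : τ * τ ∈ U) (hn : ∀ u ∈ U, τ⁻¹ * u * τ ∈ U) :
    ∃ x ∈ IntermediateField.fixedField U, x ≠ 0 ∧ τ x = -x := by
  have h1 : τ ∉ (IntermediateField.fixedField U).fixingSubgroup := by rwa [hfix]
  rw [IntermediateField.mem_fixingSubgroup_iff] at h1
  push Not at h1
  obtain ⟨y, hy, hτy⟩ := h1
  have hy' : ∀ u ∈ U, u y = y := by
    rw [IntermediateField.mem_fixedField_iff] at hy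
    exact hy
  have hττy : τ (τ y) = y := hy' _ hττ
  refine ⟨y - τ y, ?_, ?_, ?_⟩
  · rw [IntermediateField.mem_fixedField_iff]
    intro u hu
    have h3 : (τ⁻¹ * u * τ) y = y := hy' _ (hn u hu)
    have h4 : u (τ y) = τ y := by
      have h5 : τ ((τ⁻¹ * u * τ) y) = u (τ y) := by
        change (τ * (τ⁻¹ * u * τ)) y = (u * τ) y
        congr 1
        group
      rw [← h5, h3]
    rw [map_sub, hy' u hu, h4]
  · intro h
    exact hτy (sub_eq_zero.1 h).symm
  · rw [map_sub, hττy]
    ring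

theorem two_ne (h2 : (2 : F) ≠ 0) : (2 : Ω) ≠ 0 := by
  intro h
  apply h2
  apply (algebraMap F Ω).injective
  rw [map_ofNat, map_zero]
  exact h

theorem neg_ne (h2 : (2 : F) ≠ 0) {x : Ω} (hx : x ≠ 0) : -x ≠ x := by
  intro h
  have : 2 * x = 0 := by linear_combination -h
  rcases mul_eq_zero.1 this with h3 | h3
  · exact two_ne h2 h3
  · exact hx h3

end TGalAux

open TGalAux

variable {F Ω : Type u} [Field F] [Field Ω] [Algebra F Ω] [QC F Ω]

/-- Topological generators: a basis of the dual of `V_F` (`U` normal with `closure (range g) ⊔ U ≠ ⊤` is contained in a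
subgroup of index two, as the quotient is a 2-group). -/
theorem exists_tgen (h2 : (2 : F) ≠ 0) [Finite (SqClass F)] :
    ∃ (D : ℕ) (g : Fin D → (Ω ≃ₐ[F] Ω)), TGen (galS F Ω) g := by
  classical
  choose rt hrt using (QC.sq (F := F) (Ω := Ω))
  -- representatives of the square classes, their roots, and automorphisms that move them
  let rep : SqClass F → Fˣ := fun c => Quotient.out c
  have hrep : ∀ c : SqClass F, (QuotientGroup.mk (rep c) : SqClass F) = c := fun c =>
    QuotientGroup.out_eq' c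
  let r : SqClass F → Ω := fun c => rt (algebraMap F Ω (rep c))
  have hr : ∀ c, r c ^ 2 = algebraMap F Ω (rep c) := fun c => hrt _
  let s : SqClass F → (Ω ≃ₐ[F] Ω) := fun c =>
    if h : ∃ σ : Ω ≃ₐ[F] Ω, σ (r c) ≠ r c then h.choose else 1
  have hs : ∀ c, (∃ σ : Ω ≃ₐ[F] Ω, σ (r c) ≠ r c) → s c (r c) ≠ r c := by
    intro c h
    have : s c = h.choose := dif_pos h
    rw [this]
    exact h.choose_spec
  let e := Finite.equivFin (SqClass F)
  refine ⟨Nat.card (SqClass F), fun j => s (e.symm j), ?_⟩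
  intro U hU hUn
  by_contra hne
  set H := Subgroup.closure (Set.range fun j => s (e.symm j)) ⊔ U with hH
  have hHop : (galS F Ω).Op H := (galS F Ω).up U H hU le_sup_right
  obtain ⟨M, hHM, hM2, hMop⟩ := exists_index_two (galS F Ω) _ H rfl hHop hne
  obtain ⟨hfin, hfix, hrk⟩ := finite_fixedField M hMop
  have hMne : M ≠ ⊤ := by
    rintro rfl
    rw [Subgroup.index_top] at hM2
    omega
  obtain ⟨τ, hτ⟩ : ∃ τ, τ ∉ M := by
    by_contra hcon
    push Not at hcon
    exact hMne ((Subgroup.eq_top_iff' M).2 hcon)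
  have hMn := Subgroup.normal_of_index_eq_two hM2
  obtain ⟨x, hxK, hx0, hτx⟩ := exists_neg hfix hτ (Subgroup.mul_self_mem_of_index_two hM2 τ)
    (fun u hu => by
      have := hMn.conj_mem u hu τ⁻¹
      rwa [inv_inv] at this)
  have hxM : ∀ u ∈ M, u x = x := by
    rw [IntermediateField.mem_fixedField_iff] at hxK
    exact hxK
  -- `x ^ 2` lies in `F`
  have hxF : x ^ 2 ∈ Set.range (algebraMap F Ω) := by
    rw [InfiniteGalois.mem_range_algebraMap_iff_fixed]
    intro σ
    by_cases hσ : σ ∈ M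
    · rw [map_pow, hxM σ hσ]
    · have h3 : τ⁻¹ * σ ∈ M := by
        rw [Subgroup.mul_mem_iff_of_index_two hM2, inv_mem_iff]
        exact ⟨fun h => absurd h hτ, fun h => absurd h hσ⟩
      have h4 : (τ⁻¹ * σ) x = x := hxM _ h3
      have h5 : σ x = -x := by
        have h6 : τ ((τ⁻¹ * σ) x) = σ x := by
          change (τ * (τ⁻¹ * σ)) x = σ x
          rw [mul_inv_cancel_left]
        rw [← h6, h4, hτx]
      rw [map_pow, h5]
      ring
  obtain ⟨a, ha⟩ := hxF
  have ha0 : a ≠ 0 := by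
    rintro rfl
    rw [map_zero] at ha
    exact hx0 (pow_eq_zero_iff (two_ne_zero)|>.1 ha.symm)
  set c : SqClass F := QuotientGroup.mk (Units.mk0 a ha0) with hc
  have h3 : (QuotientGroup.mk (rep c) : SqClass F) = QuotientGroup.mk (Units.mk0 a ha0) := hrep c
  rw [QuotientGroup.eq] at h3
  obtain ⟨t, ht⟩ := h3
  -- `a = rep c * t ^ 2`
  have h4 : a = (rep c : F) * (t : F) ^ 2 := by
    have h5 : (Units.mk0 a ha0) = rep c * (t * t) := by
      rw [← ht, mul_inv_cancel_left]
    have h6 := congrArg Units.val h5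
    simp only [Units.val_mk0, Units.val_mul] at h6
    rw [h6]
    ring
  have h5 : x ^ 2 = (algebraMap F Ω t * r c) ^ 2 := by
    rw [← ha, h4, map_mul, map_pow, mul_pow, hr]
    ring
  have ht0 : algebraMap F Ω (t : F) ≠ 0 := by
    rw [Ne, map_eq_zero]
    exact t.ne_zero
  -- an automorphism that fixes `r c` fixes `x`, and conversely
  have h6 : ∀ σ : Ω ≃ₐ[F] Ω, σ (r c) = r c ↔ σ x = x := by
    intro σ
    rcases sq_eq_sq_iff_eq_or_eq_neg.1 h5 with h7 | h7
    · rw [h7, map_mul, AlgEquiv.commutes]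
      exact ⟨fun h => by rw [h], fun h => mul_left_cancel₀ ht0 h⟩
    · rw [h7, map_neg, map_mul, AlgEquiv.commutes, neg_inj]
      exact ⟨fun h => by rw [h], fun h => mul_left_cancel₀ ht0 h⟩
  have h7 : ∃ σ : Ω ≃ₐ[F] Ω, σ (r c) ≠ r c := by
    refine ⟨τ, fun h => ?_⟩
    rw [h6, hτx] at h
    exact neg_ne h2 hx0 h
  apply hs c h7
  rw [h6]
  apply hxM
  apply hHM
  apply (le_sup_left : _ ≤ H)
  apply Subgroup.subset_closure
  exact ⟨e c, by simp only [Equiv.symm_apply_apply]⟩

theorem one_le_dd (h2 : (2 : F) ≠ 0) [Finite (SqClass F)] (hi : ∃ i : F, i ^ 2 = -1)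
    (h1 : ∃ a : SqClass F, a ≠ 1) {U : Subgroup (Ω ≃ₐ[F] Ω)} (hU : (galS F Ω).Op U) :
    1 ≤ dd (galS F Ω) U := by
  obtain ⟨hfin, hfix, hrk⟩ := finite_fixedField U hU
  rw [dd_eq h2 hU]
  set K := IntermediateField.fixedField U with hK
  have hfinK := finite_sqClass h2 K
  have : Finite (VV K) := hfinK
  have : Module.Finite (ZMod 2) (VV K) := Module.Finite.of_finite
  have : Fact (Nat.Prime 2) := ⟨Nat.prime_two⟩
  -- it suffices to find an element of `K` which is not a square in `K`
  suffices h : ∃ x : Ω, x ∈ K ∧ x ≠ 0 ∧ ∀ z ∈ K, z ^ 2 ≠ x by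
    obtain ⟨x, hxK, hx0, hx⟩ := h
    have hx0' : (⟨x, hxK⟩ : K) ≠ 0 := by
      intro h
      exact hx0 (congrArg Subtype.val h)
    have hne : (QuotientGroup.mk (Units.mk0 (⟨x, hxK⟩ : K) hx0') : SqClass K) ≠ 1 := by
      intro h
      rw [QuotientGroup.eq_one_iff] at h
      obtain ⟨t, ht⟩ := h
      apply hx (t : K) (t : K).2
      have h3 := congrArg (fun y : Kˣ => ((y : K) : Ω)) ht
      simp only [Units.val_mk0, Units.val_mul] at h3
      rw [pow_two]
      exact h3.symm
    have : Nontrivial (VV K) := ⟨⟨Additive.ofMul (QuotientGroup.mk (Units.mk0 (⟨x, hxK⟩ : K) hx0')), 0,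
      fun h => hne h⟩⟩
    exact Module.finrank_pos
  by_cases hUt : U = ⊤
  · obtain ⟨a, ha⟩ := h1
    induction a using QuotientGroup.induction_on with
    | H u =>
      refine ⟨algebraMap F Ω u, K.algebraMap_mem u, ?_, ?_⟩
      · rw [Ne, map_eq_zero]
        exact u.ne_zero
      · intro z hz hzu
        have h3 : z ∈ Set.range (algebraMap F Ω) := by
          rw [InfiniteGalois.mem_range_algebraMap_iff_fixed]
          intro σ
          rw [hK, IntermediateField.mem_fixedField_iff] at hz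
          exact hz σ (by rw [hUt]; trivial)
        obtain ⟨y, rfl⟩ := h3
        rw [← map_pow] at hzu
        have h4 : y ^ 2 = u := (algebraMap F Ω).injective hzu
        have hy0 : y ≠ 0 := by
          rintro rfl
          rw [zero_pow two_ne_zero] at h4
          exact u.ne_zero h4.symm
        apply ha
        rw [QuotientGroup.eq_one_iff]
        refine ⟨Units.mk0 y hy0, ?_⟩
        ext
        rw [← h4]
        simp [pow_two]
  · obtain ⟨W, hUW, -, h3⟩ := exists_relIndex_two (galS F Ω) hU le_top hUt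
    have hidx : (U.subgroupOf W).index = 2 := h3
    have hne : ¬ W ≤ U := by
      intro h
      have : U = W := le_antisymm hUW h
      rw [this, Subgroup.relIndex_self] at h3
      omega
    obtain ⟨τ, hτW, hτU⟩ := SetLike.not_le_iff_exists.1 hne
    have hn := Subgroup.normal_of_index_eq_two hidx
    have hττ : τ * τ ∈ U := Subgroup.mul_self_mem_of_index_two hidx ⟨τ, hτW⟩
    have hconj : ∀ u ∈ U, τ⁻¹ * u * τ ∈ U := by
      intro u hu
      have h4 := hn.conj_mem ⟨u, hUW hu⟩ hu ⟨τ, hτW⟩⁻¹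
      rw [inv_inv] at h4
      exact h4
    obtain ⟨x, hxK, hx0, hτx⟩ := exists_neg hfix hτU hττ hconj
    refine ⟨x, hxK, hx0, fun z hz hzx => ?_⟩
    obtain ⟨i, hi⟩ := hi
    have hz' : ∀ u ∈ U, u z = z := by
      rw [hK, IntermediateField.mem_fixedField_iff] at hz
      exact hz
    have hττz : τ (τ z) = z := hz' _ hττ
    set N : Ω := algebraMap F Ω i * (z * τ z) with hN
    have hNτ : τ N = N := by
      rw [hN, map_mul, map_mul, AlgEquiv.commutes, hττz]
      ring
    have hN2 : N ^ 2 = x ^ 2 := by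
      rw [hN, mul_pow, mul_pow, ← map_pow, ← map_pow, hi, hzx, hτx, map_neg, map_one]
      ring
    apply neg_ne h2 hx0
    rw [← hτx]
    rcases sq_eq_sq_iff_eq_or_eq_neg.1 hN2 with h5 | h5
    · rw [← h5, hNτ]
    · have h6 : x = -N := by rw [h5, neg_neg]
      rw [h6, map_neg, hNτ]

end Pool.Agent.EP
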