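import Pool.Agent.EP.Z

/-!
# Exact pairs: the rank gradient at `Q` is an integer (MP_2429c0, sections 1, 2)

`hT.rank` for `⊥ ≤ ZZ S g Q ≤ CC S Q D` gives `rk S Q ⊥ (ZZ S g Q) = n` with `n : ℕ`.  For an open `U ≥ Q` (not necessarily
normal: `rk_le_of_open` of `Mono`) `inv_ZZ`, `ln_ZZ` give `ln ⊥ (inv ⊥ (ZZ S g Q) U) + 1 = dd S U + U.index`, so
`n * U.index ≤ dd S U + U.index - 1`.  `n ≥ 1`: otherwise some open normal `U` has `ratio < 1`, but
`dd S U + U.index - 1 ≥ U.index`.  Put `r = n - 1`.  The second part of `IsRk` is the infimum property of `rk`.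
-/

open scoped ENNReal

universe u

namespace Pool.Agent.EP

variable {G : Type u} [Group G] {D : ℕ}

/-- `r` is the rank gradient at `Q`: the infimum of `(d(U) - 1) / [G : U]` over open `U ≥ Q`. -/
def IsRk (S : OSys G) (Q : Subgroup G) (r : ℕ) : Prop :=
  (∀ U : Subgroup G, S.Op U → Q ≤ U → r * U.index + 1 ≤ dd S U) ∧
  ∀ ε : ℝ, 0 < ε → ∃ U : Subgroup G, S.Op U ∧ U.Normal ∧ Q ≤ U ∧
    (dd S U : ℝ) ≤ 1 + (r + ε) * U.index

theorem ratio_ZZ (S : OSys G) {g : Fin D → G} (hg : TGen S g) {Q U : Subgroup G} (hU : S.Op U)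
    (h : Q ≤ U) : ∃ L : ℕ, L + 1 = dd S U + U.index ∧
      ratio ⊥ (ZZ S g Q) U = (L : ℝ≥0∞) / (U.index : ℝ≥0∞) := by
  have := finite_ZZ S g hU
  refine ⟨Module.finrank (ZMod 2) (ZZ S g U), finrank_ZZ S hg hU, ?_⟩
  rw [ratio, inv_ZZ S hg hU h, ln_bot, ENat.toENNReal_coe]

/-- The rank gradient at `Q` exists and is an integer, if the integrality theorem holds for `Q`
(`hQ.rank` for `⊥ ≤ ZZ S g Q`; `rk + ... = inf (d(U) - 1 + [G : U]) / [G : U]`). -/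
theorem exists_isRk (S : OSys G) {g : Fin D → G} (hg : TGen S g) {Q : Subgroup G} (hQ : Q.Normal)
    (hT : TT S Q) (hd : ∀ U, S.Op U → 1 ≤ dd S U) :
    ∃ r : ℕ, IsRk S Q r ∧ rk S Q ⊥ (ZZ S g Q) = ((r + 1 : ℕ) : ℝ≥0∞) := by
  obtain ⟨n, n', -, -, -, hrk, -⟩ := hT.rank D ⊥ (ZZ S g Q) stable_bot (stable_ZZ S g Q hQ) bot_le
    (ZZ_le S g Q)
  have hidx : ∀ U, S.Op U → 0 < U.index := by
    intro U hU
    obtain ⟨m, hm⟩ := S.idx U hU
    rw [hm]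
    positivity
  have hidx' : ∀ U, S.Op U → (U.index : ℝ≥0∞) ≠ 0 := by
    intro U hU
    exact_mod_cast (hidx U hU).ne'
  have hle : ∀ U : Subgroup G, S.Op U → Q ≤ U → n' * U.index + 1 ≤ dd S U + U.index := by
    intro U hU hQU
    obtain ⟨L, hL, hr⟩ := ratio_ZZ S hg hU hQU
    have h1 := rk_le_of_open S hQ stable_bot (stable_ZZ S g Q hQ) bot_le hU hQU
    rw [hrk, hr, ENNReal.le_div_iff_mul_le (Or.inl (hidx' U hU))
      (Or.inl (ENNReal.natCast_ne_top _))] at h1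
    have h2 : n' * U.index ≤ L := by exact_mod_cast h1
    omega
  have hpos : 1 ≤ n' := by
    by_contra hcon
    have h0 : n' = 0 := by omega
    rw [h0, Nat.cast_zero] at hrk
    have h1 : rk S Q ⊥ (ZZ S g Q) < 1 := by rw [hrk]; exact zero_lt_one
    obtain ⟨U, hU⟩ := iInf_lt_iff.1 h1
    obtain ⟨L, hL, hr⟩ := ratio_ZZ S hg U.2.1 U.2.2.2
    rw [hr, ENNReal.div_lt_iff (Or.inl (hidx' _ U.2.1)) (Or.inl (ENNReal.natCast_ne_top _)),
      one_mul] at hU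
    have h2 : L < U.1.index := by exact_mod_cast hU
    have h3 := hd U.1 U.2.1
    omega
  obtain ⟨r, rfl⟩ : ∃ r, n' = r + 1 := ⟨n' - 1, by omega⟩
  refine ⟨r, ⟨fun U hU hQU => ?_, fun ε hε => ?_⟩, hrk⟩
  · have h1 := hle U hU hQU
    rw [add_mul, one_mul] at h1
    omega
  · have h1 : rk S Q ⊥ (ZZ S g Q) < ENNReal.ofReal ((r + 1 : ℕ) + ε) := by
      rw [hrk, ENNReal.ofReal_add (Nat.cast_nonneg _) hε.le, ENNReal.ofReal_natCast]
      exact ENNReal.lt_add_right (ENNReal.natCast_ne_top _)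
        (by rw [ne_eq, ENNReal.ofReal_eq_zero, not_le]; exact hε)
    obtain ⟨U, hU⟩ := iInf_lt_iff.1 h1
    obtain ⟨L, hL, hr⟩ := ratio_ZZ S hg U.2.1 U.2.2.2
    refine ⟨U.1, U.2.1, U.2.2.1, U.2.2.2, ?_⟩
    rw [hr, ENNReal.div_lt_iff (Or.inl (hidx' _ U.2.1)) (Or.inl (ENNReal.natCast_ne_top _))] at hU
    have h3 : (0 : ℝ) ≤ (r + 1 : ℕ) + ε := add_nonneg (Nat.cast_nonneg _) hε.le
    rw [← ENNReal.ofReal_natCast L, ← ENNReal.ofReal_natCast U.1.index,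
      ← ENNReal.ofReal_mul h3, ENNReal.ofReal_lt_ofReal_iff_of_nonneg (Nat.cast_nonneg _)] at hU
    have h4 : (L : ℝ) + 1 = dd S U.1 + U.1.index := by exact_mod_cast hL
    push_cast at hU
    nlinarith

end Pool.Agent.EP
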