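import Pool.Agent.EP.NN
import Pool.Agent.EP.ZRk
import Pool.Agent.EP.Bq
import Pool.Agent.EP.TGal

/-!
# Exact pairs: a base field at which the Kummer tower realises the rank gradient (MP_2429c0, end of section 3)

For finite Galois `L / F` let `r L` be the integer of `exists_isRk` for `NN L` (`TT_NN`, `exists_tgen`).  Choose `L` with `r L`
least.  For every open `U` of `Gal(Ω / F)`: `r L * U.index + 1 ≤ dd U`: let `L'` be finite Galois with
`L'.fixingSubgroup ≤ U` and `L ≤ L'`; then `NN L' ≤ L'.fixingSubgroup ≤ U`, so `r L' * U.index + 1 ≤ dd U`, and `r L ≤ r L'`.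
Put `K = L`, `k = r L * [L : F]`.  Transfer to `Gal(Ω / K)`: open subgroups `U'` of `Gal(Ω / K)` correspond to open subgroups `U` of
`Gal(Ω / F)` contained in `K.fixingSubgroup`, `U.index = [K : F] * U'.index`, the fixed fields agree, so the `dd` agree
(`dd_eq`, `dd_congr`).  `NN ⊥` over `K` corresponds to `NN K` over `F`.  For the second part of `IsRk`: given `ε`, take `U` open
normal, `NN K ≤ U`, `dd U ≤ 1 + (r + ε) U.index`; then `U ⊓ K.fixingSubgroup` has `dd ≤ 1 + (r + ε) index` by `dd_sub`.
-/

universe u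

namespace Pool.Agent.EP

open Pool.Agent.Hhelper2

variable {F Ω : Type u} [Field F] [Field Ω] [Algebra F Ω] [QC F Ω]

/-- `d` of the fixing group of a finite subextension. -/
theorem dd_fix (h2 : (2 : F) ≠ 0) [Finite (SqClass F)] (M : IntermediateField F Ω)
    [FiniteDimensional F M] : dd (galS F Ω) M.fixingSubgroup = GoReal.dd M := by
  have hop : (galS F Ω).Op M.fixingSubgroup := IntermediateField.fixingSubgroup_isOpen M
  have h := dd_eq (Ω := Ω) h2 hop
  rw [InfiniteGalois.fixedField_fixingSubgroup] at h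
  exact h

/-- Transfer between `F` and a finite subextension `K`. -/
theorem base_transfer (h2 : (2 : F) ≠ 0) [Finite (SqClass F)] (K : IntermediateField F Ω)
    [FiniteDimensional F K] [QC K Ω] (M : IntermediateField K Ω) [FiniteDimensional K M] :
    (galS F Ω).Op (M.restrictScalars F).fixingSubgroup ∧
    (galS K Ω).Op M.fixingSubgroup ∧
    (M.restrictScalars F).fixingSubgroup.index = Module.finrank F K * M.fixingSubgroup.index ∧
    dd (galS F Ω) (M.restrictScalars F).fixingSubgroup = dd (galS K Ω) M.fixingSubgroup := by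
  have h2K : (2 : K) ≠ 0 := by
    intro h
    apply h2
    have h1 : algebraMap F K 2 = 0 := by rw [map_ofNat]; exact h
    exact (map_eq_zero _).1 h1
  have hfin : Finite (SqClass K) := finite_sqClass h2 K
  have hM : FiniteDimensional F (M.restrictScalars F) :=
    FiniteDimensional.trans F K M
  have h1 : Module.finrank F (M.restrictScalars F) = Module.finrank F K * Module.finrank K M :=
    (Module.finrank_mul_finrank F K M).symm
  refine ⟨IntermediateField.fixingSubgroup_isOpen _, IntermediateField.fixingSubgroup_isOpen _,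
    ?_, ?_⟩
  · rw [index_fixingSubgroup, index_fixingSubgroup, h1]
  · rw [dd_fix h2, dd_fix h2K]
    let e : (M.restrictScalars F) ≃+* M :=
      { toFun := fun x => ⟨x.1, x.2⟩
        invFun := fun x => ⟨x.1, x.2⟩
        left_inv := fun _ => rfl
        right_inv := fun _ => rfl
        map_mul' := fun _ _ => rfl
        map_add' := fun _ _ => rfl }
    exact dd_congr e

/-- The restriction of scalars on Galois groups. -/
noncomputable def baseJ (K : IntermediateField F Ω) : (Ω ≃ₐ[K] Ω) →* (Ω ≃ₐ[F] Ω) where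
  toFun σ := σ.restrictScalars F
  map_one' := rfl
  map_mul' _ _ := rfl

theorem baseJ_apply (K : IntermediateField F Ω) (σ : Ω ≃ₐ[K] Ω) (x : Ω) :
    baseJ K σ x = σ x := rfl

theorem exists_base (h2 : (2 : F) ≠ 0) [Finite (SqClass F)] (hi : ∃ i : F, i ^ 2 = -1)
    (h1 : ∃ a : SqClass F, a ≠ 1) :
    ∃ (K : IntermediateField F Ω) (_ : FiniteDimensional F K) (_ : QC K Ω) (k : ℕ),
      (∀ U, (galS K Ω).Op U → k * U.index + 1 ≤ dd (galS K Ω) U) ∧
      IsRk (galS K Ω) (NN (⊥ : IntermediateField K Ω)) k := by
  classical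
  obtain ⟨D, g, hg⟩ := exists_tgen (Ω := Ω) h2
  have hdd : ∀ U, (galS F Ω).Op U → 1 ≤ dd (galS F Ω) U := fun U hU => one_le_dd h2 hi h1 hU
  -- the integers attached to the finite Galois extensions
  have hex : ∀ L : IntermediateField F Ω, FiniteDimensional F L → IsGalois F L →
      ∃ r : ℕ, IsRk (galS F Ω) (NN L) r := by
    intro L _ _
    obtain ⟨r, hr, -⟩ := exists_isRk (galS F Ω) hg (normal_NN L) (TT_NN h2 hi L) hdd
    exact ⟨r, hr⟩
  have hP : ∃ r : ℕ, ∃ L : IntermediateField F Ω, FiniteDimensional F L ∧ IsGalois F L ∧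
      IsRk (galS F Ω) (NN L) r := by
    obtain ⟨r, hr⟩ := hex ⊥ inferInstance inferInstance
    exact ⟨r, ⊥, inferInstance, inferInstance, hr⟩
  obtain ⟨K, hKf, hKg, hKr⟩ := Nat.find_spec hP
  have hmin : ∀ r, (∃ L : IntermediateField F Ω, FiniteDimensional F L ∧ IsGalois F L ∧
      IsRk (galS F Ω) (NN L) r) → Nat.find hP ≤ r := fun r hr => Nat.find_min' hP hr
  set r₀ := Nat.find hP with hr₀
  -- the lower bound over `F`
  have hlow : ∀ U, (galS F Ω).Op U → r₀ * U.index + 1 ≤ dd (galS F Ω) U := by
    intro U hU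
    obtain ⟨hf, hfix, -⟩ := finite_fixedField U hU
    set E := IntermediateField.fixedField U with hE
    let L' : IntermediateField F Ω := IntermediateField.normalClosure F E Ω
    have hL'f : FiniteDimensional F L' := normalClosure.is_finiteDimensional F E Ω
    have hL'g : IsGalois F L' := IsGalois.normalClosure F E Ω
    obtain ⟨r', hr'⟩ := hex L' hL'f hL'g
    have hle : r₀ ≤ r' := hmin r' ⟨L', hL'f, hL'g, hr'⟩
    have hNU : NN L' ≤ U := by
      refine (NN_le L').trans ?_
      rw [← hfix]
      exact IntermediateField.fixingSubgroup_antitone (IntermediateField.le_normalClosure E)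
    have h3 := hr'.1 U hU hNU
    have h4 : r₀ * U.index ≤ r' * U.index := Nat.mul_le_mul_right _ hle
    omega
  have hQC : QC K Ω := QC.up F Ω K
  have h2K : (2 : K) ≠ 0 := by
    intro h
    apply h2
    have h1 : algebraMap F K 2 = 0 := by rw [map_ofNat]; exact h
    exact (map_eq_zero _).1 h1
  have hfinK : Finite (SqClass K) := finite_sqClass h2 K
  have hlowK : ∀ U, (galS K Ω).Op U →
      r₀ * Module.finrank F K * U.index + 1 ≤ dd (galS K Ω) U := by
    intro U hU
    obtain ⟨hf, hfix, -⟩ := finite_fixedField U hU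
    obtain ⟨t1, t2, t3, t4⟩ := base_transfer h2 K (IntermediateField.fixedField U)
    rw [hfix] at t3 t4
    rw [← t4, mul_assoc, ← t3]
    exact hlow _ t1
  refine ⟨K, hKf, hQC, r₀ * Module.finrank F K, hlowK, fun U hU _ => hlowK U hU, ?_⟩
  intro ε hε
  have hn : 0 < Module.finrank F K := Module.finrank_pos
  obtain ⟨U, hU, hUn, hNU, hUd⟩ := hKr.2 (ε / Module.finrank F K)
    (div_pos hε (by exact_mod_cast hn))
  set V : Subgroup (Ω ≃ₐ[F] Ω) := U ⊓ K.fixingSubgroup with hV
  have hKo : (galS F Ω).Op K.fixingSubgroup := IntermediateField.fixingSubgroup_isOpen K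
  have hVo : (galS F Ω).Op V := (galS F Ω).inf _ _ hU hKo
  have hKn : K.fixingSubgroup.Normal := inferInstance
  have hVn : V.Normal := by
    rw [hV]
    infer_instance
  obtain ⟨hMf, hMfix, hMidx⟩ := finite_fixedField V hVo
  set M₀ : IntermediateField F Ω := IntermediateField.fixedField V with hM₀
  have hKM : K ≤ M₀ := by
    rw [hM₀, IntermediateField.le_iff_le]
    exact inf_le_right
  -- the same field over `K`
  let M : IntermediateField K Ω := IntermediateField.extendScalars hKM
  have hMr : M.restrictScalars F = M₀ := IntermediateField.extendScalars_restrictScalars hKM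
  have hMfin : FiniteDimensional K M := by
    have : FiniteDimensional F (M.restrictScalars F) := by rw [hMr]; exact hMf
    have : FiniteDimensional F M := this
    exact FiniteDimensional.right F K M
  obtain ⟨t1, t2, t3, t4⟩ := base_transfer h2 K M
  rw [hMr, hMfix] at t3 t4
  have hMmem : ∀ σ : Ω ≃ₐ[K] Ω, σ ∈ M.fixingSubgroup ↔ baseJ K σ ∈ V := by
    intro σ
    rw [← hMfix, IntermediateField.mem_fixingSubgroup_iff, IntermediateField.mem_fixingSubgroup_iff]
    rfl
  have hMn : M.fixingSubgroup.Normal := by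
    have : M.fixingSubgroup = V.comap (baseJ K) := by
      ext σ
      rw [hMmem, Subgroup.mem_comap]
    rw [this]
    infer_instance
  refine ⟨M.fixingSubgroup, t2, hMn, ?_, ?_⟩
  · intro σ hσ
    rw [hMmem]
    refine ⟨hNU ?_, ?_⟩
    · intro x n hx
      rw [baseJ_apply]
      refine hσ x n ?_
      rw [IntermediateField.mem_bot]
      exact ⟨⟨_, hx⟩, rfl⟩
    · show baseJ K σ ∈ K.fixingSubgroup
      rw [IntermediateField.mem_fixingSubgroup_iff]
      intro x hx
      rw [baseJ_apply]
      exact σ.commutes ⟨x, hx⟩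
  · -- the bound
    have h3 := dd_sub (Ω := Ω) h2 hU hVo (inf_le_left : V ≤ U)
    have h4 : V.relIndex U * U.index = V.index := Subgroup.relIndex_mul_index inf_le_left
    rw [← t4]
    have h5 : (dd (galS F Ω) V : ℝ) + V.relIndex U ≤ V.relIndex U * dd (galS F Ω) U + 1 := by
      exact_mod_cast h3
    have h6 : (V.relIndex U : ℝ) * U.index = V.index := by exact_mod_cast h4
    have h7 : (V.index : ℝ) = Module.finrank F K * M.fixingSubgroup.index := by exact_mod_cast t3
    have h8 : (0 : ℝ) ≤ V.relIndex U := Nat.cast_nonneg _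
    have h9 := mul_le_mul_of_nonneg_left hUd h8
    have hn' : (0 : ℝ) < Module.finrank F K := by exact_mod_cast hn
    have h10 : (V.relIndex U : ℝ) * (1 + ((r₀ : ℝ) + ε / Module.finrank F K) * U.index) =
        V.relIndex U + ((r₀ : ℝ) + ε / Module.finrank F K) * V.index := by
      rw [← h6]
      ring
    rw [h10, h7] at h9
    have h11 : ((r₀ : ℝ) + ε / Module.finrank F K) *
        (Module.finrank F K * M.fixingSubgroup.index) =
        (r₀ * Module.finrank F K + ε) * M.fixingSubgroup.index := by
      field_simp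
    rw [h11] at h9
    push_cast
    linarith

end Pool.Agent.EP
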