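import Pool.Agent.EP.Count

/-!
# Exact pairs: the induction step of the integrality theorem (MP_2429c0, section 2 (f))

`kap Y := rk S A ⊥ Y_∞ ∈ ℕ`, at most `D`.  `count` and `hA.rank` give `rk S B Y Y' ≤ kap Y' - kap Y`.  With `Y = ⊥`:
`rk S B ⊥ Y' ≤ kap Y'`.  With `Y' = CC S B D`: `rk S B Y (CC) ≤ D - kap Y`.  `D = rk_CC ≤ rk ⊥ Y + rk Y CC ≤ kap Y + (D - kap Y)`,
hence `rk S B ⊥ Y = kap Y`.  General pair: `kap Y' = rk ⊥ Y' ≤ rk ⊥ Y + rk Y Y' ≤ kap Y + (kap Y' - kap Y)`, so equality.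
-/

open scoped ENNReal

namespace Pool.Agent.EP

variable {G : Type*} [Group G] {h : ℕ}

namespace StepAux

variable {D : ℕ} {S : OSys G} {A B : Subgroup G} (L : Layer S A B h)

lemma lc_bot (e : Fin h → ℕ) : lc L (⊥ : Submodule (ZMod 2) (Fn G D)) e = ⊥ := by
  rw [lc, lcs, bot_inf_eq, Submodule.map_bot]

/-- The rank of a submodule is the rank of its space of stable leading coefficients. -/
lemma rk_bot (hA : TT S A) {Y : Submodule (ZMod 2) (Fn G D)} (hs : Stable Y)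
    (hY : Y ≤ CC S B D) (c : ℕ)
    (hc : ∀ c', c ≤ c' → ∀ e : Fin h → ℕ, lc L Y e = lc L Y (fun i => min (e i) c'))
    (hcC : ∀ c', c ≤ c' → ∀ e : Fin h → ℕ, lc L (CC S B D) e =
      lc L (CC S B D) (fun i => min (e i) c')) :
    rk S B ⊥ Y = rk S A ⊥ (lc L Y fun _ => c) := by
  have hsC : Stable (CC S B D) := stable_CC S B L.nB D
  obtain ⟨n, n', h1, h2, h3, -, h5⟩ := hA.rank D (lc L Y fun _ => c) (lc L (CC S B D) fun _ => c)
    (lc_stable L hs hY _) (lc_stable L hsC le_rfl _) (lc_mono L hY _) (lc_le L le_rfl _)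
  have e1 : rk S B ⊥ Y ≤ n := by
    have := count L hA stable_bot hs bot_le hY c
      (fun c' _ e => by rw [lc_bot, lc_bot]) hc
    rwa [lc_bot, h3] at this
  have e2 : rk S B Y (CC S B D) ≤ ((n' - n : ℕ) : ℝ≥0∞) := by
    have := count L hA hs hsC hY le_rfl c hc hcC
    rwa [h5] at this
  have e3 := rk_triangle S B stable_bot hs hsC bot_le hY
  rw [rk_CC] at e3
  rw [h3]
  apply le_antisymm e1
  have e4 : (D : ℝ≥0∞) ≤ rk S B ⊥ Y + ((n' - n : ℕ) : ℝ≥0∞) :=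
    e3.trans (add_le_add le_rfl e2)
  have e5 : (n : ℝ≥0∞) + ((n' - n : ℕ) : ℝ≥0∞) ≤ rk S B ⊥ Y + ((n' - n : ℕ) : ℝ≥0∞) := by
    refine le_trans ?_ e4
    rw [← Nat.cast_add]
    have : n + (n' - n) ≤ D := by omega
    exact_mod_cast this
  exact (ENNReal.add_le_add_iff_right (ENNReal.natCast_ne_top _)).1 e5

end StepAux

open StepAux

theorem step {S : OSys G} {A B : Subgroup G} (L : Layer S A B h) (hA : TT S A) : TT S B := by
  refine ⟨fun D => dcc_step L (hA.dcc D), ?_⟩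
  intro D Y Y' hs hs' hle hY'
  have hY : Y ≤ CC S B D := hle.trans hY'
  have hsC : Stable (CC S B D) := stable_CC S B L.nB D
  obtain ⟨c1, hc1⟩ := trunc L (hA.dcc D) hs hY
  obtain ⟨c2, hc2⟩ := trunc L (hA.dcc D) hs' hY'
  obtain ⟨c3, hc3⟩ := trunc L (hA.dcc D) hsC le_rfl
  set c := max c1 (max c2 c3) with hc
  have g1 : ∀ c', c ≤ c' → ∀ e : Fin h → ℕ, lc L Y e = lc L Y (fun i => min (e i) c') :=
    fun c' hc' => hc1 c' ((le_max_left _ _).trans hc')
  have g2 : ∀ c', c ≤ c' → ∀ e : Fin h → ℕ, lc L Y' e = lc L Y' (fun i => min (e i) c') :=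
    fun c' hc' => hc2 c' (((le_max_left _ _).trans (le_max_right _ _)).trans hc')
  have g3 : ∀ c', c ≤ c' → ∀ e : Fin h → ℕ, lc L (CC S B D) e =
      lc L (CC S B D) (fun i => min (e i) c') :=
    fun c' hc' => hc3 c' (((le_max_right _ _).trans (le_max_right _ _)).trans hc')
  obtain ⟨n, n', h1, h2, h3, h4, h5⟩ := hA.rank D (lc L Y fun _ => c) (lc L Y' fun _ => c)
    (lc_stable L hs hY _) (lc_stable L hs' hY' _) (lc_mono L hle _) (lc_le L hY' _)
  have r1 : rk S B ⊥ Y = n := (rk_bot L hA hs hY c g1 g3).trans h3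
  have r2 : rk S B ⊥ Y' = n' := (rk_bot L hA hs' hY' c g2 g3).trans h4
  refine ⟨n, n', h1, h2, r1, r2, ?_⟩
  apply le_antisymm
  · have := count L hA hs hs' hle hY' c g1 g2
    rwa [h5] at this
  · have e3 := rk_triangle S B stable_bot hs hs' bot_le hle
    rw [r1, r2] at e3
    have e4 : (n : ℝ≥0∞) + ((n' - n : ℕ) : ℝ≥0∞) ≤ (n : ℝ≥0∞) + rk S B Y Y' := by
      rw [← Nat.cast_add, Nat.add_sub_cancel' h1]
      exact e3
    exact (ENNReal.add_le_add_iff_left (ENNReal.natCast_ne_top _)).1 e4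

end Pool.Agent.EP
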