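import Pool.Agent.EP.GalSys
import Pool.Agent.EP.Step

/-!
# Exact pairs: the chain of Kummer layers (MP_2429c0, section 3)

`Fx U` is the set of elements fixed by `U`.  For all open normal `U` the integrality theorem holds for `NN F (Fx U)`:
chain `⊤ ≥ NN {1} ≥ NN (Fx ⊤) ≥ ... ≥ NN (Fx U)`.
-/

namespace Pool.Agent.EP.Kum

open Pool.Agent.EP Pool.Agent.Hhelper2 Pool.Agent.KRad

universe u v w

section Group

variable {G : Type u} [Group G] (S : OSys G)

/-- An open normal proper subgroup has an overgroup, normal in `G`, in which it has index two. -/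
theorem exists_up {U : Subgroup G} (hU : S.Op U) (hUn : U.Normal) (hne : U ≠ ⊤) :
    ∃ U' : Subgroup G, U'.Normal ∧ U ≤ U' ∧ U.relIndex U' = 2 := by
  have : Fact (Nat.Prime 2) := ⟨Nat.prime_two⟩
  obtain ⟨hfin, hp⟩ := isPGroup_quotient S hU
  have hnt : Nontrivial (G ⧸ U) := by
    rw [← not_subsingleton_iff_nontrivial]
    intro h
    apply hne
    ext x
    simp only [Subgroup.mem_top, iff_true]
    exact (QuotientGroup.eq_one_iff x).1 (Subsingleton.elim _ _)
  have hc := hp.center_nontrivial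
  have hpc : IsPGroup 2 (Subgroup.center (G ⧸ U)) := hp.to_subgroup _
  obtain ⟨n, hn0, hn⟩ := hpc.nontrivial_iff_card.1 hc
  obtain ⟨c, hcc⟩ := exists_prime_orderOf_dvd_card' (G := Subgroup.center (G ⧸ U)) 2
    (by rw [hn]; exact dvd_pow_self 2 (by omega))
  set Z := Subgroup.zpowers (c : G ⧸ U) with hZ
  have hZn : Z.Normal := by
    constructor
    intro z hz g
    have hzc : z ∈ Subgroup.center (G ⧸ U) := by
      have : Z ≤ Subgroup.center (G ⧸ U) := by
        rw [hZ, Subgroup.zpowers_le]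
        exact c.2
      exact this hz
    have h1 : g * z * g⁻¹ = z := by
      rw [Subgroup.mem_center_iff.1 hzc g, mul_assoc, mul_inv_cancel, mul_one]
    rw [h1]
    exact hz
  refine ⟨Z.comap (QuotientGroup.mk' U), hZn.comap _, ?_, ?_⟩
  · intro x hx
    show (QuotientGroup.mk' U) x ∈ Z
    have : (QuotientGroup.mk' U) x = 1 := (QuotientGroup.eq_one_iff x).2 hx
    rw [this]
    exact Z.one_mem
  · have h1 : (⊥ : Subgroup (G ⧸ U)).comap (QuotientGroup.mk' U) = U := by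
      rw [MonoidHom.comap_bot, QuotientGroup.ker_mk']
    have h3 := Subgroup.relIndex_comap (⊥ : Subgroup (G ⧸ U)) (QuotientGroup.mk' U)
      (Z.comap (QuotientGroup.mk' U))
    rw [h1, Subgroup.map_comap_eq_self_of_surjective (QuotientGroup.mk'_surjective U),
      Subgroup.relIndex_bot_left, hZ, Nat.card_zpowers, Subgroup.orderOf_coe, hcc] at h3
    exact h3

end Group

section Chain

variable {F : Type u} {Ω : Type v} [Field F] [Field Ω] [Algebra F Ω]

/-- The elements fixed by `U`. -/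
def Fx (U : Subgroup Gal(Ω/F)) : Set Ω := {x | ∀ s ∈ U, s x = x}

theorem Fx_anti {U U' : Subgroup Gal(Ω/F)} (h : U ≤ U') : Fx U' ⊆ Fx U :=
  fun _ hx s hs => hx s (h hs)

theorem one_mem_Fx (U : Subgroup Gal(Ω/F)) : (1 : Ω) ∈ Fx U := fun s _ => map_one s

theorem Fx_stable {U : Subgroup Gal(Ω/F)} (hU : U.Normal) (g : Gal(Ω/F)) {x : Ω} (hx : x ∈ Fx U) :
    g x ∈ Fx U := by
  intro s hs
  have h1 := hx (g⁻¹ * s * g⁻¹⁻¹) (hU.conj_mem s hs g⁻¹)
  have h2 := congrArg g h1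
  rw [← AlgEquiv.mul_apply] at h2 ⊢
  convert h2 using 2
  group

variable [IsGalois F Ω] (S : OSys Gal(Ω/F))
  (hS : ∀ U : Subgroup Gal(Ω/F), S.Op U ↔ IsOpen (U : Set Gal(Ω/F)))
  (h2 : (2 : Ω) ≠ 0) (hsq : ∀ x : Ω, ∃ y, y ^ 2 = x)

omit [IsGalois F Ω] in
/-- Automorphisms that fix the square roots of the elements of `Fx U'` fix `Fx U`, if `U` is normal of index two
in `U'`. -/
theorem fix_of_index_two {U U' : Subgroup Gal(Ω/F)} (h2 : (2 : Ω) ≠ 0) (hU : U.Normal)
    (hidx : U.relIndex U' = 2) {a : Gal(Ω/F)} (ha : a ∈ NN F (Fx U')) {x : Ω} (hx : x ∈ Fx U) :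
    a x = x := by
  have hidx' : (U.subgroupOf U').index = 2 := hidx
  obtain ⟨τ, hτ⟩ : ∃ τ : U', (τ : Gal(Ω/F)) ∉ U := by
    by_contra hcon
    push Not at hcon
    have : U.subgroupOf U' = ⊤ := by
      ext τ
      simp [Subgroup.mem_subgroupOf, hcon τ]
    rw [this, Subgroup.index_top] at hidx'
    norm_num at hidx'
  have hmul : ∀ s : U', (s : Gal(Ω/F)) ∉ U → (s : Gal(Ω/F)) * τ ∈ U ∧
      (τ : Gal(Ω/F))⁻¹ * s ∈ U := by
    intro s hs
    constructor
    · have h1 := Subgroup.mul_mem_iff_of_index_two hidx' (a := s) (b := τ)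
      rw [Subgroup.mem_subgroupOf, Subgroup.mem_subgroupOf, Subgroup.mem_subgroupOf] at h1
      exact h1.2 (by simp [hs, hτ])
    · have h1 := Subgroup.mul_mem_iff_of_index_two hidx' (a := τ⁻¹) (b := s)
      rw [Subgroup.mem_subgroupOf, Subgroup.mem_subgroupOf, Subgroup.mem_subgroupOf] at h1
      refine h1.2 ?_
      rw [Subgroup.coe_inv, inv_mem_iff]
      simp [hs, hτ]
  have hτx : ∀ s : U', (s : Gal(Ω/F)) ∈ U → (s : Gal(Ω/F)) ((τ : Gal(Ω/F)) x) = (τ : Gal(Ω/F)) x := by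
    intro s hs
    exact Fx_stable hU τ hx s hs
  have hs1 : ∀ s : U', (s : Gal(Ω/F)) ∉ U → (s : Gal(Ω/F)) ((τ : Gal(Ω/F)) x) = x := by
    intro s hs
    rw [← AlgEquiv.mul_apply]
    exact hx _ (hmul s hs).1
  have hs2 : ∀ s : U', (s : Gal(Ω/F)) ∉ U → (s : Gal(Ω/F)) x = (τ : Gal(Ω/F)) x := by
    intro s hs
    have e1 := congrArg (τ : Gal(Ω/F)) (hx _ (hmul s hs).2)
    rw [← AlgEquiv.mul_apply] at e1
    rw [← e1]
    congr 1
    group
  have h3 : x + (τ : Gal(Ω/F)) x ∈ Fx U' := by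
    intro s hs
    by_cases h : s ∈ U
    · rw [map_add, hx s h, hτx ⟨s, hs⟩ h]
    · rw [map_add, hs1 ⟨s, hs⟩ h, hs2 ⟨s, hs⟩ h, add_comm]
  have h4 : (x - (τ : Gal(Ω/F)) x) ^ 2 ^ 1 ∈ Fx U' := by
    intro s hs
    by_cases h : s ∈ U
    · rw [map_pow, map_sub, hx s h, hτx ⟨s, hs⟩ h]
    · rw [map_pow, map_sub, hs1 ⟨s, hs⟩ h, hs2 ⟨s, hs⟩ h]
      ring
  have h5 := NN_fix ha h3
  have h6 := ha _ 1 h4
  have h7 : 2 * a x = 2 * x := by
    have e1 : a (x + (τ : Gal(Ω/F)) x) + a (x - (τ : Gal(Ω/F)) x) =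
        (x + (τ : Gal(Ω/F)) x) + (x - (τ : Gal(Ω/F)) x) := by rw [h5, h6]
    rw [← map_add] at e1
    have e2 : x + (τ : Gal(Ω/F)) x + (x - (τ : Gal(Ω/F)) x) = 2 * x := by ring
    rw [e2, map_mul] at e1
    have e3 : a (2 : Ω) = 2 := map_ofNat a 2
    rw [e3] at e1
    exact e1
  exact mul_left_cancel₀ h2 h7

include hS h2 hsq in
/-- **The integrality theorem for the Kummer groups.** -/
theorem TT_chain (hF : ∃ i : F, i ^ 2 = -1)
    (hfin : ∀ U : Subgroup Gal(Ω/F), S.Op U → Module.Finite (ZMod 2) (Hm S U)) (n : ℕ) :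
    ∀ U : Subgroup Gal(Ω/F), S.Op U → U.Normal → U.index = 2 ^ n → TT S (NN F (Fx U)) := by
  have hone : ∀ U : Subgroup Gal(Ω/F), NN F (Fx U) ≤ NN F ({1} : Set Ω) := fun U =>
    NN_mono (Set.singleton_subset_iff.2 (one_mem_Fx U))
  have hroot : ∀ a ∈ NN F ({1} : Set Ω), ∀ (ζ : Ω) (n : ℕ), ζ ^ 2 ^ n = 1 → a ζ = ζ :=
    fun a ha ζ n hζ => ha ζ n (by rw [hζ]; exact Set.mem_singleton 1)
  have hstab1 : ∀ (g : Gal(Ω/F)), ∀ x ∈ ({1} : Set Ω), g x ∈ ({1} : Set Ω) := by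
    intro g x hx
    rw [Set.mem_singleton_iff] at hx ⊢
    rw [hx, map_one]
  induction n with
  | zero =>
    intro U hU hUn hidx
    obtain ⟨k, ⟨L⟩⟩ := cyc_layer S hS hsq h2 hF
    have hT := step L (TT_top S)
    obtain ⟨X, hX, hX'⟩ := exists_reps S hS h2 hsq hU (hfin U hU)
    have hUtop : U = ⊤ := Subgroup.index_eq_one.1 (by rw [hidx, pow_zero])
    obtain ⟨k', ⟨L'⟩⟩ := kummer_layer S hS hsq (A := NN F ({1} : Set Ω)) (Λ := Fx U)
      ⟨hroot, fun a _ x hx => hx a (by rw [hUtop]; trivial), fun s _ => map_zero s,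
        fun x hx s hs => by rw [map_neg, hx s hs]⟩
      (NN_closed _) (NN_normal hstab1) (fun g x hx => Fx_stable hUn g hx) (hone U) X hX hX'
    exact step L' hT
  | succ n ih =>
    intro U hU hUn hidx
    have hne : U ≠ ⊤ := by
      rintro rfl
      rw [Subgroup.index_top] at hidx
      have : 1 < 2 ^ (n + 1) := Nat.one_lt_two_pow (by omega)
      omega
    obtain ⟨U', hU'n, hle, hrel⟩ := exists_up S hU hUn hne
    have hU' : S.Op U' := S.up _ _ hU hle
    have hidx' : U'.index = 2 ^ n := by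
      have h3 := Subgroup.relIndex_mul_index hle
      rw [hrel, hidx, pow_succ', Nat.mul_right_inj (by norm_num)] at h3
      exact h3
    have hT := ih U' hU' hU'n hidx'
    obtain ⟨X, hX, hX'⟩ := exists_reps S hS h2 hsq hU (hfin U hU)
    obtain ⟨k', ⟨L'⟩⟩ := kummer_layer S hS hsq (A := NN F (Fx U')) (Λ := Fx U)
      ⟨fun a ha => hroot a (hone U' ha), fun a ha x hx => fix_of_index_two h2 hUn hrel ha hx,
        fun s _ => map_zero s, fun x hx s hs => by rw [map_neg, hx s hs]⟩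
      (NN_closed _) (NN_normal fun g x hx => Fx_stable hU'n g hx)
      (fun g x hx => Fx_stable hUn g hx) (NN_mono (Fx_anti hle)) X hX hX'
    exact step L' hT

omit [IsGalois F Ω] in
/-- All groups of continuous homomorphisms are finite, if this holds for the whole group. -/
theorem finite_Hm_all (hfin : Module.Finite (ZMod 2) (Hm S (⊤ : Subgroup Gal(Ω/F))))
    (U : Subgroup Gal(Ω/F)) (hU : S.Op U) : Module.Finite (ZMod 2) (Hm S U) := by
  obtain ⟨D, g, hg⟩ := exists_tgen S hfin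
  exact finite_Hm S hg hU

end Chain

end Pool.Agent.EP.Kum
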