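import Pool.Agent.EP.Edge

/-!
# Exact pairs: the combinatorial end (MP_2429c0, section 4, (4.3)-(4.5))

(1) Suppose for every surjective form `v` the number `r_v` of `hHV` is at least `k + 1`.  Then
`(k + 1) * 2 ^ t ≤ F (Cv v (t + 1)) - F (Cv v t)` for all `t`: otherwise, `a_t := F (Cv v (t + 1)) - F (Cv v t)` satisfies
`a_t ≤ (k + 1) * 2 ^ t - 1` for some `t = t₀`, by `hDB` `a_{t₀ + s} ≤ 2 ^ s * a_{t₀}`, so
`F (Cv v (t₀ + s)) ≤ F (Cv v t₀) + (2 ^ s - 1) * ((k + 1) * 2 ^ t₀ - 1)`, which is `< r_v * 2 ^ (t₀ + s)` for large `s`.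
(2) By `edge` with `K = k + 1` and a chain of subgroups of index two: `F T' ≥ F ⊤ + (k + 1) (T'.index - 1)` for all open `T'`,
which contradicts `hINF` for `ε = 1 / 2` and `n₀ > 2 (k + 1)`.
(3) So some `r_v ≤ k` (an integer `< k + 1`).  `b_t := F (Cv v t) - k * 2 ^ t` is nondecreasing by `hLB` (`index_Cv`) and
bounded above by `c` (`r_v ≤ k`), so `b_{t + 1} = b_t` for some `t`.
-/

namespace Pool.Agent.EP

variable {h : ℕ}

theorem comb_Cv_le (v : (Fin h → ℤ_[2]) →ₗ[ℤ_[2]] ℤ_[2]) (t : ℕ) : Cv v (t + 1) ≤ Cv v t := by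
  intro x hx
  have hx' : (2 : ℤ_[2]) ^ (t + 1) ∣ v x := hx
  exact (pow_dvd_pow 2 (Nat.le_succ t)).trans hx'

theorem comb_rel (v : (Fin h → ℤ_[2]) →ₗ[ℤ_[2]] ℤ_[2]) (hv : Function.Surjective v) (t : ℕ) :
    (Cv v (t + 1)).relIndex (Cv v t) = 2 := by
  have h1 := AddSubgroup.relIndex_mul_index (comb_Cv_le v t)
  rw [index_Cv v hv, index_Cv v hv, pow_succ, mul_comm] at h1
  exact Nat.eq_of_mul_eq_mul_left (by positivity) h1

theorem comb_unbounded (A : ℤ) : ∃ s : ℕ, A < 2 ^ s := by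
  obtain ⟨n, hn⟩ := exists_nat_gt A
  refine ⟨n, hn.trans ?_⟩
  exact_mod_cast Nat.lt_two_pow_self

/-- Step (1). -/
theorem comb_one (k : ℕ) (a f : ℕ → ℤ) (ha : ∀ t, a t = f (t + 1) - f t)
    (hDB : ∀ t, a (t + 1) ≤ 2 * a t) (r : ℤ) (hr : (k : ℤ) + 1 ≤ r) (hlow : ∀ t, r * 2 ^ t ≤ f t)
    (t₀ : ℕ) : ((k : ℤ) + 1) * 2 ^ t₀ ≤ a t₀ := by
  by_contra hcon
  have h1 : a t₀ ≤ ((k : ℤ) + 1) * 2 ^ t₀ - 1 := by omega
  have h2 : ∀ s : ℕ, a (t₀ + s) ≤ 2 ^ s * a t₀ := by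
    intro s
    induction s with
    | zero => simp
    | succ s ih =>
      have := hDB (t₀ + s)
      rw [pow_succ, show t₀ + (s + 1) = t₀ + s + 1 from rfl]
      linarith
  have h3 : ∀ s : ℕ, f (t₀ + s) ≤ f t₀ + (2 ^ s - 1) * a t₀ := by
    intro s
    induction s with
    | zero => simp
    | succ s ih =>
      have e1 := ha (t₀ + s)
      have e2 := h2 s
      rw [pow_succ, show t₀ + (s + 1) = t₀ + s + 1 from rfl]
      have : (2 ^ s * 2 - 1) * a t₀ = (2 ^ s - 1) * a t₀ + 2 ^ s * a t₀ := by ring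
      linarith
  obtain ⟨s, hs⟩ := comb_unbounded (f t₀ + 1)
  have h4 := h3 s
  have h5 := hlow (t₀ + s)
  have h6 : ((k : ℤ) + 1) * 2 ^ (t₀ + s) ≤ r * 2 ^ (t₀ + s) :=
    mul_le_mul_of_nonneg_right hr (by positivity)
  have h7 : ((2 : ℤ) ^ s - 1) * a t₀ ≤ (2 ^ s - 1) * (((k : ℤ) + 1) * 2 ^ t₀ - 1) := by
    apply mul_le_mul_of_nonneg_left h1
    have : (1 : ℤ) ≤ 2 ^ s := one_le_pow₀ (by norm_num)
    linarith
  have h8 : ((k : ℤ) + 1) * 2 ^ (t₀ + s) = ((k : ℤ) + 1) * 2 ^ t₀ * 2 ^ s := by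
    rw [pow_add]
    ring
  have h9 : (0 : ℤ) ≤ ((k : ℤ) + 1) * 2 ^ t₀ := by positivity
  nlinarith

theorem comb (k : ℕ) (F : AddSubgroup (Fin h → ℤ_[2]) → ℤ)
    (hBQ : ∀ T₀ T₁ T₂ T₃ : AddSubgroup (Fin h → ℤ_[2]), OpT (T₁ ⊓ T₂) → T₁ ≤ T₀ → T₂ ≤ T₀ → T₃ ≤ T₀ →
      T₁.relIndex T₀ = 2 → T₂.relIndex T₀ = 2 → T₃.relIndex T₀ = 2 → T₁ ≠ T₂ → T₁ ≠ T₃ → T₂ ≠ T₃ →
      T₁ ⊓ T₂ ≤ T₃ → F (T₁ ⊓ T₂) + 2 * F T₀ = F T₁ + F T₂ + F T₃)
    (hLB : ∀ T' T'' : AddSubgroup (Fin h → ℤ_[2]), OpT T'' → T'' ≤ T' → T''.relIndex T' = 2 →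
      (k : ℤ) * T'.index ≤ F T'' - F T')
    (h0 : 0 ≤ F ⊤)
    (hDB : ∀ v : (Fin h → ℤ_[2]) →ₗ[ℤ_[2]] ℤ_[2], Function.Surjective v → ∀ t : ℕ,
      F (Cv v (t + 2)) - F (Cv v (t + 1)) ≤ 2 * (F (Cv v (t + 1)) - F (Cv v t)))
    (hHV : ∀ v : (Fin h → ℤ_[2]) →ₗ[ℤ_[2]] ℤ_[2], Function.Surjective v → ∃ r c : ℤ, ∀ t : ℕ,
      r * 2 ^ t ≤ F (Cv v t) ∧ F (Cv v t) ≤ r * 2 ^ t + c)
    (hINF : ∀ ε : ℝ, 0 < ε → ∀ n₀ : ℕ, ∃ T' : AddSubgroup (Fin h → ℤ_[2]), OpT T' ∧ n₀ ≤ T'.index ∧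
      (F T' : ℝ) ≤ (k + ε) * T'.index) :
    ∃ v : (Fin h → ℤ_[2]) →ₗ[ℤ_[2]] ℤ_[2], Function.Surjective v ∧ ∃ t : ℕ,
      F (Cv v (t + 1)) - F (Cv v t) = k * 2 ^ t := by
  by_contra hcon
  push Not at hcon
  -- step (3)
  have hr : ∀ v : (Fin h → ℤ_[2]) →ₗ[ℤ_[2]] ℤ_[2], Function.Surjective v → ∀ r c : ℤ,
      (∀ t : ℕ, r * 2 ^ t ≤ F (Cv v t) ∧ F (Cv v t) ≤ r * 2 ^ t + c) → (k : ℤ) + 1 ≤ r := by
    intro v hv r c hrc
    by_contra hlt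
    have hrk : r ≤ k := by omega
    have hstep : ∀ t : ℕ, F (Cv v t) - k * 2 ^ t + 1 ≤ F (Cv v (t + 1)) - k * 2 ^ (t + 1) := by
      intro t
      have h1 := hLB (Cv v t) (Cv v (t + 1)) (opT_Cv v (t + 1)) (comb_Cv_le v t) (comb_rel v hv t)
      rw [index_Cv v hv] at h1
      push_cast at h1
      have h2 := hcon v hv t
      have h3 : (k : ℤ) * 2 ^ t < F (Cv v (t + 1)) - F (Cv v t) := lt_of_le_of_ne h1 (Ne.symm h2)
      have h4 : (k : ℤ) * 2 ^ (t + 1) = k * 2 ^ t + k * 2 ^ t := by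
        rw [pow_succ]
        ring
      omega
    have hgrow : ∀ t : ℕ, F (Cv v 0) - k * 2 ^ 0 + t ≤ F (Cv v t) - k * 2 ^ t := by
      intro t
      induction t with
      | zero => simp
      | succ t ih =>
        have := hstep t
        push_cast
        linarith
    obtain ⟨n, hn⟩ := exists_nat_gt (c - (F (Cv v 0) - k * 2 ^ 0))
    have h1 := hgrow n
    have h2 := (hrc n).2
    have h3 : r * 2 ^ n ≤ k * 2 ^ n := mul_le_mul_of_nonneg_right hrk (by positivity)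
    have h4 : c - (F (Cv v 0) - k * 2 ^ 0) < (n : ℤ) := hn
    linarith
  -- step (1)
  have hcyc : ∀ v : (Fin h → ℤ_[2]) →ₗ[ℤ_[2]] ℤ_[2], Function.Surjective v → ∀ t : ℕ,
      ((k : ℤ) + 1) * 2 ^ t ≤ F (Cv v (t + 1)) - F (Cv v t) := by
    intro v hv t
    obtain ⟨r, c, hrc⟩ := hHV v hv
    exact comb_one k (fun t => F (Cv v (t + 1)) - F (Cv v t)) (fun t => F (Cv v t)) (fun _ => rfl)
      (hDB v hv) r (hr v hv r c hrc) (fun t => (hrc t).1) t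
  -- step (2)
  have hall : ∀ n : ℕ, ∀ T : AddSubgroup (Fin h → ℤ_[2]), OpT T → T.index ≤ n →
      F ⊤ + ((k : ℤ) + 1) * ((T.index : ℤ) - 1) ≤ F T := by
    intro n
    induction n with
    | zero =>
      intro T hT hn
      obtain ⟨m, hm⟩ := opT_index hT
      have : 0 < 2 ^ m := by positivity
      omega
    | succ n ih =>
      intro T hT hn
      by_cases htop : T = ⊤
      · subst htop
        simp
      · obtain ⟨T₁, h1, h2, h3⟩ := opT_chain hT le_top htop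
        have hT₁ : OpT T₁ := by
          obtain ⟨m, hm⟩ := hT
          exact ⟨m, fun x => h1 (hm x)⟩
        have hidx := AddSubgroup.relIndex_mul_index h1
        rw [h3] at hidx
        have hpos : 0 < T₁.index := by
          obtain ⟨m, hm⟩ := opT_index hT₁
          rw [hm]
          positivity
        have e1 := ih T₁ hT₁ (by omega)
        have e2 := edge F ((k : ℤ) + 1) hBQ hcyc T₁ T hT h1 h3
        have e3 : (T.index : ℤ) = 2 * (T₁.index : ℤ) := by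
          rw [← hidx]
          push_cast
          ring
        rw [e3]
        nlinarith
  obtain ⟨T, hT, hn, hF⟩ := hINF (1 / 2) (by norm_num) (2 * (k + 1) + 1)
  have h1 := hall T.index T hT le_rfl
  have h2 : ((k : ℝ) + 1) * ((T.index : ℝ) - 1) ≤ (F T : ℝ) := by
    have h3 : ((k : ℤ) + 1) * ((T.index : ℤ) - 1) ≤ F T := by linarith
    exact_mod_cast h3
  have h4 : ((2 * (k + 1) + 1 : ℕ) : ℝ) ≤ (T.index : ℝ) := by exact_mod_cast hn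
  push_cast at h4
  nlinarith

end Pool.Agent.EP
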