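import Pool.Agent.EP.Ops

/-!
# Exact pairs: leading coefficients commute with translations (MP_2429c0, section 2 (a))

Let `f ∈ CC S B D` be fixed by an open normal subgroup `U ≥ B`.  For `g`, `i`:
`rho (y i) (rho g f) = rho g (rho (g⁻¹ y_i g) f) = rho g (∏ k, rho (y k) ^ m k) f` by `L.conj`.  So
`(rho (y i) + 1) ∘ rho g = rho g ∘ P_i`, `P_i = ∏ k, (1 + Δ_k) ^ m k + 1`, on the functions fixed by `U`, where `m i` is odd
and `m k` is even for `i < k`; the lowest term of the polynomial `P_i` is `X_i`.
-/

namespace Pool.Agent.EP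

open MvPolynomial

variable {G : Type*} [Group G] {D h : ℕ}

/-- The sort key of a finitely supported exponent. -/
def keyHom (h : ℕ) : (Fin h →₀ ℕ) →+ Lex (ℕ × Lex (Fin h → ℕ)) where
  toFun e := key e
  map_zero' := by
    apply ofLex.injective
    show ((∑ i, (0 : Fin h →₀ ℕ) i, toLex ⇑(0 : Fin h →₀ ℕ)) : ℕ × Lex (Fin h → ℕ)) = 0
    ext1
    · simp
    · rfl
  map_add' a b := by
    rw [← key_add]
    rfl

theorem keyHom_apply (e : Fin h →₀ ℕ) : keyHom h e = key e := rfl

theorem keyHom_injective : Function.Injective (keyHom h) := by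
  intro a b hab
  exact DFunLike.coe_injective (key_injective hab)

/-- The linear coefficient of a polynomial. -/
theorem coeff_single_mul (k : Fin h) (p q : MvPolynomial (Fin h) (ZMod 2)) :
    coeff (Finsupp.single k 1) (p * q) =
      coeff (Finsupp.single k 1) p * coeff 0 q + coeff 0 p * coeff (Finsupp.single k 1) q := by
  have key : ∀ p : MvPolynomial (Fin h) (ZMod 2),
      coeff (Finsupp.single k 1) p = constantCoeff (pderiv k p) := by
    intro p
    induction p using MvPolynomial.induction_on' with
    | monomial u a =>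
      rw [pderiv_monomial, constantCoeff_monomial, coeff_monomial]
      by_cases hu : u = Finsupp.single k 1
      · subst hu
        simp
      · rw [if_neg hu]
        split_ifs with h0
        · have h1 : u k = 0 := by
            by_contra hk
            apply hu
            ext j
            have h2 := DFunLike.congr_fun h0 j
            rw [Finsupp.tsub_apply, Finsupp.coe_zero, Pi.zero_apply] at h2
            by_cases hjk : k = j
            · subst hjk
              rw [Finsupp.single_eq_same] at h2 ⊢
              omega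
            · rw [Finsupp.single_eq_of_ne' hjk] at h2 ⊢
              omega
          rw [h1]
          simp
        · rfl
    | add p q hp hq => rw [coeff_add, hp, hq, map_add, map_add]
  rw [key, key p, key q, Derivation.leibniz, map_add, smul_eq_mul, smul_eq_mul, map_mul, map_mul,
    ← constantCoeff_eq]
  ring

theorem coeff_single_one_add_pow (k j : Fin h) (m : ℕ) :
    coeff (Finsupp.single k 1) ((1 + X j : MvPolynomial (Fin h) (ZMod 2)) ^ m) =
      if k = j then (m : ZMod 2) else 0 := by
  induction m with
  | zero =>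
    rw [pow_zero, coeff_one, if_neg]
    · simp
    · intro h0
      have := DFunLike.congr_fun h0 k
      simp at this
  | succ m ih =>
    have h0 : coeff 0 ((1 + X j : MvPolynomial (Fin h) (ZMod 2)) ^ m) = 1 := by
      rw [← constantCoeff_eq]
      simp
    rw [pow_succ, coeff_single_mul, ih, h0, one_mul, coeff_add, coeff_add, coeff_one, coeff_one,
      coeff_X, coeff_X]
    have h1 : ¬ (0 : Fin h →₀ ℕ) = Finsupp.single k 1 := by
      intro h0
      have := DFunLike.congr_fun h0 k
      simp at this
    have h2 : ¬ Finsupp.single j 1 = (0 : Fin h →₀ ℕ) := by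
      intro h0
      have := DFunLike.congr_fun h0 j
      simp at this
    rw [if_pos rfl, if_neg h1, if_neg h2]
    by_cases hkj : k = j
    · subst hkj
      simp
    · rw [if_neg hkj, if_neg hkj, if_neg]
      · simp
      · intro h3
        rw [Finsupp.single_left_inj one_ne_zero] at h3
        exact hkj h3.symm

theorem coeff_prod (m : Fin h → ℕ) (s : Finset (Fin h)) :
    coeff 0 (∏ j ∈ s, (1 + X j : MvPolynomial (Fin h) (ZMod 2)) ^ m j) = 1 ∧
    ∀ k, coeff (Finsupp.single k 1) (∏ j ∈ s, (1 + X j : MvPolynomial (Fin h) (ZMod 2)) ^ m j) =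
      if k ∈ s then (m k : ZMod 2) else 0 := by
  classical
  induction s using Finset.induction_on with
  | empty =>
    refine ⟨by simp, fun k => ?_⟩
    rw [Finset.prod_empty, coeff_one, if_neg, if_neg (Finset.notMem_empty k)]
    intro h0
    have := DFunLike.congr_fun h0 k
    simp at this
  | insert j s hj ih =>
    have h0 : coeff 0 ((1 + X j : MvPolynomial (Fin h) (ZMod 2)) ^ m j) = 1 := by
      rw [← constantCoeff_eq]
      simp
    rw [Finset.prod_insert hj]
    constructor
    · rw [← constantCoeff_eq, map_mul, constantCoeff_eq, h0, one_mul]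
      exact ih.1
    · intro k
      rw [coeff_single_mul, ih.1, h0, ih.2 k, coeff_single_one_add_pow, mul_one, one_mul]
      by_cases hkj : k = j
      · subst hkj
        rw [if_pos rfl, if_neg hj, if_pos (Finset.mem_insert_self _ _), add_zero]
      · rw [if_neg hkj, zero_add]
        simp only [Finset.mem_insert, hkj, false_or]

theorem low_conj (m : Fin h → ℕ) (i : Fin h) (hodd : Odd (m i)) (heven : ∀ k, i < k → Even (m k)) :
    Aux.Low (keyHom h) (Finsupp.single i 1)
      (∏ j, (1 + X j : MvPolynomial (Fin h) (ZMod 2)) ^ m j + 1) := by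
  obtain ⟨h0, h1⟩ := coeff_prod m Finset.univ
  have hne : ∀ k : Fin h, ¬ (0 : Fin h →₀ ℕ) = Finsupp.single k 1 := by
    intro k h0
    have := DFunLike.congr_fun h0 k
    simp at this
  constructor
  · rw [coeff_add, h1, if_pos (Finset.mem_univ _), coeff_one, if_neg (hne i), add_zero]
    exact (ZMod.natCast_eq_one_iff_odd).2 hodd
  · intro e he
    rw [keyHom_apply, keyHom_apply]
    have hs : ∑ j, (Finsupp.single i 1 : Fin h →₀ ℕ) j = 1 := by
      rw [Finset.sum_eq_single i]
      · simp
      · intro j _ hj
        exact Finsupp.single_eq_of_ne hj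
      · intro hi
        exact absurd (Finset.mem_univ i) hi
    rcases Nat.lt_or_ge 1 (∑ j, e j) with h2 | h2
    · refine le_of_lt ?_
      rw [Prod.Lex.lt_iff]
      left
      show ∑ j, (Finsupp.single i 1 : Fin h →₀ ℕ) j < ∑ j, e j
      rw [hs]
      exact h2
    · by_cases he0 : e = 0
      · exfalso
        apply he
        rw [he0, coeff_add, h0, coeff_one, if_pos rfl]
        rfl
      · obtain ⟨k, hk⟩ : ∃ k, e k ≠ 0 := by
          by_contra hcon
          push Not at hcon
          exact he0 (Finsupp.ext hcon)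
        have h3 : e = Finsupp.single k 1 := by
          have h4 : e k + ∑ j ∈ Finset.univ.erase k, e j = ∑ j, e j :=
            Finset.add_sum_erase _ _ (Finset.mem_univ k)
          ext j
          by_cases hjk : j = k
          · subst hjk
            rw [Finsupp.single_eq_same]
            omega
          · rw [Finsupp.single_eq_of_ne hjk]
            have h5 : e j ≤ ∑ j ∈ Finset.univ.erase k, e j :=
              Finset.single_le_sum (f := fun j => e j) (fun _ _ => Nat.zero_le _)
                (Finset.mem_erase.2 ⟨hjk, Finset.mem_univ j⟩)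
            omega
        rw [h3, coeff_add, h1, if_pos (Finset.mem_univ _), coeff_one, if_neg (hne k), add_zero] at he
        have h6 : ¬ i < k := by
          intro hik
          exact he ((ZMod.natCast_eq_zero_iff_even).2 (heven k hik))
        rw [h3]
        rcases (not_lt.1 h6).lt_or_eq with h7 | h7
        · refine le_of_lt ?_
          rw [Prod.Lex.lt_iff]
          right
          refine ⟨?_, ?_⟩
          · show ∑ j, (Finsupp.single i 1 : Fin h →₀ ℕ) j = ∑ j, (Finsupp.single k 1 : Fin h →₀ ℕ) j
            rw [hs, Finset.sum_eq_single k]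
            · simp
            · intro j _ hj
              exact Finsupp.single_eq_of_ne hj
            · intro hi
              exact absurd (Finset.mem_univ k) hi
          · refine ⟨k, fun j hj => ?_, ?_⟩
            · show (Finsupp.single i 1 : Fin h →₀ ℕ) j = (Finsupp.single k 1 : Fin h →₀ ℕ) j
              rw [Finsupp.single_eq_of_ne (hj.trans h7).ne, Finsupp.single_eq_of_ne hj.ne]
            · show (Finsupp.single i 1 : Fin h →₀ ℕ) k < (Finsupp.single k 1 : Fin h →₀ ℕ) k
              rw [Finsupp.single_eq_same, Finsupp.single_eq_of_ne h7.ne]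
              exact Nat.one_pos
        · rw [h7]

theorem act_one_add_X {S : OSys G} {A B : Subgroup G} (L : Layer S A B h) (k : Fin h) :
    act L D (1 + X k) = Aux.rhoC S L.nB D (L.y k) := by
  rw [map_add, map_one, act_X, add_comm, add_assoc]
  have h2 : (1 : Module.End (ZMod 2) (CC S B D)) + 1 = 0 := by
    ext f p i
    show (f : Fn G D) p i + (f : Fn G D) p i = 0
    exact CharTwo.add_self_eq_zero _
  rw [h2, add_zero]

theorem act_prod {S : OSys G} {A B : Subgroup G} (L : Layer S A B h) (m : Fin h → ℕ)
    (f : CC S B D) :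
    (act L D (∏ k, (1 + X k) ^ m k) f : Fn G D) =
      rho (List.ofFn fun k => L.y k ^ m k).prod (f : Fn G D) := by
  rw [Fin.prod_univ_def, map_list_prod, List.map_map, List.ofFn_eq_map]
  induction List.finRange h generalizing f with
  | nil => exact (Aux.rho_one _).symm
  | cons i l ih =>
    rw [List.map_cons, List.prod_cons, List.map_cons, List.prod_cons, Aux.rho_mul, ← ih]
    show (((act L D ((1 + X i) ^ m i)) * _ : Module.End (ZMod 2) (CC S B D)) f : Fn G D) = _
    rw [Module.End.mul_apply, map_pow, act_one_add_X]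
    generalize (List.map ((act L D) ∘ fun i => (1 + X i) ^ m i) l).prod f = f'
    rw [Aux.rho_pow]
    induction m i generalizing f' with
    | zero => rfl
    | succ n ihn =>
      rw [pow_succ, pow_succ, Module.End.mul_apply, ihn]
      rfl

/-- The functions fixed by a normal subgroup are stable under the action. -/
theorem act_fixed {S : OSys G} {A B : Subgroup G} (L : Layer S A B h) {U : Subgroup G}
    (hU : U.Normal) (r : MvPolynomial (Fin h) (ZMod 2)) :
    ∀ f : CC S B D, (∀ u ∈ U, rho u (f : Fn G D) = f) →
      ∀ u ∈ U, rho u (act L D r f : Fn G D) = act L D r f := by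
  induction r using MvPolynomial.induction_on with
  | C a =>
    intro f hf u hu
    have h1 : act L D (C a) f = a • f := by
      rw [← MvPolynomial.algebraMap_eq, AlgHom.commutes]
      rfl
    rw [h1]
    show rho u (a • (f : Fn G D)) = a • (f : Fn G D)
    rw [map_smul, hf u hu]
  | add p q hp hq =>
    intro f hf u hu
    rw [map_add]
    show rho u ((act L D p f : Fn G D) + (act L D q f : Fn G D)) = _
    rw [map_add, hp f hf u hu, hq f hf u hu]
    rfl
  | mul_X p i hp =>
    intro f hf u hu
    rw [map_mul, Module.End.mul_apply]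
    refine hp _ (fun v hv => ?_) u hu
    rw [act_X]
    show rho v (rho (L.y i) (f : Fn G D) + (f : Fn G D)) = rho (L.y i) (f : Fn G D) + (f : Fn G D)
    rw [map_add, hf v hv, Aux.rho_conj, hf _ (by simpa using hU.conj_mem v hv (L.y i)⁻¹)]

theorem act_rho {S : OSys G} {A B : Subgroup G} (L : Layer S A B h) {U : Subgroup G}
    (hU : U.Normal) (g : G) (P : Fin h → MvPolynomial (Fin h) (ZMod 2))
    (hP : ∀ i, ∀ f : CC S B D, (∀ u ∈ U, rho u (f : Fn G D) = f) →
      act L D (X i) (Aux.rhoC S L.nB D g f) = Aux.rhoC S L.nB D g (act L D (P i) f))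
    (r : MvPolynomial (Fin h) (ZMod 2)) :
    ∀ f : CC S B D, (∀ u ∈ U, rho u (f : Fn G D) = f) →
      act L D r (Aux.rhoC S L.nB D g f) = Aux.rhoC S L.nB D g (act L D (aeval P r) f) := by
  induction r using MvPolynomial.induction_on with
  | C a =>
    intro f _
    have h1 : ∀ f : CC S B D, act L D (C a) f = a • f := by
      intro f
      rw [← MvPolynomial.algebraMap_eq, AlgHom.commutes]
      rfl
    rw [MvPolynomial.aeval_C, MvPolynomial.algebraMap_eq, h1, h1, map_smul]
  | add p q hp hq =>
    intro f hf
    rw [map_add, map_add, map_add, LinearMap.add_apply, hp f hf, hq f hf, LinearMap.add_apply,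
      map_add]
  | mul_X p i hp =>
    intro f hf
    rw [map_mul, Module.End.mul_apply, hP i f hf, map_mul, aeval_X, map_mul, Module.End.mul_apply]
    exact hp _ (act_fixed L hU (P i) f hf)

/-- Leading term: the main step. -/
theorem exists_low {S : OSys G} {A B : Subgroup G} (L : Layer S A B h) (g : G) {f : Fn G D}
    (hf : f ∈ CC S B D) (e : Fin h → ℕ) : ∃ R : MvPolynomial (Fin h) (ZMod 2),
      Aux.Low (keyHom h) (Finsupp.equivFunOnFinite.symm e) R ∧
      dl D L.y e (rho g f) = rho g (act L D R ⟨f, hf⟩ : Fn G D) := by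
  obtain ⟨U, hU, hUn, hBU, h1⟩ := Aux.CC_exists_normal' L.nB hf
  choose m hm1 hm2 u hu hum using L.conj g U hU hUn hBU
  let P : Fin h → MvPolynomial (Fin h) (ZMod 2) := fun i => ∏ j, (1 + X j) ^ m i j + 1
  have hP : ∀ i, ∀ f : CC S B D, (∀ u ∈ U, rho u (f : Fn G D) = f) →
      act L D (X i) (Aux.rhoC S L.nB D g f) = Aux.rhoC S L.nB D g (act L D (P i) f) := by
    intro i f hf
    apply Subtype.ext
    rw [Aux.rhoC_val, act_X, map_add, map_one]
    show rho (L.y i) (rho g (f : Fn G D)) + rho g (f : Fn G D) =
      rho g ((act L D (∏ j, (1 + X j) ^ m i j) f : Fn G D) + (f : Fn G D))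
    rw [map_add, Aux.rho_conj, hum i, Aux.rho_mul, hf _ (hu i), act_prod]
  refine ⟨aeval P (mon e), ?_, ?_⟩
  · exact Aux.Low.aeval_monomial keyHom_injective P (fun i => low_conj _ i (hm1 i) (hm2 i)) _
  · have h2 := act_rho L hUn g P hP (mon e) ⟨f, hf⟩ h1
    have h3 := congrArg Subtype.val h2
    rw [Aux.rhoC_val, ← dl_eq_act] at h3
    exact h3

theorem act_eq_sum {S : OSys G} {A B : Subgroup G} (L : Layer S A B h)
    (R : MvPolynomial (Fin h) (ZMod 2)) {f : Fn G D} (hf : f ∈ CC S B D) :
    (act L D R ⟨f, hf⟩ : Fn G D) = ∑ d ∈ R.support, R.coeff d • dl D L.y d f := by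
  conv_lhs => rw [MvPolynomial.as_sum R]
  rw [map_sum, LinearMap.sum_apply, Submodule.coe_sum]
  refine Finset.sum_congr rfl fun d _ => ?_
  have h1 : monomial d (R.coeff d) = R.coeff d • mon (⇑d) := by
    have h2 : Finsupp.equivFunOnFinite.symm (⇑d) = d := Finsupp.equivFunOnFinite.symm_apply_apply d
    rw [mon, h2, smul_monomial, smul_eq_mul, mul_one]
  rw [h1, map_smul, LinearMap.smul_apply]
  show R.coeff d • (act L D (mon ⇑d) ⟨f, hf⟩ : Fn G D) = _
  rw [← dl_eq_act]

theorem dl_rho {S : OSys G} {A B : Subgroup G} (L : Layer S A B h) (g : G) (e : Fin h → ℕ)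
    {f : Fn G D} (hf : f ∈ CC S B D) (h0 : ∀ e', key e < key e' → dl D L.y e' f = 0) :
    dl D L.y e (rho g f) = rho g (dl D L.y e f) := by
  obtain ⟨R, hR, h1⟩ := exists_low L g hf e
  rw [h1, act_eq_sum]
  congr 1
  rw [Finset.sum_eq_single (Finsupp.equivFunOnFinite.symm e)]
  · rw [hR.1, one_smul]
    rfl
  · intro d hd hne
    rw [h0, smul_zero]
    have h2 := hR.2 d (MvPolynomial.mem_support_iff.1 hd)
    refine lt_of_le_of_ne h2 ?_
    intro h3
    exact hne (keyHom_injective h3.symm)
  · intro hd
    rw [MvPolynomial.notMem_support_iff.1 hd, zero_smul]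

theorem dl_rho_zero {S : OSys G} {A B : Subgroup G} (L : Layer S A B h) (g : G) (e : Fin h → ℕ)
    {f : Fn G D} (hf : f ∈ CC S B D) (h0 : ∀ e', key e < key e' → dl D L.y e' f = 0) :
    ∀ e', key e < key e' → dl D L.y e' (rho g f) = 0 := by
  intro e' he'
  obtain ⟨R, hR, h1⟩ := exists_low L g hf e'
  rw [h1, act_eq_sum, Finset.sum_eq_zero, map_zero]
  intro d hd
  have h2 : key e' ≤ key d := hR.2 d (MvPolynomial.mem_support_iff.1 hd)
  rw [h0 _ (he'.trans_le h2), smul_zero]

end Pool.Agent.EP
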