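import Pool.Agent.EP.LC

/-!
# Exact pairs: the box count (MP_2429c0, section 2 (e))

Let `c` be a truncation level for `Y` and `Y'` (`hc`, `hc'`), `Y_∞ = lc L Y (fun _ => c)`.  Let `2 ^ n ≥ c`, `ε > 0`.
For `e : Fin h → ℕ` put `S_e = Y'_e ∩ ⋂_{i : 2 ^ n ≤ e i} Y_{e - 2 ^ n 1_i}` (`≥ Y_e` by `lc_anti`), stable.
(1) If some `e i ≥ 2 ^ n + c` then `S_e ≤ Y_e` (truncation: `Y_{e - 2 ^ n 1_i} = Y_e`).
(2) `rk S A Y_e S_e ≤ D` always (`hA.rank`), and for `c ≤ e i < 2 ^ n` it is `rk S A Y_∞ Y'_∞`.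
(3) `exists_common` (for `A`) gives an open normal `V ≥ A` with `ratio Y_e S_e U ≤ rk S A Y_e S_e + ε` for all `e` in the
    box, `U ≤ V` open.  `L.box n V` gives `U`; `U.index = (U ⊔ A).index * 2 ^ (n * h)`.
(4) `filt` with `Y`, `Z = inv Y Y' U`, `T` = box: `ln Y Z ≤ ∑_{e ∈ T} ln Y_e Z_e`, and `Z_e ≤ inv Y_e S_e (U ⊔ A)`.
(5) Divide by `U.index` and let `n → ∞`.
-/

open scoped ENNReal

namespace Pool.Agent.EP

variable {G : Type*} [Group G] {D h : ℕ}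

namespace CountAux

/-- The space `S_e` of possible leading coefficients. -/
noncomputable def SS {S : OSys G} {A B : Subgroup G} (L : Layer S A B h) (n : ℕ)
    (Y Y' : Submodule (ZMod 2) (Fn G D)) (e : Fin h → ℕ) : Submodule (ZMod 2) (Fn G D) :=
  lc L Y' e ⊓ ⨅ i : {i : Fin h // 2 ^ n ≤ e i}, lc L Y (e - Pi.single i.1 (2 ^ n))

variable {S : OSys G} {A B : Subgroup G} (L : Layer S A B h)
  {Y Y' : Submodule (ZMod 2) (Fn G D)}

lemma SS_stable (hs : Stable Y) (hs' : Stable Y') (hY : Y ≤ CC S B D) (hY' : Y' ≤ CC S B D)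
    (n : ℕ) (e : Fin h → ℕ) : Stable (SS L n Y Y' e) := by
  intro g f hf
  refine ⟨lc_stable L hs' hY' e g f hf.1, ?_⟩
  have h2 := hf.2
  rw [SetLike.mem_coe, Submodule.mem_iInf] at h2 ⊢
  exact fun i => lc_stable L hs hY _ g f (h2 i)

lemma le_SS (hs : Stable Y) (hle : Y ≤ Y') (hY : Y ≤ CC S B D) (n : ℕ) (e : Fin h → ℕ) :
    lc L Y e ≤ SS L n Y Y' e :=
  le_inf (lc_mono L hle e) (le_iInf fun _ => lc_anti L hs hY tsub_le_self)

lemma SS_le_CC (hY' : Y' ≤ CC S B D) (n : ℕ) (e : Fin h → ℕ) : SS L n Y Y' e ≤ CC S A D :=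
  inf_le_left.trans (lc_le L hY' e)

lemma SS_big {c : ℕ}
    (hc : ∀ c', c ≤ c' → ∀ e : Fin h → ℕ, lc L Y e = lc L Y (fun i => min (e i) c'))
    (n : ℕ) (e : Fin h → ℕ) (i : Fin h) (hi : 2 ^ n + c ≤ e i) : SS L n Y Y' e ≤ lc L Y e := by
  refine inf_le_right.trans ((iInf_le _ ⟨i, by omega⟩).trans (le_of_eq ?_))
  rw [hc c le_rfl (e - Pi.single i (2 ^ n)), hc c le_rfl e]
  have hpos : 0 < 2 ^ n := Nat.two_pow_pos n
  congr 1
  funext j
  by_cases hj : j = i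
  · subst hj
    rw [Pi.sub_apply, Pi.single_eq_same, min_eq_right (by omega), min_eq_right (by omega)]
  · rw [Pi.sub_apply, Pi.single_eq_of_ne hj, Nat.sub_zero]

lemma lc_good {c : ℕ}
    (hc : ∀ c', c ≤ c' → ∀ e : Fin h → ℕ, lc L Y e = lc L Y (fun i => min (e i) c'))
    (e : Fin h → ℕ) (he : ∀ i, c ≤ e i) : lc L Y e = lc L Y fun _ => c := by
  rw [hc c le_rfl e]
  congr 1
  funext i
  exact min_eq_right (he i)

lemma SS_good {c : ℕ}
    (hc' : ∀ c', c ≤ c' → ∀ e : Fin h → ℕ, lc L Y' e = lc L Y' (fun i => min (e i) c'))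
    (n : ℕ) (e : Fin h → ℕ) (he : ∀ i, c ≤ e i ∧ e i < 2 ^ n) :
    SS L n Y Y' e = lc L Y' fun _ => c := by
  have : IsEmpty {i : Fin h // 2 ^ n ≤ e i} := ⟨fun ⟨i, hi⟩ => by have := (he i).2; omega⟩
  rw [SS, iInf_of_empty, inf_top_eq]
  exact lc_good L hc' e fun i => (he i).1

/-- The leading coefficients of the invariants. -/
lemma lcs_inv_le (hY' : Y' ≤ CC S B D) (n : ℕ) (U : Subgroup G) (hUn : U.Normal)
    (hy : ∀ i, L.y i ^ 2 ^ n ∈ U) (e : Fin h → ℕ) :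
    lcs (dl D L.y) key (inv Y Y' U) e ≤ inv (lc L Y e) (SS L n Y Y' e) (U ⊔ A) := by
  rintro _ ⟨f, ⟨hfZ, hfF⟩, rfl⟩
  have hf : f ∈ CC S B D := hY' hfZ.1
  have hF' : ∀ e', key e < key e' → dl D L.y e' f = 0 := hfF
  have hgY' : dl D L.y e f ∈ lc L Y' e := ⟨f, ⟨hfZ.1, hfF⟩, rfl⟩
  have hgCC : dl D L.y e f ∈ CC S A D := lc_le L hY' e hgY'
  constructor
  · refine ⟨hgY', ?_⟩
    rw [SetLike.mem_coe, Submodule.mem_iInf]
    rintro ⟨i, hi⟩
    have hs : (e - Pi.single i (2 ^ n)) + Pi.single i (2 ^ n) = e := by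
      funext j
      by_cases hj : j = i
      · subst hj
        rw [Pi.add_apply, Pi.sub_apply, Pi.single_eq_same]
        omega
      · rw [Pi.add_apply, Pi.sub_apply, Pi.single_eq_of_ne hj]
        omega
    have hd : dl D L.y (Pi.single i (2 ^ n)) f ∈ Y := by
      rw [dl_single_two_pow]
      exact hfZ.2 _ (hy i)
    refine ⟨dl D L.y (Pi.single i (2 ^ n)) f, ⟨hd, ?_⟩, ?_⟩
    · intro e' he'
      rw [← dl_add L e' _ hf]
      apply hF'
      have := key_add_lt_add_left (Pi.single i (2 ^ n)) he'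
      rw [add_comm, hs, add_comm _ e'] at this
      exact this
    · rw [← dl_add L _ _ hf, hs]
  · intro u1 hu1
    have hu2 : u1 ∈ ((U ⊔ A : Subgroup G) : Set G) := hu1
    rw [Subgroup.normal_mul] at hu2
    obtain ⟨u, hu, a, ha, rfl⟩ := hu2
    show rho (u * a) (dl D L.y e f) - dl D L.y e f ∈ lc L Y e
    rw [rho_mul, hgCC.2 a ha]
    refine ⟨rho u f - f, ⟨hfZ.2 u hu, ?_⟩, ?_⟩
    · intro e' he'
      rw [map_sub, dl_rho_zero L u e hf hF' e' he', hF' e' he', sub_zero]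
    · rw [map_sub, dl_rho L u e hf hF']

/-- The box of exponents. -/
def bx (h n c : ℕ) : Finset (Fin h → ℕ) := Fintype.piFinset fun _ => Finset.range (2 ^ n + c)

/-- The good exponents. -/
def gd (h n c : ℕ) : Finset (Fin h → ℕ) := Fintype.piFinset fun _ => Finset.Ico c (2 ^ n)

lemma card_bx (h n c : ℕ) : (bx h n c).card = (2 ^ n + c) ^ h := by
  simp [bx]

lemma card_gd (h n c : ℕ) : (gd h n c).card = (2 ^ n - c) ^ h := by
  simp [gd]

lemma gd_subset (h n c : ℕ) : gd h n c ⊆ bx h n c := by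
  intro e he
  rw [gd, Fintype.mem_piFinset] at he
  rw [bx, Fintype.mem_piFinset]
  intro i
  have := Finset.mem_Ico.1 (he i)
  exact Finset.mem_range.2 (by omega)

lemma coe_sum (T : Finset (Fin h → ℕ)) (a : (Fin h → ℕ) → ℕ∞) :
    ((∑ e ∈ T, a e : ℕ∞) : ℝ≥0∞) = ∑ e ∈ T, ((a e : ℕ∞) : ℝ≥0∞) := by
  classical
  induction T using Finset.induction_on with
  | empty => simp
  | insert x T hx ih => rw [Finset.sum_insert hx, Finset.sum_insert hx, ENat.toENNReal_add, ih]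

/-- The estimate for one box. -/
lemma bound (hA : TT S A) (hs : Stable Y) (hs' : Stable Y') (hle : Y ≤ Y')
    (hY' : Y' ≤ CC S B D) (c : ℕ)
    (hc : ∀ c', c ≤ c' → ∀ e : Fin h → ℕ, lc L Y e = lc L Y (fun i => min (e i) c'))
    (n : ℕ) (ε : ℝ≥0∞) (hε : ε ≠ 0) :
    rk S B Y Y' ≤ (∑ e ∈ bx h n c, (rk S A (lc L Y e) (SS L n Y Y' e) + ε)) / (2 ^ (n * h)) := by
  have hY : Y ≤ CC S B D := hle.trans hY'
  obtain ⟨V, hV1, hV2, hV3, hV4⟩ := exists_common S A (bx h n c) (fun e => lc L Y e)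
    (fun e => SS L n Y Y' e) (fun e => lc_stable L hs hY e)
    (fun e => SS_stable L hs hs' hY hY' n e) (fun e => le_SS L hs hle hY n e)
    (fun e _ => by
      obtain ⟨a, b, -, -, -, -, h6⟩ := hA.rank D (lc L Y e) (SS L n Y Y' e)
        (lc_stable L hs hY e) (SS_stable L hs hs' hY hY' n e) (le_SS L hs hle hY n e)
        (SS_le_CC L hY' n e)
      show rk S A (lc L Y e) (SS L n Y Y' e) ≠ ⊤
      rw [h6]
      exact ENNReal.natCast_ne_top _) ε hε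
  obtain ⟨U, hU1, hU2, hU3, hU4, hU5, hU6⟩ := L.box n V hV1 hV2 hV3
  have hop : S.Op (U ⊔ A) := S.up U _ hU1 le_sup_left
  have hUV : U ⊔ A ≤ V := sup_le hU4 hV3
  refine (rk_le_ratio S B hs hs' hle hU1 hU2 hU3).trans ?_
  have hYZ : Y ≤ inv Y Y' U := fun f hf => ⟨hle hf, fun u _ => Y.sub_mem (hs u f hf) hf⟩
  have hZ : inv Y Y' U ≤ CC S B D := fun f hf => hY' hf.1
  have key1 : ln Y (inv Y Y' U) ≤
      ∑ e ∈ bx h n c, ln (lc L Y e) (inv (lc L Y e) (SS L n Y Y' e) (U ⊔ A)) := by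
    refine (filt (dl D L.y) key key_injective (CC S B D) (fun f hf => dl_support L hf) ?_ Y
      (inv Y Y' U) hYZ hZ (bx h n c) ?_).trans ?_
    · intro f _ h0
      rw [← dl_zero L.y f]
      exact h0 0
    · intro e he
      obtain ⟨i, hi⟩ : ∃ i, 2 ^ n + c ≤ e i := by
        by_contra hcon
        push Not at hcon
        exact he (Fintype.mem_piFinset.2 fun i => Finset.mem_range.2 (hcon i))
      refine (lcs_inv_le L hY' n U hU2 hU5 e).trans ?_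
      intro f hf
      exact SS_big L hc n e i hi hf.1
    · exact Finset.sum_le_sum fun e _ => ln_mono_right (lcs_inv_le L hY' n U hU2 hU5 e)
  have hidx : ((U ⊔ A).index : ℝ≥0∞) ≠ 0 := by
    obtain ⟨m, hm⟩ := S.idx _ hop
    rw [hm]
    simp
  have hratio : ratio Y Y' U ≤
      (∑ e ∈ bx h n c, ratio (lc L Y e) (SS L n Y Y' e) (U ⊔ A)) / (2 ^ (n * h)) := by
    have e1 : (∑ e ∈ bx h n c, ratio (lc L Y e) (SS L n Y Y' e) (U ⊔ A)) / (2 ^ (n * h)) =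
        ((∑ e ∈ bx h n c, ln (lc L Y e) (inv (lc L Y e) (SS L n Y Y' e) (U ⊔ A)) : ℕ∞) : ℝ≥0∞) /
          (U.index : ℝ≥0∞) := by
      rw [coe_sum, hU6]
      push_cast
      simp only [ratio, div_eq_mul_inv]
      rw [← Finset.sum_mul, mul_assoc, ENNReal.mul_inv (Or.inl hidx)
        (Or.inl (ENNReal.natCast_ne_top _))]
    rw [e1, ratio]
    exact ENNReal.div_le_div_right (ENat.toENNReal_le.2 key1) _
  refine hratio.trans (ENNReal.div_le_div_right (Finset.sum_le_sum fun e he => ?_) _)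
  exact hV4 e he (U ⊔ A) hop hUV

/-- The count for one box, in terms of natural numbers. -/
lemma bound2 (hA : TT S A) (hs : Stable Y) (hs' : Stable Y') (hle : Y ≤ Y')
    (hY' : Y' ≤ CC S B D) (c : ℕ)
    (hc : ∀ c', c ≤ c' → ∀ e : Fin h → ℕ, lc L Y e = lc L Y (fun i => min (e i) c'))
    (hc' : ∀ c', c ≤ c' → ∀ e : Fin h → ℕ, lc L Y' e = lc L Y' (fun i => min (e i) c'))
    (k : ℕ) (hk : rk S A (lc L Y fun _ => c) (lc L Y' fun _ => c) = (k : ℝ≥0∞)) (n : ℕ) :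
    rk S B Y Y' ≤ ENNReal.ofReal
      ((((2 : ℝ) ^ n) ^ h * k + (((2 : ℝ) ^ n + c) ^ h - ((2 ^ n - c : ℕ) : ℝ) ^ h) * D +
        ((2 : ℝ) ^ n + c) ^ h * (2 ^ n)⁻¹) / ((2 : ℝ) ^ n) ^ h) := by
  have hY : Y ≤ CC S B D := hle.trans hY'
  set ε : ℝ≥0∞ := ENNReal.ofReal ((2 ^ n)⁻¹ : ℝ) with hε
  have hε0 : ε ≠ 0 := by
    rw [hε]
    simp
  refine (bound L hA hs hs' hle hY' c hc n ε hε0).trans ?_
  have hsub := gd_subset h n c
  have hcard : (gd h n c).card ≤ (bx h n c).card := Finset.card_le_card hsub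
  have hgood : ∀ e ∈ gd h n c, rk S A (lc L Y e) (SS L n Y Y' e) = (k : ℝ≥0∞) := by
    intro e he
    rw [gd, Fintype.mem_piFinset] at he
    have he' : ∀ i, c ≤ e i ∧ e i < 2 ^ n := fun i => Finset.mem_Ico.1 (he i)
    rw [SS_good L hc' n e he', lc_good L hc e fun i => (he' i).1, hk]
  have hbad : ∀ e, rk S A (lc L Y e) (SS L n Y Y' e) ≤ (D : ℝ≥0∞) := by
    intro e
    obtain ⟨a, b, -, h2, -, -, h6⟩ := hA.rank D (lc L Y e) (SS L n Y Y' e)
        (lc_stable L hs hY e) (SS_stable L hs hs' hY hY' n e) (le_SS L hs hle hY n e)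
        (SS_le_CC L hY' n e)
    rw [h6]
    exact_mod_cast (Nat.sub_le b a).trans h2
  have hsum : ∑ e ∈ bx h n c, (rk S A (lc L Y e) (SS L n Y Y' e) + ε) ≤
      ENNReal.ofReal (((2 : ℝ) ^ n) ^ h * k +
        (((2 : ℝ) ^ n + c) ^ h - ((2 ^ n - c : ℕ) : ℝ) ^ h) * D +
        ((2 : ℝ) ^ n + c) ^ h * (2 ^ n)⁻¹) := by
    have h1 : ∑ e ∈ bx h n c, rk S A (lc L Y e) (SS L n Y Y' e) ≤
        (((gd h n c).card * k + ((bx h n c).card - (gd h n c).card) * D : ℕ) : ℝ≥0∞) := by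
      rw [← Finset.sum_sdiff hsub]
      have h2 : ∑ e ∈ bx h n c \ gd h n c, rk S A (lc L Y e) (SS L n Y Y' e) ≤
          ((((bx h n c).card - (gd h n c).card) * D : ℕ) : ℝ≥0∞) := by
        refine (Finset.sum_le_card_nsmul _ _ _ fun e _ => hbad e).trans ?_
        rw [Finset.card_sdiff_of_subset hsub, nsmul_eq_mul]
        exact_mod_cast le_rfl
      have h3 : ∑ e ∈ gd h n c, rk S A (lc L Y e) (SS L n Y Y' e) =
          (((gd h n c).card * k : ℕ) : ℝ≥0∞) := by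
        rw [Finset.sum_congr rfl hgood, Finset.sum_const, nsmul_eq_mul]
        push_cast
        rfl
      rw [h3, add_comm, Nat.cast_add]
      exact add_le_add le_rfl h2
    rw [Finset.sum_add_distrib, Finset.sum_const, nsmul_eq_mul]
    have h4 : ((bx h n c).card : ℝ≥0∞) * ε =
        ENNReal.ofReal (((2 : ℝ) ^ n + c) ^ h * (2 ^ n)⁻¹) := by
      rw [hε, ENNReal.ofReal_mul (by positivity), card_bx]
      congr 1
      rw [← ENNReal.ofReal_natCast]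
      push_cast
      rfl
    rw [h4]
    have h5 : (0 : ℝ) ≤ (((2 : ℝ) ^ n + c) ^ h - ((2 ^ n - c : ℕ) : ℝ) ^ h) * D := by
      apply mul_nonneg _ (Nat.cast_nonneg _)
      rw [sub_nonneg]
      apply pow_le_pow_left₀ (Nat.cast_nonneg _)
      have h6 : (2 ^ n - c : ℕ) ≤ 2 ^ n + c := (Nat.sub_le _ _).trans (Nat.le_add_right _ _)
      calc ((2 ^ n - c : ℕ) : ℝ) ≤ ((2 ^ n + c : ℕ) : ℝ) := by exact_mod_cast h6
        _ = 2 ^ n + c := by push_cast; ring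
    rw [ENNReal.ofReal_add (by positivity) (by positivity)]
    refine add_le_add (h1.trans ?_) le_rfl
    rw [← ENNReal.ofReal_natCast]
    apply ENNReal.ofReal_le_ofReal
    rw [card_bx, card_gd] at hcard ⊢
    push_cast [Nat.cast_sub hcard]
    gcongr
    have h7 : (2 ^ n - c : ℕ) ≤ 2 ^ n := Nat.sub_le _ _
    calc ((2 ^ n - c : ℕ) : ℝ) ≤ ((2 ^ n : ℕ) : ℝ) := by exact_mod_cast h7
      _ = 2 ^ n := by push_cast; ring
  have h8 : (2 : ℝ≥0∞) ^ (n * h) = ENNReal.ofReal (((2 : ℝ) ^ n) ^ h) := by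
    rw [ENNReal.ofReal_pow (by positivity), ENNReal.ofReal_pow (by positivity), pow_mul]
    simp
  rw [h8, ENNReal.ofReal_div_of_pos (by positivity)]
  exact ENNReal.div_le_div_right hsum _

lemma lim_aux (c k D h : ℕ) : Filter.Tendsto (fun n : ℕ =>
      ((((2 : ℝ) ^ n) ^ h * k + (((2 : ℝ) ^ n + c) ^ h - ((2 ^ n - c : ℕ) : ℝ) ^ h) * D +
        ((2 : ℝ) ^ n + c) ^ h * (2 ^ n)⁻¹) / ((2 : ℝ) ^ n) ^ h)) Filter.atTop
      (nhds (k : ℝ)) := by
  have h1 : Filter.Tendsto (fun n : ℕ => ((2 : ℝ) ^ n)⁻¹) Filter.atTop (nhds 0) := by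
    have := tendsto_pow_atTop_nhds_zero_of_lt_one (r := (1 / 2 : ℝ)) (by norm_num) (by norm_num)
    refine this.congr fun n => ?_
    rw [one_div, inv_pow]
  have h2 : Filter.Tendsto (fun n : ℕ => (k : ℝ) +
      ((1 + c * ((2 : ℝ) ^ n)⁻¹) ^ h - (1 - c * ((2 : ℝ) ^ n)⁻¹) ^ h) * D +
      (1 + c * ((2 : ℝ) ^ n)⁻¹) ^ h * ((2 : ℝ) ^ n)⁻¹) Filter.atTop
      (nhds ((k : ℝ) + ((1 + c * 0) ^ h - (1 - c * 0) ^ h) * D + (1 + c * 0) ^ h * 0)) := by
    have h3 : Filter.Tendsto (fun n : ℕ => (1 + c * ((2 : ℝ) ^ n)⁻¹) ^ h) Filter.atTop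
        (nhds ((1 + c * 0) ^ h)) := (tendsto_const_nhds.add (h1.const_mul _)).pow h
    have h4 : Filter.Tendsto (fun n : ℕ => (1 - c * ((2 : ℝ) ^ n)⁻¹) ^ h) Filter.atTop
        (nhds ((1 - c * 0) ^ h)) := (tendsto_const_nhds.sub (h1.const_mul _)).pow h
    exact (tendsto_const_nhds.add ((h3.sub h4).mul_const _)).add (h3.mul h1)
  have h5 : (k : ℝ) + ((1 + c * 0) ^ h - (1 - c * 0) ^ h) * D + (1 + c * 0) ^ h * 0 = k := by
    simp
  rw [h5] at h2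
  refine h2.congr' ?_
  filter_upwards [Filter.eventually_ge_atTop c] with n hn
  have h6 : c ≤ 2 ^ n := hn.trans Nat.lt_two_pow_self.le
  have h7 : ((2 ^ n - c : ℕ) : ℝ) = 2 ^ n - c := by
    rw [Nat.cast_sub h6]; push_cast; ring
  have h8 : ((2 : ℝ) ^ n) ≠ 0 := by positivity
  rw [h7, add_div, add_div, mul_div_cancel_left₀ _ (pow_ne_zero h h8)]
  have h9 : ((2 : ℝ) ^ n + c) ^ h / ((2 : ℝ) ^ n) ^ h = (1 + c * ((2 : ℝ) ^ n)⁻¹) ^ h := by
    rw [← div_pow]; congr 1; field_simp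
  have h10 : ((2 : ℝ) ^ n - c) ^ h / ((2 : ℝ) ^ n) ^ h = (1 - c * ((2 : ℝ) ^ n)⁻¹) ^ h := by
    rw [← div_pow]; congr 1; field_simp
  rw [← h9, ← h10]
  ring

end CountAux

open CountAux

theorem count {S : OSys G} {A B : Subgroup G} (L : Layer S A B h) (hA : TT S A)
    {Y Y' : Submodule (ZMod 2) (Fn G D)} (hs : Stable Y) (hs' : Stable Y') (hle : Y ≤ Y')
    (hY' : Y' ≤ CC S B D) (c : ℕ)
    (hc : ∀ c', c ≤ c' → ∀ e : Fin h → ℕ, lc L Y e = lc L Y (fun i => min (e i) c'))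
    (hc' : ∀ c', c ≤ c' → ∀ e : Fin h → ℕ, lc L Y' e = lc L Y' (fun i => min (e i) c')) :
    rk S B Y Y' ≤ rk S A (lc L Y fun _ => c) (lc L Y' fun _ => c) := by
  have hY : Y ≤ CC S B D := hle.trans hY'
  obtain ⟨a, b, -, -, -, -, h6⟩ := hA.rank D (lc L Y fun _ => c) (lc L Y' fun _ => c)
        (lc_stable L hs hY _) (lc_stable L hs' hY' _) (lc_mono L hle _) (lc_le L hY' _)
  rw [h6]
  have h1 := (ENNReal.continuous_ofReal.tendsto _).comp (lim_aux c (b - a) D h)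
  rw [ENNReal.ofReal_natCast] at h1
  exact ge_of_tendsto' h1 fun n => bound2 L hA hs hs' hle hY' c hc hc' (b - a) h6 n

end Pool.Agent.EP
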