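import Pool.Agent.EP.KX

/-!
# Exact pairs: the cyclotomic tower and the data of section 4 (MP_2429c0)

`cyc`: some root of unity of 2-power order is not in `F`.  `ζ n` as in `KX`, `i = ζ 2 ∈ F`; `s ≥ 2` largest with `ζ s ∈ F`.
`Gl l` = stabiliser of `ζ (s + l)` (normal: it is the kernel of the action on the group generated by `ζ (s + l)`), `γ` with
`γ (ζ (s + 1)) ≠ ζ (s + 1)`.  `γ (ζ (s + l)) = ζ (s + l) ^ c` with `c ≡ 1` modulo `2 ^ s`, not modulo `2 ^ (s + 1)`, `s ≥ 2`, so `γ` has order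
exactly `2 ^ l` on `ζ (s + l)`; the orbit of `ζ (s + l)` is contained in the `2 ^ l` elements `ζ (s + l) ^ (1 + 2 ^ s j)`; so
`Gl l` has index `2 ^ l` and `⟨γ⟩ Gl l = ⊤`.  (Compare `cyc_layer`, `ladder` in `KumLayer`.)  `cof`: `U` open, `Amu ≤ U`: the fixed field
of `U` is finite over `F` and fixed by `Amu`, so contained in `F(all ζ n)`, hence in `F(ζ n)` for some `n`, and
`Gl n ≤ Gal(Ω / F(ζ n)) ≤ U`; or by compactness.
`exists_data4`: if all `ζ n ∈ F` then `Amu = ⊤`; `kummer_xh`, `XH.basis` give `x' : G → Z_2 ^ h'` onto with kernel `NN ⊥ ≠ ⊤` (a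
nonsquare), so `h' = h + 1`, use `data4_of_abelian`.  Otherwise `A = Amu`, `Gl`, `γ` from `cyc`, `x` from `XH.basis`.
-/

universe u

namespace Pool.Agent.EP

open Pool.Agent.Hhelper2

variable {F Ω : Type u} [Field F] [Field Ω] [Algebra F Ω]

namespace CycAux

/-- A compatible system of roots of unity starting at `-1`. -/
theorem exists_z [QC F Ω] : ∃ z : ℕ → Ω, z 0 = -1 ∧ ∀ n, z (n + 1) ^ 2 = z n := by
  choose f hf using (QC.sq (F := F) : ∀ x : Ω, ∃ y, y ^ 2 = x)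
  exact ⟨fun n => Nat.rec (-1) (fun _ y => f y) n, rfl, fun n => hf _⟩

section
variable {z : ℕ → Ω}

theorem z_pow (hz0 : z 0 = -1) (hz : ∀ n, z (n + 1) ^ 2 = z n) (n : ℕ) : z n ^ 2 ^ n = -1 := by
  induction n with
  | zero => rw [pow_zero, pow_one, hz0]
  | succ n ih => rw [pow_succ', pow_mul, hz, ih]

theorem z_down (hz : ∀ n, z (n + 1) ^ 2 = z n) (n k : ℕ) : z (n + k) ^ 2 ^ k = z n := by
  induction k with
  | zero => rw [pow_zero, pow_one, add_zero]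
  | succ k ih => rw [pow_succ', pow_mul, ← add_assoc, hz, ih]

theorem z_prim (h2 : (2 : Ω) ≠ 0) (hz0 : z 0 = -1) (hz : ∀ n, z (n + 1) ^ 2 = z n) (n : ℕ) :
    IsPrimitiveRoot (z n) (2 ^ (n + 1)) := by
  have h1 := z_pow hz0 hz n
  have hp : Fact (Nat.Prime 2) := ⟨Nat.prime_two⟩
  have h3 : orderOf (z n) = 2 ^ (n + 1) := by
    apply orderOf_eq_prime_pow
    · rw [h1]
      intro h
      apply h2
      have : (1 : Ω) + 1 = 0 := by
        nth_rewrite 1 [← h]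
        ring
      rw [← one_add_one_eq_two]
      exact this
    · rw [pow_succ, pow_mul, h1]
      norm_num
  rw [← h3]
  exact IsPrimitiveRoot.orderOf _

theorem root_eq (h2 : (2 : Ω) ≠ 0) (hz0 : z 0 = -1) (hz : ∀ n, z (n + 1) ^ 2 = z n) (n : ℕ)
    {x : Ω} (hx : x ^ 2 ^ (n + 1) = 1) : ∃ k : ℕ, z n ^ k = x := by
  have : NeZero (2 ^ (n + 1)) := ⟨by positivity⟩
  obtain ⟨k, -, hk⟩ := (z_prim h2 hz0 hz n).eq_pow_of_pow_eq_one hx
  exact ⟨k, hk⟩

theorem neg_ne (h2 : (2 : Ω) ≠ 0) {x : Ω} (hx : x ≠ 0) : -x ≠ x := by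
  intro h
  have : 2 * x = 0 := by linear_combination -h
  rcases mul_eq_zero.1 this with h3 | h3
  · exact h2 h3
  · exact hx h3

theorem z_ne (hz0 : z 0 = -1) (hz : ∀ n, z (n + 1) ^ 2 = z n) (n : ℕ) : z n ≠ 0 := by
  intro h
  have h1 := z_pow hz0 hz n
  rw [h, zero_pow (by positivity)] at h1
  exact absurd h1.symm (neg_ne_zero.2 one_ne_zero)

end

/-- The stabiliser of an element. -/
def St1 (x : Ω) : Subgroup (Ω ≃ₐ[F] Ω) where
  carrier := {σ | σ x = x}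
  one_mem' := rfl
  mul_mem' := by
    intro σ τ hσ hτ
    show σ (τ x) = x
    rw [show τ x = x from hτ, show σ x = x from hσ]
  inv_mem' := by
    intro σ hσ
    show σ.symm x = x
    rw [AlgEquiv.symm_apply_eq]
    exact (show σ x = x from hσ).symm

theorem mem_St1 (x : Ω) (σ : Ω ≃ₐ[F] Ω) : σ ∈ St1 x ↔ σ x = x := Iff.rfl

theorem two_Ω (h2 : (2 : F) ≠ 0) : (2 : Ω) ≠ 0 := by
  have h : algebraMap F Ω 2 ≠ 0 := (map_ne_zero _).2 h2
  rwa [map_ofNat] at h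

end CycAux

open CycAux

theorem cyc [QC F Ω] (h2 : (2 : F) ≠ 0) (hi : ∃ i : F, i ^ 2 = -1) (hA : Amu F Ω ≠ ⊤) :
    ∃ (Gl : ℕ → Subgroup (Ω ≃ₐ[F] Ω)) (γ : Ω ≃ₐ[F] Ω),
      (∀ l, (galS F Ω).Op (Gl l)) ∧ (∀ l, (Gl l).Normal) ∧ (∀ l, (Gl l).index = 2 ^ l) ∧
      (∀ l, Gl (l + 1) ≤ Gl l) ∧ (∀ l, Amu F Ω ≤ Gl l) ∧
      (∀ U, (galS F Ω).Op U → Amu F Ω ≤ U → ∃ l, Gl l ≤ U) ∧
      ∀ l, Subgroup.zpowers γ ⊔ Gl l = ⊤ := by
  classical
  have h2' : (2 : Ω) ≠ 0 := two_Ω h2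
  obtain ⟨i₀, hi₀⟩ := hi
  set i : Ω := algebraMap F Ω i₀ with hidef
  have hi2 : i ^ 2 = -1 := by
    rw [hidef, ← map_pow, hi₀, map_neg, map_one]
  have hifix : ∀ σ : Ω ≃ₐ[F] Ω, σ i = i := fun σ => σ.commutes i₀
  obtain ⟨z, hz0, hz⟩ := exists_z (F := F) (Ω := Ω)
  -- membership in `Amu`
  have hAmu : ∀ σ : Ω ≃ₐ[F] Ω, (∀ n, σ (z n) = z n) → σ ∈ Amu F Ω := by
    intro σ hσ x n hx
    obtain ⟨k, rfl⟩ := root_eq h2' hz0 hz n (show x ^ 2 ^ (n + 1) = 1 by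
      rw [pow_succ, pow_mul, hx, one_pow])
    rw [map_pow, hσ]
  have hAmu' : ∀ σ ∈ Amu F Ω, ∀ n, σ (z n) = z n := fun σ hσ n =>
    hσ (z n) (n + 1) (z_prim h2' hz0 hz n).pow_eq_one
  have hex : ∃ n, ∃ σ : Ω ≃ₐ[F] Ω, σ (z n) ≠ z n := by
    by_contra hcon
    push Not at hcon
    exact hA (top_le_iff.1 fun σ _ => hAmu σ fun n => hcon n σ)
  obtain ⟨γ, hγ⟩ := Nat.find_spec hex
  have hmin : ∀ m, m < Nat.find hex → ∀ σ : Ω ≃ₐ[F] Ω, σ (z m) = z m := by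
    intro m hm σ
    by_contra h
    exact Nat.find_min hex hm ⟨σ, h⟩
  obtain ⟨s, hs⟩ : ∃ s, Nat.find hex = s + 1 := by
    rcases Nat.eq_zero_or_pos (Nat.find hex) with h | h
    · exfalso
      rw [h, hz0, map_neg, map_one] at hγ
      exact hγ rfl
    · exact ⟨Nat.find hex - 1, by omega⟩
  rw [hs] at hγ hmin
  have hsfix : ∀ σ : Ω ≃ₐ[F] Ω, σ (z s) = z s := hmin s (by omega)
  -- the key property of `γ`
  have hK : ∀ k, (γ ^ 2 ^ k : Ω ≃ₐ[F] Ω) (z (s + 1 + k)) = -z (s + 1 + k) := by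
    intro k
    induction k with
    | zero =>
      rw [pow_zero, pow_one, add_zero]
      refine (sq_eq_sq_iff_eq_or_eq_neg.1 ?_).resolve_left hγ
      rw [← map_pow, hz]
      exact hsfix γ
    | succ k ih =>
      set b : Ω ≃ₐ[F] Ω := γ ^ 2 ^ k with hb
      set w := z (s + 1 + (k + 1)) with hw
      have hw2 : w ^ 2 = z (s + 1 + k) := hz _
      have h1 : (b w) ^ 2 = (i * w) ^ 2 := by
        rw [← map_pow, hw2, ih, mul_pow, hi2, hw2, neg_one_mul]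
      have h3 : (γ ^ 2 ^ (k + 1) : Ω ≃ₐ[F] Ω) = b * b := by
        rw [hb, ← pow_add]
        congr 1
        ring
      rw [h3, AlgEquiv.mul_apply]
      rcases sq_eq_sq_iff_eq_or_eq_neg.1 h1 with h4 | h4
      · rw [h4, map_mul, hifix b, h4, ← mul_assoc, ← pow_two, hi2, neg_one_mul]
      · rw [h4, map_neg, map_mul, hifix b, h4, mul_neg, neg_neg, ← mul_assoc, ← pow_two, hi2,
          neg_one_mul]
  have hstep : ∀ l, ∀ σ : Ω ≃ₐ[F] Ω, σ (z (s + l)) = z (s + l) →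
      σ (z (s + (l + 1))) = z (s + (l + 1)) ∨ σ (z (s + (l + 1))) = -z (s + (l + 1)) := by
    intro l σ hσ
    apply sq_eq_sq_iff_eq_or_eq_neg.1
    rw [← map_pow, show s + (l + 1) = (s + l) + 1 by omega, hz, hσ]
  have hK' : ∀ l, (γ ^ 2 ^ l : Ω ≃ₐ[F] Ω) (z (s + (l + 1))) = -z (s + (l + 1)) := by
    intro l
    have := hK l
    rwa [show s + 1 + l = s + (l + 1) by omega] at this
  have hKfix : ∀ l, (γ ^ 2 ^ l : Ω ≃ₐ[F] Ω) (z (s + l)) = z (s + l) := by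
    intro l
    have h1 : z (s + l) = z (s + (l + 1)) ^ 2 := by
      rw [show s + (l + 1) = (s + l) + 1 by omega, hz]
    rw [h1, map_pow, hK', neg_sq]
  set Gl : ℕ → Subgroup (Ω ≃ₐ[F] Ω) := fun l => St1 (z (s + l)) with hGl
  have hmem : ∀ l σ, σ ∈ Gl l ↔ σ (z (s + l)) = z (s + l) := fun l σ => Iff.rfl
  have hopen : ∀ l, (galS F Ω).Op (Gl l) := fun l =>
    stabilizer_isOpen_of_isIntegral (K := F) (z (s + l))
  have hnormal : ∀ l, (Gl l).Normal := by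
    intro l
    refine ⟨fun σ hσ g => ?_⟩
    rw [hmem] at hσ ⊢
    obtain ⟨k, hk⟩ := root_eq h2' hz0 hz (s + l) (x := g⁻¹ (z (s + l))) (by
      rw [← map_pow, (z_prim h2' hz0 hz (s + l)).pow_eq_one, map_one])
    rw [AlgEquiv.mul_apply, AlgEquiv.mul_apply, ← hk, map_pow, hσ, hk, ← AlgEquiv.mul_apply,
      mul_inv_cancel, AlgEquiv.one_apply]
  have hGle : ∀ l, Gl (l + 1) ≤ Gl l := by
    intro l σ hσ
    rw [hmem] at hσ ⊢
    have h1 : z (s + l) = z (s + (l + 1)) ^ 2 := by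
      rw [show s + (l + 1) = (s + l) + 1 by omega, hz]
    rw [h1, map_pow, hσ]
  have hindex : ∀ l, (Gl l).index = 2 ^ l := by
    intro l
    induction l with
    | zero =>
      rw [pow_zero, Subgroup.index_eq_one]
      exact top_le_iff.1 fun σ _ => (hmem 0 σ).2 (hsfix σ)
    | succ l ih =>
      rw [← Subgroup.relIndex_mul_index (hGle l), ih, pow_succ']
      congr 1
      rw [Subgroup.relIndex_eq_two_iff]
      refine ⟨γ ^ 2 ^ l, (hmem _ _).2 (hKfix l), fun b hb => ?_⟩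
      rw [hmem] at hb
      have hw0 := z_ne hz0 hz (s + (l + 1))
      have hne := neg_ne h2' hw0
      rw [hmem, hmem, AlgEquiv.mul_apply, hK', map_neg]
      rcases hstep l b hb with h | h
      · right
        rw [h]
        exact ⟨rfl, hne⟩
      · left
        rw [h, neg_neg]
        exact ⟨rfl, hne⟩
  have hgen : ∀ l, ∀ σ : Ω ≃ₐ[F] Ω, ∃ c : ℕ, (γ ^ c)⁻¹ * σ ∈ Gl l := by
    intro l
    induction l with
    | zero => exact fun σ => ⟨0, (hmem _ _).2 (hsfix _)⟩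
    | succ l ih =>
      intro σ
      obtain ⟨c, hc⟩ := ih σ
      rw [hmem] at hc
      rcases hstep l _ hc with h | h
      · exact ⟨c, (hmem _ _).2 h⟩
      · refine ⟨c + 2 ^ l, (hmem _ _).2 ?_⟩
        have e : (γ ^ (c + 2 ^ l))⁻¹ * σ = (γ ^ 2 ^ l)⁻¹ * ((γ ^ c)⁻¹ * σ) := by
          rw [pow_add, mul_inv_rev, mul_assoc]
        rw [e, AlgEquiv.mul_apply, h, ← hK' l, ← AlgEquiv.mul_apply, inv_mul_cancel,
          AlgEquiv.one_apply]
  refine ⟨Gl, γ, hopen, hnormal, hindex, hGle, ?_, ?_, ?_⟩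
  · intro l σ hσ
    exact (hmem l σ).2 (hAmu' σ hσ _)
  · intro U hU hAU
    by_contra hcon
    push Not at hcon
    have hUo : IsOpen (U : Set (Ω ≃ₐ[F] Ω)) := hU
    set K : ℕ → Set (Ω ≃ₐ[F] Ω) := fun l => (Gl l : Set (Ω ≃ₐ[F] Ω)) ∩ (U : Set (Ω ≃ₐ[F] Ω))ᶜ
      with hKdef
    have hcl : ∀ l, IsClosed (K l) := fun l =>
      ((Gl l).isClosed_of_isOpen (hopen l)).inter hUo.isClosed_compl
    have hne : ∀ l, (K l).Nonempty := by
      intro l
      obtain ⟨σ, h1, h3⟩ := SetLike.not_le_iff_exists.1 (hcon l)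
      exact ⟨σ, h1, h3⟩
    have hmono : ∀ l, K (l + 1) ⊆ K l := fun l σ hσ => ⟨hGle l hσ.1, hσ.2⟩
    have hcomp : CompactSpace (Ω ≃ₐ[F] Ω) := compactSpace_gal F Ω
    obtain ⟨σ, hσ⟩ := IsCompact.nonempty_iInter_of_sequence_nonempty_isCompact_isClosed K hmono hne
      (hcl 0).isCompact hcl
    rw [Set.mem_iInter] at hσ
    apply (hσ 0).2
    apply hAU
    apply hAmu
    intro n
    have h1 : σ (z (s + n)) = z (s + n) := (hσ n).1
    have h3 : z n = z (s + n) ^ 2 ^ s := by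
      rw [add_comm s n, z_down hz]
    rw [h3, map_pow, h1]
  · intro l
    refine top_le_iff.1 fun σ _ => ?_
    obtain ⟨c, hc⟩ := hgen l σ
    have e : σ = γ ^ c * ((γ ^ c)⁻¹ * σ) := by rw [mul_inv_cancel_left]
    rw [e]
    exact Subgroup.mul_mem_sup (Subgroup.npow_mem_zpowers γ c) hc

theorem exists_data4 [QC F Ω] (h2 : (2 : F) ≠ 0) [Finite (SqClass F)] (hi : ∃ i : F, i ^ 2 = -1)
    (h1 : ∃ a : SqClass F, a ≠ 1) :
    ∃ h, Nonempty (Data4 (galS F Ω) (NN (⊥ : IntermediateField F Ω)) h) := by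
  obtain ⟨m, x₀, hx₀⟩ := kummer_xh (Ω := Ω) h2 hi
  obtain ⟨h, x, hx, hsurj⟩ := hx₀.basis
  by_cases hA : Amu F Ω = ⊤
  · rw [hA] at hx hsurj
    cases h with
    | zero =>
      exfalso
      obtain ⟨a, ha⟩ := h1
      obtain ⟨a, rfl⟩ := QuotientGroup.mk_surjective a
      obtain ⟨α, hα⟩ := QC.sq (F := F) (algebraMap F Ω (a : F))
      have hfix : ∀ σ : Ω ≃ₐ[F] Ω, σ α = α := by
        intro σ
        have h3 : σ ∈ NN (⊥ : IntermediateField F Ω) :=
          (hx.ker σ trivial).1 (Subsingleton.elim _ _)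
        refine h3 α 1 ?_
        rw [pow_one, hα]
        exact IntermediateField.algebraMap_mem _ _
      have h4 := (InfiniteGalois.mem_range_algebraMap_iff_fixed (k := F) (K := Ω) α).2
        (fun σ => hfix σ)
      obtain ⟨t, rfl⟩ := h4
      have h5 : (a : F) = t ^ 2 := by
        apply (algebraMap F Ω).injective
        rw [map_pow, hα]
      have ht : t ≠ 0 := fun h0 => a.ne_zero (by rw [h5, h0]; ring)
      have h6 : a = (Units.mk0 t ht) ^ 2 := Units.ext h5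
      apply ha
      rw [h6, QuotientGroup.eq_one_iff]
      exact ⟨_, (pow_two _)⟩
    | succ h =>
      exact ⟨h, data4_of_abelian hx fun t => by
        obtain ⟨a, -, ha⟩ := hsurj t
        exact ⟨a, ha⟩⟩
  · obtain ⟨Gl, γ, c1, c2, c3, c4, c5, c6, c7⟩ := cyc h2 hi hA
    exact ⟨h, ⟨{
      A := Amu F Ω
      Gl := Gl
      γ := γ
      nN := hx.nN
      nA := hx.nA
      le := hx.le
      Gop := c1
      Gn := c2
      Gi := c3
      Gle := c4
      Ale := c5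
      cof := c6
      gen := c7
      x := x
      mul := hx.mul
      ker := hx.ker
      cont := hx.cont
      surj := hsurj
      scal := hx.scal }⟩⟩

end Pool.Agent.EP
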