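import Mathlib

/-!
# Exact pairs: the edge lemma (MP_2429c0, section 4, (4.2))

`T = Z_2 ^ h`.  A subgroup is open if it contains `2 ^ n T` for some `n`.  `Cv v t = {x | 2 ^ t ∣ v x}` for a linear form `v`.

Proof of `edge`: strong induction on the index of `T''`.
(1) `T / T''` cyclic (of order `2 ^ (t + 1)`): `exists_form` gives a surjective form `v` with `T'' = Cv v (t + 1)` and then
`T' = Cv v t` (the only subgroup of index `2 ^ t` above `T''`), use `hcyc`.
(2) `T / T''` not cyclic: a finite abelian 2-group that is not cyclic has more than one subgroup of order two, so there is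
`T0 ≥ T'`, `T0 / T''` of order four and exponent two: choose `T2 ≠ T'` with `T'' ≤ T2`, `T''.relIndex T2 = 2`, put `T0 = T' ⊔ T2`,
`T3` the third one.  `hBQ`: `F T'' - F T' = (F T2 - F T0) + (F T3 - F T0) ≥ 2 K [T : T0] = K [T : T']` by induction, since
`[T : T2] = [T : T3] = [T : T''] / 2`.
-/

namespace Pool.Agent.EP

variable {h : ℕ}

/-- Open subgroups of `Z_2 ^ h`. -/
def OpT (T : AddSubgroup (Fin h → ℤ_[2])) : Prop := ∃ n : ℕ, ∀ x : Fin h → ℤ_[2], (2 ^ n : ℕ) • x ∈ T

/-- The multiples of `2 ^ t` under a linear form. -/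
def Cv (v : (Fin h → ℤ_[2]) →ₗ[ℤ_[2]] ℤ_[2]) (t : ℕ) : AddSubgroup (Fin h → ℤ_[2]) where
  carrier := {x | (2 : ℤ_[2]) ^ t ∣ v x}
  zero_mem' := by simp
  add_mem' := by
    intro a b ha hb
    show _ ∣ v (a + b)
    rw [map_add]
    exact dvd_add ha hb
  neg_mem' := by
    intro a ha
    show _ ∣ v (-a)
    rw [map_neg]
    exact (dvd_neg).2 ha

theorem edge_mem_Cv (v : (Fin h → ℤ_[2]) →ₗ[ℤ_[2]] ℤ_[2]) (t : ℕ) (x : Fin h → ℤ_[2]) :
    x ∈ Cv v t ↔ (2 : ℤ_[2]) ^ t ∣ v x := Iff.rfl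

theorem edge_toZModPow_eq_zero (t : ℕ) (y : ℤ_[2]) :
    PadicInt.toZModPow t y = 0 ↔ (2 : ℤ_[2]) ^ t ∣ y := by
  rw [← RingHom.mem_ker, PadicInt.ker_toZModPow, Ideal.mem_span_singleton]
  norm_cast

theorem edge_two_not_unit : ¬ IsUnit (2 : ℤ_[2]) := by
  have h := PadicInt.prime_p (p := 2)
  exact_mod_cast h.not_isUnit

/-- An open subgroup with cyclic quotient of order `2 ^ t` is `Cv v t` for a surjective form `v`. -/
theorem exists_form {t : ℕ} (ht : 1 ≤ t) {T : AddSubgroup (Fin h → ℤ_[2])} (hT : OpT T)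
    (hidx : T.index = 2 ^ t) (hcyc : IsAddCyclic ((Fin h → ℤ_[2]) ⧸ T)) :
    ∃ v : (Fin h → ℤ_[2]) →ₗ[ℤ_[2]] ℤ_[2], Function.Surjective v ∧ T = Cv v t := by
  have hcard : Nat.card ((Fin h → ℤ_[2]) ⧸ T) = 2 ^ t := hidx
  let e : ((Fin h → ℤ_[2]) ⧸ T) ≃+ ZMod (2 ^ t) :=
    (zmodAddCyclicAddEquiv hcyc).symm.trans (ZMod.ringEquivCongr hcard).toAddEquiv
  let φ : (Fin h → ℤ_[2]) →+ ZMod (2 ^ t) := e.toAddMonoidHom.comp (QuotientAddGroup.mk' T)
  have hφker : ∀ x, φ x = 0 ↔ x ∈ T := by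
    intro x
    show e (QuotientAddGroup.mk' T x) = 0 ↔ x ∈ T
    rw [EmbeddingLike.map_eq_zero_iff, QuotientAddGroup.mk'_apply, QuotientAddGroup.eq_zero_iff]
  have hφsurj : Function.Surjective φ := by
    intro y
    obtain ⟨q, hq⟩ := e.surjective y
    obtain ⟨x, hx⟩ := QuotientAddGroup.mk'_surjective T q
    refine ⟨x, ?_⟩
    show e (QuotientAddGroup.mk' T x) = y
    rw [hx, hq]
  -- lifts of the coefficients
  have hlift : ∀ i : Fin h, ∃ b : ℤ_[2],
      PadicInt.toZModPow t b = φ (Pi.single i 1) := by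
    intro i
    exact ZMod.ringHom_surjective (PadicInt.toZModPow (p := 2) t) _
  choose b hb using hlift
  have hsm : ∀ (c : ℤ_[2]) (z : Fin h → ℤ_[2]),
      φ (c • z) = PadicInt.toZModPow t c * φ z := by
    intro c z
    set m : ℕ := (PadicInt.toZModPow t c).val with hm
    have h1 : (2 : ℤ_[2]) ^ t ∣ c - (m : ℤ_[2]) := by
      rw [← edge_toZModPow_eq_zero, map_sub, map_natCast, hm, ZMod.natCast_val, ZMod.cast_id', id,
        sub_self]
    obtain ⟨d, hd⟩ := h1
    have h2 : c • z = m • z + (2 ^ t : ℕ) • (d • z) := by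
      have : c = (m : ℤ_[2]) + ((2 ^ t : ℕ) : ℤ_[2]) * d := by
        push_cast
        rw [← hd]
        ring
      conv_lhs => rw [this]
      rw [add_smul, mul_smul, Nat.cast_smul_eq_nsmul, Nat.cast_smul_eq_nsmul]
    rw [h2, map_add, map_nsmul, map_nsmul, nsmul_eq_mul, nsmul_eq_mul, ZMod.natCast_self,
      zero_mul, add_zero, hm, ZMod.natCast_val, ZMod.cast_id', id]
  let v : (Fin h → ℤ_[2]) →ₗ[ℤ_[2]] ℤ_[2] :=
    ∑ i, (b i) • (LinearMap.proj i : (Fin h → ℤ_[2]) →ₗ[ℤ_[2]] ℤ_[2])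
  have hv : ∀ x, v x = ∑ i, b i * x i := by
    intro x
    simp [v, LinearMap.sum_apply]
  have hvφ : ∀ x, PadicInt.toZModPow t (v x) = φ x := by
    intro x
    rw [hv, map_sum]
    have : x = ∑ i, x i • (Pi.single i (1 : ℤ_[2]) : Fin h → ℤ_[2]) := by
      funext j
      simp [Finset.sum_apply, Pi.single_apply]
    conv_rhs => rw [this]
    rw [map_sum]
    apply Finset.sum_congr rfl
    intro i _
    rw [hsm, map_mul, hb, mul_comm]
  refine ⟨v, ?_, ?_⟩
  · obtain ⟨x, hx⟩ := hφsurj 1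
    have h1 : (2 : ℤ_[2]) ^ t ∣ v x - 1 := by
      rw [← edge_toZModPow_eq_zero, map_sub, map_one, hvφ, hx, sub_self]
    have hu : IsUnit (v x) := by
      by_contra hnu
      have h2 : v x ∈ IsLocalRing.maximalIdeal ℤ_[2] := (IsLocalRing.mem_maximalIdeal _).2 hnu
      rw [PadicInt.maximalIdeal_eq_span_p, Ideal.mem_span_singleton] at h2
      have h3 : (2 : ℤ_[2]) ∣ v x := by exact_mod_cast h2
      have h4 : (2 : ℤ_[2]) ∣ v x - 1 := (dvd_pow_self _ (by omega)).trans h1
      have h5 : (2 : ℤ_[2]) ∣ 1 := by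
        have := dvd_sub h3 h4
        simpa using this
      exact edge_two_not_unit (isUnit_of_dvd_one h5)
    obtain ⟨u, hu⟩ := hu
    intro y
    refine ⟨(y * ↑u⁻¹) • x, ?_⟩
    rw [map_smul, ← hu, smul_eq_mul, mul_assoc, Units.inv_mul, mul_one]
  · ext x
    rw [edge_mem_Cv, ← edge_toZModPow_eq_zero, hvφ, hφker]

theorem index_Cv (v : (Fin h → ℤ_[2]) →ₗ[ℤ_[2]] ℤ_[2]) (hv : Function.Surjective v) (t : ℕ) :
    (Cv v t).index = 2 ^ t := by
  let f : (Fin h → ℤ_[2]) →+ ZMod (2 ^ t) :=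
    (PadicInt.toZModPow (p := 2) t).toAddMonoidHom.comp v.toAddMonoidHom
  have hf : ∀ x, f x = PadicInt.toZModPow t (v x) := fun _ => rfl
  have hker : f.ker = Cv v t := by
    ext x
    rw [AddMonoidHom.mem_ker, hf, edge_toZModPow_eq_zero, edge_mem_Cv]
  have hsurj : Function.Surjective f := by
    intro y
    obtain ⟨c, hc⟩ := ZMod.ringHom_surjective (PadicInt.toZModPow (p := 2) t) y
    obtain ⟨x, hx⟩ := hv c
    exact ⟨x, by rw [hf, hx, hc]⟩
  rw [← hker, AddSubgroup.index_ker, AddMonoidHom.range_eq_top.2 hsurj]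
  simp

theorem opT_Cv (v : (Fin h → ℤ_[2]) →ₗ[ℤ_[2]] ℤ_[2]) (t : ℕ) : OpT (Cv v t) := by
  refine ⟨t, fun x => ?_⟩
  rw [edge_mem_Cv, map_nsmul, nsmul_eq_mul]
  push_cast
  exact dvd_mul_right _ _

/-- The index of an open subgroup is a power of two. -/
theorem opT_index {T : AddSubgroup (Fin h → ℤ_[2])} (hT : OpT T) : ∃ n : ℕ, T.index = 2 ^ n := by
  obtain ⟨n, hn⟩ := hT
  let f : (Fin h → ℤ_[2]) →+ (Fin h → ZMod (2 ^ n)) :=
    { toFun := fun x i => PadicInt.toZModPow n (x i)
      map_zero' := by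
        funext i
        simp
      map_add' := by
        intro x y
        funext i
        simp }
  have hf : ∀ x i, f x i = PadicInt.toZModPow n (x i) := fun _ _ => rfl
  have hle : f.ker ≤ T := by
    intro x hx
    rw [AddMonoidHom.mem_ker] at hx
    have h1 : ∀ i, (2 : ℤ_[2]) ^ n ∣ x i := by
      intro i
      rw [← edge_toZModPow_eq_zero, ← hf, hx]
      rfl
    choose y hy using h1
    have : x = (2 ^ n : ℕ) • y := by
      funext i
      rw [hy i]
      simp
    rw [this]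
    exact hn y
  have h1 : T.index ∣ f.ker.index := AddSubgroup.index_dvd_of_le hle
  rw [AddSubgroup.index_ker] at h1
  have h2 : Nat.card f.range ∣ Nat.card (Fin h → ZMod (2 ^ n)) :=
    AddSubgroup.card_addSubgroup_dvd_card _
  have h3 : Nat.card (Fin h → ZMod (2 ^ n)) = 2 ^ (n * h) := by
    rw [Nat.card_eq_fintype_card, Fintype.card_fun, ZMod.card, Fintype.card_fin, ← pow_mul]
  rw [h3] at h2
  obtain ⟨k, _, hk⟩ := (Nat.dvd_prime_pow Nat.prime_two).1 (h1.trans h2)
  exact ⟨k, hk⟩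

theorem OpT.mono {T T' : AddSubgroup (Fin h → ℤ_[2])} (hT : OpT T) (hle : T ≤ T') : OpT T' := by
  obtain ⟨n, hn⟩ := hT
  exact ⟨n, fun x => hle (hn x)⟩

/-- Adjoin `y` with `2 y ∈ S`. -/
def edAd (S : AddSubgroup (Fin h → ℤ_[2])) (y : Fin h → ℤ_[2]) (hy : y + y ∈ S) :
    AddSubgroup (Fin h → ℤ_[2]) where
  carrier := {x | x ∈ S ∨ x - y ∈ S}
  zero_mem' := Or.inl S.zero_mem
  add_mem' := by
    rintro a b (ha | ha) (hb | hb)
    · exact Or.inl (S.add_mem ha hb)
    · right
      have : a + b - y = a + (b - y) := by abel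
      rw [this]
      exact S.add_mem ha hb
    · right
      have : a + b - y = (a - y) + b := by abel
      rw [this]
      exact S.add_mem ha hb
    · left
      have : a + b = (a - y) + (b - y) + (y + y) := by abel
      rw [this]
      exact S.add_mem (S.add_mem ha hb) hy
  neg_mem' := by
    rintro a (ha | ha)
    · exact Or.inl (S.neg_mem ha)
    · right
      have : -a - y = -(a - y) - (y + y) := by abel
      rw [this]
      exact S.sub_mem (S.neg_mem ha) hy

theorem mem_edAd (S : AddSubgroup (Fin h → ℤ_[2])) (y : Fin h → ℤ_[2]) (hy : y + y ∈ S)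
    (x : Fin h → ℤ_[2]) : x ∈ edAd S y hy ↔ (x ∈ S ∨ x - y ∈ S) := Iff.rfl

theorem le_edAd (S : AddSubgroup (Fin h → ℤ_[2])) (y : Fin h → ℤ_[2]) (hy : y + y ∈ S) :
    S ≤ edAd S y hy := fun _ hx => Or.inl hx

theorem self_mem_edAd (S : AddSubgroup (Fin h → ℤ_[2])) (y : Fin h → ℤ_[2]) (hy : y + y ∈ S) :
    y ∈ edAd S y hy := Or.inr (by simp)

theorem relIndex_edAd (S : AddSubgroup (Fin h → ℤ_[2])) (y : Fin h → ℤ_[2]) (hy : y + y ∈ S)
    (hn : y ∉ S) : S.relIndex (edAd S y hy) = 2 := by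
  rw [AddSubgroup.relIndex_eq_two_iff]
  refine ⟨y, self_mem_edAd S y hy, ?_⟩
  rintro b (hb | hb)
  · right
    refine ⟨hb, fun h1 => hn ?_⟩
    have := S.sub_mem h1 hb
    simpa using this
  · left
    constructor
    · have : b + y = (b - y) + (y + y) := by abel
      rw [this]
      exact S.add_mem hb hy
    · intro h1
      apply hn
      have := S.sub_mem h1 hb
      simpa using this

theorem edge_two_mem {S S' : AddSubgroup (Fin h → ℤ_[2])} (h2 : S.relIndex S' = 2)
    {x : Fin h → ℤ_[2]} (hx : x ∈ S') : x + x ∈ S := by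
  rw [AddSubgroup.relIndex_eq_two_iff] at h2
  obtain ⟨a, ha, hab⟩ := h2
  by_cases h1 : x ∈ S
  · exact S.add_mem h1 h1
  · by_contra h3
    -- `x + a ∈ S`, `x + x + a ∈ S`, so `x ∈ S`
    rcases hab x hx with ⟨h4, _⟩ | ⟨h4, _⟩
    · rcases hab (x + x) (S'.add_mem hx hx) with ⟨h5, _⟩ | ⟨h5, _⟩
      · apply h1
        have := S.sub_mem h5 h4
        have e : x + x + a - (x + a) = x := by abel
        rwa [e] at this
      · exact h3 h5
    · exact h1 h4

/-- A chain of subgroups of index two. -/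
theorem opT_chain {T T' : AddSubgroup (Fin h → ℤ_[2])} (hT : OpT T) (hle : T ≤ T') (hne : T ≠ T') :
    ∃ T₁ : AddSubgroup (Fin h → ℤ_[2]), T ≤ T₁ ∧ T₁ ≤ T' ∧ T.relIndex T₁ = 2 := by
  obtain ⟨x, hx, hxn⟩ : ∃ x ∈ T', x ∉ T := by
    by_contra hcon
    push Not at hcon
    exact hne (le_antisymm hle hcon)
  obtain ⟨n, hn⟩ := hT
  have hex : ∃ k : ℕ, (2 ^ k : ℕ) • x ∈ T := ⟨n, hn x⟩
  classical
  have hmin := Nat.find_spec hex
  have hpos : Nat.find hex ≠ 0 := by
    intro h0
    rw [h0] at hmin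
    simp at hmin
    exact hxn hmin
  obtain ⟨k, hk⟩ := Nat.exists_eq_succ_of_ne_zero hpos
  have hkn : (2 ^ k : ℕ) • x ∉ T := Nat.find_min hex (by omega)
  have hyy : (2 ^ k : ℕ) • x + (2 ^ k : ℕ) • x ∈ T := by
    rw [hk] at hmin
    have : (2 ^ (k + 1) : ℕ) • x = (2 ^ k : ℕ) • x + (2 ^ k : ℕ) • x := by
      rw [pow_succ, mul_comm, mul_smul, two_smul]
    rwa [this] at hmin
  refine ⟨edAd T _ hyy, le_edAd _ _ _, ?_, relIndex_edAd _ _ _ hkn⟩
  rintro z (hz | hz)
  · exact hle hz
  · have h1 := T'.add_mem (hle hz) (T'.nsmul_mem hx (2 ^ k))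
    simpa using h1

/-- If all elements of order two of the quotient lie in `T'` then the quotient is cyclic. -/
theorem edge_cyclic {T' T'' : AddSubgroup (Fin h → ℤ_[2])} (hT : OpT T'') (hle : T'' ≤ T')
    (h2 : T''.relIndex T' = 2) (hall : ∀ y, y + y ∈ T'' → y ∈ T') :
    IsAddCyclic ((Fin h → ℤ_[2]) ⧸ T'') := by
  obtain ⟨n, hn⟩ := hT
  obtain ⟨k, hk⟩ := opT_index ⟨n, hn⟩
  have hfin : Finite ((Fin h → ℤ_[2]) ⧸ T'') := by
    have : Nat.card ((Fin h → ℤ_[2]) ⧸ T'') ≠ 0 := by
      have e : Nat.card ((Fin h → ℤ_[2]) ⧸ T'') = 2 ^ k := hk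
      rw [e]
      positivity
    exact Nat.finite_of_card_ne_zero this
  let Q := (Fin h → ℤ_[2]) ⧸ T''
  let π : (Fin h → ℤ_[2]) →+ Q := QuotientAddGroup.mk' T''
  have hπ : Function.Surjective π := QuotientAddGroup.mk'_surjective T''
  have hπ0 : ∀ x, π x = 0 ↔ x ∈ T'' := by
    intro x
    show QuotientAddGroup.mk' T'' x = 0 ↔ _
    rw [QuotientAddGroup.mk'_apply, QuotientAddGroup.eq_zero_iff]
  let g : Q →+ Q := nsmulAddMonoidHom 2
  have hg : ∀ q, g q = q + q := fun q => two_nsmul q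
  have hker : g.ker = T'.map π := by
    ext q
    obtain ⟨x, rfl⟩ := hπ q
    rw [AddMonoidHom.mem_ker, hg, ← map_add, hπ0, AddSubgroup.mem_map]
    constructor
    · intro hx
      exact ⟨x, hall x hx, rfl⟩
    · rintro ⟨y, hy, hxy⟩
      have h1 : π (x - y) = 0 := by rw [map_sub, hxy, sub_self]
      rw [hπ0] at h1
      have h3 : y + y ∈ T'' := edge_two_mem h2 hy
      have : x + x = (x - y) + (x - y) + (y + y) := by abel
      rw [this]
      exact T''.add_mem (T''.add_mem h1 h1) h3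
  have hcard : Nat.card g.ker = 2 := by
    rw [hker, ← AddSubgroup.relIndex_ker]
    have : π.ker = T'' := QuotientAddGroup.ker_mk' T''
    rw [this, h2]
  have hidx : g.range.index = 2 := by
    have h3 : Nat.card g.ker * g.ker.index = Nat.card Q := AddSubgroup.card_mul_index _
    have h4 : g.range.index * Nat.card g.range = Nat.card Q := AddSubgroup.index_mul_card _
    rw [AddSubgroup.index_ker, hcard] at h3
    have h5 : 0 < Nat.card g.range := Nat.card_pos
    have h6 : g.range.index * Nat.card g.range = 2 * Nat.card g.range := by rw [h4, h3]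
    exact Nat.eq_of_mul_eq_mul_right h5 h6
  rw [AddSubgroup.index_eq_two_iff] at hidx
  obtain ⟨a, ha⟩ := hidx
  have key : ∀ (j : ℕ) (q : Q), ∃ (c : ℤ) (q' : Q), q = c • a + (2 ^ j : ℕ) • q' := by
    intro j
    induction j with
    | zero =>
      intro q
      exact ⟨0, q, by simp⟩
    | succ j ih =>
      intro q
      have hstep : ∃ (c : ℤ) (q' : Q), q = c • a + (2 : ℕ) • q' := by
        rcases ha q with ⟨h1, _⟩ | ⟨h1, _⟩
        · obtain ⟨r, hr⟩ := h1
          rw [hg] at hr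
          refine ⟨-1, r, ?_⟩
          rw [two_nsmul, hr]
          simp
        · obtain ⟨r, hr⟩ := h1
          rw [hg] at hr
          exact ⟨0, r, by rw [two_nsmul, hr]; simp⟩
      obtain ⟨c, q', hq⟩ := hstep
      obtain ⟨c', q'', hq'⟩ := ih q'
      refine ⟨c + 2 * c', q'', ?_⟩
      have e1 : (2 ^ (j + 1) : ℕ) • q'' = (2 ^ j : ℕ) • q'' + (2 ^ j : ℕ) • q'' := by
        rw [← add_nsmul, pow_succ, mul_two]
      have e2 : (c + 2 * c') • a = c • a + (c' • a + c' • a) := by
        rw [← add_zsmul, ← add_zsmul, two_mul]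
      rw [hq, hq', two_nsmul, e1, e2]
      abel
  refine ⟨a, fun q => ?_⟩
  obtain ⟨c, q', hq⟩ := key n q
  refine ⟨c, ?_⟩
  show c • a = q
  have h0 : (2 ^ n : ℕ) • q' = 0 := by
    obtain ⟨x, rfl⟩ := hπ q'
    rw [← map_nsmul, hπ0]
    exact hn x
  rw [hq, h0, add_zero]

/-- The edge lemma. -/
theorem edge (F : AddSubgroup (Fin h → ℤ_[2]) → ℤ) (K : ℤ)
    (hBQ : ∀ T₀ T₁ T₂ T₃ : AddSubgroup (Fin h → ℤ_[2]), OpT (T₁ ⊓ T₂) → T₁ ≤ T₀ → T₂ ≤ T₀ → T₃ ≤ T₀ →
      T₁.relIndex T₀ = 2 → T₂.relIndex T₀ = 2 → T₃.relIndex T₀ = 2 → T₁ ≠ T₂ → T₁ ≠ T₃ → T₂ ≠ T₃ →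
      T₁ ⊓ T₂ ≤ T₃ → F (T₁ ⊓ T₂) + 2 * F T₀ = F T₁ + F T₂ + F T₃)
    (hcyc : ∀ v : (Fin h → ℤ_[2]) →ₗ[ℤ_[2]] ℤ_[2], Function.Surjective v → ∀ t : ℕ,
      K * 2 ^ t ≤ F (Cv v (t + 1)) - F (Cv v t))
    (T' T'' : AddSubgroup (Fin h → ℤ_[2])) (hT : OpT T'') (hle : T'' ≤ T')
    (h2 : T''.relIndex T' = 2) : K * T'.index ≤ F T'' - F T' := by
  have main : ∀ (N : ℕ) (T' T'' : AddSubgroup (Fin h → ℤ_[2])), OpT T'' → T'' ≤ T' →
      T''.relIndex T' = 2 → T''.index = N → K * T'.index ≤ F T'' - F T' := by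
    intro N
    induction N using Nat.strong_induction_on with
    | _ N ih =>
    intro T' T'' hT hle h2 hN
    have hT' : OpT T' := hT.mono hle
    have hidx : 2 * T'.index = T''.index := by
      have h3 := AddSubgroup.relIndex_mul_index hle
      rwa [h2] at h3
    by_cases hall : ∀ y, y + y ∈ T'' → y ∈ T'
    · -- the cyclic case
      have hc := edge_cyclic hT hle h2 hall
      obtain ⟨t, ht⟩ := opT_index hT'
      have hti : T''.index = 2 ^ (t + 1) := by rw [← hidx, ht, pow_succ, mul_comm]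
      obtain ⟨v, hv, hTv⟩ := exists_form (by omega) hT hti hc
      have hle' : T' ≤ Cv v t := by
        intro x hx
        have h3 : x + x ∈ T'' := edge_two_mem h2 hx
        rw [hTv, edge_mem_Cv, map_add] at h3
        rw [edge_mem_Cv]
        obtain ⟨c, hc⟩ := h3
        refine ⟨c, ?_⟩
        have h4 : (2 : ℤ_[2]) * v x = 2 * (2 ^ t * c) := by
          rw [two_mul, hc]
          ring
        exact mul_left_cancel₀ (by norm_num) h4
      have heq : T' = Cv v t := by
        apply le_antisymm hle'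
        rw [← AddSubgroup.relIndex_eq_one]
        have h5 := AddSubgroup.relIndex_mul_index hle'
        rw [index_Cv v hv t, ht] at h5
        have h6 : 0 < 2 ^ t := by positivity
        exact Nat.eq_of_mul_eq_mul_right h6 (by rw [h5, one_mul])
      have h7 := hcyc v hv t
      rw [← hTv, ← heq] at h7
      rw [ht]
      push_cast
      exact h7
    · -- the noncyclic case
      push Not at hall
      obtain ⟨y, hyy, hyn⟩ := hall
      obtain ⟨z, hz, hzn⟩ : ∃ z ∈ T', z ∉ T'' := by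
        by_contra hcon
        push Not at hcon
        have : T''.relIndex T' = 1 := AddSubgroup.relIndex_eq_one.2 hcon
        omega
      have hzz : z + z ∈ T'' := edge_two_mem h2 hz
      have hwn : y + z ∉ T' := fun h3 => hyn (by
        have := T'.sub_mem h3 hz
        simpa using this)
      have hww : (y + z) + (y + z) ∈ T'' := by
        have : (y + z) + (y + z) = (y + y) + (z + z) := by abel
        rw [this]
        exact T''.add_mem hyy hzz
      set T₂ := edAd T'' y hyy with hT₂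
      set T₃ := edAd T'' (y + z) hww with hT₃
      set T₀ := edAd T' y (hle hyy) with hT₀
      have r2 : T''.relIndex T₂ = 2 := relIndex_edAd _ _ _ (fun h3 => hyn (hle h3))
      have r3 : T''.relIndex T₃ = 2 := relIndex_edAd _ _ _ (fun h3 => hwn (hle h3))
      have r0 : T'.relIndex T₀ = 2 := relIndex_edAd _ _ _ hyn
      have l2 : T₂ ≤ T₀ := by
        rintro x (hx | hx)
        · exact Or.inl (hle hx)
        · exact Or.inr (hle hx)
      have l3 : T₃ ≤ T₀ := by
        rintro x (hx | hx)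
        · exact Or.inl (hle hx)
        · right
          have : x - y = (x - (y + z)) + z := by abel
          rw [this]
          exact T'.add_mem (hle hx) hz
      have l1 : T' ≤ T₀ := le_edAd _ _ _
      have i2 : T'' ≤ T₂ := le_edAd _ _ _
      have i3 : T'' ≤ T₃ := le_edAd _ _ _
      have four : T''.relIndex T₀ = 4 := by
        rw [← AddSubgroup.relIndex_mul_relIndex _ _ _ hle l1, h2, r0]
      have s2 : T₂.relIndex T₀ = 2 := by
        have := AddSubgroup.relIndex_mul_relIndex _ _ _ i2 l2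
        rw [r2, four] at this
        omega
      have s3 : T₃.relIndex T₀ = 2 := by
        have := AddSubgroup.relIndex_mul_relIndex _ _ _ i3 l3
        rw [r3, four] at this
        omega
      have hinf : T' ⊓ T₂ = T'' := by
        apply le_antisymm
        · rintro x ⟨hx1, hx2 | hx2⟩
          · exact hx2
          · exfalso
            apply hyn
            have := T'.sub_mem hx1 (hle hx2)
            simpa using this
        · exact le_inf hle i2
      have n12 : T' ≠ T₂ := by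
        intro h3
        apply hyn
        rw [h3]
        exact self_mem_edAd _ _ _
      have n13 : T' ≠ T₃ := by
        intro h3
        apply hwn
        rw [h3]
        exact self_mem_edAd _ _ _
      have n23 : T₂ ≠ T₃ := by
        intro h3
        have h4 : y ∈ T₃ := by
          rw [← h3]
          exact self_mem_edAd _ _ _
        rcases h4 with h4 | h4
        · exact hyn (hle h4)
        · apply hzn
          have : z = -(y - (y + z)) := by abel
          rw [this]
          exact T''.neg_mem h4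
      have hB := hBQ T₀ T' T₂ T₃ (by rw [hinf]; exact hT) l1 l2 l3 r0 s2 s3 n12 n13 n23
        (by rw [hinf]; exact i3)
      rw [hinf] at hB
      -- indices
      have j2 : 2 * T₂.index = T''.index := by
        have h3 := AddSubgroup.relIndex_mul_index i2
        rwa [r2] at h3
      have j3 : 2 * T₃.index = T''.index := by
        have h3 := AddSubgroup.relIndex_mul_index i3
        rwa [r3] at h3
      have j0 : 2 * T₀.index = T'.index := by
        have h3 := AddSubgroup.relIndex_mul_index l1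
        rwa [r0] at h3
      have hpos : 0 < T''.index := by
        obtain ⟨k, hk⟩ := opT_index hT
        rw [hk]
        positivity
      have ih2 := ih T₂.index (by omega) T₀ T₂ (hT.mono i2) l2 s2 rfl
      have ih3 := ih T₃.index (by omega) T₀ T₃ (hT.mono i3) l3 s3 rfl
      have j0' : (T'.index : ℤ) = 2 * T₀.index := by exact_mod_cast j0.symm
      rw [j0']
      linarith
  exact main _ T' T'' hT hle h2 rfl

end Pool.Agent.EP
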