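import Pool.Agent.EP.Z
import Pool.Agent.EP.Edge

/-!
# Exact pairs: the data of section 4 (MP_2429c0)

`Data4 S N h`: `A` closed normal with `G / A ≅ Z_2` topologically generated by `γ` (`Gl l` = preimage of `2 ^ l Z_2`), and
`x : A → Z_2 ^ h` is onto with kernel `N`; conjugation acts by scalars.  For `T ≤ Z_2 ^ h`: `P T = {a ∈ A | x a ∈ T}` and
`Ug T l = ⋂_W P T · ⟨γ ^ 2 ^ l⟩ · W` over the open normal `W ≥ N` (the closure of `P T · ⟨γ ^ 2 ^ l⟩`).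

-/

universe u

namespace Pool.Agent.EP

variable {G : Type u} [Group G]

/-- The data of section 4. -/
structure Data4 (S : OSys G) (N : Subgroup G) (h : ℕ) where
  A : Subgroup G
  Gl : ℕ → Subgroup G
  γ : G
  nN : N.Normal
  nA : A.Normal
  le : N ≤ A
  Gop : ∀ l, S.Op (Gl l)
  Gn : ∀ l, (Gl l).Normal
  Gi : ∀ l, (Gl l).index = 2 ^ l
  Gle : ∀ l, Gl (l + 1) ≤ Gl l
  Ale : ∀ l, A ≤ Gl l
  cof : ∀ U, S.Op U → A ≤ U → ∃ l, Gl l ≤ U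
  gen : ∀ l, Subgroup.zpowers γ ⊔ Gl l = ⊤
  x : G → Fin h → ℤ_[2]
  mul : ∀ a ∈ A, ∀ b ∈ A, x (a * b) = x a + x b
  ker : ∀ a ∈ A, x a = 0 ↔ a ∈ N
  cont : ∀ n : ℕ, ∃ U, S.Op U ∧ U.Normal ∧ N ≤ U ∧ ∀ a ∈ A, a ∈ U → ∀ i, (2 : ℤ_[2]) ^ n ∣ x a i
  surj : ∀ t, ∃ a ∈ A, x a = t
  scal : ∀ g, ∀ a ∈ A, ∃ c : ℤ_[2], x (g * a * g⁻¹) = c • x a

namespace Data4

variable {S : OSys G} {N : Subgroup G} {h : ℕ} (d : Data4 S N h)

theorem x_one : d.x 1 = 0 := by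
  have := d.mul 1 d.A.one_mem 1 d.A.one_mem
  rw [mul_one] at this
  exact left_eq_add.1 this

theorem x_inv {a : G} (ha : a ∈ d.A) : d.x a⁻¹ = - d.x a := by
  have := d.mul a ha a⁻¹ (d.A.inv_mem ha)
  rw [mul_inv_cancel, d.x_one] at this
  exact (neg_eq_of_add_eq_zero_right this.symm).symm

/-- The preimage of `T` in `A`. -/
def P (T : AddSubgroup (Fin h → ℤ_[2])) : Subgroup G where
  carrier := {a | a ∈ d.A ∧ d.x a ∈ T}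
  one_mem' := ⟨d.A.one_mem, by rw [d.x_one]; exact T.zero_mem⟩
  mul_mem' := by
    rintro a b ⟨ha, ha'⟩ ⟨hb, hb'⟩
    exact ⟨d.A.mul_mem ha hb, by rw [d.mul a ha b hb]; exact T.add_mem ha' hb'⟩
  inv_mem' := by
    rintro a ⟨ha, ha'⟩
    exact ⟨d.A.inv_mem ha, by rw [d.x_inv ha]; exact T.neg_mem ha'⟩

/-- The closure of `P T · ⟨γ ^ 2 ^ l⟩`. -/
def Ug (T : AddSubgroup (Fin h → ℤ_[2])) (l : ℕ) : Subgroup G :=
  ⨅ W : Nb S N, (d.P T ⊔ Subgroup.zpowers (d.γ ^ 2 ^ l)) ⊔ W.1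

theorem P_le (T : AddSubgroup (Fin h → ℤ_[2])) : d.P T ≤ d.A := fun _ h => h.1

theorem N_le_P (T : AddSubgroup (Fin h → ℤ_[2])) : N ≤ d.P T := by
  intro a ha
  exact ⟨d.le ha, by rw [(d.ker a (d.le ha)).2 ha]; exact T.zero_mem⟩

end Data4

end Pool.Agent.EP
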