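import Pool.Agent.EP.D4

/-!
# Exact pairs: the open subgroups `Ug T l`, part 1 (MP_2429c0)

Proofs.  Let `OpT T`.
* `P_normal`: `x (g a g⁻¹) = c • x a`, `T` is stable under scalars (`c` is congruent to an integer modulo `2 ^ n`).
* `exists_W` : there is an open normal `W ≥ N` with `W ⊓ A ≤ P T` (`cont`).
* Let `m ≥ l` with `γ ^ 2 ^ m ∈ W` (`W` has index `2 ^ m'`), `W₀ = W ⊓ Gl m`.  Then `U₀ := P T ⊔ zpowers (γ ^ 2 ^ l) ⊔ W₀` satisfies
  `U₀ ⊓ A = P T`: if `a = a' γ ^ (2 ^ l n) w`, then `γ ^ (2 ^ l n) ∈ Gl m`, so `2 ^ m ∣ 2 ^ l n` (`Gi`, `gen`: `G ⧸ Gl m` is cyclic of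
  order `2 ^ m` generated by `γ`), so `γ ^ (2 ^ l n) ∈ W`, and `a ∈ A ⊓ (P T ⊔ W) = P T`.  (`P T`, `W₀` are normal, so the elements of
  `U₀` are the products `a' γ ^ j w`.)  `U₀ ⊔ A = Gl l`.  So `U₀.index = T.index * 2 ^ l`.
  The same for every open normal `W₁ ≤ W₀`, so all these groups are equal to `U₀`, i.e. `Ug T l = U₀`.
-/

universe u

namespace Pool.Agent.EP

/-- `[UA : U] = [A : U]` for a normal subgroup `A`. -/
theorem d4a_relIndex_sup {G : Type u} [Group G] (U A : Subgroup G) [hA : A.Normal] :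
    U.relIndex (U ⊔ A) = U.relIndex A := by
  let f := Subgroup.quotientSubgroupOfEmbeddingOfLE U (le_sup_right : A ≤ U ⊔ A)
  have hf : Function.Surjective f := by
    intro q
    induction q using QuotientGroup.induction_on with
    | H g =>
      obtain ⟨g, hg⟩ := g
      have hg' : g ∈ A ⊔ U := by rw [sup_comm]; exact hg
      obtain ⟨a, ha, u, hu, rfl⟩ := Subgroup.mem_sup_of_normal_left.1 hg'
      refine ⟨QuotientGroup.mk ⟨a, ha⟩, ?_⟩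
      rw [Subgroup.quotientSubgroupOfEmbeddingOfLE_apply_mk]
      rw [QuotientGroup.eq, Subgroup.mem_subgroupOf]
      show a⁻¹ * (a * u) ∈ U
      rw [inv_mul_cancel_left]
      exact hu
  exact (Nat.card_congr (Equiv.ofBijective f ⟨f.injective, hf⟩)).symm

namespace Data4

variable {G : Type u} [Group G] {S : OSys G} {N : Subgroup G} {h : ℕ} (d : Data4 S N h)

theorem P_normal {T : AddSubgroup (Fin h → ℤ_[2])} (hT : ∀ c : ℤ_[2], ∀ t ∈ T, c • t ∈ T) :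
    (d.P T).Normal := by
  refine ⟨fun a ha g => ⟨d.nA.conj_mem a ha.1 g, ?_⟩⟩
  obtain ⟨c, hc⟩ := d.scal g a ha.1
  rw [hc]
  exact hT c _ ha.2

theorem smul_mem_of_opT {T : AddSubgroup (Fin h → ℤ_[2])} (hT : OpT T) (c : ℤ_[2]) {t} (ht : t ∈ T) :
    c • t ∈ T := by
  obtain ⟨n, hn⟩ := hT
  have h1 := PadicInt.appr_spec n c
  rw [Ideal.mem_span_singleton] at h1
  obtain ⟨e, he⟩ := h1
  have h2 : c • t = (PadicInt.appr c n) • t + (2 ^ n : ℕ) • (e • t) := by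
    have h3 : c = (PadicInt.appr c n : ℤ_[2]) + (2 : ℤ_[2]) ^ n * e := by
      have h4 : ((2 : ℕ) : ℤ_[2]) = 2 := by norm_cast
      rw [h4] at he
      linear_combination he
    calc c • t = ((PadicInt.appr c n : ℤ_[2]) + (2 : ℤ_[2]) ^ n * e) • t := by rw [← h3]
      _ = _ := by
        rw [add_smul, mul_smul, Nat.cast_smul_eq_nsmul]
        congr 1
        rw [← Nat.cast_smul_eq_nsmul ℤ_[2] (2 ^ n)]
        push_cast
        rfl
  rw [h2]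
  exact T.add_mem (T.nsmul_mem ht _) (hn _)

/-- The coordinates as a homomorphism. -/
noncomputable def xh : d.A →* Multiplicative (Fin h → ℤ_[2]) where
  toFun a := Multiplicative.ofAdd (d.x a)
  map_one' := by
    rw [Subgroup.coe_one, d.x_one]; rfl
  map_mul' a b := by
    rw [Subgroup.coe_mul, d.mul a a.2 b b.2]; rfl

theorem P_relIndex' (T T' : AddSubgroup (Fin h → ℤ_[2])) :
    (d.P T).relIndex (d.P T') = T.relIndex T' := by
  have h1 : ∀ T : AddSubgroup (Fin h → ℤ_[2]), (AddSubgroup.toSubgroup T).comap d.xh =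
      (d.P T).subgroupOf d.A := by
    intro T
    ext a
    rw [Subgroup.mem_comap, Subgroup.mem_subgroupOf]
    constructor
    · intro ha
      exact ⟨a.2, ha⟩
    · intro ha
      exact ha.2
  have h2 : ((d.P T').subgroupOf d.A).map d.xh = AddSubgroup.toSubgroup T' := by
    rw [← h1, Subgroup.map_comap_eq_self_of_surjective]
    intro t
    obtain ⟨a, ha, hat⟩ := d.surj (Multiplicative.toAdd t)
    exact ⟨⟨a, ha⟩, by
      show Multiplicative.ofAdd (d.x a) = t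
      rw [hat]; rfl⟩
  have h3 := Subgroup.relIndex_comap (H := AddSubgroup.toSubgroup T) d.xh
    ((d.P T').subgroupOf d.A)
  rw [h1, h2, AddSubgroup.relIndex_toSubgroup, Subgroup.relIndex_subgroupOf (d.P_le T')] at h3
  exact h3

theorem P_relIndex {T T' : AddSubgroup (Fin h → ℤ_[2])} (hle : T ≤ T') :
    (d.P T).relIndex (d.P T') = T.relIndex T' :=
  d.P_relIndex' T T'

theorem P_top : d.P ⊤ = d.A := by
  apply le_antisymm (d.P_le _)
  intro a ha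
  exact ⟨ha, AddSubgroup.mem_top _⟩

/-- `γ` has order `2 ^ m` modulo `Gl m`. -/
theorem zpow_mem_Gl (m : ℕ) (j : ℤ) : d.γ ^ j ∈ d.Gl m ↔ ((2 ^ m : ℕ) : ℤ) ∣ j := by
  have hN := d.Gn m
  have hgen : ∀ q : G ⧸ d.Gl m, q ∈ Subgroup.zpowers (QuotientGroup.mk d.γ : G ⧸ d.Gl m) := by
    intro q
    induction q using QuotientGroup.induction_on with
    | H g =>
      have hg : g ∈ Subgroup.zpowers d.γ ⊔ d.Gl m := by rw [d.gen m]; exact Subgroup.mem_top _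
      obtain ⟨y, hy, z, hz, rfl⟩ := Subgroup.mem_sup_of_normal_right.1 hg
      obtain ⟨i, rfl⟩ := Subgroup.mem_zpowers_iff.1 hy
      rw [Subgroup.mem_zpowers_iff]
      refine ⟨i, ?_⟩
      rw [← QuotientGroup.mk_zpow, QuotientGroup.eq, inv_mul_cancel_left]
      exact hz
  have hord : orderOf (QuotientGroup.mk d.γ : G ⧸ d.Gl m) = 2 ^ m := by
    rw [orderOf_eq_card_of_forall_mem_zpowers hgen]
    exact d.Gi m
  rw [← hord, orderOf_dvd_iff_zpow_eq_one, ← QuotientGroup.mk_zpow, QuotientGroup.eq_one_iff]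

/-- The approximations of `Ug T l`. -/
def Ua (T : AddSubgroup (Fin h → ℤ_[2])) (l : ℕ) (W : Subgroup G) : Subgroup G :=
  (d.P T ⊔ Subgroup.zpowers (d.γ ^ 2 ^ l)) ⊔ W

theorem zpow_mem_Ua {T : AddSubgroup (Fin h → ℤ_[2])} {l : ℕ} {W : Subgroup G} {j : ℤ}
    (hj : ((2 ^ l : ℕ) : ℤ) ∣ j) : d.γ ^ j ∈ d.Ua T l W := by
  obtain ⟨i, rfl⟩ := hj
  have h1 : d.γ ^ (((2 ^ l : ℕ) : ℤ) * i) ∈ Subgroup.zpowers (d.γ ^ 2 ^ l) := by
    rw [Subgroup.mem_zpowers_iff]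
    exact ⟨i, by rw [zpow_mul, zpow_natCast]⟩
  exact le_sup_left (a := d.P T ⊔ Subgroup.zpowers (d.γ ^ 2 ^ l))
    (le_sup_right (a := d.P T) h1)

theorem Ua_le_Gl {T : AddSubgroup (Fin h → ℤ_[2])} {l : ℕ} {W : Subgroup G} (hW : W ≤ d.Gl l) :
    d.Ua T l W ≤ d.Gl l := by
  apply sup_le (sup_le ((d.P_le T).trans (d.Ale l)) _) hW
  rw [Subgroup.zpowers_le]
  have := (d.zpow_mem_Gl l ((2 ^ l : ℕ) : ℤ)).2 dvd_rfl
  rwa [zpow_natCast] at this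

theorem Gl_anti {m m' : ℕ} (hm : m ≤ m') : d.Gl m' ≤ d.Gl m := by
  induction hm with
  | refl => exact le_rfl
  | step _ ih => exact (d.Gle _).trans ih

theorem Ua_sup_A {T : AddSubgroup (Fin h → ℤ_[2])} {l : ℕ} {W : Subgroup G} (hWo : S.Op W)
    (hW : W ≤ d.Gl l) : d.Ua T l W ⊔ d.A = d.Gl l := by
  apply le_antisymm (sup_le (d.Ua_le_Gl hW) (d.Ale l))
  obtain ⟨l', hl'⟩ := d.cof (d.Ua T l W ⊔ d.A)
    (S.up W _ hWo (le_sup_right.trans le_sup_left)) le_sup_right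
  intro g hg
  have hg' : g ∈ Subgroup.zpowers d.γ ⊔ d.Gl (max l l') := by
    rw [d.gen]; exact Subgroup.mem_top _
  have hN := d.Gn (max l l')
  obtain ⟨y, hy, z, hz, rfl⟩ := Subgroup.mem_sup_of_normal_right.1 hg'
  obtain ⟨i, rfl⟩ := Subgroup.mem_zpowers_iff.1 hy
  have hz1 : z ∈ d.Gl l := d.Gl_anti (le_max_left _ _) hz
  have hz2 : z ∈ d.Gl l' := d.Gl_anti (le_max_right _ _) hz
  have hi : d.γ ^ i ∈ d.Gl l := by
    have := (d.Gl l).mul_mem hg ((d.Gl l).inv_mem hz1)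
    rwa [mul_inv_cancel_right] at this
  exact Subgroup.mul_mem _ (le_sup_left (a := d.Ua T l W)
    (d.zpow_mem_Ua ((d.zpow_mem_Gl l i).1 hi))) (hl' hz2)

theorem P_le_Ua (T : AddSubgroup (Fin h → ℤ_[2])) (l : ℕ) (W : Subgroup G) :
    d.P T ≤ d.Ua T l W := le_sup_left.trans le_sup_left

/-- The intersection with `A`. -/
theorem Ua_inf_A {T : AddSubgroup (Fin h → ℤ_[2])} (hT : OpT T) {l m : ℕ} (hlm : l ≤ m)
    {W W' : Subgroup G} (hWA : W ⊓ d.A ≤ d.P T) (hγ : d.γ ^ 2 ^ m ∈ W) (hn' : W'.Normal)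
    (hW'W : W' ≤ W) (hW'G : W' ≤ d.Gl m) : d.Ua T l W' ⊓ d.A = d.P T := by
  apply le_antisymm _ (le_inf (d.P_le_Ua T l W') (d.P_le T))
  rintro a ⟨ha, haA⟩
  have hPn : (d.P T).Normal := d.P_normal (fun c t ht => smul_mem_of_opT hT c ht)
  obtain ⟨b, hb, w, hw, rfl⟩ := Subgroup.mem_sup_of_normal_right.1 ha
  obtain ⟨p, hp, z, hz, rfl⟩ := Subgroup.mem_sup_of_normal_left.1 hb
  obtain ⟨i, rfl⟩ := Subgroup.mem_zpowers_iff.1 hz
  have e1 : (d.γ ^ 2 ^ l) ^ i = d.γ ^ (((2 ^ l : ℕ) : ℤ) * i) := by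
    rw [zpow_mul, zpow_natCast]
  rw [e1] at haA ⊢
  have hpA := d.P_le T hp
  -- the power of `γ` lies in `Gl m`
  have h1 : d.γ ^ (((2 ^ l : ℕ) : ℤ) * i) ∈ d.Gl m := by
    have h2 : d.γ ^ (((2 ^ l : ℕ) : ℤ) * i) = p⁻¹ * (p * d.γ ^ (((2 ^ l : ℕ) : ℤ) * i) * w) * w⁻¹ := by
      group
    rw [h2]
    exact (d.Gl m).mul_mem ((d.Gl m).mul_mem ((d.Gl m).inv_mem (d.Ale m hpA)) (d.Ale m haA))
      ((d.Gl m).inv_mem (hW'G hw))
  have h3 := (d.zpow_mem_Gl m _).1 h1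
  have h4 : d.γ ^ (((2 ^ l : ℕ) : ℤ) * i) ∈ W := by
    obtain ⟨k, hk⟩ := h3
    rw [hk, zpow_mul, zpow_natCast]
    exact W.zpow_mem hγ k
  have h5 : d.γ ^ (((2 ^ l : ℕ) : ℤ) * i) * w ∈ W ⊓ d.A := by
    refine ⟨W.mul_mem h4 (hW'W hw), ?_⟩
    have h6 : d.γ ^ (((2 ^ l : ℕ) : ℤ) * i) * w = p⁻¹ * (p * d.γ ^ (((2 ^ l : ℕ) : ℤ) * i) * w) := by
      group
    rw [h6]
    exact d.A.mul_mem (d.A.inv_mem hpA) haA
  rw [mul_assoc]
  exact (d.P T).mul_mem hp (hWA h5)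

/-- The main lemma: `Ug T l` is one of its approximations. -/
theorem Ug_eq {T : AddSubgroup (Fin h → ℤ_[2])} (hT : OpT T) (l : ℕ) :
    ∃ W₀ : Subgroup G, S.Op W₀ ∧ W₀.Normal ∧ N ≤ W₀ ∧ W₀ ≤ d.Gl l ∧ d.Ug T l = d.Ua T l W₀ ∧
      d.Ua T l W₀ ⊓ d.A = d.P T := by
  obtain ⟨n, hn⟩ := hT
  obtain ⟨W, hWo, hWn, hNW, hW⟩ := d.cont n
  have hWA : W ⊓ d.A ≤ d.P T := by
    rintro a ⟨haW, haA⟩
    refine ⟨haA, ?_⟩
    have h1 := hW a haA haW
    choose y hy using h1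
    have h2 : d.x a = (2 ^ n : ℕ) • y := by
      funext i
      rw [hy i, Pi.smul_apply, nsmul_eq_mul]
      push_cast
      rfl
    rw [h2]
    exact hn y
  obtain ⟨m', hm'⟩ := S.idx W hWo
  have hγ' : d.γ ^ 2 ^ m' ∈ W := by
    rw [← hm']
    exact W.pow_index_mem d.γ
  set m := max l m' with hm
  have hγ : d.γ ^ 2 ^ m ∈ W := by
    have h1 : 2 ^ m = 2 ^ m' * 2 ^ (m - m') := by
      rw [← pow_add]; congr 1; omega
    rw [h1, pow_mul]
    exact W.pow_mem hγ' _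
  have hlm : l ≤ m := le_max_left _ _
  have hGn := d.Gn m
  have hT' : OpT T := ⟨n, hn⟩
  have hNG : N ≤ d.Gl m := d.le.trans (d.Ale m)
  have key : ∀ W' : Subgroup G, S.Op W' → W'.Normal → W' ≤ W ⊓ d.Gl m →
      d.Ua T l (W ⊓ d.Gl m) ≤ d.Ua T l W' := by
    intro W' hWo' hWn' hle
    have hle1 : W' ≤ W := hle.trans inf_le_left
    have hle2 : W' ≤ d.Gl m := hle.trans inf_le_right
    have hA := d.nA
    intro u hu
    have hu1 : u ∈ d.Ua T l W' ⊔ d.A := by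
      rw [d.Ua_sup_A hWo' (hle2.trans (d.Gl_anti hlm))]
      exact d.Ua_le_Gl (inf_le_right.trans (d.Gl_anti hlm)) hu
    obtain ⟨u₁, hu₁, a, ha, rfl⟩ := Subgroup.mem_sup_of_normal_right.1 hu1
    have hmono : d.Ua T l W' ≤ d.Ua T l (W ⊓ d.Gl m) := sup_le_sup_left hle _
    have ha' : a ∈ d.Ua T l (W ⊓ d.Gl m) ⊓ d.A := by
      refine ⟨?_, ha⟩
      have := Subgroup.mul_mem _ (Subgroup.inv_mem _ (hmono hu₁)) hu
      rwa [inv_mul_cancel_left] at this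
    rw [d.Ua_inf_A hT' hlm hWA hγ (Subgroup.normal_inf_normal W (d.Gl m)) inf_le_left
      inf_le_right] at ha'
    exact Subgroup.mul_mem _ hu₁ (d.P_le_Ua T l W' ha')
  refine ⟨W ⊓ d.Gl m, S.inf _ _ hWo (d.Gop m), Subgroup.normal_inf_normal W (d.Gl m),
    le_inf hNW hNG, inf_le_right.trans (d.Gl_anti hlm), ?_,
    d.Ua_inf_A hT' hlm hWA hγ (Subgroup.normal_inf_normal W (d.Gl m)) inf_le_left inf_le_right⟩
  apply le_antisymm
  · exact iInf_le (fun W : Nb S N => (d.P T ⊔ Subgroup.zpowers (d.γ ^ 2 ^ l)) ⊔ W.1)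
      ⟨W ⊓ d.Gl m, S.inf _ _ hWo (d.Gop m), Subgroup.normal_inf_normal W (d.Gl m),
        le_inf hNW hNG⟩
  · apply le_iInf
    rintro ⟨W₁, hW₁o, hW₁n, hNW₁⟩
    have h1 := key (W₁ ⊓ (W ⊓ d.Gl m)) (S.inf _ _ hW₁o (S.inf _ _ hWo (d.Gop m)))
      (Subgroup.normal_inf_normal W₁ (W ⊓ d.Gl m)) inf_le_right
    exact h1.trans (sup_le_sup_left inf_le_left _)

theorem Ug_op {T : AddSubgroup (Fin h → ℤ_[2])} (hT : OpT T) (l : ℕ) : S.Op (d.Ug T l) := by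
  obtain ⟨W₀, hWo, -, -, -, hU, -⟩ := d.Ug_eq hT l
  rw [hU]
  exact S.up W₀ _ hWo le_sup_right

theorem Ug_inf_A {T : AddSubgroup (Fin h → ℤ_[2])} (hT : OpT T) (l : ℕ) :
    d.Ug T l ⊓ d.A = d.P T := by
  obtain ⟨W₀, -, -, -, -, hU, hA⟩ := d.Ug_eq hT l
  rw [hU, hA]

theorem Ug_sup_A {T : AddSubgroup (Fin h → ℤ_[2])} (hT : OpT T) (l : ℕ) :
    d.Ug T l ⊔ d.A = d.Gl l := by
  obtain ⟨W₀, hWo, -, -, hWG, hU, -⟩ := d.Ug_eq hT l
  rw [hU]
  exact d.Ua_sup_A hWo hWG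

theorem Ug_index {T : AddSubgroup (Fin h → ℤ_[2])} (hT : OpT T) (l : ℕ) :
    (d.Ug T l).index = T.index * 2 ^ l := by
  have hA := d.nA
  have h1 : (d.Ug T l).relIndex (d.Gl l) = T.index := by
    rw [← d.Ug_sup_A hT l, d4a_relIndex_sup, ← Subgroup.inf_relIndex_right, d.Ug_inf_A hT l]
    have h2 := d.P_relIndex' T ⊤
    rw [d.P_top, AddSubgroup.relIndex_top_right] at h2
    exact h2
  have h3 : d.Ug T l ≤ d.Gl l := by
    rw [← d.Ug_sup_A hT l]; exact le_sup_left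
  rw [← Subgroup.relIndex_mul_index h3, h1, d.Gi l]

end Data4

end Pool.Agent.EP
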