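import Pool.Agent.EP.D4A

/-!
# Exact pairs: the open subgroups `Ug T l`, part 2 (MP_2429c0)

* `Ug_inf`: `≥` is clear from `Ug_mono`; compare the indices: `(Ug T₁ l₁ ⊓ Ug T₂ l₂) ⊓ A = P (T₁ ⊓ T₂)`, and
  `(..) ⊔ A ≤ Gl (max l₁ l₂)`, so the index of the left side is at least that of the right side.
* `Ug_cofinal`: for `U` open, `N ≤ U` take `T = {t | ∃ a ∈ U ⊓ A, x a = t}` and `l` with `γ ^ 2 ^ l ∈ U.normalCore`; `Ug_le`.
* `Ug_normal`: for `l` with `γ ^ 2 ^ l ∈ W`: `a⁻¹ γ ^ 2 ^ l a γ ^ (-2 ^ l) ∈ W ⊓ A ≤ P T` for `a ∈ A`; `γ` normalises `Ug T l`;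
  `G = A · zpowers γ · W₀`.
* `rho_Ug`: `f` is fixed by an open normal `W ≥ N` (core of an open subgroup joined with `N`), and `Ug T l ≤ P T ⊔ zpowers ⊔ W`.
-/

universe u

namespace Pool.Agent.EP

namespace Data4

variable {G : Type u} [Group G] {S : OSys G} {N : Subgroup G} {h : ℕ} (d : Data4 S N h)

theorem P_le_Ug (T : AddSubgroup (Fin h → ℤ_[2])) (l : ℕ) : d.P T ≤ d.Ug T l :=
  le_iInf fun _ => le_sup_left.trans le_sup_left

theorem N_le_Ug (T : AddSubgroup (Fin h → ℤ_[2])) (l : ℕ) : N ≤ d.Ug T l :=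
  (d.N_le_P T).trans (d.P_le_Ug T l)

theorem pow_mem_Ug (T : AddSubgroup (Fin h → ℤ_[2])) (l : ℕ) : d.γ ^ 2 ^ l ∈ d.Ug T l := by
  have h1 : Subgroup.zpowers (d.γ ^ 2 ^ l) ≤ d.Ug T l :=
    le_iInf fun _ => le_sup_right.trans le_sup_left
  exact h1 (Subgroup.mem_zpowers _)

/-- The open normal subgroup generated by `N` and the core. -/
def b4_nbOf {S : OSys G} {N : Subgroup G} (hN : N.Normal) {U : Subgroup G} (hU : S.Op U) : Nb S N :=
  ⟨U.normalCore ⊔ N, S.up _ _ (S.core U hU) le_sup_left,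
    haveI := hN
    haveI := U.normalCore_normal
    inferInstance, le_sup_right⟩

theorem b4_nbOf_le {S : OSys G} {N : Subgroup G} (hN : N.Normal) {U : Subgroup G} (hU : S.Op U)
    {V : Subgroup G} (h1 : U ≤ V) (h2 : N ≤ V) : (b4_nbOf hN hU).1 ≤ V :=
  sup_le (U.normalCore_le.trans h1) h2

/-- The smallest open subgroup that contains `P T` and `γ ^ 2 ^ l`. -/
theorem Ug_le {T : AddSubgroup (Fin h → ℤ_[2])} {l : ℕ} {U : Subgroup G} (hU : S.Op U) (hN : N ≤ U)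
    (h1 : d.P T ≤ U) (h2 : d.γ ^ 2 ^ l ∈ U) : d.Ug T l ≤ U := by
  refine (iInf_le _ (b4_nbOf d.nN hU)).trans ?_
  refine sup_le (sup_le h1 ?_) (b4_nbOf_le d.nN hU le_rfl hN)
  rwa [Subgroup.zpowers_le]

theorem b4_P_mono {T T' : AddSubgroup (Fin h → ℤ_[2])} (hle : T ≤ T') : d.P T ≤ d.P T' :=
  fun _ ha => ⟨ha.1, hle ha.2⟩

theorem Ug_mono {T T' : AddSubgroup (Fin h → ℤ_[2])} {l l' : ℕ} (hle : T ≤ T') (hl : l' ≤ l) :
    d.Ug T l ≤ d.Ug T' l' := by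
  refine iInf_mono fun W => sup_le_sup_right (sup_le_sup (d.b4_P_mono hle) ?_) _
  rw [Subgroup.zpowers_le, ← Nat.sub_add_cancel hl, pow_add, mul_comm, pow_mul]
  exact Subgroup.pow_mem _ (Subgroup.mem_zpowers _) _

theorem b4_P_top : d.P ⊤ = d.A := by
  ext a
  exact ⟨fun ha => ha.1, fun ha => ⟨ha, trivial⟩⟩

theorem b4_P_inf (T₁ T₂ : AddSubgroup (Fin h → ℤ_[2])) : d.P T₁ ⊓ d.P T₂ = d.P (T₁ ⊓ T₂) := by
  ext a
  constructor
  · rintro ⟨⟨h1, h2⟩, ⟨_, h3⟩⟩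
    exact ⟨h1, h2, h3⟩
  · rintro ⟨h1, h2, h3⟩
    exact ⟨⟨h1, h2⟩, ⟨h1, h3⟩⟩

theorem b4_Gl_anti {l l' : ℕ} (hl : l ≤ l') : d.Gl l' ≤ d.Gl l := by
  induction hl with
  | refl => exact le_rfl
  | step _ ih => exact (d.Gle _).trans ih

theorem b4_opT_inf {T₁ T₂ : AddSubgroup (Fin h → ℤ_[2])} (h1 : OpT T₁) (h2 : OpT T₂) :
    OpT (T₁ ⊓ T₂) := by
  obtain ⟨n₁, hn₁⟩ := h1
  obtain ⟨n₂, hn₂⟩ := h2
  refine ⟨n₁ + n₂, fun x => ⟨?_, ?_⟩⟩
  · rw [pow_add, mul_comm, mul_smul]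
    exact T₁.nsmul_mem (hn₁ x) _
  · rw [pow_add, mul_smul]
    exact T₂.nsmul_mem (hn₂ x) _

theorem b4_index_ne_zero {U : Subgroup G} (hU : S.Op U) : U.index ≠ 0 := by
  obtain ⟨n, hn⟩ := S.idx U hU
  rw [hn]
  positivity

theorem b4_opT_index_pos {T : AddSubgroup (Fin h → ℤ_[2])} (hT : OpT T) : 0 < T.index := by
  obtain ⟨n, hn⟩ := opT_index hT
  rw [hn]
  positivity

theorem b4_eq_of_index_le {U V : Subgroup G} (hle : V ≤ U) (hU : U.index ≠ 0)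
    (h : V.index ≤ U.index) (hV : V.index ≠ 0) : V = U := by
  refine le_antisymm hle ?_
  rw [← Subgroup.relIndex_eq_one]
  have h1 := Subgroup.relIndex_mul_index hle
  have h2 : 0 < U.index := Nat.pos_of_ne_zero hU
  have h3 : V.relIndex U ≤ 1 := by
    by_contra hcon
    have h4 : 2 * U.index ≤ V.relIndex U * U.index := Nat.mul_le_mul_right _ (by omega)
    omega
  have h4 : V.relIndex U ≠ 0 := by
    intro h0
    rw [h0, zero_mul] at h1
    exact hV h1.symm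
  omega

theorem Ug_inf {T₁ T₂ : AddSubgroup (Fin h → ℤ_[2])} (h1 : OpT T₁) (h2 : OpT T₂) (l₁ l₂ : ℕ) :
    d.Ug T₁ l₁ ⊓ d.Ug T₂ l₂ = d.Ug (T₁ ⊓ T₂) (max l₁ l₂) := by
  have h3 := b4_opT_inf h1 h2
  have hopU : S.Op (d.Ug T₁ l₁ ⊓ d.Ug T₂ l₂) := S.inf _ _ (d.Ug_op h1 l₁) (d.Ug_op h2 l₂)
  have hopV := d.Ug_op h3 (max l₁ l₂)
  have hle : d.Ug (T₁ ⊓ T₂) (max l₁ l₂) ≤ d.Ug T₁ l₁ ⊓ d.Ug T₂ l₂ :=
    le_inf (d.Ug_mono inf_le_left (le_max_left _ _)) (d.Ug_mono inf_le_right (le_max_right _ _))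
  refine (b4_eq_of_index_le hle (b4_index_ne_zero hopU) ?_ (b4_index_ne_zero hopV)).symm
  set U := d.Ug T₁ l₁ ⊓ d.Ug T₂ l₂ with hU
  have hA := d.nA
  have hinf : U ⊓ d.A = d.P (T₁ ⊓ T₂) := by
    rw [← d.b4_P_inf, ← d.Ug_inf_A h1 l₁, ← d.Ug_inf_A h2 l₂, hU]
    exact inf_inf_distrib_right _ _ _
  have hsup : U ⊔ d.A ≤ d.Gl (max l₁ l₂) := by
    rcases le_total l₁ l₂ with hl | hl
    · rw [max_eq_right hl, ← d.Ug_sup_A h2 l₂]
      exact sup_le_sup_right inf_le_right _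
    · rw [max_eq_left hl, ← d.Ug_sup_A h1 l₁]
      exact sup_le_sup_right inf_le_left _
  have e1 : (T₁ ⊓ T₂).index * (U ⊔ d.A).index ≤ U.index := by
    rw [← Subgroup.relIndex_mul_index (show U ≤ U ⊔ d.A from le_sup_left)]
    refine Nat.mul_le_mul_right _ ?_
    have e3 := d.P_relIndex (show T₁ ⊓ T₂ ≤ ⊤ from le_top)
    rw [b4_P_top, AddSubgroup.relIndex_top_right] at e3
    rw [← e3, ← hinf, Subgroup.inf_relIndex_right]
    refine Subgroup.relIndex_le_of_le_right le_sup_right ?_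
    intro h0
    apply b4_index_ne_zero hopU
    rw [← Subgroup.relIndex_mul_index (show U ≤ U ⊔ d.A from le_sup_left), h0, zero_mul]
  have e2 : 2 ^ (max l₁ l₂) ≤ (U ⊔ d.A).index := by
    rw [← d.Gi]
    refine Nat.le_of_dvd ?_ (Subgroup.index_dvd_of_le hsup)
    exact Nat.pos_of_ne_zero (b4_index_ne_zero (S.up _ _ hopU le_sup_left))
  rw [d.Ug_index h3]
  exact (Nat.mul_le_mul_left _ e2).trans e1

theorem Ug_relIndex {T T' : AddSubgroup (Fin h → ℤ_[2])} {l l' : ℕ} (hT : OpT T) (hle : T ≤ T')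
    (hl : l' ≤ l) : (d.Ug T l).relIndex (d.Ug T' l') = T.relIndex T' * 2 ^ (l - l') := by
  have hT' := hT.mono hle
  have h1 := Subgroup.relIndex_mul_index (d.Ug_mono hle hl)
  rw [d.Ug_index hT, d.Ug_index hT', ← AddSubgroup.relIndex_mul_index hle] at h1
  have h2 : 2 ^ l = 2 ^ (l - l') * 2 ^ l' := by
    rw [← pow_add, Nat.sub_add_cancel hl]
  rw [h2] at h1
  have h3 : 0 < T'.index * 2 ^ l' := Nat.mul_pos (b4_opT_index_pos hT') (by positivity)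
  refine Nat.eq_of_mul_eq_mul_right h3 (h1.trans ?_)
  ring

theorem b4_x_pow {a : G} (ha : a ∈ d.A) (n : ℕ) : d.x (a ^ n) = n • d.x a := by
  induction n with
  | zero => rw [pow_zero, d.x_one, zero_smul]
  | succ n ih => rw [pow_succ, d.mul _ (d.A.pow_mem ha n) _ ha, ih, succ_nsmul]

theorem b4_pow_mem_core {U : Subgroup G} {k : ℕ} (hk : U.normalCore.index = 2 ^ k) (g : G) :
    g ^ 2 ^ k ∈ U.normalCore := by
  have := U.normalCore_normal
  rw [← hk]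
  exact Subgroup.pow_index_mem _ g

theorem Ug_cofinal {U : Subgroup G} (hU : S.Op U) (hN : N ≤ U) :
    ∃ T : AddSubgroup (Fin h → ℤ_[2]), OpT T ∧ ∃ l, d.Ug T l ≤ U := by
  obtain ⟨k, hk⟩ := S.idx _ (S.core U hU)
  let T : AddSubgroup (Fin h → ℤ_[2]) :=
    { carrier := {t | ∃ a, a ∈ U ∧ a ∈ d.A ∧ d.x a = t}
      zero_mem' := ⟨1, U.one_mem, d.A.one_mem, d.x_one⟩
      add_mem' := by
        rintro _ _ ⟨a, h1, h2, rfl⟩ ⟨b, h3, h4, rfl⟩
        exact ⟨a * b, U.mul_mem h1 h3, d.A.mul_mem h2 h4, d.mul a h2 b h4⟩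
      neg_mem' := by
        rintro _ ⟨a, h1, h2, rfl⟩
        exact ⟨a⁻¹, U.inv_mem h1, d.A.inv_mem h2, d.x_inv h2⟩ }
  have hT : ∀ t, t ∈ T ↔ ∃ a, a ∈ U ∧ a ∈ d.A ∧ d.x a = t := fun _ => Iff.rfl
  refine ⟨T, ⟨k, fun t => ?_⟩, k, d.Ug_le hU hN ?_ (U.normalCore_le (b4_pow_mem_core hk _))⟩
  · obtain ⟨a, ha, rfl⟩ := d.surj t
    rw [hT]
    exact ⟨a ^ 2 ^ k, U.normalCore_le (b4_pow_mem_core hk a), d.A.pow_mem ha _, d.b4_x_pow ha _⟩
  · rintro a ⟨ha, hat⟩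
    rw [hT] at hat
    obtain ⟨b, hbU, hbA, hb⟩ := hat
    have h1 : d.x (a * b⁻¹) = 0 := by
      rw [d.mul a ha _ (d.A.inv_mem hbA), d.x_inv hbA, hb, add_neg_cancel]
    have h2 : a * b⁻¹ ∈ U := hN ((d.ker _ (d.A.mul_mem ha (d.A.inv_mem hbA))).1 h1)
    have h3 := U.mul_mem h2 hbU
    rwa [inv_mul_cancel_right] at h3

theorem b4_exists_W {T : AddSubgroup (Fin h → ℤ_[2])} (hT : OpT T) :
    ∃ W, S.Op W ∧ W.Normal ∧ ∀ a ∈ d.A, a ∈ W → a ∈ d.P T := by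
  obtain ⟨n, hn⟩ := hT
  obtain ⟨W, hW, hWn, -, hWc⟩ := d.cont n
  refine ⟨W, hW, hWn, fun a ha haW => ⟨ha, ?_⟩⟩
  have h1 := hWc a ha haW
  choose y hy using h1
  have : d.x a = (2 ^ n : ℕ) • y := by
    funext i
    rw [hy i]
    simp
  rw [this]
  exact hn y

theorem Ug_normal {T : AddSubgroup (Fin h → ℤ_[2])} (hT : OpT T) :
    ∃ l₀, ∀ l, l₀ ≤ l → (d.Ug T l).Normal := by
  obtain ⟨W, hW, hWn, hWA⟩ := d.b4_exists_W hT
  obtain ⟨k, hk⟩ := S.idx W hW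
  have hPn : (d.P T).Normal := d.P_normal fun c t ht => smul_mem_of_opT hT c ht
  have hAn := d.nA
  refine ⟨k, fun l hl => ?_⟩
  have hz : d.γ ^ 2 ^ l ∈ W := by
    rw [← Nat.sub_add_cancel hl, pow_add, mul_comm, pow_mul]
    refine W.pow_mem ?_ _
    rw [← hk]
    exact Subgroup.pow_index_mem _ _
  set z := d.γ ^ 2 ^ l with hzdef
  have key : ∀ W' : Nb S N, ((d.P T ⊔ Subgroup.zpowers z) ⊔ W'.1).Normal := by
    intro W'
    have hW'n := W'.2.2.1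
    set H := (d.P T ⊔ Subgroup.zpowers z) ⊔ W'.1 with hH
    have hPH : d.P T ≤ H := le_sup_left.trans le_sup_left
    have hWH : W'.1 ≤ H := le_sup_right
    have hzH : z ∈ H := (le_sup_right.trans le_sup_left : Subgroup.zpowers z ≤ H)
      (Subgroup.mem_zpowers z)
    have hconj : ∀ g : G, g * z * g⁻¹ ∈ H := by
      intro g
      -- decomposition of `g`
      obtain ⟨m, hm⟩ := d.cof (d.A ⊔ W'.1) (S.up _ _ W'.2.1 le_sup_right) le_sup_left
      have htop : Subgroup.zpowers d.γ ⊔ (d.A ⊔ W'.1) = ⊤ :=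
        top_le_iff.1 ((d.gen m).symm.le.trans (sup_le_sup_left hm _))
      have hg : g ∈ Subgroup.zpowers d.γ ⊔ (d.A ⊔ W'.1) := by rw [htop]; trivial
      obtain ⟨y, hy, v, hv, rfl⟩ := Subgroup.mem_sup_of_normal_right.1 hg
      obtain ⟨a, ha, w, hw, rfl⟩ := Subgroup.mem_sup_of_normal_right.1 hv
      obtain ⟨j, rfl⟩ := Subgroup.mem_zpowers_iff.1 hy
      -- the three factors
      have e : d.γ ^ j * (a * w) * z * (d.γ ^ j * (a * w))⁻¹ =
          (d.γ ^ j * (a * z * a⁻¹ * z⁻¹) * (d.γ ^ j)⁻¹) * (d.γ ^ j * z * (d.γ ^ j)⁻¹) *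
            ((d.γ ^ j * a) * (z⁻¹ * (w * z * w⁻¹)) * (d.γ ^ j * a)⁻¹) := by group
      rw [e]
      have c1 : a * z * a⁻¹ * z⁻¹ ∈ d.P T := by
        refine hWA _ ?_ ?_
        · rw [mul_assoc, mul_assoc]
          refine d.A.mul_mem ha ?_
          rw [← mul_assoc]
          exact hAn.conj_mem _ (d.A.inv_mem ha) z
        · exact W.mul_mem (hWn.conj_mem z hz a) (W.inv_mem hz)
      have c2 : d.γ ^ j * z * (d.γ ^ j)⁻¹ = z := by
        have hcomm : Commute (d.γ ^ j) z := by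
          rw [hzdef]
          exact ((Commute.refl d.γ).zpow_left j).pow_right _
        rw [hcomm.eq, mul_inv_cancel_right]
      have c3 : z⁻¹ * (w * z * w⁻¹) ∈ W'.1 := by
        have : z⁻¹ * (w * z * w⁻¹) = (z⁻¹ * w * (z⁻¹)⁻¹) * w⁻¹ := by group
        rw [this]
        exact W'.1.mul_mem (hW'n.conj_mem w hw _) (W'.1.inv_mem hw)
      refine H.mul_mem (H.mul_mem (hPH (hPn.conj_mem _ c1 _)) ?_) (hWH (hW'n.conj_mem _ c3 _))
      rw [c2]
      exact hzH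
    refine ⟨fun n hn g => ?_⟩
    have hle : H ≤ H.comap (MulAut.conj g).toMonoidHom := by
      refine sup_le (sup_le ?_ ?_) ?_
      · intro p hp
        exact hPH (hPn.conj_mem p hp g)
      · rw [Subgroup.zpowers_le]
        exact hconj g
      · intro w hw
        exact hWH (hW'n.conj_mem w hw g)
    exact hle hn
  exact Subgroup.normal_iInf_normal key

/-- A function fixed by `P T`, by an open subgroup and by `γ ^ 2 ^ l` is fixed by `Ug T l`. -/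
theorem rho_Ug {D : ℕ} {T : AddSubgroup (Fin h → ℤ_[2])} {l : ℕ} {f : Fn G D}
    (hf : f ∈ CC S (d.P T) D) (h1 : rho (d.γ ^ 2 ^ l) f = f) : ∀ u ∈ d.Ug T l, rho u f = f := by
  obtain ⟨⟨V, hV, hfV⟩, hfP⟩ := hf
  have hmul : ∀ a b : G, rho (a * b) f = rho a (rho b f) := by
    intro a b
    funext p
    show f (p * (a * b)) = f (p * a * b)
    rw [mul_assoc]
  let H : Subgroup G :=
    { carrier := {u | rho u f = f}
      one_mem' := by
        show rho 1 f = f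
        funext p
        show f (p * 1) = f p
        rw [mul_one]
      mul_mem' := by
        intro a b ha hb
        show rho (a * b) f = f
        rw [hmul, show rho b f = f from hb, show rho a f = f from ha]
      inv_mem' := by
        intro a ha
        show rho a⁻¹ f = f
        have h2 : rho a f = f := ha
        conv_lhs => rw [← h2]
        rw [← hmul, inv_mul_cancel]
        funext p
        show f (p * 1) = f p
        rw [mul_one] }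
  have hle : d.Ug T l ≤ H := by
    refine (iInf_le _ (b4_nbOf d.nN hV)).trans ?_
    have hP : d.P T ≤ H := fun q hq => hfP q hq
    refine sup_le (sup_le hP ?_) (b4_nbOf_le d.nN hV (fun u hu => hfV u hu) ((d.N_le_P T).trans hP))
    rw [Subgroup.zpowers_le]
    exact h1
  exact fun u hu => hle hu

end Data4

end Pool.Agent.EP
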