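import Pool.Agent.EP.D4F

/-!
# Exact pairs: cyclic towers of degree four (MP_2429c0)

`dd_cyclic`: `Z := ZZ S g U₂`; `y` normalises `U₂` (`rho_mem_ZZ`), `E := rho y + 1` acts on `Z`; `ker E = inv ⊥ Z U₀ = ZZ S g U₀`,
`ker E ^ 2 = ZZ S g U₁` (`(rho y + 1) ^ 2 = rho (y ^ 2) + 1`), `E ^ 4 = rho (y ^ 4) + 1 = 0` on `Z`.  `ker_four` of `Iwa` and
`finrank_ZZ`: `dim ZZ U₂ + 2 dim ZZ U₀ ≤ 3 dim ZZ U₁`, with `U₁.index = 2 U₀.index`, `U₂.index = 4 U₀.index`.
`F_db`: for large `l`, `y ∈ A` with `v (x y) = 2 ^ t` normalises `Ug (Cv v (t + 2)) l` (`Ug_normal`), and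
`Ug (Cv v t) l = Ug (Cv v (t + 2)) l ⊔ zpowers y`, and so on (compare indices).
-/

universe u

namespace Pool.Agent.EP

variable {G : Type u} [Group G] {S : OSys G} {N : Subgroup G} {h D : ℕ} {g : Fin D → G}

namespace D4CAux

/-- The operator `rho y + 1` on `ZZ S g U`. -/
noncomputable def EE (S : OSys G) (g : Fin D → G) (U : Subgroup G) (y : G)
    (hy : ∀ q ∈ U, y⁻¹ * q * y ∈ U) : Module.End (ZMod 2) (ZZ S g U) :=
  ((rho y).restrict fun _ hf => rho_mem_ZZ S g U y hy hf) + 1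

theorem EE_val (S : OSys G) (g : Fin D → G) (U : Subgroup G) (y : G)
    (hy : ∀ q ∈ U, y⁻¹ * q * y ∈ U) (f : ZZ S g U) :
    ((EE S g U y hy f : ZZ S g U) : Fn G D) = rho y (f : Fn G D) + f := rfl

theorem rhoMul (a b : G) (f : Fn G D) : rho (a * b) f = rho a (rho b f) := by
  funext p
  change f (p * (a * b)) = f (p * a * b)
  rw [mul_assoc]

theorem rhoOne (f : Fn G D) : rho (1 : G) f = f := by
  funext p
  change f (p * 1) = f p
  rw [mul_one]

omit [Group G] in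
theorem add_self_Fn (f : Fn G D) : f + f = 0 := by
  funext p j
  exact CharTwo.add_self_eq_zero (f p j)

theorem EE_sq_val (S : OSys G) (g : Fin D → G) (U : Subgroup G) (y : G)
    (hy : ∀ q ∈ U, y⁻¹ * q * y ∈ U) (f : ZZ S g U) :
    (((EE S g U y hy ^ 2) f : ZZ S g U) : Fn G D) = rho (y ^ 2) (f : Fn G D) + f := by
  rw [pow_two, Module.End.mul_apply, EE_val, EE_val, map_add, pow_two, rhoMul]
  have := add_self_Fn (rho y (f : Fn G D))
  calc rho y (rho y (f : Fn G D)) + rho y (f : Fn G D) + (rho y (f : Fn G D) + f) =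
      rho y (rho y (f : Fn G D)) + (rho y (f : Fn G D) + rho y (f : Fn G D)) + f := by abel
    _ = _ := by rw [this, add_zero]

theorem EE_four_val (S : OSys G) (g : Fin D → G) (U : Subgroup G) (y : G)
    (hy : ∀ q ∈ U, y⁻¹ * q * y ∈ U) (f : ZZ S g U) :
    (((EE S g U y hy ^ 4) f : ZZ S g U) : Fn G D) = rho (y ^ 4) (f : Fn G D) + f := by
  have h1 : EE S g U y hy ^ 4 = EE S g U y hy ^ 2 * EE S g U y hy ^ 2 := by
    rw [← pow_add]
  rw [h1, Module.End.mul_apply, EE_sq_val, EE_sq_val, map_add, show (4 : ℕ) = 2 + 2 from rfl,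
    pow_add, rhoMul]
  have := add_self_Fn (rho (y ^ 2) (f : Fn G D))
  calc rho (y ^ 2) (rho (y ^ 2) (f : Fn G D)) + rho (y ^ 2) (f : Fn G D) +
        (rho (y ^ 2) (f : Fn G D) + f) =
      rho (y ^ 2) (rho (y ^ 2) (f : Fn G D)) +
        (rho (y ^ 2) (f : Fn G D) + rho (y ^ 2) (f : Fn G D)) + f := by abel
    _ = _ := by rw [this, add_zero]

omit [Group G] in
theorem add_eq_zero_Fn (f f' : Fn G D) : f + f' = 0 ↔ f = f' := by
  constructor
  · intro h
    have h1 := add_self_Fn f'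
    rw [← h1] at h
    exact add_right_cancel h
  · rintro rfl
    exact add_self_Fn f

/-- The elements fixed by `z` inside `ZZ S g U`, where `U' = U ⊔ zpowers z` is open. -/
theorem finrank_fixed (hg : TGen S g) {U U' : Subgroup G} (hU' : S.Op U') (z : G)
    (e : U' = U ⊔ Subgroup.zpowers z) (K : Submodule (ZMod 2) (ZZ S g U))
    (hK : ∀ f : ZZ S g U, f ∈ K ↔ rho z (f : Fn G D) = f) :
    Module.finrank (ZMod 2) K = Module.finrank (ZMod 2) (ZZ S g U') := by
  have hle : U ≤ U' := by rw [e]; exact le_sup_left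
  have h1 : K = (ZZ S g U').comap (ZZ S g U).subtype := by
    ext f
    rw [hK, Submodule.mem_comap]
    constructor
    · intro hf
      rw [← inv_ZZ S hg hU' hle]
      refine ⟨f.2, ?_⟩
      intro u hu
      rw [Submodule.mem_bot, sub_eq_zero]
      let H : Subgroup G :=
        { carrier := {x | rho x (f : Fn G D) = f}
          one_mem' := rhoOne _
          mul_mem' := by
            intro a b ha hb
            change rho (a * b) (f : Fn G D) = f
            change rho a (f : Fn G D) = f at ha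
            change rho b (f : Fn G D) = f at hb
            rw [rhoMul, hb, ha]
          inv_mem' := by
            intro a ha
            change rho a (f : Fn G D) = f at ha
            change rho a⁻¹ (f : Fn G D) = f
            nth_rewrite 1 [← ha]
            rw [← rhoMul, inv_mul_cancel, rhoOne] }
      have hH : U' ≤ H := by
        rw [e]
        apply sup_le
        · intro q hq
          exact (ZZ_le S g U f.2).2 q hq
        · rw [Subgroup.zpowers_le]
          exact hf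
      exact hH hu
    · intro hf
      have hz : z ∈ U' := by
        rw [e]
        exact Subgroup.mem_sup_right (Subgroup.mem_zpowers z)
      exact (ZZ_le S g U' hf).2 z hz
  rw [h1]
  exact LinearEquiv.finrank_eq (Submodule.comapSubtypeEquivOfLe (ZZ_mono S g hle))

end D4CAux

open D4CAux in
theorem dd_cyclic (hg : TGen S g) {U₀ U₁ U₂ : Subgroup G} (h0 : S.Op U₀) (h1 : S.Op U₁)
    (h2 : S.Op U₂) (y : G) (hy : ∀ q ∈ U₂, y⁻¹ * q * y ∈ U₂) (h4 : y ^ 4 ∈ U₂)
    (e0 : U₀ = U₂ ⊔ Subgroup.zpowers y) (e1 : U₁ = U₂ ⊔ Subgroup.zpowers (y ^ 2))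
    (i1 : U₁.index = 2 * U₀.index) (i2 : U₂.index = 2 * U₁.index) :
    dd S U₂ + 2 * dd S U₀ ≤ 3 * dd S U₁ := by
  have := finite_ZZ S g h2
  set T := EE S g U₂ y hy with hT
  have hk1 : Module.finrank (ZMod 2) (LinearMap.ker T) = Module.finrank (ZMod 2) (ZZ S g U₀) := by
    apply finrank_fixed hg h0 y e0
    intro f
    rw [LinearMap.mem_ker, ← Submodule.coe_eq_zero, hT, EE_val, add_eq_zero_Fn]
  have hk2 : Module.finrank (ZMod 2) (LinearMap.ker (T ^ 2)) =
      Module.finrank (ZMod 2) (ZZ S g U₁) := by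
    apply finrank_fixed hg h1 (y ^ 2) e1
    intro f
    rw [LinearMap.mem_ker, ← Submodule.coe_eq_zero, hT, EE_sq_val, add_eq_zero_Fn]
  have hk4 : Module.finrank (ZMod 2) (LinearMap.ker (T ^ 4)) =
      Module.finrank (ZMod 2) (ZZ S g U₂) := by
    have : LinearMap.ker (T ^ 4) = ⊤ := by
      rw [eq_top_iff]
      intro f _
      rw [LinearMap.mem_ker, ← Submodule.coe_eq_zero, hT, EE_four_val, add_eq_zero_Fn]
      exact (ZZ_le S g U₂ f.2).2 _ h4
    rw [this, finrank_top]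
  have hfin : ∀ j, Module.Finite (ZMod 2) (LinearMap.ker (T ^ j)) := fun j => inferInstance
  have h5 := ker_four T hfin
  rw [hk1, hk2, hk4] at h5
  have f0 := finrank_ZZ S hg h0
  have f1 := finrank_ZZ S hg h1
  have f2 := finrank_ZZ S hg h2
  omega

theorem D4CAux.approx (n : ℕ) (c : ℤ_[2]) : ∃ k : ℕ, (2 : ℤ_[2]) ^ n ∣ c - k := by
  refine ⟨c.appr n, ?_⟩
  have := PadicInt.appr_spec n c
  rw [Ideal.mem_span_singleton] at this
  exact_mod_cast this

theorem Data4.F_db (d : Data4 S N h) (hg : TGen S g) (v : (Fin h → ℤ_[2]) →ₗ[ℤ_[2]] ℤ_[2])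
    (hv : Function.Surjective v) (t : ℕ) :
    d.F (Cv v (t + 2)) - d.F (Cv v (t + 1)) ≤ 2 * (d.F (Cv v (t + 1)) - d.F (Cv v t)) := by
  obtain ⟨w, hw⟩ := hv ((2 : ℤ_[2]) ^ t)
  obtain ⟨y, hyA, hy⟩ := d.surj w
  have hvy : v (d.x y) = 2 ^ t := by rw [hy, hw]
  -- powers
  have hxpow : ∀ (b : G), b ∈ d.A → ∀ n : ℕ, d.x (b ^ n) = n • d.x b := by
    intro b hb n
    induction n with
    | zero => rw [pow_zero, d.x_one, zero_smul]
    | succ n ih => rw [pow_succ, d.mul _ (d.A.pow_mem hb n) b hb, ih, succ_nsmul]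
  obtain ⟨l₁, hl₁⟩ := d.Ug_normal (opT_Cv v (t + 2))
  obtain ⟨c0, m0, hF0⟩ := d.F_spec hg (opT_Cv v t)
  obtain ⟨c1, m1, hF1⟩ := d.F_spec hg (opT_Cv v (t + 1))
  obtain ⟨c2, m2, hF2⟩ := d.F_spec hg (opT_Cv v (t + 2))
  have mem_Cv : ∀ (s : ℕ) (z : Fin h → ℤ_[2]), z ∈ Cv v s ↔ (2 : ℤ_[2]) ^ s ∣ v z :=
    fun _ _ => Iff.rfl
  have hmono : ∀ s s' : ℕ, s ≤ s' → Cv v s' ≤ Cv v s := by
    intro s s' hs z hz
    rw [mem_Cv] at hz ⊢
    exact (pow_dvd_pow 2 hs).trans hz
  -- generation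
  have hgenr : ∀ (l i : ℕ) (z : G), z ∈ d.A → v (d.x z) = 2 ^ (t + i) → i ≤ 2 →
      d.Ug (Cv v (t + i)) l = d.Ug (Cv v (t + 2)) l ⊔ Subgroup.zpowers z := by
    intro l i z hz hvz hi
    apply le_antisymm
    · apply d.Ug_le
      · exact S.up _ _ (d.Ug_op (opT_Cv v (t + 2)) l) le_sup_left
      · exact (d.N_le_Ug _ l).trans le_sup_left
      · rintro a ⟨haA, ha⟩
        rw [mem_Cv] at ha
        obtain ⟨c, hc⟩ := ha
        obtain ⟨k, hk⟩ := D4CAux.approx (2 - i) c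
        have hzk : z ^ k ∈ d.A := d.A.pow_mem hz k
        have hmem : a * (z ^ k)⁻¹ ∈ d.P (Cv v (t + 2)) := by
          refine ⟨d.A.mul_mem haA (d.A.inv_mem hzk), ?_⟩
          rw [mem_Cv, d.mul a haA _ (d.A.inv_mem hzk), d.x_inv hzk, hxpow z hz k, map_add,
            map_neg, map_nsmul, hc, hvz]
          have : (2 : ℤ_[2]) ^ (t + i) * c + -(k • (2 : ℤ_[2]) ^ (t + i)) =
              2 ^ (t + i) * (c - k) := by
            rw [nsmul_eq_mul]
            ring
          rw [this, show t + 2 = t + i + (2 - i) by omega, pow_add]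
          exact mul_dvd_mul_left _ hk
        have : a = a * (z ^ k)⁻¹ * z ^ k := by group
        rw [this]
        exact Subgroup.mul_mem_sup (d.P_le_Ug _ l hmem)
          (Subgroup.pow_mem _ (Subgroup.mem_zpowers z) k)
      · exact Subgroup.mem_sup_left (d.pow_mem_Ug _ l)
    · apply sup_le
      · exact d.Ug_mono (hmono _ _ (by omega)) le_rfl
      · rw [Subgroup.zpowers_le]
        apply d.P_le_Ug
        refine ⟨hz, ?_⟩
        rw [mem_Cv, hvz]
  have key : ∀ l : ℕ, l₁ ≤ l →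
      dd S (d.Ug (Cv v (t + 2)) l) + 2 * dd S (d.Ug (Cv v t) l) ≤
        3 * dd S (d.Ug (Cv v (t + 1)) l) := by
    intro l hl
    have hn := hl₁ l hl
    refine dd_cyclic hg (d.Ug_op (opT_Cv v t) l) (d.Ug_op (opT_Cv v (t + 1)) l)
      (d.Ug_op (opT_Cv v (t + 2)) l) y ?_ ?_ ?_ ?_ ?_ ?_
    · intro q hq
      have := hn.conj_mem q hq y⁻¹
      rwa [inv_inv] at this
    · apply d.P_le_Ug
      refine ⟨d.A.pow_mem hyA 4, ?_⟩
      rw [mem_Cv, hxpow y hyA 4, map_nsmul, hvy, nsmul_eq_mul]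
      refine ⟨1, ?_⟩
      push_cast
      ring
    · exact hgenr l 0 y hyA hvy (by norm_num)
    · refine hgenr l 1 (y ^ 2) (d.A.pow_mem hyA 2) ?_ (by norm_num)
      rw [hxpow y hyA 2, map_nsmul, hvy, nsmul_eq_mul]
      push_cast
      ring
    · rw [d.Ug_index (opT_Cv v (t + 1)), d.Ug_index (opT_Cv v t), index_Cv v hv, index_Cv v hv]
      ring
    · rw [d.Ug_index (opT_Cv v (t + 2)), d.Ug_index (opT_Cv v (t + 1)), index_Cv v hv,
        index_Cv v hv]
      ring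
  by_contra hcon
  have hpos : 1 ≤ d.F (Cv v (t + 2)) + 2 * d.F (Cv v t) - 3 * d.F (Cv v (t + 1)) := by omega
  obtain ⟨s, hs⟩ := comb_unbounded (3 * c1 - c2 - 2 * c0)
  set l := max (max l₁ m0) (max (max m1 m2) s) with hl
  have k1 := key l (by omega)
  have e0 := hF0 l (by omega)
  have e1 := hF1 l (by omega)
  have e2 := hF2 l (by omega)
  have hs' : (2 : ℤ) ^ s ≤ 2 ^ l := pow_le_pow_right₀ (by norm_num) (by omega)
  have k2 : (dd S (d.Ug (Cv v (t + 2)) l) : ℤ) + 2 * dd S (d.Ug (Cv v t) l) ≤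
        3 * dd S (d.Ug (Cv v (t + 1)) l) := by exact_mod_cast k1
  have k3 : (2 : ℤ) ^ l ≤
      (d.F (Cv v (t + 2)) + 2 * d.F (Cv v t) - 3 * d.F (Cv v (t + 1))) * 2 ^ l := by
    have : (0 : ℤ) ≤ 2 ^ l := by positivity
    nlinarith
  linarith

end Pool.Agent.EP
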