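import Mathlib

/-!
# Exact pairs: Iwasawa's linear algebra lemma (MP_2429c0, Addendum and (4.1))

`T : Z → Z` linear over a field, all `ker T ^ j` finite dimensional.  `f j = dim ker T ^ (j + 1) - dim ker T ^ j` is
nonincreasing, because `T` induces an injection `ker T ^ (j + 2) / ker T ^ (j + 1) → ker T ^ (j + 1) / ker T ^ j`.
-/

namespace Pool.Agent.EP

variable {k Z : Type*} [Field k] [AddCommGroup Z] [Module k Z]

theorem iwa_map_ker (T : Module.End k Z) (j : ℕ) :
    (LinearMap.ker (T ^ (j + 1))).map T = LinearMap.ker (T ^ j) ⊓ LinearMap.range T := by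
  ext y
  constructor
  · rintro ⟨x, hx, rfl⟩
    refine ⟨?_, ⟨x, rfl⟩⟩
    have hx' : (T ^ (j + 1)) x = 0 := hx
    rw [pow_succ] at hx'
    exact hx'
  · rintro ⟨hy, ⟨x, rfl⟩⟩
    refine ⟨x, ?_, rfl⟩
    have hy' : (T ^ j) (T x) = 0 := hy
    have : (T ^ (j + 1)) x = 0 := by
      rw [pow_succ]
      exact hy'
    exact this

theorem iwa_ker_le (T : Module.End k Z) (j : ℕ) :
    LinearMap.ker T ≤ LinearMap.ker (T ^ (j + 1)) := by
  intro x hx
  have hx' : T x = 0 := hx
  have : (T ^ (j + 1)) x = 0 := by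
    rw [pow_succ]
    change (T ^ j) (T x) = 0
    rw [hx', map_zero]
  exact this

theorem iwa_step (T : Module.End k Z) (hfin : ∀ j, Module.Finite k (LinearMap.ker (T ^ j))) (j : ℕ) :
    Module.finrank k (LinearMap.ker (T ^ (j + 1))) =
      Module.finrank k (LinearMap.ker (T ^ j) ⊓ LinearMap.range T : Submodule k Z) +
        Module.finrank k (LinearMap.ker T) := by
  have := hfin (j + 1)
  have h1 := LinearMap.finrank_range_add_finrank_ker (T.domRestrict (LinearMap.ker (T ^ (j + 1))))
  rw [LinearMap.range_domRestrict, iwa_map_ker, LinearMap.ker_domRestrict] at h1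
  rw [← h1]
  congr 1
  exact LinearEquiv.finrank_eq (Submodule.comapSubtypeEquivOfLe (iwa_ker_le T j))

theorem finrank_ker_pow_concave (T : Module.End k Z)
    (hfin : ∀ j, Module.Finite k (LinearMap.ker (T ^ j))) (j : ℕ) :
    Module.finrank k (LinearMap.ker (T ^ (j + 2))) + Module.finrank k (LinearMap.ker (T ^ j)) ≤
      2 * Module.finrank k (LinearMap.ker (T ^ (j + 1))) := by
  have h1 := iwa_step T hfin (j + 1)
  have h2 := iwa_step T hfin j
  have := hfin (j + 1)
  have := hfin j
  have hle : LinearMap.ker (T ^ j) ≤ LinearMap.ker (T ^ (j + 1)) := by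
    intro x hx
    have hx' : (T ^ j) x = 0 := hx
    have : (T ^ (j + 1)) x = 0 := by
      rw [pow_succ']
      change T ((T ^ j) x) = 0
      rw [hx', map_zero]
    exact this
  have : Module.Finite k (LinearMap.ker (T ^ (j + 1)) ⊓ LinearMap.range T : Submodule k Z) :=
    Submodule.finiteDimensional_of_le (inf_le_left : _ ≤ LinearMap.ker (T ^ (j + 1)))
  have h3 := Submodule.finrank_sup_add_finrank_inf_eq
    (LinearMap.ker (T ^ (j + 1)) ⊓ LinearMap.range T) (LinearMap.ker (T ^ j))
  have h4 : Module.finrank k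
      ((LinearMap.ker (T ^ (j + 1)) ⊓ LinearMap.range T) ⊔ LinearMap.ker (T ^ j) : Submodule k Z) ≤
      Module.finrank k (LinearMap.ker (T ^ (j + 1))) :=
    Submodule.finrank_mono (sup_le inf_le_left hle)
  have h5 : (LinearMap.ker (T ^ (j + 1)) ⊓ LinearMap.range T) ⊓ LinearMap.ker (T ^ j) =
      LinearMap.ker (T ^ j) ⊓ LinearMap.range T := by
    apply le_antisymm
    · exact le_inf inf_le_right (inf_le_left.trans inf_le_right)
    · exact le_inf (le_inf (inf_le_left.trans hle) inf_le_right) inf_le_left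
  rw [h5] at h3
  have e : j + 1 + 1 = j + 2 := rfl
  rw [e] at h1
  omega

/-- Eventually linear growth. -/
theorem iwasawa (T : Module.End k Z) (hfin : ∀ j, Module.Finite k (LinearMap.ker (T ^ j))) :
    ∃ f t j₀ : ℕ, ∀ j, j₀ ≤ j → Module.finrank k (LinearMap.ker (T ^ j)) = f * j + t := by
  set d : ℕ → ℕ := fun j => Module.finrank k (LinearMap.ker (T ^ j)) with hd
  have hmono : ∀ j, d j ≤ d (j + 1) := by
    intro j
    have := hfin (j + 1)
    apply Submodule.finrank_mono
    intro x hx
    have hx' : (T ^ j) x = 0 := hx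
    have : (T ^ (j + 1)) x = 0 := by
      rw [pow_succ']
      change T ((T ^ j) x) = 0
      rw [hx', map_zero]
    exact this
  have hconc : ∀ j, d (j + 2) + d j ≤ 2 * d (j + 1) := finrank_ker_pow_concave T hfin
  have hanti : Antitone (fun j => d (j + 1) - d j) := by
    apply antitone_nat_of_succ_le
    intro j
    change d (j + 1 + 1) - d (j + 1) ≤ d (j + 1) - d j
    have := hconc j
    have h1 := hmono j
    have h2 := hmono (j + 1)
    have e : j + 1 + 1 = j + 2 := rfl
    rw [e] at h2 ⊢
    omega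
  classical
  have hex : ∃ n, ∃ j, d (j + 1) - d j = n := ⟨_, 0, rfl⟩
  obtain ⟨j₀, hj₀⟩ := Nat.find_spec hex
  set f := Nat.find hex with hf
  have hmin : ∀ j, f ≤ d (j + 1) - d j := fun j => Nat.find_min' hex ⟨j, rfl⟩
  have hconst : ∀ j, j₀ ≤ j → d (j + 1) = d j + f := by
    intro j hj
    have h1 : d (j + 1) - d j ≤ d (j₀ + 1) - d j₀ := hanti hj
    have h2 := hmin j
    have h3 := hmono j
    omega
  have hlow : ∀ j, f * j ≤ d j := by
    intro j
    induction j with
    | zero => simp
    | succ n ih =>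
      have h2 := hmin n
      have h3 := hmono n
      have : f * (n + 1) = f * n + f := by ring
      omega
  refine ⟨f, d j₀ - f * j₀, j₀, ?_⟩
  intro j hj
  induction j, hj using Nat.le_induction with
  | base =>
    have := hlow j₀
    change d j₀ = _
    omega
  | succ n hn ih =>
    have h1 := hconst n hn
    change d (n + 1) = _
    change d n = _ at ih
    have : f * (n + 1) = f * n + f := by ring
    omega

/-- The cyclic case of order four: `dim ker T ^ 4 - dim ker T ^ 2 ≤ 2 (dim ker T ^ 2 - dim ker T)`. -/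
theorem ker_four (T : Module.End k Z) (hfin : ∀ j, Module.Finite k (LinearMap.ker (T ^ j))) :
    Module.finrank k (LinearMap.ker (T ^ 4)) + 2 * Module.finrank k (LinearMap.ker T) ≤
      3 * Module.finrank k (LinearMap.ker (T ^ 2)) := by
  have h1 := finrank_ker_pow_concave T hfin 1
  have h2 := finrank_ker_pow_concave T hfin 2
  rw [show 1 + 2 = 3 from rfl, show 1 + 1 = 2 from rfl, pow_one] at h1
  rw [show 2 + 2 = 4 from rfl, show 2 + 1 = 3 from rfl] at h2
  omega

end Pool.Agent.EP
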