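import Pool.Agent.EP.D4B
import Pool.Agent.EP.Iwa
import Pool.Agent.EP.ZRk
import Pool.Agent.EP.Comb

/-!
# Exact pairs: the growth function `F` (MP_2429c0, section 4, (4.1)-(4.3))

`exists_F`: `Z := ZZ S g (P T)` is stable (`stable_ZZ`, `P_normal`), `E := rho γ + 1` acts on it, and
`ker E ^ 2 ^ l = {z ∈ Z | rho (γ ^ 2 ^ l) z = z} = inv ⊥ Z (Ug T l) = ZZ S g (Ug T l)` (`rho_Ug`, `inv_ZZ`), of dimension
`dd S (Ug T l) + T.index * 2 ^ l - 1` (`finrank_ZZ`, `Ug_index`).  `iwasawa`: it is `f * 2 ^ l + t` for large `l`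
(`ker E ^ j ≤ ker E ^ 2 ^ j` is finite dimensional).  So `dd S (Ug T l) - 1 = (f - T.index) * 2 ^ l + t`.
`F` is determined by `F_spec`; all the properties follow from the corresponding properties of `dd S (Ug T l)` by letting
`l → ∞` (compare integers `a * 2 ^ l + b` for all large `l`).
-/

universe u

namespace Pool.Agent.EP

/-- Properties of the function `dd` that come from field theory. -/
structure FieldLike {G : Type u} [Group G] (S : OSys G) : Prop where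
  bq : ∀ {U₀ U₁ U₂ U₃ : Subgroup G}, S.Op U₀ → S.Op U₁ → S.Op U₂ → S.Op U₃ → U₁ ≤ U₀ → U₂ ≤ U₀ →
    U₃ ≤ U₀ → U₁.relIndex U₀ = 2 → U₂.relIndex U₀ = 2 → U₃.relIndex U₀ = 2 → U₁ ≠ U₂ → U₁ ≠ U₃ →
    U₂ ≠ U₃ → U₁ ⊓ U₂ ≤ U₃ → dd S (U₁ ⊓ U₂) + 2 * dd S U₀ = dd S U₁ + dd S U₂ + dd S U₃
  mono : ∀ {U U' : Subgroup G}, S.Op U → S.Op U' → U' ≤ U → dd S U ≤ dd S U'
  sub : ∀ {U U' : Subgroup G}, S.Op U → S.Op U' → U' ≤ U →
    dd S U' + U'.relIndex U ≤ U'.relIndex U * dd S U + 1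
  pos : ∀ {U : Subgroup G}, S.Op U → 1 ≤ dd S U

/-- Comparison of growth rates. -/
theorem lin_le {a b a' b' : ℤ} {l₀ : ℕ}
    (h : ∀ l : ℕ, l₀ ≤ l → a * 2 ^ l + b ≤ a' * 2 ^ l + b') : a ≤ a' := by
  by_contra hcon
  push Not at hcon
  obtain ⟨s, hs⟩ := comb_unbounded (b' - b)
  have h1 := h (max l₀ s) (le_max_left _ _)
  have h2 : (2 : ℤ) ^ s ≤ 2 ^ (max l₀ s) := pow_le_pow_right₀ (by norm_num) (le_max_right _ _)
  have h3 : (1 : ℤ) ≤ a - a' := by omega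
  have h4 : (1 : ℤ) * 2 ^ (max l₀ s) ≤ (a - a') * 2 ^ (max l₀ s) :=
    mul_le_mul_of_nonneg_right h3 (by positivity)
  nlinarith

theorem lin_le_real {a b : ℤ} {x : ℝ} {l₀ : ℕ}
    (h : ∀ l : ℕ, l₀ ≤ l → (a : ℝ) * 2 ^ l + b ≤ x * 2 ^ l) : (a : ℝ) ≤ x := by
  by_contra hcon
  push Not at hcon
  have hpos : 0 < (a : ℝ) - x := by linarith
  obtain ⟨n, hn⟩ := exists_nat_gt ((-(b : ℝ)) / ((a : ℝ) - x))
  rw [div_lt_iff₀ hpos] at hn
  have h1 := h (max l₀ n) (le_max_left _ _)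
  have h2 : (n : ℝ) ≤ 2 ^ (max l₀ n) := by
    have h3 : n ≤ 2 ^ (max l₀ n) := (le_max_right l₀ n).trans Nat.lt_two_pow_self.le
    exact_mod_cast h3
  have h4 : (n : ℝ) * ((a : ℝ) - x) ≤ 2 ^ (max l₀ n) * ((a : ℝ) - x) :=
    mul_le_mul_of_nonneg_right h2 hpos.le
  nlinarith

namespace Data4

variable {G : Type u} [Group G] {S : OSys G} {N : Subgroup G} {h D : ℕ} (d : Data4 S N h)
  {g : Fin D → G}

theorem exists_F (hg : TGen S g) {T : AddSubgroup (Fin h → ℤ_[2])} (hT : OpT T) :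
    ∃ F c : ℤ, ∃ l₀ : ℕ, ∀ l, l₀ ≤ l → (dd S (d.Ug T l) : ℤ) - 1 = F * 2 ^ l + c := by
  classical
  have hn : (d.P T).Normal := d.P_normal (fun c t ht => smul_mem_of_opT hT c ht)
  have hst : Stable (ZZ S g (d.P T)) := stable_ZZ S g (d.P T) hn
  let R : Module.End (ZMod 2) (ZZ S g (d.P T)) :=
    (rho d.γ).restrict (fun f hf => hst d.γ f hf)
  have hR : ∀ (n : ℕ) (z : ZZ S g (d.P T)), ((R ^ n) z : Fn G D) = rho (d.γ ^ n) (z : Fn G D) := by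
    intro n
    induction n with
    | zero =>
      intro z
      rw [pow_zero, pow_zero, rho_one]
      rfl
    | succ n ih =>
      intro z
      rw [pow_succ, pow_succ, rho_mul]
      exact ih (R z)
  have two0 : ∀ x : Module.End (ZMod 2) (ZZ S g (d.P T)), x + x = 0 := by
    intro x
    ext1 z
    apply Subtype.ext
    exact two_fn _
  let E : Module.End (ZMod 2) (ZZ S g (d.P T)) := R + 1
  have hE : ∀ l : ℕ, E ^ 2 ^ l = R ^ 2 ^ l + 1 := by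
    intro l
    induction l with
    | zero => rw [pow_zero, pow_one, pow_one]
    | succ l ih =>
      have e : ∀ X : Module.End (ZMod 2) (ZZ S g (d.P T)), X ^ 2 ^ (l + 1) =
          X ^ 2 ^ l * X ^ 2 ^ l := by
        intro X
        rw [pow_succ, mul_two, pow_add]
      rw [e, e, ih, add_mul, mul_add, mul_one, one_mul]
      rw [add_assoc, ← add_assoc (R ^ 2 ^ l), two0, zero_add]
  have hmap : ∀ l : ℕ, (LinearMap.ker (E ^ 2 ^ l)).map (ZZ S g (d.P T)).subtype =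
      ZZ S g (d.Ug T l) := by
    intro l
    rw [← inv_ZZ S hg (d.Ug_op hT l) (d.P_le_Ug T l), hE]
    ext f
    constructor
    · rintro ⟨z, hz, rfl⟩
      have h1 : rho (d.γ ^ 2 ^ l) (z : Fn G D) + (z : Fn G D) = 0 := by
        rw [← hR]
        exact congrArg Subtype.val hz
      have h2 : rho (d.γ ^ 2 ^ l) (z : Fn G D) = (z : Fn G D) := by
        have h3 := two_fn (z : Fn G D)
        rw [← h3] at h1
        exact add_right_cancel h1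
      refine ⟨z.2, fun u hu => ?_⟩
      have h4 := d.rho_Ug (ZZ_le S g _ z.2) h2 u hu
      rw [Submodule.mem_bot]
      exact sub_eq_zero.2 h4
    · rintro ⟨hf, hu⟩
      refine ⟨⟨f, hf⟩, ?_, rfl⟩
      have h1 := hu _ (d.pow_mem_Ug T l)
      rw [Submodule.mem_bot] at h1
      show (R ^ 2 ^ l + 1 : Module.End (ZMod 2) (ZZ S g (d.P T))) ⟨f, hf⟩ = 0
      apply Subtype.ext
      show ((R ^ 2 ^ l) (⟨f, hf⟩ : ZZ S g (d.P T)) : Fn G D) + f = 0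
      rw [hR]
      show rho (d.γ ^ 2 ^ l) f + f = 0
      rw [sub_eq_zero.1 h1, two_fn]
  have equiv : ∀ l : ℕ, Nonempty (LinearMap.ker (E ^ 2 ^ l) ≃ₗ[ZMod 2] ZZ S g (d.Ug T l)) := by
    intro l
    refine ⟨(Submodule.equivMapOfInjective (ZZ S g (d.P T)).subtype
      (Submodule.injective_subtype _) _).trans (LinearEquiv.ofEq _ _ (hmap l))⟩
  have hfin2 : ∀ l : ℕ, Module.Finite (ZMod 2) (LinearMap.ker (E ^ 2 ^ l)) := by
    intro l
    obtain ⟨e⟩ := equiv l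
    have := finite_ZZ S g (d.Ug_op hT l)
    exact Module.Finite.equiv e.symm
  have : Fact (Nat.Prime 2) := ⟨Nat.prime_two⟩
  have hfin : ∀ j : ℕ, Module.Finite (ZMod 2) (LinearMap.ker (E ^ j)) := by
    intro j
    have := hfin2 j
    refine finite_of_le (X' := LinearMap.ker (E ^ 2 ^ j)) ?_
    intro z hz
    have hz' : (E ^ j) z = 0 := hz
    have hj : j ≤ 2 ^ j := Nat.lt_two_pow_self.le
    show (E ^ 2 ^ j) z = 0
    rw [← Nat.sub_add_cancel hj, pow_add]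
    show (E ^ (2 ^ j - j)) ((E ^ j) z) = 0
    rw [hz', map_zero]
  obtain ⟨f, t, j₀, hf⟩ := iwasawa E hfin
  refine ⟨(f : ℤ) - T.index, t, j₀, fun l hl => ?_⟩
  have h1 := hf (2 ^ l) (hl.trans Nat.lt_two_pow_self.le)
  obtain ⟨e⟩ := equiv l
  rw [e.finrank_eq] at h1
  have h2 := finrank_ZZ S hg (d.Ug_op hT l)
  rw [h1, d.Ug_index hT l] at h2
  have h3 : (f : ℤ) * 2 ^ l + t + 1 = dd S (d.Ug T l) + T.index * 2 ^ l := by exact_mod_cast h2
  linear_combination -h3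

open Classical in
/-- The growth rate of `dd S (Ug T l)` in `2 ^ l`. -/
noncomputable def F (T : AddSubgroup (Fin h → ℤ_[2])) : ℤ :=
  if h : ∃ F c : ℤ, ∃ l₀ : ℕ, ∀ l, l₀ ≤ l → (dd S (d.Ug T l) : ℤ) - 1 = F * 2 ^ l + c then h.choose
  else 0

theorem F_spec (hg : TGen S g) {T : AddSubgroup (Fin h → ℤ_[2])} (hT : OpT T) :
    ∃ c : ℤ, ∃ l₀ : ℕ, ∀ l, l₀ ≤ l → (dd S (d.Ug T l) : ℤ) - 1 = d.F T * 2 ^ l + c := by
  have h1 := d.exists_F hg hT
  have h2 : d.F T = h1.choose := by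
    unfold F
    rw [dif_pos h1]
  rw [h2]
  exact h1.choose_spec

theorem P_inj {T T' : AddSubgroup (Fin h → ℤ_[2])} (hP : d.P T = d.P T') : T = T' := by
  have key : ∀ T T' : AddSubgroup (Fin h → ℤ_[2]), d.P T = d.P T' → T ≤ T' := by
    intro T T' hP t ht
    obtain ⟨a, ha, rfl⟩ := d.surj t
    have : a ∈ d.P T := ⟨ha, ht⟩
    rw [hP] at this
    exact this.2
  exact le_antisymm (key _ _ hP) (key _ _ hP.symm)

theorem Ug_ne {T T' : AddSubgroup (Fin h → ℤ_[2])} (hT : OpT T) (hT' : OpT T') (hne : T ≠ T')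
    (l : ℕ) : d.Ug T l ≠ d.Ug T' l := by
  intro h1
  apply hne
  apply d.P_inj
  rw [← d.Ug_inf_A hT l, ← d.Ug_inf_A hT' l, h1]

theorem F_bq (hg : TGen S g) (hS : FieldLike S) (T₀ T₁ T₂ T₃ : AddSubgroup (Fin h → ℤ_[2]))
    (hT : OpT (T₁ ⊓ T₂)) (l1 : T₁ ≤ T₀) (l2 : T₂ ≤ T₀) (l3 : T₃ ≤ T₀)
    (r1 : T₁.relIndex T₀ = 2) (r2 : T₂.relIndex T₀ = 2) (r3 : T₃.relIndex T₀ = 2)
    (n12 : T₁ ≠ T₂) (n13 : T₁ ≠ T₃) (n23 : T₂ ≠ T₃) (l : T₁ ⊓ T₂ ≤ T₃) :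
    d.F (T₁ ⊓ T₂) + 2 * d.F T₀ = d.F T₁ + d.F T₂ + d.F T₃ := by
  have h1 : OpT T₁ := hT.mono inf_le_left
  have h2 : OpT T₂ := hT.mono inf_le_right
  have h3 : OpT T₃ := hT.mono l
  have h0 : OpT T₀ := h1.mono l1
  obtain ⟨c0, m0, e0⟩ := d.F_spec hg h0
  obtain ⟨c1, m1, e1⟩ := d.F_spec hg h1
  obtain ⟨c2, m2, e2⟩ := d.F_spec hg h2
  obtain ⟨c3, m3, e3⟩ := d.F_spec hg h3
  obtain ⟨c4, m4, e4⟩ := d.F_spec hg hT
  have key : ∀ n : ℕ, max m0 (max m1 (max m2 (max m3 m4))) ≤ n →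
      (d.F (T₁ ⊓ T₂) + 2 * d.F T₀) * 2 ^ n + (c4 + 2 * c0) =
        (d.F T₁ + d.F T₂ + d.F T₃) * 2 ^ n + (c1 + c2 + c3) := by
    intro n hn
    simp only [max_le_iff] at hn
    obtain ⟨n0, n1, n2, n3, n4⟩ := hn
    have r : ∀ {T T' : AddSubgroup (Fin h → ℤ_[2])}, OpT T → T ≤ T' → T.relIndex T' = 2 →
        (d.Ug T n).relIndex (d.Ug T' n) = 2 := by
      intro T T' hT hle hr
      rw [d.Ug_relIndex hT hle le_rfl, hr, Nat.sub_self, pow_zero, mul_one]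
    have hinf : d.Ug T₁ n ⊓ d.Ug T₂ n = d.Ug (T₁ ⊓ T₂) n := by
      rw [d.Ug_inf h1 h2, max_self]
    have hb := hS.bq (d.Ug_op h0 n) (d.Ug_op h1 n) (d.Ug_op h2 n) (d.Ug_op h3 n)
      (d.Ug_mono l1 le_rfl) (d.Ug_mono l2 le_rfl) (d.Ug_mono l3 le_rfl) (r h1 l1 r1) (r h2 l2 r2)
      (r h3 l3 r3) (d.Ug_ne h1 h2 n12 n) (d.Ug_ne h1 h3 n13 n) (d.Ug_ne h2 h3 n23 n)
      (by rw [hinf]; exact d.Ug_mono l le_rfl)
    rw [hinf] at hb
    have hb' : (dd S (d.Ug (T₁ ⊓ T₂) n) : ℤ) + 2 * dd S (d.Ug T₀ n) =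
        dd S (d.Ug T₁ n) + dd S (d.Ug T₂ n) + dd S (d.Ug T₃ n) := by exact_mod_cast hb
    linear_combination hb' - e4 n n4 - 2 * e0 n n0 + e1 n n1 + e2 n n2 + e3 n n3
  exact le_antisymm (lin_le fun n hn => (key n hn).le) (lin_le fun n hn => (key n hn).ge)

/-- `hk` is the conclusion of `edge_ge`. -/
theorem F_lb (hg : TGen S g) {k : ℕ}
    (hk : ∀ {U U' : Subgroup G}, S.Op U → S.Op U' → U' ≤ U → U'.relIndex U = 2 →
      k * U.index + dd S U ≤ dd S U')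
    (T' T'' : AddSubgroup (Fin h → ℤ_[2])) (hT : OpT T'') (hle : T'' ≤ T')
    (h2 : T''.relIndex T' = 2) : (k : ℤ) * T'.index ≤ d.F T'' - d.F T' := by
  have hT' : OpT T' := hT.mono hle
  obtain ⟨c1, m1, e1⟩ := d.F_spec hg hT'
  obtain ⟨c2, m2, e2⟩ := d.F_spec hg hT
  have key : (k : ℤ) * T'.index + d.F T' ≤ d.F T'' := by
    refine lin_le (l₀ := max m1 m2) (b := c1) (b' := c2) fun n hn => ?_
    have n1 := (le_max_left _ _).trans hn
    have n2 := (le_max_right _ _).trans hn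
    have h3 := hk (d.Ug_op hT' n) (d.Ug_op hT n) (d.Ug_mono hle le_rfl)
      (by rw [d.Ug_relIndex hT hle le_rfl, h2, Nat.sub_self, pow_zero, mul_one])
    rw [d.Ug_index hT' n] at h3
    have h4 : (k : ℤ) * (T'.index * 2 ^ n) + dd S (d.Ug T' n) ≤ dd S (d.Ug T'' n) := by
      exact_mod_cast h3
    have h5 := e1 n n1
    have h6 := e2 n n2
    nlinarith
  linarith

/-- A lower bound for all open subgroups above `H` is a lower bound for `F`. -/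
theorem F_ge (hg : TGen S g) {k : ℕ} {T : AddSubgroup (Fin h → ℤ_[2])} (hT : OpT T)
    (hk : ∀ l, k * (d.Ug T l).index + 1 ≤ dd S (d.Ug T l)) : (k : ℤ) * T.index ≤ d.F T := by
  obtain ⟨c, m, e⟩ := d.F_spec hg hT
  refine lin_le (l₀ := m) (b := 0) (b' := c) fun n hn => ?_
  have h3 := hk n
  rw [d.Ug_index hT n] at h3
  have h4 : (k : ℤ) * (T.index * 2 ^ n) + 1 ≤ dd S (d.Ug T n) := by exact_mod_cast h3
  have h5 := e n hn
  nlinarith

/-- All small enough open subgroups of `Z_2 ^ h` have small growth rate. -/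
theorem exists_F_le (hg : TGen S g) (hS : FieldLike S) {k : ℕ} (hk : IsRk S N k) (ε : ℝ)
    (hε : 0 < ε) : ∃ T : AddSubgroup (Fin h → ℤ_[2]), OpT T ∧ ∀ T', OpT T' → T' ≤ T →
      (d.F T' : ℝ) ≤ (k + ε) * T'.index := by
  obtain ⟨U, hU, -, hNU, hdd⟩ := hk.2 ε hε
  obtain ⟨T, hT, l, hl⟩ := d.Ug_cofinal hU hNU
  refine ⟨T, hT, fun T' hT' hle => ?_⟩
  obtain ⟨c, m, e⟩ := d.F_spec hg hT'
  refine lin_le_real (l₀ := max l m) (b := c) fun n hn => ?_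
  have n1 := (le_max_left _ _).trans hn
  have n2 := (le_max_right _ _).trans hn
  have hsub : d.Ug T' n ≤ U := (d.Ug_mono hle n1).trans hl
  have h1 := hS.sub hU (d.Ug_op hT' n) hsub
  have h2 := Subgroup.relIndex_mul_index hsub
  rw [d.Ug_index hT' n] at h2
  have h3 : (dd S (d.Ug T' n) : ℝ) + (d.Ug T' n).relIndex U ≤
      (d.Ug T' n).relIndex U * dd S U + 1 := by exact_mod_cast h1
  have h4 : ((d.Ug T' n).relIndex U : ℝ) * U.index = T'.index * 2 ^ n := by exact_mod_cast h2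
  have h5 : (dd S (d.Ug T' n) : ℝ) - 1 = d.F T' * 2 ^ n + c := by exact_mod_cast e n n2
  have h6 : ((d.Ug T' n).relIndex U : ℝ) * (dd S U - 1) ≤
      ((d.Ug T' n).relIndex U : ℝ) * ((k + ε) * U.index) :=
    mul_le_mul_of_nonneg_left (by linarith) (Nat.cast_nonneg _)
  have h7 : ((d.Ug T' n).relIndex U : ℝ) * ((k + ε) * U.index) =
      (k + ε) * T'.index * 2 ^ n := by
    rw [mul_left_comm, h4]; ring
  rw [h7] at h6
  linarith

theorem index_two_pow_le (hh : 0 < h) (n : ℕ) {T : AddSubgroup (Fin h → ℤ_[2])} (hT : OpT T)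
    (hle : ∀ x ∈ T, ∃ y, x = (2 ^ n : ℕ) • y) : 2 ^ n ≤ T.index := by
  let v : (Fin h → ℤ_[2]) →ₗ[ℤ_[2]] ℤ_[2] := LinearMap.proj ⟨0, hh⟩
  have hv : Function.Surjective v := fun z => ⟨fun _ => z, rfl⟩
  have h1 : T ≤ Cv v n := by
    intro x hx
    obtain ⟨y, rfl⟩ := hle x hx
    rw [edge_mem_Cv, map_nsmul, nsmul_eq_mul]
    push_cast
    exact dvd_mul_right _ _
  rw [← index_Cv v hv n]
  obtain ⟨m, hm⟩ := opT_index hT
  have h2 := AddSubgroup.relIndex_mul_index h1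
  have h3 : T.index ≠ 0 := by rw [hm]; positivity
  rw [← h2] at h3 ⊢
  exact Nat.le_mul_of_pos_left _ (Nat.pos_of_ne_zero (left_ne_zero_of_mul h3))

/-- The infimum of `F T / T.index` is `k`, if `IsRk S N k`. -/
theorem F_inf (hg : TGen S g) (hS : FieldLike S) {k : ℕ} (hk : IsRk S N k) (hh : 0 < h) (ε : ℝ)
    (hε : 0 < ε) (n₀ : ℕ) : ∃ T' : AddSubgroup (Fin h → ℤ_[2]), OpT T' ∧ n₀ ≤ T'.index ∧
      (d.F T' : ℝ) ≤ (k + ε) * T'.index := by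
  obtain ⟨T, hT, hF⟩ := d.exists_F_le hg hS hk ε hε
  let M : AddSubgroup (Fin h → ℤ_[2]) :=
    (nsmulAddMonoidHom (α := Fin h → ℤ_[2]) (2 ^ n₀)).range
  have hM : ∀ x ∈ M, ∃ y, x = (2 ^ n₀ : ℕ) • y := by
    rintro _ ⟨y, rfl⟩
    exact ⟨y, rfl⟩
  have hTM : OpT (T ⊓ M) := by
    obtain ⟨m, hm⟩ := hT
    refine ⟨m + n₀, fun x => ⟨?_, ?_⟩⟩
    · rw [pow_add, mul_smul]
      exact hm _
    · rw [pow_add, mul_comm, mul_smul]
      exact ⟨_, rfl⟩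
  refine ⟨T ⊓ M, hTM, ?_, hF _ hTM inf_le_left⟩
  exact Nat.lt_two_pow_self.le.trans
    (index_two_pow_le hh n₀ hTM fun x hx => hM x hx.2)

/-- The case `h = 0`: the growth rate of the `Z_2`-tower itself is `k`. -/
theorem F_top_of_zero (hg : TGen S g) (hS : FieldLike S) {k : ℕ} (hk : IsRk S N k) (hh : h = 0) :
    d.F ⊤ = k := by
  subst hh
  have htop : ∀ T : AddSubgroup (Fin 0 → ℤ_[2]), T = ⊤ := fun T => by
    apply le_antisymm le_top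
    intro x _
    rw [Subsingleton.elim x 0]
    exact T.zero_mem
  have hT : OpT (⊤ : AddSubgroup (Fin 0 → ℤ_[2])) := ⟨0, fun x => AddSubgroup.mem_top _⟩
  have h1 : (k : ℤ) ≤ d.F ⊤ := by
    have := d.F_ge hg hT (k := k) fun l => hk.1 _ (d.Ug_op hT l) (d.N_le_Ug ⊤ l)
    simpa using this
  have h2 : d.F ⊤ < k + 1 := by
    obtain ⟨T, -, hF⟩ := d.exists_F_le hg hS hk (1 / 2) (by norm_num)
    have h3 := hF ⊤ hT (by rw [htop T])
    rw [AddSubgroup.index_top] at h3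
    have h4 : (d.F ⊤ : ℝ) < (k : ℝ) + 1 := by push_cast at h3; linarith
    exact_mod_cast h4
  omega

end Data4

end Pool.Agent.EP
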