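import Pool.Agent.EP.D4L
import Pool.Agent.EP.D4F

/-!
# Exact pairs: growth along a `Z_2`-quotient (MP_2429c0, section 4, (4.4))

`H = Hv v`, `Y = ZZ S g H`, `L` from `layH`.  `exists_isRk` (`TT_Hv`) gives `r : ℕ` with `IsRk S H r` and `rk S H ⊥ Y = r + 1`.
Lower bound: `H ≤ Ug (Cv v t) l`, so `r * index + 1 ≤ dd`; `F_ge`, `index_Cv`.
Upper bound: for all `t`, `l`: `ln ⊥ (inv ⊥ Y (Ug (Cv v t) l)) ≤ ∑_{j < 2 ^ t} ln ⊥ (inv ⊥ (lc L Y j) (Gl l))` by `filt` with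
`T = {e | e 0 < 2 ^ t}` : `E ^ 2 ^ t f = rho (y ^ 2 ^ t) f - f = 0` because `y ^ 2 ^ t ∈ P (Cv v t)`, and for `f` in the left space the leading
coefficient is fixed by `Ug (Cv v t) l` (`dl_rho`) and by `A`, hence by `Ug ⊔ A = Gl l`.  Left side: `dd + 2 ^ (t + l) - 1`
(`inv_ZZ`, `ln_ZZ`, `Ug_index`).  Divide by `2 ^ l` and let `l → ∞`: every term of the right side tends to `rk S A ⊥ (lc L Y j)`
(`exists_common` for `A`, `cof`), which is `r + 1` for `j ≥ c` (`trunc`, `rk_bot` of `Step`, uniqueness of the limit) and at most `D`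
for the others (`TT_A`).  So `F (Cv v t) + 2 ^ t ≤ (r + 1) * 2 ^ t + c * D`.
-/

open scoped ENNReal

universe u

namespace Pool.Agent.EP

variable {G : Type u} [Group G] {S : OSys G} {N : Subgroup G} {h D : ℕ} {g : Fin D → G}

namespace HvAux

theorem coe_sum' (T : Finset ℕ) (a : ℕ → ℕ∞) :
    ((∑ e ∈ T, a e : ℕ∞) : ℝ≥0∞) = ∑ e ∈ T, ((a e : ℕ∞) : ℝ≥0∞) := by
  classical
  induction T using Finset.induction_on with
  | empty => simp
  | insert x T hx ih => rw [Finset.sum_insert hx, Finset.sum_insert hx, ENat.toENNReal_add, ih]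

theorem rho_sup {U A : Subgroup G} {f : Fn G D} (h1 : ∀ u ∈ U, rho u f = f)
    (h2 : ∀ u ∈ A, rho u f = f) : ∀ u ∈ U ⊔ A, rho u f = f := by
  let H : Subgroup G :=
    { carrier := {g | rho g f = f}
      one_mem' := rho_one f
      mul_mem' := by
        intro a b ha hb
        show rho (a * b) f = f
        rw [rho_mul, show rho b f = f from hb]
        exact ha
      inv_mem' := by
        intro a ha
        show rho a⁻¹ f = f
        conv_lhs => rw [← show rho a f = f from ha]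
        rw [← rho_mul, inv_mul_cancel, rho_one] }
  have h3 : U ⊔ A ≤ H := sup_le (fun u hu => h1 u hu) (fun u hu => h2 u hu)
  intro u hu
  exact h3 hu

theorem x_pow (d : Data4 S N h) {a : G} (ha : a ∈ d.A) (n : ℕ) : d.x (a ^ n) = n • d.x a := by
  induction n with
  | zero => rw [pow_zero, d.x_one, zero_smul]
  | succ n ih => rw [pow_succ, d.mul _ (d.A.pow_mem ha n) a ha, ih, succ_nsmul]

theorem filt_bound (d : Data4 S N h) (v : (Fin h → ℤ_[2]) →ₗ[ℤ_[2]] ℤ_[2])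
    (L : Layer S d.A (d.Hv v) 1) (hL : ∀ i, L.y i ∈ d.A ∧ v (d.x (L.y i)) = 1)
    {Y : Submodule (ZMod 2) (Fn G D)} (hY : Y ≤ CC S (d.Hv v) D) (t l : ℕ) :
    ln ⊥ (inv ⊥ Y (d.Ug (Cv v t) l)) ≤
      ∑ j ∈ Finset.range (2 ^ t), ln ⊥ (inv ⊥ (lc L Y fun _ => j) (d.Gl l)) := by
  classical
  set Z := inv ⊥ Y (d.Ug (Cv v t) l) with hZdef
  have hZ : Z ≤ CC S (d.Hv v) D := fun f hf => hY hf.1
  have hfix : ∀ f ∈ Z, ∀ u ∈ d.Ug (Cv v t) l, rho u f = f := fun f hf u hu =>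
    sub_eq_zero.1 ((Submodule.mem_bot _).1 (hf.2 u hu))
  have hy : L.y 0 ^ 2 ^ t ∈ d.Ug (Cv v t) l := by
    apply d.P_le_Ug
    refine ⟨d.A.pow_mem (hL 0).1 _, ?_⟩
    rw [x_pow d (hL 0).1]
    change (2 : ℤ_[2]) ^ t ∣ v _
    rw [map_nsmul, (hL 0).2, nsmul_eq_mul, mul_one]
    push_cast
    exact dvd_rfl
  have key1 : ∀ f ∈ Z, ∀ e : Fin 1 → ℕ, 2 ^ t ≤ e 0 → dl D L.y e f = 0 := by
    intro f hf e he
    have h2 : e = (e - Pi.single 0 (2 ^ t)) + Pi.single 0 (2 ^ t) := by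
      funext j
      obtain rfl : j = 0 := Subsingleton.elim _ _
      show e 0 = e 0 - (Pi.single 0 (2 ^ t) : Fin 1 → ℕ) 0 + (Pi.single 0 (2 ^ t) : Fin 1 → ℕ) 0
      rw [Pi.single_eq_same]
      omega
    rw [h2, dl_add L _ _ (hZ hf), dl_single_two_pow, hfix f hf _ hy, sub_self, map_zero]
  set T : Finset (Fin 1 → ℕ) := (Finset.range (2 ^ t)).image (fun j _ => j) with hT
  have hTmem : ∀ e : Fin 1 → ℕ, e ∉ T → 2 ^ t ≤ e 0 := by
    intro e he
    by_contra hcon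
    apply he
    rw [hT, Finset.mem_image]
    refine ⟨e 0, Finset.mem_range.2 (not_le.1 hcon), ?_⟩
    funext j
    rw [Subsingleton.elim j 0]
  have h1 := filt (dl D L.y) key key_injective (CC S (d.Hv v) D) (fun f hf => dl_support L hf)
    (fun f _ h0 => by
      rw [← dl_zero L.y f]
      exact h0 0) ⊥ Z bot_le hZ T (by
      intro e he x hx
      obtain ⟨f, hf, -, rfl⟩ := mem_lcs.1 hx
      rw [key1 f hf e (hTmem e he)]
      exact Submodule.zero_mem _)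
  refine h1.trans ?_
  rw [hT, Finset.sum_image (by
    intro a _ b _ hab
    exact congrFun hab 0)]
  refine Finset.sum_le_sum fun j _ => ?_
  have h2 : lcs (dl D L.y) key (⊥ : Submodule (ZMod 2) (Fn G D)) (fun _ => j) = ⊥ := by
    rw [lcs, bot_inf_eq, Submodule.map_bot]
  rw [h2]
  refine ln_mono_right ?_
  intro x hx
  obtain ⟨f, hf, hf0, rfl⟩ := mem_lcs.1 hx
  have h3 : dl D L.y (fun _ => j) f ∈ lc L Y fun _ => j := (mem_lc L).2 ⟨f, hf.1, hf0, rfl⟩
  refine ⟨h3, fun u hu => ?_⟩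
  rw [Submodule.mem_bot, sub_eq_zero]
  rw [← d.Ug_sup_A (opT_Cv v t) l] at hu
  refine rho_sup (fun w hw => ?_) (fun w hw => ?_) u hu
  · rw [← dl_rho L w _ (hZ hf) hf0, hfix f hf w hw]
  · exact (lc_le L hY _ h3).2 w hw

theorem Gl_anti (d : Data4 S N h) {a b : ℕ} (hab : a ≤ b) : d.Gl b ≤ d.Gl a := by
  induction b, hab using Nat.le_induction with
  | base => exact le_rfl
  | succ b _ ih => exact (d.Gle b).trans ih

/-- Ranks over `A` are limits along `Gl l`. -/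
theorem lim (d : Data4 S N h) (m : ℕ) (Y : ℕ → Submodule (ZMod 2) (Fn G D))
    (hY : ∀ j, Stable (Y j)) (n : ℕ → ℕ) (hn : ∀ j, rk S d.A ⊥ (Y j) = n j) (ε : ℝ≥0∞)
    (hε : ε ≠ 0) : ∃ l₁, ∀ l, l₁ ≤ l → ∀ j ∈ Finset.range m,
      ((ln ⊥ (inv ⊥ (Y j) (d.Gl l)) : ℕ∞) : ℝ≥0∞) ≤ ((n j : ℝ≥0∞) + ε) * 2 ^ l := by
  obtain ⟨V, hV, -, hAV, h1⟩ := exists_common S d.A (Finset.range m) (fun _ => ⊥) Y
    (fun _ => stable_bot) hY (fun _ => bot_le) (fun j _ => by
      rw [hn]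
      exact ENNReal.natCast_ne_top _) ε hε
  obtain ⟨l₁, hl₁⟩ := d.cof V hV hAV
  refine ⟨l₁, fun l hl j hj => ?_⟩
  have h2 := h1 j hj (d.Gl l) (d.Gop l) ((Gl_anti d hl).trans hl₁)
  rw [hn, ratio, d.Gi l] at h2
  have h3 : ((2 ^ l : ℕ) : ℝ≥0∞) ≠ 0 := by
    have : (2 ^ l : ℕ) ≠ 0 := by positivity
    exact_mod_cast this
  rw [ENNReal.div_le_iff h3 (ENNReal.natCast_ne_top _)] at h2
  push_cast at h2
  exact h2

end HvAux

open HvAux StepAux

theorem Data4.F_hv (d : Data4 S N h) (hg : TGen S g) (hS : FieldLike S)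
    (v : (Fin h → ℤ_[2]) →ₗ[ℤ_[2]] ℤ_[2]) (hv : Function.Surjective v) :
    ∃ r c : ℤ, ∀ t : ℕ, r * 2 ^ t ≤ d.F (Cv v t) ∧ d.F (Cv v t) ≤ r * 2 ^ t + c := by
  obtain ⟨L, hL⟩ := d.layH v hv
  have hTA : TT S d.A := d.TT_A
  obtain ⟨r, hr1, hr2⟩ := exists_isRk S hg (d.Hv_normal v) (d.TT_Hv v hv) (fun U hU => hS.pos hU)
  set Y : Submodule (ZMod 2) (Fn G D) := ZZ S g (d.Hv v) with hYdef
  have hs : Stable Y := stable_ZZ S g _ (d.Hv_normal v)
  have hY : Y ≤ CC S (d.Hv v) D := ZZ_le S g _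
  have hsC : Stable (CC S (d.Hv v) D) := stable_CC S _ L.nB D
  obtain ⟨c1, hc1⟩ := trunc L (hTA.dcc D) hs hY
  obtain ⟨c2, hc2⟩ := trunc L (hTA.dcc D) hsC le_rfl
  set c := max c1 c2 with hc
  have g1 : ∀ c', c ≤ c' → ∀ e : Fin 1 → ℕ, lc L Y e = lc L Y (fun i => min (e i) c') :=
    fun c' hc' => hc1 c' ((le_max_left _ _).trans hc')
  have g2 : ∀ c', c ≤ c' → ∀ e : Fin 1 → ℕ, lc L (CC S (d.Hv v) D) e =
      lc L (CC S (d.Hv v) D) (fun i => min (e i) c') :=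
    fun c' hc' => hc2 c' ((le_max_right _ _).trans hc')
  have hrk := rk_bot L hTA hs hY c g1 g2
  rw [hr2] at hrk
  -- the ranks of the spaces of leading coefficients
  have hex : ∀ j : ℕ, ∃ n : ℕ, n ≤ D ∧ rk S d.A ⊥ (lc L Y fun _ => j) = n := by
    intro j
    obtain ⟨n, n', -, h2, -, h4, -⟩ := hTA.rank D ⊥ (lc L Y fun _ => j) stable_bot
      (lc_stable L hs hY _) bot_le (lc_le L hY _)
    exact ⟨n', h2, h4⟩
  choose n hnD hn using hex
  have hnc : ∀ j, c ≤ j → n j = r + 1 := by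
    intro j hj
    have h1 : lc L Y (fun _ => j) = lc L Y fun _ => c := by
      rw [g1 c le_rfl (fun _ => j)]
      congr 1
      funext i
      exact min_eq_right hj
    have h2 := hn j
    rw [h1, ← hrk] at h2
    exact_mod_cast h2.symm
  refine ⟨r, c * D, fun t => ⟨?_, ?_⟩⟩
  · have h1 := d.F_ge hg (k := r) (opT_Cv v t) (fun l => hr1.1 _ (d.Ug_op (opT_Cv v t) l)
      ((d.Hv_le v t).trans (d.P_le_Ug _ l)))
    rw [index_Cv v hv] at h1
    push_cast at h1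
    exact h1
  · obtain ⟨c', l₀, hF⟩ := d.F_spec hg (opT_Cv v t)
    set ε : ℝ := 1 / (2 * 2 ^ t) with hεdef
    have hε : 0 < ε := by positivity
    obtain ⟨l₁, hl₁⟩ := lim d (2 ^ t) (fun j => lc L Y fun _ => j)
      (fun j => lc_stable L hs hY _) n hn (ENNReal.ofReal ε) (by
        rw [ne_eq, ENNReal.ofReal_eq_zero, not_le]
        exact hε)
    obtain ⟨l₂, hl₂⟩ := exists_nat_gt (2 * |(c' : ℝ)|)
    set l := max l₀ (max l₁ l₂) with hl
    have e1 := hF l (le_max_left _ _)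
    have e2 := hl₁ l ((le_max_left _ _).trans (le_max_right _ _))
    have hop := d.Ug_op (opT_Cv v t) l
    have hHU : d.Hv v ≤ d.Ug (Cv v t) l := (d.Hv_le v t).trans (d.P_le_Ug _ l)
    have e3 := filt_bound d v L hL hY t l
    rw [hYdef, inv_ZZ S hg hop hHU, ← hYdef] at e3
    have e4 := ln_ZZ S hg hop
    rw [d.Ug_index (opT_Cv v t) l, index_Cv v hv] at e4
    have e5 : (((dd S (d.Ug (Cv v t) l) + 2 ^ t * 2 ^ l : ℕ) : ℕ∞) : ℝ≥0∞) ≤
        ∑ j ∈ Finset.range (2 ^ t), ((n j : ℝ≥0∞) + ENNReal.ofReal ε) * 2 ^ l + 1 := by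
      rw [← e4, ENat.toENNReal_add]
      refine add_le_add ?_ (by simp)
      refine (ENat.toENNReal_le.2 e3).trans ?_
      rw [coe_sum']
      exact Finset.sum_le_sum e2
    have e6 : ((dd S (d.Ug (Cv v t) l) + 2 ^ t * 2 ^ l : ℕ) : ℝ) ≤
        ∑ j ∈ Finset.range (2 ^ t), ((n j : ℝ) + ε) * 2 ^ l + 1 := by
      have h0 : ∀ j ∈ Finset.range (2 ^ t), 0 ≤ ((n j : ℝ) + ε) * 2 ^ l := by
        intro j _
        positivity
      have h1 : ∑ j ∈ Finset.range (2 ^ t), ((n j : ℝ≥0∞) + ENNReal.ofReal ε) * 2 ^ l + 1 =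
          ENNReal.ofReal (∑ j ∈ Finset.range (2 ^ t), ((n j : ℝ) + ε) * 2 ^ l + 1) := by
        rw [ENNReal.ofReal_add (Finset.sum_nonneg h0) zero_le_one, ENNReal.ofReal_one,
          ENNReal.ofReal_sum_of_nonneg h0]
        congr 1
        refine Finset.sum_congr rfl fun j _ => ?_
        rw [ENNReal.ofReal_mul (by positivity), ENNReal.ofReal_add (Nat.cast_nonneg _) hε.le,
          ENNReal.ofReal_natCast, ENNReal.ofReal_pow (by norm_num)]
        norm_num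
      rw [h1, ENat.toENNReal_coe, ← ENNReal.ofReal_natCast,
        ENNReal.ofReal_le_ofReal_iff (by
          have := Finset.sum_nonneg h0
          linarith)] at e5
      exact e5
    -- conclusion
    have e7 : ∑ j ∈ Finset.range (2 ^ t), ((n j : ℝ) + ε) * 2 ^ l =
        ((∑ j ∈ Finset.range (2 ^ t), n j : ℕ) : ℝ) * 2 ^ l + 1 / 2 * 2 ^ l := by
      rw [← Finset.sum_mul, Finset.sum_add_distrib, Finset.sum_const, Finset.card_range,
        nsmul_eq_mul, add_mul]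
      push_cast
      congr 2
      rw [hεdef]
      field_simp
    have e8 : (dd S (d.Ug (Cv v t) l) : ℝ) = d.F (Cv v t) * 2 ^ l + c' + 1 := by
      have : ((dd S (d.Ug (Cv v t) l) : ℤ) : ℝ) - 1 = d.F (Cv v t) * 2 ^ l + c' := by
        exact_mod_cast e1
      push_cast at this
      linarith
    have e9 : 2 * |(c' : ℝ)| < 2 ^ l := by
      have h1 : (l₂ : ℝ) < 2 ^ l₂ := by exact_mod_cast Nat.lt_two_pow_self
      have h2 : (2 : ℝ) ^ l₂ ≤ 2 ^ l := pow_le_pow_right₀ (by norm_num)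
        ((le_max_right _ _).trans (le_max_right _ _))
      linarith
    have e10 : -|(c' : ℝ)| ≤ c' := neg_abs_le _
    set s : ℕ := ∑ j ∈ Finset.range (2 ^ t), n j with hsdef
    have hpos : (0 : ℝ) < 2 ^ l := by positivity
    have e11 : ((d.F (Cv v t) : ℝ) + 2 ^ t) * 2 ^ l < ((s : ℝ) + 1) * 2 ^ l := by
      push_cast at e6
      nlinarith
    have e12 : (d.F (Cv v t) : ℝ) + 2 ^ t < (s : ℝ) + 1 := lt_of_mul_lt_mul_right e11 hpos.le
    have e13 : d.F (Cv v t) + 2 ^ t < (s : ℤ) + 1 := by exact_mod_cast e12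
    -- the sum of the ranks
    have e14 : s ≤ (r + 1) * 2 ^ t + c * D := by
      have h1 : ∀ j ∈ Finset.range (2 ^ t), n j ≤ (r + 1) + if j < c then D else 0 := by
        intro j _
        split_ifs with h
        · have := hnD j
          omega
        · rw [hnc j (not_lt.1 h)]
      refine (Finset.sum_le_sum h1).trans ?_
      rw [Finset.sum_add_distrib, Finset.sum_const, Finset.card_range, smul_eq_mul,
        ← Finset.sum_filter, Finset.sum_const, smul_eq_mul, mul_comm (2 ^ t)]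
      refine Nat.add_le_add_left (Nat.mul_le_mul_right D ?_) _
      have h2 : (Finset.range (2 ^ t)).filter (fun j => j < c) ⊆ Finset.range c := by
        intro j hj
        exact Finset.mem_range.2 (Finset.mem_filter.1 hj).2
      exact (Finset.card_le_card h2).trans (Finset.card_range c).le
    have e15 : (s : ℤ) ≤ (r + 1) * 2 ^ t + c * D := by exact_mod_cast e14
    linarith

end Pool.Agent.EP
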