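import Pool.Agent.EP.D4B
import Pool.Agent.EP.Step

/-!
# Exact pairs: the layers of section 4 (MP_2429c0)

`layA`: `y = γ`.  For `U` open normal, `A ≤ U` take `l` with `Gl l ≤ U` (`cof`); `G ⧸ Gl l` is cyclic, generated by `γ`.
`box n V` (`V = ⊤`): `U = Gl n`.
`layH`: `H = P (ker v)` is normal (`P_normal`), `y ∈ A` with `x y = e`, `v e = 1`.  For `U` open normal, `H ≤ U`, of index `2 ^ m`:
an element `a ∈ A` with `2 ^ m ∣ v (x a)` lies in `U`: choose `b ∈ A` with `x b = w`, `2 ^ m * v w = v (x a)`; `b ^ 2 ^ m ∈ U` and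
`a b ^ (-2 ^ m) ∈ H`.  `gen`: `a y ^ (-n)` with `n ≡ v (x a)` modulo `2 ^ m`.  `conj`: `x (g⁻¹ y g) = c • x y`, `c` is a unit (otherwise
`g⁻¹ y g ∈ P (Cv v 1)`, which is normal, but `y ∉ P (Cv v 1)`), `m ≡ c` modulo a large power of two, odd.
`box n V`: `W` open normal, `N ≤ W`, `W ⊓ A ≤ P (Cv v n)` (`cont`), `U = (P (Cv v n) ⊔ W) ⊓ V`; `U ⊓ A = P (Cv v n)` (Dedekind), of index
`2 ^ n` in `A`.
-/

universe u

namespace Pool.Agent.EP

variable {G : Type u} [Group G] {S : OSys G} {N : Subgroup G} {h : ℕ}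

/-- A layer of height one. -/
theorem layer_one {A B : Subgroup G} (nA : A.Normal) (nB : B.Normal) (le : B ≤ A) (y : G) (hy : y ∈ A)
    (gen : ∀ U : Subgroup G, S.Op U → U.Normal → B ≤ U → A ≤ Subgroup.zpowers y ⊔ U)
    (conj : ∀ (g : G) (U : Subgroup G), S.Op U → U.Normal → B ≤ U →
      ∃ m : ℕ, Odd m ∧ ∃ u ∈ U, g⁻¹ * y * g = y ^ m * u)
    (box : ∀ (n : ℕ) (V : Subgroup G), S.Op V → V.Normal → A ≤ V → ∃ U : Subgroup G, S.Op U ∧
      U.Normal ∧ B ≤ U ∧ U ≤ V ∧ y ^ 2 ^ n ∈ U ∧ U.index = (U ⊔ A).index * 2 ^ n) :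
    ∃ L : Layer S A B 1, ∀ i, L.y i = y := by
  refine ⟨⟨nA, nB, le, fun _ => y, fun _ => hy, fun i j => ?_, ?_, ?_, ?_⟩, fun _ => rfl⟩
  · simp only [mul_inv_cancel_right, mul_inv_cancel]
    exact B.one_mem
  · intro U hU hn hB
    refine (gen U hU hn hB).trans (sup_le_sup_right ?_ U)
    rw [Subgroup.zpowers_le]
    exact Subgroup.subset_closure ⟨0, rfl⟩
  · intro g U hU hn hB i
    obtain ⟨m, hm, u, hu, he⟩ := conj g U hU hn hB
    refine ⟨fun _ => m, hm, fun k hk => ?_, u, hu, ?_⟩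
    · exact absurd hk (by rw [Subsingleton.elim i k]; exact lt_irrefl _)
    · rw [he]
      simp
  · intro n V hV hVn hAV
    obtain ⟨U, h1, h2, h3, h4, h5, h6⟩ := box n V hV hVn hAV
    refine ⟨U, h1, h2, h3, h4, fun _ => h5, ?_⟩
    rw [h6, mul_one]

theorem Data4.layA (d : Data4 S N h) :
    ∃ L : Layer S (⊤ : Subgroup G) d.A 1, ∀ i, L.y i = d.γ := by
  refine layer_one inferInstance d.nA le_top d.γ (Subgroup.mem_top _) ?_ ?_ ?_
  · intro U hU hn hB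
    obtain ⟨l, hl⟩ := d.cof U hU hB
    rw [← d.gen l]
    exact sup_le_sup_left hl _
  · intro g U hU hn hB
    obtain ⟨l, hl⟩ := d.cof U hU hB
    have hg : g ∈ Subgroup.zpowers d.γ ⊔ d.Gl l := by
      rw [d.gen l]
      exact Subgroup.mem_top _
    have := d.Gn l
    rw [Subgroup.mem_sup_of_normal_right] at hg
    obtain ⟨z, hz, w, hw, rfl⟩ := hg
    rw [Subgroup.mem_zpowers_iff] at hz
    obtain ⟨j, rfl⟩ := hz
    refine ⟨1, odd_one, (d.γ⁻¹ * w⁻¹ * d.γ) * w, ?_, ?_⟩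
    · have h1 : d.γ⁻¹ * w⁻¹ * d.γ⁻¹⁻¹ ∈ d.Gl l := (d.Gn l).conj_mem _ ((d.Gl l).inv_mem hw) _
      rw [inv_inv] at h1
      exact hl ((d.Gl l).mul_mem h1 hw)
    · have h2 : (d.γ ^ j)⁻¹ * d.γ * d.γ ^ j = d.γ := by
        rw [mul_assoc, ← zpow_one_add, add_comm, zpow_add_one, inv_mul_cancel_left]
      have h3 : (d.γ ^ j * w)⁻¹ * d.γ * (d.γ ^ j * w) =
          w⁻¹ * ((d.γ ^ j)⁻¹ * d.γ * d.γ ^ j) * w := by group
      rw [h3, h2, pow_one]
      group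
  · intro n V hV hVn hAV
    refine ⟨d.Gl n, d.Gop n, d.Gn n, d.Ale n, le_top.trans hAV, ?_, ?_⟩
    · have := d.Gn n
      have h1 := Subgroup.pow_index_mem (H := d.Gl n) d.γ
      rwa [d.Gi n] at h1
    · rw [sup_top_eq, Subgroup.index_top, one_mul, d.Gi n]

/-- The kernel of `v ∘ x`. -/
noncomputable def Data4.Hv (d : Data4 S N h) (v : (Fin h → ℤ_[2]) →ₗ[ℤ_[2]] ℤ_[2]) : Subgroup G :=
  d.P (LinearMap.ker v).toAddSubgroup

theorem Data4.Hv_normal (d : Data4 S N h) (v : (Fin h → ℤ_[2]) →ₗ[ℤ_[2]] ℤ_[2]) :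
    (d.Hv v).Normal :=
  d.P_normal fun c _ ht => (LinearMap.ker v).smul_mem c ht

theorem Data4.Hv_le (d : Data4 S N h) (v : (Fin h → ℤ_[2]) →ₗ[ℤ_[2]] ℤ_[2]) (t : ℕ) :
    d.Hv v ≤ d.P (Cv v t) := by
  rintro a ⟨ha, hx⟩
  refine ⟨ha, ?_⟩
  have h1 : v (d.x a) = 0 := hx
  rw [edge_mem_Cv, h1]
  exact dvd_zero _

theorem Data4.P_Cv_normal (d : Data4 S N h) (v : (Fin h → ℤ_[2]) →ₗ[ℤ_[2]] ℤ_[2]) (t : ℕ) :
    (d.P (Cv v t)).Normal := by
  refine d.P_normal fun c x hx => ?_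
  rw [edge_mem_Cv] at hx ⊢
  rw [map_smul, smul_eq_mul]
  exact hx.mul_left c

theorem Data4.x_pow (d : Data4 S N h) {a : G} (ha : a ∈ d.A) (n : ℕ) : d.x (a ^ n) = n • d.x a := by
  induction n with
  | zero => rw [pow_zero, zero_smul, d.x_one]
  | succ n ih => rw [pow_succ, d.mul _ (d.A.pow_mem ha n) _ ha, ih, add_smul, one_smul]

theorem Data4.mem_of_dvd (d : Data4 S N h) (v : (Fin h → ℤ_[2]) →ₗ[ℤ_[2]] ℤ_[2])
    (hv : Function.Surjective v) {U : Subgroup G} (hU : U.Normal) (hH : d.Hv v ≤ U) {m : ℕ}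
    (hm : U.index = 2 ^ m) {a : G} (ha : a ∈ d.A) (hd : (2 : ℤ_[2]) ^ m ∣ v (d.x a)) : a ∈ U := by
  obtain ⟨w, hw⟩ := hd
  obtain ⟨z, hz⟩ := hv w
  obtain ⟨b, hb, hbz⟩ := d.surj z
  have h1 := Subgroup.pow_index_mem (H := U) b
  rw [hm] at h1
  have h2 : a * (b ^ 2 ^ m)⁻¹ ∈ d.Hv v := by
    refine ⟨d.A.mul_mem ha (d.A.inv_mem (d.A.pow_mem hb _)), ?_⟩
    change v (d.x (a * (b ^ 2 ^ m)⁻¹)) = 0
    rw [d.mul _ ha _ (d.A.inv_mem (d.A.pow_mem hb _)), d.x_inv (d.A.pow_mem hb _), d.x_pow hb, map_add,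
      map_neg, map_nsmul, hbz, hz, hw, nsmul_eq_mul]
    push_cast
    ring
  have h3 := U.mul_mem (hH h2) h1
  rwa [inv_mul_cancel_right] at h3

theorem Data4.exists_nat (c : ℤ_[2]) (m : ℕ) : ∃ n : ℕ, (2 : ℤ_[2]) ^ m ∣ c - n := by
  refine ⟨(PadicInt.toZModPow m c).val, ?_⟩
  rw [← edge_toZModPow_eq_zero, map_sub, map_natCast, ZMod.natCast_val, ZMod.cast_id', id, sub_self]

theorem Data4.layH (d : Data4 S N h) (v : (Fin h → ℤ_[2]) →ₗ[ℤ_[2]] ℤ_[2])
    (hv : Function.Surjective v) :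
    ∃ L : Layer S d.A (d.Hv v) 1, ∀ i, L.y i ∈ d.A ∧ v (d.x (L.y i)) = 1 := by
  obtain ⟨e, he⟩ := hv 1
  obtain ⟨y, hy, hye⟩ := d.surj e
  have hvy : v (d.x y) = 1 := by rw [hye, he]
  have key : ∀ (U : Subgroup G), S.Op U → U.Normal → d.Hv v ≤ U → ∃ m : ℕ, ∀ a ∈ d.A,
      (2 : ℤ_[2]) ^ m ∣ v (d.x a) → a ∈ U := by
    intro U hU hn hH
    obtain ⟨m, hm⟩ := S.idx U hU
    exact ⟨m, fun a ha hd => d.mem_of_dvd v hv hn hH hm ha hd⟩
  have main : ∃ L : Layer S d.A (d.Hv v) 1, ∀ i, L.y i = y := by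
    refine layer_one d.nA (d.Hv_normal v) (d.P_le _) y hy ?_ ?_ ?_
    · intro U hU hn hB a ha
      obtain ⟨m, hm⟩ := key U hU hn hB
      obtain ⟨n, hn'⟩ := Data4.exists_nat (v (d.x a)) m
      have hyn : y ^ n ∈ d.A := d.A.pow_mem hy n
      have h1 : (y ^ n)⁻¹ * a ∈ U := by
        refine hm _ (d.A.mul_mem (d.A.inv_mem hyn) ha) ?_
        rw [d.mul _ (d.A.inv_mem hyn) _ ha, d.x_inv hyn, d.x_pow hy, map_add, map_neg, map_nsmul,
          hvy, nsmul_one, neg_add_eq_sub]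
        exact hn'
      have h2 : a = y ^ n * ((y ^ n)⁻¹ * a) := by rw [mul_inv_cancel_left]
      rw [h2]
      exact Subgroup.mul_mem_sup (Subgroup.pow_mem _ (Subgroup.mem_zpowers y) n) h1
    · intro g U hU hn hB
      obtain ⟨m, hm⟩ := key U hU hn hB
      obtain ⟨c, hc⟩ := d.scal g⁻¹ y hy
      rw [inv_inv] at hc
      have hgA : g⁻¹ * y * g ∈ d.A := by
        have := d.nA.conj_mem y hy g⁻¹
        rwa [inv_inv] at this
      have hvc : v (d.x (g⁻¹ * y * g)) = c := by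
        rw [hc, map_smul, hvy, smul_eq_mul, mul_one]
      have hcu : ¬ (2 : ℤ_[2]) ∣ c := by
        intro hcd
        have h1 : g⁻¹ * y * g ∈ d.P (Cv v 1) := by
          refine ⟨hgA, ?_⟩
          rw [edge_mem_Cv, hvc, pow_one]
          exact hcd
        have h2 := (d.P_Cv_normal v 1).conj_mem _ h1 g
        have h3 : g * (g⁻¹ * y * g) * g⁻¹ = y := by group
        rw [h3] at h2
        have h4 := h2.2
        rw [edge_mem_Cv, hvy, pow_one] at h4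
        exact edge_two_not_unit (isUnit_of_dvd_one h4)
      obtain ⟨n, hn'⟩ := Data4.exists_nat c (m + 1)
      refine ⟨n, ?_, (y ^ n)⁻¹ * (g⁻¹ * y * g), ?_, ?_⟩
      · rw [← Nat.not_even_iff_odd]
        rintro hev
        apply hcu
        obtain ⟨k, hk⟩ := hev.two_dvd
        have h5 : (2 : ℤ_[2]) ∣ c - n := (dvd_pow_self _ (Nat.succ_ne_zero m)).trans hn'
        have h6 : (2 : ℤ_[2]) ∣ (n : ℤ_[2]) := by
          rw [hk]
          push_cast
          exact dvd_mul_right _ _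
        have h7 := dvd_add h5 h6
        rwa [sub_add_cancel] at h7
      · have hyn : y ^ n ∈ d.A := d.A.pow_mem hy n
        refine hm _ (d.A.mul_mem (d.A.inv_mem hyn) hgA) ?_
        rw [d.mul _ (d.A.inv_mem hyn) _ hgA, d.x_inv hyn, d.x_pow hy, map_add, map_neg, map_nsmul,
          hvy, hvc, nsmul_one, neg_add_eq_sub]
        exact (pow_dvd_pow _ (Nat.le_succ m)).trans hn'
      · rw [mul_inv_cancel_left]
    · intro n V hV hVn hAV
      obtain ⟨W, hW, hWn, hNW, hWx⟩ := d.cont n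
      have hWA : ∀ a ∈ d.A, a ∈ W → a ∈ d.P (Cv v n) := by
        intro a ha haW
        refine ⟨ha, ?_⟩
        rw [edge_mem_Cv]
        choose z hz using hWx a ha haW
        have h1 : d.x a = (2 : ℤ_[2]) ^ n • z := by
          funext i
          rw [hz i]
          rfl
        rw [h1, map_smul, smul_eq_mul]
        exact dvd_mul_right _ _
      have hPn := d.P_Cv_normal v n
      have := hWn
      have := hVn
      have hinf : ((d.P (Cv v n) ⊔ W) ⊓ V) ⊓ d.A = d.P (Cv v n) := by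
        apply le_antisymm
        · rintro a ⟨⟨ha, -⟩, haA⟩
          have ha' : a ∈ d.P (Cv v n) ⊔ W := ha
          rw [Subgroup.mem_sup_of_normal_right] at ha'
          obtain ⟨p, hp, w, hw, rfl⟩ := ha'
          have h1 : w ∈ d.A := by
            have := d.A.mul_mem (d.A.inv_mem hp.1) haA
            rwa [inv_mul_cancel_left] at this
          exact (d.P (Cv v n)).mul_mem hp (hWA w h1 hw)
        · exact le_inf (le_inf le_sup_left ((d.P_le _).trans hAV)) (d.P_le _)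
      refine ⟨(d.P (Cv v n) ⊔ W) ⊓ V, S.inf _ _ (S.up _ _ hW le_sup_right) hV, inferInstance, ?_,
        inf_le_right, ?_, ?_⟩
      · exact le_inf ((d.Hv_le v n).trans le_sup_left) ((d.P_le _).trans hAV)
      · have h1 : y ^ 2 ^ n ∈ d.P (Cv v n) := by
          refine ⟨d.A.pow_mem hy _, ?_⟩
          rw [edge_mem_Cv, d.x_pow hy, map_nsmul, hvy, nsmul_one]
          push_cast
          exact dvd_rfl
        exact ⟨(le_sup_left : d.P (Cv v n) ≤ _) h1, hAV (d.A.pow_mem hy _)⟩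
      · have h1 : d.P ⊤ = d.A := le_antisymm (d.P_le _) fun a ha => ⟨ha, AddSubgroup.mem_top _⟩
        have h2 := d.P_relIndex (T := Cv v n) (T' := ⊤) le_top
        rw [h1, AddSubgroup.relIndex_top_right, index_Cv v hv n] at h2
        have hUn : ((d.P (Cv v n) ⊔ W) ⊓ V).Normal := inferInstance
        generalize (d.P (Cv v n) ⊔ W) ⊓ V = U at hinf hUn ⊢
        have h3 : U.relIndex (U ⊔ d.A) = 2 ^ n := by
          rw [sup_comm, Subgroup.relIndex_sup_right, ← h2, ← Subgroup.inf_relIndex_right, hinf]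
        have h4 := Subgroup.relIndex_mul_index (le_sup_left : U ≤ U ⊔ d.A)
        rw [← h4, h3, mul_comm]
  obtain ⟨L, hL⟩ := main
  exact ⟨L, fun i => by rw [hL i]; exact ⟨hy, hvy⟩⟩

theorem Data4.TT_A (d : Data4 S N h) : TT S d.A := by
  obtain ⟨L, -⟩ := d.layA
  exact step L (TT_top S)

theorem Data4.TT_Hv (d : Data4 S N h) (v : (Fin h → ℤ_[2]) →ₗ[ℤ_[2]] ℤ_[2])
    (hv : Function.Surjective v) : TT S (d.Hv v) := by
  obtain ⟨L, -⟩ := d.layH v hv
  exact step L d.TT_A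

end Pool.Agent.EP
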