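import Mathlib

/-!
# Exact pairs: definitions (MP_2429c0)

Paper proof: /team-store/MP_2429c0_h9_exact_pairs.md.  A profinite 2-group is represented by an abstract group `G`
with a system `OSys G` of open subgroups; no topology is used in the integrality theorem.
-/

open scoped ENNReal

universe u

namespace Pool.Agent.EP

/-- A group with a system of open subgroups, all of which have index a power of two. -/
structure OSys (G : Type u) [Group G] where
  Op : Subgroup G → Prop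
  top : Op ⊤
  idx : ∀ U, Op U → ∃ n : ℕ, U.index = 2 ^ n
  up : ∀ U V, Op U → U ≤ V → Op V
  inf : ∀ U V, Op U → Op V → Op (U ⊓ V)
  core : ∀ U, Op U → Op U.normalCore

variable {G : Type u} [Group G]

/-- Functions on `G` with values in `F_2 ^ D`. -/
abbrev Fn (G : Type u) (D : ℕ) : Type u := G → Fin D → ZMod 2

/-- Right translation. -/
def rho {D : ℕ} (g : G) : Fn G D →ₗ[ZMod 2] Fn G D where
  toFun f := fun p => f (p * g)
  map_add' _ _ := rfl
  map_smul' _ _ := rfl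

/-- Subspaces stable under right translations. -/
def Stable {D : ℕ} (Y : Submodule (ZMod 2) (Fn G D)) : Prop := ∀ g : G, ∀ f ∈ Y, rho g f ∈ Y

/-- The locally constant functions that are right invariant under `Q`. -/
def CC (S : OSys G) (Q : Subgroup G) (D : ℕ) : Submodule (ZMod 2) (Fn G D) where
  carrier := {f | (∃ U : Subgroup G, S.Op U ∧ ∀ u ∈ U, rho u f = f) ∧ ∀ q ∈ Q, rho q f = f}
  zero_mem' := ⟨⟨⊤, S.top, fun _ _ => rfl⟩, fun _ _ => rfl⟩
  add_mem' := by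
    rintro f g ⟨⟨U, hU, hf⟩, hf'⟩ ⟨⟨V, hV, hg⟩, hg'⟩
    refine ⟨⟨U ⊓ V, S.inf U V hU hV, fun u hu => ?_⟩, fun q hq => ?_⟩
    · rw [map_add, hf u hu.1, hg u hu.2]
    · rw [map_add, hf' q hq, hg' q hq]
  smul_mem' := by
    rintro c f ⟨⟨U, hU, hf⟩, hf'⟩
    refine ⟨⟨U, hU, fun u hu => ?_⟩, fun q hq => ?_⟩
    · rw [map_smul, hf u hu]
    · rw [map_smul, hf' q hq]

/-- The dimension of `X / (X ∩ Y)`. -/
noncomputable def ln {M : Type u} [AddCommGroup M] [Module (ZMod 2) M]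
    (Y X : Submodule (ZMod 2) M) : ℕ∞ :=
  Module.length (ZMod 2) (X ⧸ Y.submoduleOf X)

/-- The elements of `Y'` that are invariant under `U` modulo `Y`. -/
def inv {D : ℕ} (Y Y' : Submodule (ZMod 2) (Fn G D)) (U : Subgroup G) :
    Submodule (ZMod 2) (Fn G D) where
  carrier := {f | f ∈ Y' ∧ ∀ u ∈ U, rho u f - f ∈ Y}
  zero_mem' := ⟨Y'.zero_mem, fun u _ => by simp⟩
  add_mem' := by
    rintro f g ⟨hf, hf'⟩ ⟨hg, hg'⟩
    refine ⟨Y'.add_mem hf hg, fun u hu => ?_⟩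
    have := Y.add_mem (hf' u hu) (hg' u hu)
    rw [map_add, add_sub_add_comm]
    exact this
  smul_mem' := by
    rintro c f ⟨hf, hf'⟩
    refine ⟨Y'.smul_mem c hf, fun u hu => ?_⟩
    rw [map_smul, ← smul_sub]
    exact Y.smul_mem c (hf' u hu)

/-- The open normal subgroups containing `Q`. -/
def Nb (S : OSys G) (Q : Subgroup G) : Type u := {U : Subgroup G // S.Op U ∧ U.Normal ∧ Q ≤ U}

/-- The dimension of the `U`-invariants of `Y' / Y`, divided by the index of `U`. -/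
noncomputable def ratio {D : ℕ} (Y Y' : Submodule (ZMod 2) (Fn G D)) (U : Subgroup G) : ℝ≥0∞ :=
  ((ln Y (inv Y Y' U) : ℕ∞) : ℝ≥0∞) / (U.index : ℝ≥0∞)

/-- The rank of `Y' / Y`. -/
noncomputable def rk {D : ℕ} (S : OSys G) (Q : Subgroup G) (Y Y' : Submodule (ZMod 2) (Fn G D)) :
    ℝ≥0∞ := ⨅ U : Nb S Q, ratio Y Y' U.1

/-- The stable subspaces of `CC S Q D`. -/
def St (S : OSys G) (Q : Subgroup G) (D : ℕ) : Type u :=
  {Y : Submodule (ZMod 2) (Fn G D) // Stable Y ∧ Y ≤ CC S Q D}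

instance (S : OSys G) (Q : Subgroup G) (D : ℕ) : PartialOrder (St S Q D) :=
  inferInstanceAs (PartialOrder {Y : Submodule (ZMod 2) (Fn G D) // Stable Y ∧ Y ≤ CC S Q D})

/-- The conclusion of the integrality theorem. -/
structure TT (S : OSys G) (Q : Subgroup G) : Prop where
  dcc : ∀ D : ℕ, WellFoundedLT (St S Q D)
  rank : ∀ (D : ℕ) (Y Y' : Submodule (ZMod 2) (Fn G D)), Stable Y → Stable Y' → Y ≤ Y' →
    Y' ≤ CC S Q D → ∃ n n' : ℕ, n ≤ n' ∧ n' ≤ D ∧ rk S Q ⊥ Y = n ∧ rk S Q ⊥ Y' = n' ∧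
      rk S Q Y Y' = ((n' - n : ℕ) : ℝ≥0∞)

/-- `A / B` behaves like `Z_2 ^ h` with basis `y`; conjugation is unitriangular modulo two. -/
structure Layer (S : OSys G) (A B : Subgroup G) (h : ℕ) where
  nA : A.Normal
  nB : B.Normal
  le : B ≤ A
  y : Fin h → G
  mem : ∀ i, y i ∈ A
  comm : ∀ i j, y i * y j * (y i)⁻¹ * (y j)⁻¹ ∈ B
  gen : ∀ U : Subgroup G, S.Op U → U.Normal → B ≤ U → A ≤ Subgroup.closure (Set.range y) ⊔ U
  conj : ∀ (g : G) (U : Subgroup G), S.Op U → U.Normal → B ≤ U → ∀ i, ∃ m : Fin h → ℕ,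
    Odd (m i) ∧ (∀ k, i < k → Even (m k)) ∧
      ∃ u ∈ U, g⁻¹ * y i * g = (List.ofFn fun k => y k ^ m k).prod * u
  box : ∀ (n : ℕ) (V : Subgroup G), S.Op V → V.Normal → A ≤ V → ∃ U : Subgroup G, S.Op U ∧
    U.Normal ∧ B ≤ U ∧ U ≤ V ∧ (∀ i, y i ^ 2 ^ n ∈ U) ∧ U.index = (U ⊔ A).index * 2 ^ (n * h)

end Pool.Agent.EP
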