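import Pool.Agent.EP.Ln

/-!
# Exact pairs: abstract filtration lemma (MP_2429c0)

`X` is a vector space with linear maps `δ e : X → X'`, `e ∈ E`; `key : E → K` is injective with values in a well
ordered set.  `FF δ key e = {f | δ e' f = 0 for all e' with key e < key e'}`, and `lcs δ key Y e = δ e (Y ∩ FF e)` is
the space of leading coefficients.  `P` is a subspace on which each `f` lies in some `FF e` (`hfin`) and on which
`δ e f = 0` for all `e` implies `f = 0` (`hinj`).

Proof of `le_of_lcs` (`Y ≤ Z`, all `Z_e ≤ Y_e` imply `Z ≤ Y`).  Let `z ∈ Z`.  Choose among all `(e, y)` with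
`y ∈ Y` and `z - y ∈ FF e` one with `key e` least.  If `δ e (z - y) = 0` and there is a smaller exponent... use
well-founded induction on `key e`: for `z ∈ Z ∩ FF e`: `δ e z ∈ Z_e ≤ Y_e` gives `y ∈ Y ∩ FF e` with
`δ e (z - y) = 0`.  Put `z' = z - y`.  If `δ e' z' = 0` for all `e'`, then `z' = 0` by `hinj`.  Otherwise there is an
exponent `e'` with `δ e' z' ≠ 0` and largest key: the set of keys of such exponents is contained in the keys `< key e`;
it is finite?  To avoid finiteness: we use `hfin` in the strong form `hsupp`: for `f ∈ P` the set `{e | δ e f ≠ 0}`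
is finite; so the largest `e'` exists, `key e' < key e`, and `z' ∈ FF e'`; induct.

Proof of `filt`: induction on `T`.  `T = ∅`: `le_of_lcs`.  Let `m ∈ T` have the largest key,
`F' = {f | δ e f = 0 for all e with key m ≤ key e}`, `Z' = Y ⊔ (Z ⊓ F')`.  (1) `Z ≤ Y ⊔ (Z ⊓ FF m)`: as in
`le_of_lcs` (for `z ∈ Z ∩ FF e` with `key m < key e` subtract an element of `Y ∩ FF e`; well-founded induction).
(2) `ln Z' Z ≤ ln Y_m Z_m`: `Z = Y + Z ∩ FF m`, so `ln Z' Z = ln Z' (Z ∩ FF m) ≤ ln Y_m Z_m` by `ln_le_of_map (δ m)`: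
if `z ∈ Z ∩ FF m`, `δ m z = δ m y`, `y ∈ Y ∩ FF m`, then `z - y ∈ Z ∩ F'`.  (3) For `e ∉ T \ {m}`: `Z'_e ≤ Y_e`: if
`key m ≤ key e` and `f = y + z ∈ FF e` with `z ∈ F'`, then `y ∈ FF e` and `δ e f = δ e y`; if `key e < key m` then
`e ∉ T` and `Z'_e ≤ Z_e ≤ Y_e`.  (4) `ln Y Z = ln Y Z' + ln Z' Z`.
-/

namespace Pool.Agent.EP

variable {E K X X' : Type*} [LinearOrder K] [AddCommGroup X] [Module (ZMod 2) X]
  [AddCommGroup X'] [Module (ZMod 2) X']

/-- The elements all of whose coefficients beyond `e` vanish. -/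
def FF (δ : E → X →ₗ[ZMod 2] X') (key : E → K) (e : E) : Submodule (ZMod 2) X where
  carrier := {f | ∀ e', key e < key e' → δ e' f = 0}
  zero_mem' := fun e' _ => map_zero _
  add_mem' := by
    intro f g hf hg e' he'
    rw [map_add, hf e' he', hg e' he', add_zero]
  smul_mem' := by
    intro c f hf e' he'
    rw [map_smul, hf e' he', smul_zero]

/-- The leading coefficients at `e`. -/
def lcs (δ : E → X →ₗ[ZMod 2] X') (key : E → K) (Y : Submodule (ZMod 2) X) (e : E) :
    Submodule (ZMod 2) X' := (Y ⊓ FF δ key e).map (δ e)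

theorem lcs_mono (δ : E → X →ₗ[ZMod 2] X') (key : E → K) {Y Z : Submodule (ZMod 2) X}
    (h : Y ≤ Z) (e : E) : lcs δ key Y e ≤ lcs δ key Z e :=
  Submodule.map_mono (inf_le_inf_right _ h)

theorem mem_FF {δ : E → X →ₗ[ZMod 2] X'} {key : E → K} {e : E} {f : X} :
    f ∈ FF δ key e ↔ ∀ e', key e < key e' → δ e' f = 0 := Iff.rfl

theorem mem_lcs {δ : E → X →ₗ[ZMod 2] X'} {key : E → K} {Y : Submodule (ZMod 2) X} {e : E}
    {x : X'} : x ∈ lcs δ key Y e ↔ ∃ y, y ∈ Y ∧ y ∈ FF δ key e ∧ δ e y = x := by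
  unfold lcs
  rw [Submodule.mem_map]
  constructor
  · rintro ⟨y, hy, h⟩
    exact ⟨y, hy.1, hy.2, h⟩
  · rintro ⟨y, hy1, hy2, h⟩
    exact ⟨y, ⟨hy1, hy2⟩, h⟩

/-- The exponent with the largest key. -/
theorem exists_top (δ : E → X →ₗ[ZMod 2] X') (key : E → K) {P : Submodule (ZMod 2) X}
    (hsupp : ∀ f ∈ P, {e | δ e f ≠ 0}.Finite) {f : X} (hf : f ∈ P) {e₁ : E} (h1 : δ e₁ f ≠ 0) :
    ∃ e, δ e f ≠ 0 ∧ f ∈ FF δ key e ∧ key e₁ ≤ key e := by
  classical
  have hfin := hsupp f hf
  have hne : hfin.toFinset.Nonempty := ⟨e₁, by simpa using h1⟩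
  obtain ⟨e, he, hmax⟩ := Finset.exists_max_image hfin.toFinset key hne
  refine ⟨e, by simpa using he, fun e' he' => ?_, hmax e₁ (by simpa using h1)⟩
  by_contra h
  exact absurd (hmax e' (by simpa using h)) (not_le.2 he')

/-- Reduction of an element of `Z` by elements of `Y`, as long as the exponent lies in the upper set `R`. -/
theorem reduce [WellFoundedLT K] (δ : E → X →ₗ[ZMod 2] X') (key : E → K)
    (hkey : Function.Injective key) (P : Submodule (ZMod 2) X)
    (hsupp : ∀ f ∈ P, {e | δ e f ≠ 0}.Finite)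
    (Y Z : Submodule (ZMod 2) X) (hYZ : Y ≤ Z) (hZ : Z ≤ P) (R : E → Prop)
    (hR : ∀ e e', R e → key e ≤ key e' → R e')
    (h : ∀ e, R e → lcs δ key Z e ≤ lcs δ key Y e) {z : X} (hz : z ∈ Z) :
    ∃ y ∈ Y, ∀ e, R e → δ e (z - y) = 0 := by
  have claim : ∀ k : K, ∀ e, key e = k → R e → ∀ z ∈ Z, z ∈ FF δ key e →
      ∃ y ∈ Y, ∀ e, R e → δ e (z - y) = 0 := by
    intro k
    induction k using WellFoundedLT.induction with
    | ind k ih =>
      intro e he hRe z hz hze
      obtain ⟨y0, hy0, hy0F, hy0e⟩ := mem_lcs.1 (h e hRe (mem_lcs.2 ⟨z, hz, hze, rfl⟩))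
      have hz' : z - y0 ∈ Z := Z.sub_mem hz (hYZ hy0)
      have hze' : z - y0 ∈ FF δ key e := (FF δ key e).sub_mem hze hy0F
      have h0 : δ e (z - y0) = 0 := by rw [map_sub, hy0e, sub_self]
      by_cases hall : ∀ e', R e' → δ e' (z - y0) = 0
      · exact ⟨y0, hy0, hall⟩
      · push Not at hall
        obtain ⟨e1, hRe1, he1⟩ := hall
        obtain ⟨e', he', hF', hle⟩ := exists_top δ key hsupp (hZ hz') he1
        have hRe' : R e' := hR e1 e' hRe1 hle
        have hlt : key e' < k := by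
          rw [← he]
          have h2 : ¬ key e < key e' := fun h3 => he' (hze' e' h3)
          have h3 : key e' ≠ key e := by
            intro h4
            rw [hkey h4] at he'
            exact he' h0
          exact lt_of_le_of_ne (not_lt.1 h2) h3
        obtain ⟨y1, hy1, hy1'⟩ := ih (key e') hlt e' rfl hRe' _ hz' hF'
        refine ⟨y0 + y1, Y.add_mem hy0 hy1, fun e'' he'' => ?_⟩
        rw [← sub_sub]
        exact hy1' e'' he''
  by_cases hall : ∀ e', R e' → δ e' z = 0
  · exact ⟨0, Y.zero_mem, by simpa using hall⟩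
  · push Not at hall
    obtain ⟨e1, hRe1, he1⟩ := hall
    obtain ⟨e', he', hF', hle⟩ := exists_top δ key hsupp (hZ hz) he1
    exact claim (key e') e' rfl (hR e1 e' hRe1 hle) z hz hF'

theorem le_of_lcs [WellFoundedLT K] (δ : E → X →ₗ[ZMod 2] X') (key : E → K)
    (hkey : Function.Injective key) (P : Submodule (ZMod 2) X)
    (hsupp : ∀ f ∈ P, {e | δ e f ≠ 0}.Finite) (hinj : ∀ f ∈ P, (∀ e, δ e f = 0) → f = 0)
    (Y Z : Submodule (ZMod 2) X) (hYZ : Y ≤ Z) (hZ : Z ≤ P)
    (h : ∀ e, lcs δ key Z e ≤ lcs δ key Y e) : Z ≤ Y := by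
  intro z hz
  obtain ⟨y, hy, hy'⟩ := reduce δ key hkey P hsupp Y Z hYZ hZ (fun _ => True)
    (fun _ _ _ _ => trivial) (fun e _ => h e) hz
  have h1 := hinj (z - y) (hZ (Z.sub_mem hz (hYZ hy))) fun e => hy' e trivial
  rw [sub_eq_zero] at h1
  rwa [h1]

theorem filt [WellFoundedLT K] (δ : E → X →ₗ[ZMod 2] X') (key : E → K)
    (hkey : Function.Injective key) (P : Submodule (ZMod 2) X)
    (hsupp : ∀ f ∈ P, {e | δ e f ≠ 0}.Finite) (hinj : ∀ f ∈ P, (∀ e, δ e f = 0) → f = 0)
    (Y Z : Submodule (ZMod 2) X) (hYZ : Y ≤ Z) (hZ : Z ≤ P) (T : Finset E)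
    (h : ∀ e, e ∉ T → lcs δ key Z e ≤ lcs δ key Y e) :
    ln Y Z ≤ ∑ e ∈ T, ln (lcs δ key Y e) (lcs δ key Z e) := by
  classical
  induction T using Finset.induction_on_max_value key generalizing Z with
  | empty =>
    have h1 := le_of_lcs δ key hkey P hsupp hinj Y Z hYZ hZ fun e => h e (by simp)
    rw [(ln_eq_zero_iff Y Z).2 h1]
    simp
  | insert m s hm hmax ih =>
    -- `F'`
    let F' : Submodule (ZMod 2) X :=
      { carrier := {f | ∀ e, key m ≤ key e → δ e f = 0}
        zero_mem' := fun e _ => map_zero _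
        add_mem' := by
          intro f g hf hg e he
          rw [map_add, hf e he, hg e he, add_zero]
        smul_mem' := by
          intro c f hf e he
          rw [map_smul, hf e he, smul_zero] }
    have memF' : ∀ f, f ∈ F' ↔ ∀ e, key m ≤ key e → δ e f = 0 := fun f => Iff.rfl
    set Z' : Submodule (ZMod 2) X := Y ⊔ (Z ⊓ F') with hZ'
    have hYZ' : Y ≤ Z' := le_sup_left
    have hZ'Z : Z' ≤ Z := sup_le hYZ inf_le_left
    -- (1)
    have h1 : Z ≤ Z' ⊔ (Z ⊓ FF δ key m) := by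
      intro z hz
      obtain ⟨y, hy, hy'⟩ := reduce δ key hkey P hsupp Y Z hYZ hZ (fun e => key m < key e)
        (fun e e' h1 h2 => lt_of_lt_of_le h1 h2) (fun e he => h e (by
          rw [Finset.mem_insert]
          rintro (rfl | h2)
          · exact lt_irrefl _ he
          · exact absurd (hmax e h2) (not_le.2 he))) hz
      have h2 : z = y + (z - y) := by abel
      rw [h2]
      exact Submodule.add_mem_sup (hYZ' hy) ⟨Z.sub_mem hz (hYZ hy), hy'⟩
    -- (2)
    have h2 : ln Z' Z ≤ ln (lcs δ key Y m) (lcs δ key Z m) := by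
      refine (ln_mono_right h1).trans ?_
      rw [ln_sup]
      refine ln_le_of_map (δ m) _ _ _ _ ?_ ?_
      · intro x hx
        exact mem_lcs.2 ⟨x, hx.1, hx.2, rfl⟩
      · intro x hx hxY
        obtain ⟨y, hy, hyF, hye⟩ := mem_lcs.1 hxY
        have h3 : x = y + (x - y) := by abel
        rw [h3]
        refine Submodule.add_mem_sup hy ⟨Z.sub_mem hx.1 (hYZ hy), ?_⟩
        intro e he
        rcases he.lt_or_eq with h4 | h4
        · rw [map_sub, hx.2 e h4, hyF e h4, sub_zero]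
        · rw [← hkey h4, map_sub, hye, sub_self]
    -- (3)
    have h3 : ∀ e, e ∉ s → lcs δ key Z' e ≤ lcs δ key Y e := by
      intro e he
      rcases le_or_gt (key m) (key e) with h4 | h4
      · intro x hx
        obtain ⟨f, hf, hfF, rfl⟩ := mem_lcs.1 hx
        obtain ⟨y, hy, z, hz, rfl⟩ := Submodule.mem_sup.1 hf
        refine mem_lcs.2 ⟨y, hy, fun e' he' => ?_, ?_⟩
        · have h5 := hfF e' he'
          rw [map_add, hz.2 e' (h4.trans he'.le), add_zero] at h5
          exact h5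
        · rw [map_add, hz.2 e h4, add_zero]
      · refine (lcs_mono δ key hZ'Z e).trans (h e ?_)
        rw [Finset.mem_insert]
        rintro (rfl | h5)
        · exact lt_irrefl _ h4
        · exact he h5
    have h4 := ih Z' hYZ' (hZ'Z.trans hZ) h3
    rw [ln_add hYZ' hZ'Z, Finset.sum_insert hm, add_comm]
    refine add_le_add h2 (h4.trans (Finset.sum_le_sum fun e _ => ?_))
    exact ln_mono_right (lcs_mono δ key hZ'Z e)

end Pool.Agent.EP
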