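import Pool.Agent.EP.Bq

/-!
# Exact pairs: iterated lifts (MP_2429c0, (0.1))

Compare `ETC92/Tow.lean`, theorem `TCl.iter`, which does the iteration for abstract classes of fields.
-/

universe u

namespace Pool.Agent.EP

open Pool.Agent.Hhelper2 Pool.Agent.KRad

variable {F Ω : Type u} [Field F] [Field Ω] [Algebra F Ω] [QC F Ω]

namespace LiftAux

open Module Additive Pool.Agent.Hhelper2.QuadExt Pool.Agent.Hhelper2.Tower

/-- restriction of scalars does not change the field -/
def eRS {K : IntermediateField F Ω} (L : IntermediateField K Ω) :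
    L ≃+* L.restrictScalars F where
  toFun x := ⟨x.1, x.2⟩
  invFun x := ⟨x.1, x.2⟩
  left_inv _ := rfl
  right_inv _ := rfl
  map_mul' _ _ := rfl
  map_add' _ _ := rfl

omit [QC F Ω] in
theorem finrank_rs {K : IntermediateField F Ω} (L : IntermediateField K Ω) :
    finrank F (L.restrictScalars F) = finrank F K * finrank K L := by
  rw [finrank_mul_finrank F K L]
  exact (LinearEquiv.finrank_eq
    { toFun := fun x => (⟨x.1, x.2⟩ : L.restrictScalars F)
      invFun := fun x => ⟨x.1, x.2⟩
      left_inv := fun _ => rfl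
      right_inv := fun _ => rfl
      map_add' := fun _ _ => rfl
      map_smul' := fun _ _ => rfl }).symm

theorem exists_up (h2 : (2 : F) ≠ 0) (K : IntermediateField F Ω) [FiniteDimensional F K]
    (c : Kˣ) (hns : ¬ ∃ t : K, (c : K) = t ^ 2) :
    ∃ K' : IntermediateField F Ω, FiniteDimensional F K' ∧
      finrank F K' = 2 * finrank F K ∧ Nonempty (QL K K' (sqClass c)) := by
  have h2K : (2 : K) ≠ 0 := by
    intro h
    apply h2
    apply (algebraMap F K).injective
    rw [map_ofNat, h, map_zero]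
  obtain ⟨α, hα⟩ := QC.sq (F := F) (((c : K) : K) : Ω)
  have hirr : Irreducible (Polynomial.X ^ 2 - Polynomial.C (c : K)) :=
    X_pow_sub_C_irreducible_of_prime Nat.prime_two (fun b hb => hns ⟨b, hb.symm⟩)
  have hmon : (Polynomial.X ^ 2 - Polynomial.C (c : K)).Monic :=
    Polynomial.monic_X_pow_sub_C _ two_ne_zero
  have hev : Polynomial.aeval α (Polynomial.X ^ 2 - Polynomial.C (c : K)) = 0 := by
    rw [map_sub, map_pow, Polynomial.aeval_X, Polynomial.aeval_C, hα]
    exact sub_self _
  have hmin := minpoly.eq_of_irreducible_of_monic hirr hev hmon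
  have hint : IsIntegral K α := ⟨_, hmon, hev⟩
  set L : IntermediateField K Ω := IntermediateField.adjoin K {α} with hL
  have hfin : finrank K L = 2 := by
    rw [hL, IntermediateField.adjoin.finrank hint, ← hmin, Polynomial.natDegree_X_pow_sub_C]
  have hαL : α ∈ L := IntermediateField.mem_adjoin_simple_self K α
  obtain ⟨q, -, -⟩ := exists_QL h2K hfin c ⟨α, hαL⟩ (Subtype.ext hα) hns
  have hf : finrank F (L.restrictScalars F) = 2 * finrank F K := by
    rw [finrank_rs, hfin, mul_comm]
  refine ⟨L.restrictScalars F, ?_, hf, ⟨KRad.Genuine.transport (eRS L) q⟩⟩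
  apply FiniteDimensional.of_finrank_pos
  rw [hf]
  have : 0 < finrank F K := finrank_pos
  omega

theorem iterK (h2 : (2 : F) ≠ 0) [Finite (SqClass F)] (hi : ∃ i : F, i ^ 2 = -1) (m : ℕ) :
    ∀ (K : IntermediateField F Ω), FiniteDimensional F K → ∀ x : VV K, x ≠ 0 →
      ∀ s : ℕ, s ≤ sv K x → ∃ K' : IntermediateField F Ω, FiniteDimensional F K' ∧
        finrank F K' = 2 ^ m * finrank F K ∧
        GoReal.dd K' + 2 ^ m * (1 + s) ≤ 2 ^ m * GoReal.dd K + 1 + s := by
  induction m with
  | zero =>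
    intro K hK x hx s hs
    exact ⟨K, hK, by rw [pow_zero, one_mul], by omega⟩
  | succ m ih =>
    intro K hK x hx s hs
    have h2K : (2 : K) ≠ 0 := by
      intro h
      apply h2
      apply (algebraMap F K).injective
      rw [map_ofNat, h, map_zero]
    have hfs : Finite (SqClass K) := finite_sqClass h2 K
    obtain ⟨c, hc⟩ := QuotientGroup.mk_surjective (toMul x)
    have hc' : sqClass c = toMul x := hc
    have hx' : sqClass c ≠ 1 := by
      rw [hc']
      exact fun h => hx h
    have hns : ¬ ∃ t : K, (c : K) = t ^ 2 := fun h => hx' ((one_iff c).2 h)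
    obtain ⟨K₁, hK₁, hf₁, ⟨q⟩⟩ := exists_up h2 K c hns
    have hd := GoReal.finrank_ext h2K q.toQE hx'
    have hxo : (ofMul (sqClass c) : VV K) = x := by rw [hc']; rfl
    rw [hxo] at hd
    have hee : GoReal.ee K = 0 := by
      obtain ⟨i, hi⟩ := hi
      show sqClass (-1 : Kˣ) = 1
      rw [one_iff]
      refine ⟨algebraMap F K i, ?_⟩
      rw [← map_pow, hi, map_neg, map_one]
      rfl
    have hsp : Sp K (ofMul (sqClass c)) x := by
      have h := GoReal.sp_neg h2K x
      rw [hee, add_zero] at h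
      rw [hxo]
      exact h
    obtain ⟨z, hz⟩ := GoReal.range_nm' q.toQE hsp
    have hz0 : z ≠ 0 := by
      rintro rfl
      apply hx
      rw [← hz, map_zero]
    have hsz := GoReal.sv_nm_le h2K q.toQE z
    rw [hz] at hsz
    obtain ⟨K₂, hK₂, hf₂, hd₂⟩ := ih K₁ hK₁ z hz0 s (hs.trans hsz)
    refine ⟨K₂, hK₂, ?_, ?_⟩
    · rw [hf₂, hf₁]
      ring
    · have h1 : GoReal.dd K₁ + s + 1 ≤ 2 * GoReal.dd K := by omega
      have h3 : 2 ^ m * (GoReal.dd K₁ + s + 1) ≤ 2 ^ m * (2 * GoReal.dd K) :=
        Nat.mul_le_mul_left _ h1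
      have e1 : 2 ^ m * (GoReal.dd K₁ + s + 1) = 2 ^ m * GoReal.dd K₁ + 2 ^ m * (1 + s) := by ring
      have e2 : 2 ^ (m + 1) * (1 + s) = 2 ^ m * (1 + s) + 2 ^ m * (1 + s) := by ring
      have e3 : 2 ^ (m + 1) * GoReal.dd K = 2 ^ m * (2 * GoReal.dd K) := by ring
      omega

end LiftAux

open LiftAux Module Additive Pool.Agent.Hhelper2.QuadExt Pool.Agent.Hhelper2.Tower in
/-- Lifts: an increment of an edge bounds the growth in a tower (section 0, (0.1)): if `k` is a lower bound for
`(d(W) - 1) / [G : W]` on all open `W`, then it is a lower bound for the increment of each edge. Proof: iterated lifts: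
`U' ≤ U` of index two belongs to `a ∈ V_K`; there is `z ∈ V_{K(√a)}` with norm `a` (`-1` is a square, so `(a, a)` is split)
and `sv z ≥ sv a` (`GoReal.sv_nm_le`), so the increment at `z` is at most twice the increment `δ` at `a`; after `n` steps an
open `W` of index `2 ^ n [G : U]` with `d(W) ≤ d(U) + (2 ^ n - 1) δ`; let `n → ∞`. -/
theorem edge_ge (h2 : (2 : F) ≠ 0) [Finite (SqClass F)] (hi : ∃ i : F, i ^ 2 = -1) {k : ℕ}
    (hk : ∀ W, (galS F Ω).Op W → k * W.index + 1 ≤ dd (galS F Ω) W)
    {U U' : Subgroup (Ω ≃ₐ[F] Ω)} (hU : (galS F Ω).Op U) (hU' : (galS F Ω).Op U') (h : U' ≤ U)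
    (hr : U'.relIndex U = 2) : k * U.index + dd (galS F Ω) U ≤ dd (galS F Ω) U' := by
  obtain ⟨f1, f2, f3⟩ := finite_fixedField U hU
  obtain ⟨f1', f2', f3'⟩ := finite_fixedField U' hU'
  set K := IntermediateField.fixedField U with hK
  set K' := IntermediateField.fixedField U' with hK'
  have hle : K ≤ K' := by
    rw [hK, hK']
    exact IntermediateField.fixedField_antitone h
  have h2K : (2 : K) ≠ 0 := by
    intro h
    apply h2
    apply (algebraMap F K).injective
    rw [map_ofNat, h, map_zero]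
  have hfs : Finite (SqClass K) := finite_sqClass h2 K
  set L : IntermediateField K Ω := IntermediateField.extendScalars hle with hL
  have hrs : L.restrictScalars F = K' := IntermediateField.extendScalars_restrictScalars hle
  have hidx : U'.index = 2 * U.index := by
    rw [← Subgroup.relIndex_mul_index h, hr]
  have hpos : 0 < finrank F K := finrank_pos
  have hfin : finrank K L = 2 := by
    have h1 := finrank_rs L
    rw [hrs, f3', hidx, f3] at h1
    rw [f3] at hpos
    rw [mul_comm] at h1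
    exact (Nat.eq_of_mul_eq_mul_left hpos h1).symm
  obtain ⟨a, α, hα, hns⟩ := exists_sqrt (K := K) (E := L) h2K hfin
  obtain ⟨q, -, -⟩ := exists_QL h2K hfin a α hα hns
  have ha : sqClass a ≠ 1 := fun h => hns ((one_iff a).1 h)
  have hd := GoReal.finrank_ext h2K q.toQE ha
  have hdL : GoReal.dd L = GoReal.dd K' := by
    have h1 := dd_congr (eRS L)
    rw [h1, hrs]
  rw [hdL] at hd
  set s := sv K (ofMul (sqClass a)) with hs
  obtain ⟨K₂, hK₂, hf₂, hd₂⟩ := iterK h2 hi s K f1 (ofMul (sqClass a)) (fun h => ha h) s le_rfl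
  have hop : (galS F Ω).Op K₂.fixingSubgroup := (isOpen_iff_exists _).2 ⟨K₂, hK₂, rfl⟩
  have hk2 := hk _ hop
  rw [dd_eq h2 hop, InfiniteGalois.fixedField_fixingSubgroup, index_fixingSubgroup, hf₂, f3] at hk2
  rw [dd_eq h2 hU, dd_eq h2 hU', ← hK, ← hK']
  have hlt : s < 2 ^ s := Nat.lt_two_pow_self
  have key : k * U.index + 1 + s ≤ GoReal.dd K := by
    by_contra hcon
    have h1 : GoReal.dd K + 1 ≤ k * U.index + 1 + s := by omega
    have h3 := Nat.mul_le_mul_left (2 ^ s) h1
    have e1 : 2 ^ s * (GoReal.dd K + 1) = 2 ^ s * GoReal.dd K + 2 ^ s := by ring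
    have e2 : 2 ^ s * (k * U.index + 1 + s) = k * (2 ^ s * U.index) + 2 ^ s * (1 + s) := by ring
    omega
  omega

end Pool.Agent.EP
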