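import Pool.Agent.EP.D4C
import Pool.Agent.EP.D4H

/-!
# Exact pairs: the exact pair (MP_2429c0, section 4, (4.6))

If `h > 0`: `comb` with `F = d.F` (`F_bq`, `F_lb`, `F_db`, `F_hv`, `F_inf`; `0 ≤ d.F ⊤` by `F_ge`) gives `v`, `t` with
`F (Cv v (t + 1)) - F (Cv v t) = k * 2 ^ t`.  Take `l` large, `U₀ = Ug (Cv v t) l`, `U₁ = Ug (Cv v (t + 1)) l`, `U₂ = Ug (Cv v t) (l + 1)`,
`U₁ ⊓ U₂ = Ug (Cv v (t + 1)) (l + 1)` (`Ug_inf`), `U₃` the third subgroup of index two (`U₁ ⊓ U₂` has index four in `U₀`, the quotient is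
not cyclic since there are two subgroups of index two; if `U₁ ⊓ U₂` is not normal in `U₀`.. intersections of two subgroups of index
two are normal; `U₃ = U₁ ⊓ U₂ ∪ (U₀ \ (U₁ ∪ U₂))`).  `FieldLike.bq` and `F_spec` give
`dd U₃ - dd U₀ = (F (Cv v (t + 1)) - F (Cv v t)) * 2 ^ l = k * 2 ^ (t + l) = k * U₀.index`.
If `h = 0`: `U₀ = Ug ⊤ l`, `U₃ = Ug ⊤ (l + 1)`: `dd U₃ - dd U₀ = k * 2 ^ l` by `F_top_of_zero`.
-/

universe u

namespace Pool.Agent.EP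

variable {G : Type u} [Group G] {S : OSys G} {N : Subgroup G} {h D : ℕ} {g : Fin D → G}

/-- Products in a group with a subgroup of index two. -/
theorem main4_mul {H K : Subgroup G} (h2 : H.relIndex K = 2) {a b : G} (ha : a ∈ K) (hb : b ∈ K) :
    a * b ∈ H ↔ (a ∈ H ↔ b ∈ H) := by
  have h3 : (H.subgroupOf K).index = 2 := h2
  have h4 := Subgroup.mul_mem_iff_of_index_two h3 (a := (⟨a, ha⟩ : K)) (b := ⟨b, hb⟩)
  simpa [Subgroup.mem_subgroupOf] using h4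

/-- Two different subgroups of index two are incomparable. -/
theorem main4_not_le {U₀ U₁ U₂ : Subgroup G} (l2 : U₂ ≤ U₀) (r1 : U₁.relIndex U₀ = 2)
    (r2 : U₂.relIndex U₀ = 2) (hne : U₁ ≠ U₂) : ∃ a ∈ U₁, a ∉ U₂ := by
  by_contra hcon
  push Not at hcon
  have hle : U₁ ≤ U₂ := hcon
  have h1 := Subgroup.relIndex_mul_relIndex U₁ U₂ U₀ hle l2
  rw [r1, r2] at h1
  have h2 : U₁.relIndex U₂ = 1 := by omega
  exact hne (le_antisymm hle (Subgroup.relIndex_eq_one.1 h2))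

/-- The third subgroup of index two. -/
def main4Third (U₀ U₁ U₂ : Subgroup G) (r1 : U₁.relIndex U₀ = 2) (r2 : U₂.relIndex U₀ = 2) :
    Subgroup G where
  carrier := {x | x ∈ U₀ ∧ (x ∈ U₁ ↔ x ∈ U₂)}
  one_mem' := ⟨U₀.one_mem, by simp [U₁.one_mem, U₂.one_mem]⟩
  mul_mem' := by
    rintro a b ⟨ha, ha'⟩ ⟨hb, hb'⟩
    refine ⟨U₀.mul_mem ha hb, ?_⟩
    rw [main4_mul r1 ha hb, main4_mul r2 ha hb, ha', hb']
  inv_mem' := by
    rintro a ⟨ha, ha'⟩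
    refine ⟨U₀.inv_mem ha, ?_⟩
    rw [inv_mem_iff, inv_mem_iff, ha']

theorem main4_mem {U₀ U₁ U₂ : Subgroup G} (r1 : U₁.relIndex U₀ = 2) (r2 : U₂.relIndex U₀ = 2)
    (x : G) : x ∈ main4Third U₀ U₁ U₂ r1 r2 ↔ x ∈ U₀ ∧ (x ∈ U₁ ↔ x ∈ U₂) := Iff.rfl

/-- Existence and properties of the third subgroup of index two. -/
theorem main4_third {U₀ U₁ U₂ : Subgroup G} (l1 : U₁ ≤ U₀) (l2 : U₂ ≤ U₀)
    (r1 : U₁.relIndex U₀ = 2) (r2 : U₂.relIndex U₀ = 2) (hne : U₁ ≠ U₂) :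
    ∃ U₃ : Subgroup G, U₃ ≤ U₀ ∧ U₃.relIndex U₀ = 2 ∧ U₁ ≠ U₃ ∧ U₂ ≠ U₃ ∧ U₁ ⊓ U₂ ≤ U₃ := by
  obtain ⟨a, ha1, ha2⟩ := main4_not_le l2 r1 r2 hne
  obtain ⟨b, hb2, hb1⟩ := main4_not_le l1 r2 r1 hne.symm
  refine ⟨main4Third U₀ U₁ U₂ r1 r2, fun x hx => hx.1, ?_, ?_, ?_, ?_⟩
  · rw [Subgroup.relIndex_eq_two_iff]
    refine ⟨a, l1 ha1, fun c hc => ?_⟩
    rw [main4_mem, main4_mem, main4_mul r1 hc (l1 ha1), main4_mul r2 hc (l1 ha1)]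
    have h3 : c * a ∈ U₀ := U₀.mul_mem hc (l1 ha1)
    unfold Xor
    tauto
  · intro h3
    rw [h3] at ha1
    exact ha2 (ha1.2.1 (by rw [h3]; exact ha1))
  · intro h3
    rw [h3] at hb2
    exact hb1 (hb2.2.2 (by rw [h3]; exact hb2))
  · rintro x ⟨hx1, hx2⟩
    exact ⟨l1 hx1, ⟨fun _ => hx2, fun _ => hx1⟩⟩

theorem exists_exact_group (d : Data4 S N h) (hg : TGen S g) (hS : FieldLike S) {k : ℕ}
    (hk : IsRk S N k) (hlb : ∀ W, S.Op W → k * W.index + 1 ≤ dd S W)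
    (hedge : ∀ {U U' : Subgroup G}, S.Op U → S.Op U' → U' ≤ U → U'.relIndex U = 2 →
      k * U.index + dd S U ≤ dd S U') :
    ∃ U₀ U₃ : Subgroup G, S.Op U₀ ∧ S.Op U₃ ∧ U₃ ≤ U₀ ∧ U₃.relIndex U₀ = 2 ∧
      dd S U₃ = dd S U₀ + k * U₀.index := by
  have hopTop : OpT (⊤ : AddSubgroup (Fin h → ℤ_[2])) := ⟨0, fun _ => AddSubgroup.mem_top _⟩
  rcases Nat.eq_zero_or_pos h with hh | hh
  · obtain ⟨c, l₀, hl⟩ := d.F_spec hg hopTop
    rw [d.F_top_of_zero hg hS hk hh] at hl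
    refine ⟨d.Ug ⊤ l₀, d.Ug ⊤ (l₀ + 1), d.Ug_op hopTop _, d.Ug_op hopTop _,
      d.Ug_mono le_rfl (Nat.le_succ _), ?_, ?_⟩
    · rw [d.Ug_relIndex hopTop le_rfl (Nat.le_succ _), AddSubgroup.relIndex_self]
      simp
    · have h1 := hl l₀ le_rfl
      have h2 := hl (l₀ + 1) (Nat.le_succ _)
      rw [d.Ug_index hopTop, AddSubgroup.index_top, one_mul]
      rw [pow_succ] at h2
      zify
      linarith
  · have hF0 : 0 ≤ d.F ⊤ := by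
      have h1 := d.F_ge hg (k := k) hopTop (fun l => hlb _ (d.Ug_op hopTop l))
      have h2 : (0 : ℤ) ≤ (k : ℤ) * (⊤ : AddSubgroup (Fin h → ℤ_[2])).index := by positivity
      exact h2.trans h1
    obtain ⟨v, hv, t, ht⟩ := comb k d.F
      (fun T₀ T₁ T₂ T₃ hT l1 l2 l3 r1 r2 r3 n12 n13 n23 l =>
        d.F_bq hg hS T₀ T₁ T₂ T₃ hT l1 l2 l3 r1 r2 r3 n12 n13 n23 l)
      (fun T' T'' hT hle h2 => d.F_lb hg hedge T' T'' hT hle h2)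
      hF0
      (fun v hv t => d.F_db hg v hv t)
      (fun v hv => d.F_hv hg hS v hv)
      (fun ε hε n₀ => d.F_inf hg hS hk hh ε hε n₀)
    obtain ⟨c, l₀, hl⟩ := d.F_spec hg (opT_Cv v t)
    obtain ⟨c', l₀', hl'⟩ := d.F_spec hg (opT_Cv v (t + 1))
    obtain ⟨l, hl1, hl2⟩ : ∃ l, l₀ ≤ l ∧ l₀' ≤ l := ⟨max l₀ l₀', le_max_left _ _, le_max_right _ _⟩
    have hle : Cv v (t + 1) ≤ Cv v t := comb_Cv_le v t
    have o0 := d.Ug_op (opT_Cv v t) l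
    have o1 := d.Ug_op (opT_Cv v (t + 1)) l
    have o2 := d.Ug_op (opT_Cv v t) (l + 1)
    have l1 : d.Ug (Cv v (t + 1)) l ≤ d.Ug (Cv v t) l := d.Ug_mono hle le_rfl
    have l2 : d.Ug (Cv v t) (l + 1) ≤ d.Ug (Cv v t) l := d.Ug_mono le_rfl (Nat.le_succ _)
    have r1 : (d.Ug (Cv v (t + 1)) l).relIndex (d.Ug (Cv v t) l) = 2 := by
      rw [d.Ug_relIndex (opT_Cv v (t + 1)) hle le_rfl, comb_rel v hv t]
      simp
    have r2 : (d.Ug (Cv v t) (l + 1)).relIndex (d.Ug (Cv v t) l) = 2 := by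
      rw [d.Ug_relIndex (opT_Cv v t) le_rfl (Nat.le_succ _), AddSubgroup.relIndex_self]
      simp
    have hinf : d.Ug (Cv v (t + 1)) l ⊓ d.Ug (Cv v t) (l + 1) = d.Ug (Cv v (t + 1)) (l + 1) := by
      rw [d.Ug_inf (opT_Cv v (t + 1)) (opT_Cv v t), inf_eq_left.2 hle, max_eq_right (Nat.le_succ l)]
    have hne : d.Ug (Cv v (t + 1)) l ≠ d.Ug (Cv v t) (l + 1) := by
      intro h3
      rw [← h3, inf_idem] at hinf
      have h4 := congrArg Subgroup.index hinf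
      rw [d.Ug_index (opT_Cv v (t + 1)), d.Ug_index (opT_Cv v (t + 1)), index_Cv v hv] at h4
      have h5 : 0 < 2 ^ (t + 1) * 2 ^ l := by positivity
      rw [pow_succ 2 l, ← mul_assoc] at h4
      omega
    obtain ⟨U₃, l3, r3, n13, n23, li⟩ := main4_third l1 l2 r1 r2 hne
    have o3 : S.Op U₃ := S.up _ _ (S.inf _ _ o1 o2) li
    refine ⟨d.Ug (Cv v t) l, U₃, o0, o3, l3, r3, ?_⟩
    have hbq := hS.bq o0 o1 o2 o3 l1 l2 l3 r1 r2 r3 hne n13 n23 li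
    rw [hinf] at hbq
    have e0 := hl l hl1
    have e1 := hl' l hl2
    have e2 := hl (l + 1) (by omega)
    have e3 := hl' (l + 1) (by omega)
    rw [pow_succ] at e2 e3
    rw [d.Ug_index (opT_Cv v t), index_Cv v hv]
    have ht' : d.F (Cv v (t + 1)) = d.F (Cv v t) + k * 2 ^ t := by linarith
    rw [ht'] at e1 e3
    zify at hbq ⊢
    have e4 : (k : ℤ) * (2 ^ t * 2 ^ l) = k * 2 ^ t * 2 ^ l := by ring
    rw [e4]
    linarith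

end Pool.Agent.EP
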