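import Pool.Agent.EP.QCDef

/-!
# Exact pairs: existence of the quadratic closure (MP_2429c0)

Inside an algebraic closure let `Ω` be the union (directed supremum) of all finite Galois subextensions of `F` of degree a
power of two (the compositum of two of them is again one: its group embeds in the product).  Closed under square roots:
`x ∈ K`, `K / F` Galois of degree `2 ^ n`; the splitting field of `∏_σ (X ^ 2 - σ x)` over `K` is Galois over `F` of degree a
power of two.  A finite subextension of `Ω` is contained in one of the `K`.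
-/

universe u

namespace Pool.Agent.EP

namespace QCEx

open IntermediateField Module

variable {F : Type u} [Field F] {E : Type u} [Field E] [Algebra F E]

/-- finite Galois subextensions whose Galois group is a `2`-group -/
structure Good (K : IntermediateField F E) : Prop where
  fin : FiniteDimensional F K
  nor : Normal F K
  two : ∀ σ : E ≃ₐ[F] E, ∃ n : ℕ, ∀ x ∈ K, (σ ^ 2 ^ n) x = x

lemma pow_fix {σ : E ≃ₐ[F] E} {a b : ℕ} (hab : a ≤ b) {x : E} (h : (σ ^ 2 ^ a) x = x) :
    (σ ^ 2 ^ b) x = x := by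
  obtain ⟨c, rfl⟩ := Nat.exists_eq_add_of_le hab
  have e : σ ^ 2 ^ (a + c) = (σ ^ 2 ^ a) ^ 2 ^ c := by rw [← pow_mul, ← pow_add]
  rw [e]
  generalize 2 ^ c = k
  induction k with
  | zero => simp
  | succ k ih => rw [pow_succ, AlgEquiv.mul_apply, h, ih]

lemma fix_sup {τ : E ≃ₐ[F] E} {K L : IntermediateField F E} (hK : ∀ x ∈ K, τ x = x)
    (hL : ∀ x ∈ L, τ x = x) : ∀ x ∈ K ⊔ L, τ x = x := by
  have h1 : τ ∈ K.fixingSubgroup := (IntermediateField.mem_fixingSubgroup_iff K τ).2 hK
  have h2 : τ ∈ L.fixingSubgroup := (IntermediateField.mem_fixingSubgroup_iff L τ).2 hL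
  have h3 : τ ∈ (K ⊔ L).fixingSubgroup := by
    rw [IntermediateField.fixingSubgroup_sup]
    exact ⟨h1, h2⟩
  exact (IntermediateField.mem_fixingSubgroup_iff _ τ).1 h3

lemma Good.bot : Good (⊥ : IntermediateField F E) where
  fin := inferInstance
  nor := inferInstance
  two := by
    intro σ
    refine ⟨0, fun x hx => ?_⟩
    obtain ⟨y, rfl⟩ := IntermediateField.mem_bot.1 hx
    exact AlgEquiv.commutes _ y

lemma Good.sup {K L : IntermediateField F E} (hK : Good K) (hL : Good L) : Good (K ⊔ L) where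
  fin := by
    have := hK.fin
    have := hL.fin
    infer_instance
  nor := by
    have := hK.nor
    have := hL.nor
    infer_instance
  two := by
    intro σ
    obtain ⟨n, hn⟩ := hK.two σ
    obtain ⟨m, hm⟩ := hL.two σ
    exact ⟨max n m, fix_sup (fun x hx => pow_fix (le_max_left n m) (hn x hx))
      (fun x hx => pow_fix (le_max_right n m) (hm x hx))⟩

lemma Good.deg [IsGalois F E] {K : IntermediateField F E} (hK : Good K) :
    ∃ n : ℕ, finrank F K = 2 ^ n := by
  have h1 := hK.fin
  have h2 := hK.nor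
  have h3 : IsGalois F K := ⟨⟩
  have h4 : K.fixingSubgroup.Normal := inferInstance
  have h5 := IntermediateField.finrank_eq_fixingSubgroup_index E K
  have hpos : 0 < Module.finrank F K := Module.finrank_pos (R := F) (M := K)
  have hfin : Finite ((E ≃ₐ[F] E) ⧸ K.fixingSubgroup) := by
    apply Nat.finite_of_card_ne_zero
    rw [← Subgroup.index_eq_card, ← h5]
    exact hpos.ne'
  have hp : IsPGroup 2 ((E ≃ₐ[F] E) ⧸ K.fixingSubgroup) := by
    intro g
    obtain ⟨σ, rfl⟩ := QuotientGroup.mk_surjective g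
    obtain ⟨n, hn⟩ := hK.two σ
    refine ⟨n, ?_⟩
    rw [← QuotientGroup.mk_pow, QuotientGroup.eq_one_iff]
    exact (IntermediateField.mem_fixingSubgroup_iff K _).2 hn
  obtain ⟨n, hn⟩ := IsPGroup.iff_card.1 hp
  exact ⟨n, by rw [h5, Subgroup.index_eq_card, hn]⟩

lemma Good.sqrt [IsGalois F E] {K : IntermediateField F E} (hK : Good K) {x y : E} (hx : x ∈ K)
    (hy : y ^ 2 = x) : ∃ K' : IntermediateField F E, Good K' ∧ y ∈ K' := by
  set S : Set E := Set.range fun ρ : E ≃ₐ[F] E => ρ y with hS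
  have hint : IsIntegral F y := Algebra.IsIntegral.isIntegral y
  have hSfin : S.Finite := by
    have h1 : S ⊆ (minpoly F y).rootSet E := by
      rintro _ ⟨ρ, rfl⟩
      rw [Polynomial.mem_rootSet]
      refine ⟨minpoly.ne_zero hint, ?_⟩
      have h2 := Polynomial.aeval_algHom_apply ρ.toAlgHom y (minpoly F y)
      rw [minpoly.aeval, map_zero] at h2
      exact h2
    exact (Polynomial.rootSet_finite _ _).subset h1
  have hmapS : ∀ σ : E ≃ₐ[F] E, (σ : E → E) '' S ⊆ S := by
    rintro σ _ ⟨_, ⟨ρ, rfl⟩, rfl⟩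
    exact ⟨σ * ρ, rfl⟩
  have hnorK := hK.nor
  have hfinK := hK.fin
  set L : IntermediateField F E := adjoin F S with hL
  have hfinL : FiniteDimensional F L := by
    have : Finite S := hSfin
    exact IntermediateField.finiteDimensional_adjoin fun z _ => Algebra.IsIntegral.isIntegral z
  have hnorL : Normal F L := by
    rw [IntermediateField.normal_iff_forall_map_le']
    intro σ
    rw [hL, IntermediateField.adjoin_map]
    exact IntermediateField.adjoin.mono F _ _ (hmapS σ)
  refine ⟨K ⊔ L, ⟨inferInstance, inferInstance, ?_⟩, ?_⟩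
  · intro σ
    obtain ⟨n, hn⟩ := hK.two σ
    refine ⟨n + 1, fix_sup (fun z hz => pow_fix (Nat.le_succ n) (hn z hz)) ?_⟩
    have e : σ ^ 2 ^ (n + 1) = (σ ^ 2 ^ n) * (σ ^ 2 ^ n) := by
      rw [← pow_add]; congr 1; ring
    set τ := σ ^ 2 ^ n with hτ
    rw [e]
    -- the conjugates of `x` are in `K`
    have hxρ : ∀ ρ : E ≃ₐ[F] E, ρ x ∈ K := by
      intro ρ
      have h1 := (IntermediateField.normal_iff_forall_map_le'.1 hnorK) ρ
      exact h1 ⟨x, hx, rfl⟩
    have hgen : ∀ z ∈ S, (τ * τ) z = z := by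
      rintro _ ⟨ρ, rfl⟩
      have h1 : (τ (ρ y)) ^ 2 = (ρ y) ^ 2 := by
        rw [← map_pow, ← map_pow, hy]
        exact hn _ (hxρ ρ)
      rw [AlgEquiv.mul_apply]
      rcases sq_eq_sq_iff_eq_or_eq_neg.1 h1 with h2 | h2
      · rw [h2, h2]
      · rw [h2, map_neg, h2, neg_neg]
    intro z hz
    rw [hL] at hz
    induction hz using IntermediateField.adjoin_induction with
    | mem z hz => exact hgen z hz
    | algebraMap c => exact AlgEquiv.commutes _ c
    | add a b _ _ ha hb => rw [map_add, ha, hb]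
    | inv a _ ha => rw [map_inv₀, ha]
    | mul a b _ _ ha hb => rw [map_mul, ha, hb]
  · have h1 : y ∈ L := IntermediateField.subset_adjoin F S ⟨1, rfl⟩
    exact (le_sup_right : L ≤ K ⊔ L) h1

end QCEx

open QCEx IntermediateField Module in
theorem exists_QC (F : Type u) [Field F] (h2 : (2 : F) ≠ 0) :
    ∃ (Ω : Type u) (_ : Field Ω) (_ : Algebra F Ω), QC F Ω := by
  let E := SeparableClosure F
  have hgal : IsGalois F E := inferInstance
  let T := {K : IntermediateField F E // Good K}
  have hne : Nonempty T := ⟨⟨⊥, Good.bot⟩⟩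
  set Ω : IntermediateField F E := ⨆ K : T, K.1 with hΩ
  have hdir : Directed (· ≤ ·) (fun K : T => K.1) := by
    intro K L
    exact ⟨⟨K.1 ⊔ L.1, K.2.sup L.2⟩, le_sup_left, le_sup_right⟩
  have hmem : ∀ x : E, x ∈ Ω ↔ ∃ K : T, x ∈ K.1 := by
    intro x
    have h1 := IntermediateField.coe_iSup_of_directed hdir
    have h3 : x ∈ (Ω : Set E) ↔ x ∈ ⋃ i : T, (i.1 : Set E) := by rw [hΩ, h1]
    simpa using h3
  have hnor : Normal F Ω := by
    have : ∀ K : T, Normal F K.1 := fun K => K.2.nor
    exact IntermediateField.normal_iSup F E (fun K : T => K.1)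
  refine ⟨Ω, inferInstance, inferInstance, ⟨?_, ?_, ?_⟩⟩
  · exact ⟨⟩
  · intro x
    obtain ⟨K, hK⟩ := (hmem x.1).1 x.2
    have : NeZero (2 : E) := ⟨by
      intro h
      apply h2
      have h3 : algebraMap F E 2 = 0 := by rw [map_ofNat]; exact h
      exact (map_eq_zero _).1 h3⟩
    obtain ⟨y, hy⟩ := IsSepClosed.exists_eq_mul_self (x.1 : E)
    obtain ⟨K', hK', hyK'⟩ := K.2.sqrt hK (by rw [pow_two, ← hy] : y ^ 2 = x.1)
    refine ⟨⟨y, (hmem y).2 ⟨⟨K', hK'⟩, hyK'⟩⟩, ?_⟩
    apply Subtype.ext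
    show y ^ 2 = x.1
    rw [pow_two, ← hy]
  · intro K hK
    have hsep : Algebra.IsSeparable F K := inferInstance
    obtain ⟨α, hα⟩ := Field.exists_primitive_element F K
    set φ : K →ₐ[F] E := Ω.val.comp K.val with hφ
    have hrange : φ.fieldRange = F⟮φ α⟯ := by
      have h1 : φ.fieldRange = (⊤ : IntermediateField F K).map φ := by
        rw [← AlgHom.fieldRange_eq_map]
      rw [h1, ← hα, IntermediateField.adjoin_map, Set.image_singleton]
    obtain ⟨K', hK'⟩ := (hmem (φ α)).1 (K.val α).2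
    have hle : φ.fieldRange ≤ K'.1 := by
      rw [hrange, IntermediateField.adjoin_simple_le_iff]
      exact hK'
    obtain ⟨n, hn⟩ := K'.2.deg
    have hdvd := IntermediateField.finrank_dvd_of_le_right hle
    have hfr : finrank F φ.fieldRange = finrank F K := by
      exact (LinearEquiv.finrank_eq (AlgEquiv.ofInjectiveField φ).toLinearEquiv).symm
    rw [hfr, hn] at hdvd
    obtain ⟨m, -, hm⟩ := (Nat.dvd_prime_pow Nat.prime_two).1 hdvd
    exact ⟨m, hm⟩

end Pool.Agent.EP
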