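import Pool.Agent.EP.Base
import Pool.Agent.EP.Main4
import Pool.Agent.EP.Cyc
import Pool.Agent.EP.Lift
import Pool.Agent.EP.QCEx

/-!
# Exact pairs: the exact pair in field language (MP_2429c0)

`exists_base` gives `K₀` and `k`; over `K₀` apply `exists_data4`, `exists_tgen`, `FieldLike` (`bq`, `dd_mono`, `dd_sub`,
`one_le_dd`), `edge_ge` and `exists_exact_group`: open `U₃ ≤ U₀` of `Gal(Ω / K₀)`.  `K` = fixed field of `U₀`, `E` = fixed field of `U₃`,
`E = K(√u)`, `dd E + sv u + 1 = 2 dd K`, so `dd K - 1 - sv u = dd E - dd K = k [K : K₀]`.  For finite `M / K` in `Ω`: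
`dd M ≥ k [M : K₀] + 1 = k [K : K₀] [M : K] + 1`.
-/

universe u

namespace Pool.Agent.EP

open Pool.Agent.Hhelper2 Pool.Agent.KRad Module

/-- Existence of an exact pair. -/
theorem exists_exact {F Ω : Type u} [Field F] [Field Ω] [Algebra F Ω] [QC F Ω] (h2 : (2 : F) ≠ 0)
    [Finite (SqClass F)] (hi : ∃ i : F, i ^ 2 = -1) (h1 : ∃ a : SqClass F, a ≠ 1) :
    ∃ (K₀ : IntermediateField F Ω) (_ : FiniteDimensional F K₀) (_ : QC K₀ Ω)
      (K : IntermediateField K₀ Ω) (_ : FiniteDimensional K₀ K) (u : VV K), u ≠ 0 ∧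
      ∀ M : IntermediateField K₀ Ω, FiniteDimensional K₀ M → K ≤ M →
        (finrank K₀ M / finrank K₀ K) * GoReal.dd K + 1 ≤
          GoReal.dd M + (finrank K₀ M / finrank K₀ K) * (1 + sv K u) := by
  sorry

end Pool.Agent.EP
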