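import Pool.Agent.EP.QCDef

/-!
# Exact pairs: the quadratic closure and its Galois group (MP_2429c0)

`QC F Ω`: `Ω / F` is Galois, every element of `Ω` is a square, and all finite subextensions have degree a power of two.
`galS F Ω`: the system of open subgroups (Krull topology) of `Gal(Ω / F)`.

Proofs.
* `QC.up`: a finite subextension `M / K` of `Ω / K` is finite over `F`, degrees multiply.
* `galS.idx`: the index of an open subgroup is the degree of its fixed field
  (`InfiniteGalois.IntermediateFieldEquivClosedSubgroup`, `IntermediateField.finrank_eq_fixingSubgroup_index` or similar).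
* `core`: an open subgroup of a compact group has finite index, its core is a finite intersection of conjugates.
-/

universe u

namespace Pool.Agent.EP

variable (F Ω : Type u) [Field F] [Field Ω] [Algebra F Ω] [QC F Ω]

theorem QC.up (K : IntermediateField F Ω) [FiniteDimensional F K] : QC K Ω := by
  refine ⟨inferInstance, QC.sq F, fun M hM => ?_⟩
  have h1 : FiniteDimensional F M := FiniteDimensional.trans F K M
  have h2 : Module.finrank F K * Module.finrank K M = Module.finrank F M :=
    Module.finrank_mul_finrank F K M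
  have h3 : FiniteDimensional F (M.restrictScalars F) := h1
  obtain ⟨n, hn⟩ := QC.deg (F := F) (M.restrictScalars F) h3
  have h4 : Module.finrank F M = 2 ^ n := hn
  have h5 : Module.finrank K M ∣ 2 ^ n := by
    rw [← h4, ← h2]; exact Dvd.intro_left _ rfl
  obtain ⟨k, -, hk⟩ := (Nat.dvd_prime_pow Nat.prime_two).1 h5
  exact ⟨k, hk⟩

variable {F Ω} in
theorem isOpen_iff_exists (U : Subgroup (Ω ≃ₐ[F] Ω)) :
    IsOpen (U : Set (Ω ≃ₐ[F] Ω)) ↔
      ∃ K : IntermediateField F Ω, FiniteDimensional F K ∧ U = K.fixingSubgroup := by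
  constructor
  · intro h
    have hc : IsClosed (U : Set (Ω ≃ₐ[F] Ω)) := U.isClosed_of_isOpen h
    have h1 := InfiniteGalois.fixingSubgroup_fixedField (k := F) (K := Ω) ⟨U, hc⟩
    have h2 : (IntermediateField.fixedField U).fixingSubgroup = U := h1
    refine ⟨IntermediateField.fixedField U, ?_, h2.symm⟩
    rw [← InfiniteGalois.isOpen_iff_finite, h2]
    exact h
  · rintro ⟨K, hK, rfl⟩
    exact IntermediateField.fixingSubgroup_isOpen K

variable {F Ω} in
theorem index_fixingSubgroup (K : IntermediateField F Ω) [FiniteDimensional F K] :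
    K.fixingSubgroup.index = Module.finrank F K :=
  (IntermediateField.finrank_eq_fixingSubgroup_index Ω K).symm

variable {F Ω} in
theorem index_isOpen (U : Subgroup (Ω ≃ₐ[F] Ω)) (hU : IsOpen (U : Set (Ω ≃ₐ[F] Ω))) :
    ∃ n : ℕ, U.index = 2 ^ n := by
  obtain ⟨K, hK, rfl⟩ := (isOpen_iff_exists U).1 hU
  obtain ⟨n, hn⟩ := QC.deg K hK
  exact ⟨n, by rw [index_fixingSubgroup, hn]⟩

variable {F Ω} in
theorem isOpen_core (U : Subgroup (Ω ≃ₐ[F] Ω)) (hU : IsOpen (U : Set (Ω ≃ₐ[F] Ω))) :
    IsOpen (U.normalCore : Set (Ω ≃ₐ[F] Ω)) := by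
  obtain ⟨n, hn⟩ := index_isOpen U hU
  have : U.FiniteIndex := ⟨by rw [hn]; positivity⟩
  have hc : IsClosed (U.normalCore : Set (Ω ≃ₐ[F] Ω)) :=
    U.normalCore_isClosed (U.isClosed_of_isOpen hU)
  exact U.normalCore.isOpen_of_isClosed_of_finiteIndex hc

/-- The system of open subgroups of the Galois group of the quadratic closure. -/
def galS : OSys (Ω ≃ₐ[F] Ω) where
  Op U := IsOpen (U : Set (Ω ≃ₐ[F] Ω))
  top := isOpen_univ
  idx := fun U hU => index_isOpen U hU
  up := fun _ _ hU h => Subgroup.isOpen_mono h hU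
  inf := fun _ _ hU hV => hU.inter hV
  core := fun U hU => isOpen_core U hU

theorem compactSpace_gal : CompactSpace (Ω ≃ₐ[F] Ω) := by
  infer_instance

variable {F Ω} in
/-- The fixed field of an open subgroup is finite, and the subgroup is determined by it. -/
theorem finite_fixedField (U : Subgroup (Ω ≃ₐ[F] Ω)) (hU : (galS F Ω).Op U) :
    FiniteDimensional F (IntermediateField.fixedField U) ∧
      (IntermediateField.fixedField U).fixingSubgroup = U ∧
      Module.finrank F (IntermediateField.fixedField U) = U.index := by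
  have hU' : IsOpen (U : Set (Ω ≃ₐ[F] Ω)) := hU
  have hc : IsClosed (U : Set (Ω ≃ₐ[F] Ω)) := U.isClosed_of_isOpen hU'
  have h2 : (IntermediateField.fixedField U).fixingSubgroup = U :=
    InfiniteGalois.fixingSubgroup_fixedField (k := F) (K := Ω) ⟨U, hc⟩
  refine ⟨?_, h2, ?_⟩
  · rw [← InfiniteGalois.isOpen_iff_finite, h2]
    exact hU'
  · rw [IntermediateField.finrank_eq_fixingSubgroup_index, h2]

end Pool.Agent.EP
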