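import Pool.Agent.EP.RkBasic

/-!
# Exact pairs: the module `Z_Q` (MP_2429c0, section 1)

`Hm S U` = continuous homomorphisms `U → F_2` (trivial on an open subgroup), `dd S U` its dimension (for Galois groups:
`dim V_K` of the fixed field `K` of `U`).  `FQ S Q` = locally constant `f : G → F_2` such that `f (p q) - f p` does not
depend on `p`, for each `q ∈ Q`.  `ZZ S g Q` = image of `FQ S Q` under
`dlt g f = (p ↦ (j ↦ f ((g j)⁻¹ p) - f p))`, where `g j` are topological generators (`TGen S g`).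

Proofs.
* `ker_dlt`: `dlt g f = 0`, `f` locally constant: let `W` be open normal with `f (p w) = f p`; then `f (w p) = f (p (p⁻¹ w p))
  = f p`; so `f` is left invariant under `W` and under all `g j`, hence under `closure (range g) ⊔ W = ⊤`; constant.
* `ZZ_le`, `stable_ZZ`, `rho_mem_ZZ`: computations (`rho q (rho h f) = rho h (rho (h⁻¹ q h) f)`; left and right translations
  commute).
* `inv_ZZ`: `z = dlt g f`, `rho u z = z` means `dlt g (rho u f - f) = 0`, so `rho u f - f` is constant for all `u ∈ U`.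
* `ln_ZZ`: `FQ S U → Hm S U`, `f ↦ (u ↦ f (p u) - f p)`, is surjective (choose representatives `p_i` of `G / U` and put
  `f (p_i u) = χ u`) with kernel the functions on `G ⧸ U` (dimension `U.index`); `dlt g` on `FQ S U` has kernel the constants
  (dimension one); finite dimensions because `CC S U D` has dimension `D * U.index`.
-/

open scoped ENNReal

universe u

namespace Pool.Agent.EP

variable {G : Type u} [Group G] {D : ℕ}

/-- Continuous homomorphisms `U → F_2`. -/
def Hm (S : OSys G) (U : Subgroup G) : Submodule (ZMod 2) (U → ZMod 2) where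
  carrier := {χ | (∀ a b, χ (a * b) = χ a + χ b) ∧
    ∃ V : Subgroup G, S.Op V ∧ ∀ u : U, (u : G) ∈ V → χ u = 0}
  zero_mem' := ⟨fun _ _ => by simp, ⊤, S.top, fun _ _ => rfl⟩
  add_mem' := by
    rintro χ ψ ⟨h1, V, hV, h2⟩ ⟨h3, W, hW, h4⟩
    refine ⟨fun a b => ?_, V ⊓ W, S.inf V W hV hW, fun u hu => ?_⟩
    · simp only [Pi.add_apply, h1, h3]; ring
    · simp only [Pi.add_apply, h2 u hu.1, h4 u hu.2, add_zero]
  smul_mem' := by
    rintro c χ ⟨h1, V, hV, h2⟩
    refine ⟨fun a b => ?_, V, hV, fun u hu => ?_⟩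
    · simp only [Pi.smul_apply, h1, smul_add]
    · simp only [Pi.smul_apply, h2 u hu, smul_zero]

/-- The dimension of the space of continuous homomorphisms `U → F_2`. -/
noncomputable def dd (S : OSys G) (U : Subgroup G) : ℕ := Module.finrank (ZMod 2) (Hm S U)

/-- Topological generators. -/
def TGen (S : OSys G) (g : Fin D → G) : Prop :=
  ∀ U : Subgroup G, S.Op U → U.Normal → Subgroup.closure (Set.range g) ⊔ U = ⊤

/-- Locally constant functions whose right translates by elements of `Q` differ from them by constants. -/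
def FQ (S : OSys G) (Q : Subgroup G) : Submodule (ZMod 2) (G → ZMod 2) where
  carrier := {f | (∃ U : Subgroup G, S.Op U ∧ ∀ u ∈ U, ∀ p, f (p * u) = f p) ∧
    ∀ q ∈ Q, ∀ p p', f (p * q) - f p = f (p' * q) - f p'}
  zero_mem' := ⟨⟨⊤, S.top, fun _ _ _ => rfl⟩, fun _ _ _ _ => rfl⟩
  add_mem' := by
    rintro f g ⟨⟨U, hU, hf⟩, hf'⟩ ⟨⟨V, hV, hg⟩, hg'⟩
    refine ⟨⟨U ⊓ V, S.inf U V hU hV, fun u hu p => ?_⟩, fun q hq p p' => ?_⟩
    · simp only [Pi.add_apply, hf u hu.1, hg u hu.2]
    · have h1 := hf' q hq p p'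
      have h2 := hg' q hq p p'
      simp only [Pi.add_apply]
      rw [add_sub_add_comm, h1, h2, add_sub_add_comm]
  smul_mem' := by
    rintro c f ⟨⟨U, hU, hf⟩, hf'⟩
    refine ⟨⟨U, hU, fun u hu p => ?_⟩, fun q hq p p' => ?_⟩
    · simp only [Pi.smul_apply, hf u hu]
    · have h1 := hf' q hq p p'
      simp only [Pi.smul_apply, ← smul_sub, h1]

/-- The difference of a function and its left translates by the generators. -/
def dlt (g : Fin D → G) : (G → ZMod 2) →ₗ[ZMod 2] Fn G D where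
  toFun f := fun p j => f ((g j)⁻¹ * p) - f p
  map_add' f f' := by
    funext p j
    simp only [Pi.add_apply]; ring
  map_smul' c f := by
    funext p j
    simp only [Pi.smul_apply, smul_eq_mul, RingHom.id_apply]; ring

/-- The module `Z_Q`. -/
def ZZ (S : OSys G) (g : Fin D → G) (Q : Subgroup G) : Submodule (ZMod 2) (Fn G D) :=
  (FQ S Q).map (dlt g)

theorem ker_dlt (S : OSys G) {g : Fin D → G} (hg : TGen S g) {f : G → ZMod 2}
    (hf : ∃ U : Subgroup G, S.Op U ∧ ∀ u ∈ U, ∀ p, f (p * u) = f p) (h0 : dlt g f = 0) :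
    ∀ p p', f p = f p' := by
  obtain ⟨U, hU, hfU⟩ := hf
  let H : Subgroup G :=
    { carrier := {x | ∀ p, f (x * p) = f p}
      one_mem' := fun p => by rw [one_mul]
      mul_mem' := by
        intro a b ha hb p
        rw [mul_assoc, ha, hb]
      inv_mem' := by
        intro a ha p
        have := ha (a⁻¹ * p)
        rw [mul_inv_cancel_left] at this
        exact this.symm }
  have hH : Subgroup.closure (Set.range g) ⊔ U.normalCore ≤ H := by
    apply sup_le
    · rw [Subgroup.closure_le]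
      rintro _ ⟨j, rfl⟩
      intro p
      have h1 := congrFun (congrFun h0 (g j * p)) j
      have h2 : f ((g j)⁻¹ * (g j * p)) - f (g j * p) = 0 := h1
      rw [inv_mul_cancel_left, sub_eq_zero] at h2
      exact h2.symm
    · intro w hw p
      have h1 : p⁻¹ * w * p ∈ U.normalCore := by
        have := U.normalCore_normal.conj_mem w hw p⁻¹
        rwa [inv_inv] at this
      have h2 := hfU _ (U.normalCore_le h1) p
      have h3 : p * (p⁻¹ * w * p) = w * p := by group
      rw [h3] at h2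
      exact h2
  rw [hg _ (S.core U hU) U.normalCore_normal] at hH
  intro p p'
  have h1 : (p * p'⁻¹) ∈ H := hH trivial
  have h2 := h1 p'
  rw [inv_mul_cancel_right] at h2
  exact h2

theorem ZZ_le (S : OSys G) (g : Fin D → G) (Q : Subgroup G) : ZZ S g Q ≤ CC S Q D := by
  rintro _ ⟨f, ⟨⟨U, hU, hf⟩, hf'⟩, rfl⟩
  refine ⟨⟨U, hU, fun u hu => ?_⟩, fun q hq => ?_⟩
  · funext p j
    change f ((g j)⁻¹ * (p * u)) - f (p * u) = f ((g j)⁻¹ * p) - f p
    rw [← mul_assoc, hf u hu, hf u hu]
  · funext p j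
    change f ((g j)⁻¹ * (p * q)) - f (p * q) = f ((g j)⁻¹ * p) - f p
    have h := hf' q hq ((g j)⁻¹ * p) p
    rw [← mul_assoc]
    linear_combination h

theorem ZZ_mono (S : OSys G) (g : Fin D → G) {Q Q' : Subgroup G} (h : Q ≤ Q') :
    ZZ S g Q' ≤ ZZ S g Q :=
  Submodule.map_mono fun _ hf => ⟨hf.1, fun q hq => hf.2 q (h hq)⟩

/-- Elements that normalise `Q` act on `ZZ S g Q`. -/
theorem rho_mem_ZZ (S : OSys G) (g : Fin D → G) (Q : Subgroup G) (p : G)
    (hp : ∀ q ∈ Q, p⁻¹ * q * p ∈ Q) {f : Fn G D} (hf : f ∈ ZZ S g Q) : rho p f ∈ ZZ S g Q := by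
  obtain ⟨f, ⟨⟨U, hU, hf⟩, hf'⟩, rfl⟩ := hf
  refine ⟨fun x => f (x * p), ⟨⟨U.normalCore, S.core U hU, fun u hu x => ?_⟩,
    fun q hq x x' => ?_⟩, ?_⟩
  · have h1 : p⁻¹ * u * p ∈ U.normalCore := by
      have := U.normalCore_normal.conj_mem u hu p⁻¹
      rwa [inv_inv] at this
    have h2 := hf _ (U.normalCore_le h1) (x * p)
    have h3 : x * p * (p⁻¹ * u * p) = x * u * p := by group
    rw [h3] at h2
    exact h2
  · have h1 := hf' _ (hp q hq) (x * p) (x' * p)
    have h3 : x * p * (p⁻¹ * q * p) = x * q * p := by group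
    have h4 : x' * p * (p⁻¹ * q * p) = x' * q * p := by group
    rw [h3, h4] at h1
    exact h1
  · funext x j
    change f ((g j)⁻¹ * x * p) - f (x * p) = f ((g j)⁻¹ * (x * p)) - f (x * p)
    rw [mul_assoc]

theorem stable_ZZ (S : OSys G) (g : Fin D → G) (Q : Subgroup G) (hQ : Q.Normal) :
    Stable (ZZ S g Q) := by
  intro p f hf
  refine rho_mem_ZZ S g Q p (fun q hq => ?_) hf
  have := hQ.conj_mem q hq p⁻¹
  rwa [inv_inv] at this

theorem inv_ZZ (S : OSys G) {g : Fin D → G} (hg : TGen S g) {Q U : Subgroup G} (hU : S.Op U)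
    (h : Q ≤ U) : inv ⊥ (ZZ S g Q) U = ZZ S g U := by
  ext z
  constructor
  · rintro ⟨⟨f, hf, rfl⟩, hz⟩
    refine ⟨f, ⟨hf.1, fun u hu => ?_⟩, rfl⟩
    obtain ⟨⟨V, hV, hfV⟩, -⟩ := hf
    refine ker_dlt S hg (f := fun x => f (x * u) - f x) ⟨V.normalCore, S.core V hV,
      fun v hv x => ?_⟩ ?_
    · have h1 : u⁻¹ * v * u ∈ V.normalCore := by
        have := V.normalCore_normal.conj_mem v hv u⁻¹
        rwa [inv_inv] at this
      have h2 := hfV _ (V.normalCore_le h1) (x * u)
      have h3 : x * u * (u⁻¹ * v * u) = x * v * u := by group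
      rw [h3] at h2
      change f (x * v * u) - f (x * v) = f (x * u) - f x
      rw [h2, hfV v (V.normalCore_le hv) x]
    · have h1 := hz u hu
      rw [Submodule.mem_bot] at h1
      rw [← h1]
      funext x j
      change (f ((g j)⁻¹ * x * u) - f ((g j)⁻¹ * x)) - (f (x * u) - f x) =
        (f ((g j)⁻¹ * (x * u)) - f (x * u)) - (f ((g j)⁻¹ * x) - f x)
      rw [mul_assoc]
      ring
  · intro hz
    refine ⟨ZZ_mono S g h hz, fun u hu => ?_⟩
    rw [Submodule.mem_bot, sub_eq_zero]
    exact (ZZ_le S g U hz).2 u hu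

namespace ZAux

variable (S : OSys G) (g : Fin D → G) (U : Subgroup G)

theorem finite_Fix (hU : S.Op U) : Module.Finite (ZMod 2) (Fix U D) := by
  obtain ⟨m, hm⟩ := S.idx U hU
  have h0 : U.index ≠ 0 := by rw [hm]; positivity
  have : U.FiniteIndex := ⟨h0⟩
  have : Finite (G ⧸ U) := inferInstance
  have := Fintype.ofFinite (G ⧸ U)
  exact Module.Finite.equiv (fixEquiv U D)

/-- The value at one and the differences. -/
noncomputable def evd : FQ S U →ₗ[ZMod 2] ZMod 2 × ZZ S g U where
  toFun f := (f.1 1, ⟨dlt g f.1, f.1, f.2, rfl⟩)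
  map_add' f f' := by
    ext
    · rfl
    · simp only [Submodule.coe_add, map_add, Prod.mk_add_mk]
  map_smul' c f := by
    ext
    · rfl
    · simp only [Submodule.coe_smul, map_smul, RingHom.id_apply, Prod.smul_mk]

theorem const_mem (c : ZMod 2) : (fun _ => c : G → ZMod 2) ∈ FQ S U :=
  ⟨⟨⊤, S.top, fun _ _ _ => rfl⟩, fun _ _ _ _ => rfl⟩

theorem evd_bij (hg : TGen S g) : Function.Bijective (evd S g U) := by
  constructor
  · rw [injective_iff_map_eq_zero]
    intro f hf
    have h1 : f.1 1 = 0 := congrArg Prod.fst hf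
    have h2 : dlt g f.1 = 0 := congrArg (fun x : ZMod 2 × ZZ S g U => (x.2 : Fn G D)) hf
    have h3 := ker_dlt S hg f.2.1 h2
    apply Subtype.ext
    funext p
    rw [h3 p 1, h1]
    rfl
  · rintro ⟨c, z, f, hf, rfl⟩
    refine ⟨⟨f + fun _ => c - f 1, (FQ S U).add_mem hf (const_mem S U _)⟩, ?_⟩
    ext
    · change f 1 + (c - f 1) = c
      ring
    · rename_i p j
      change (f ((g j)⁻¹ * p) + (c - f 1)) - (f p + (c - f 1)) = f ((g j)⁻¹ * p) - f p
      ring

theorem finite_ZZ' (hU : S.Op U) : Module.Finite (ZMod 2) (ZZ S g U) := by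
  have := finite_Fix (D := D) S U hU
  exact finite_of_le (X' := Fix U D) fun f hf => (ZZ_le S g U hf).2

theorem finite_FQ (hg : TGen S g) (hU : S.Op U) : Module.Finite (ZMod 2) (FQ S U) := by
  have := finite_ZZ' S g U hU
  exact Module.Finite.equiv (LinearEquiv.ofBijective _ (evd_bij S g U hg)).symm

theorem finrank_FQ (hg : TGen S g) (hU : S.Op U) :
    Module.finrank (ZMod 2) (FQ S U) = 1 + Module.finrank (ZMod 2) (ZZ S g U) := by
  have : Fact (Nat.Prime 2) := ⟨Nat.prime_two⟩
  have := finite_ZZ' S g U hU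
  rw [(LinearEquiv.ofBijective _ (evd_bij S g U hg)).finrank_eq, Module.finrank_prod,
    Module.finrank_self]

/-- The homomorphism attached to a function. -/
noncomputable def tht : FQ S U →ₗ[ZMod 2] Hm S U where
  toFun f := ⟨fun u => f.1 u - f.1 1, by
    obtain ⟨f, ⟨V, hV, hf⟩, hf'⟩ := f
    refine ⟨fun a b => ?_, V, hV, fun u hu => ?_⟩
    · have h := hf' b b.2 a 1
      rw [one_mul] at h
      simp only [Subgroup.coe_mul]
      linear_combination h
    · have h := hf u hu 1
      rw [one_mul] at h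
      simp only
      rw [h, sub_self]⟩
  map_add' f f' := by
    apply Subtype.ext
    funext u
    change (f.1 u + f'.1 u) - (f.1 1 + f'.1 1) = (f.1 u - f.1 1) + (f'.1 u - f'.1 1)
    ring
  map_smul' c f := by
    apply Subtype.ext
    funext u
    change c * f.1 u - c * f.1 1 = c * (f.1 u - f.1 1)
    ring

/-- Functions on the cosets. -/
noncomputable def cosf (hU : S.Op U) : (G ⧸ U → ZMod 2) →ₗ[ZMod 2] FQ S U where
  toFun f := ⟨fun p => f (QuotientGroup.mk p), ⟨U, hU, fun u hu p => by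
      simp only
      rw [QuotientGroup.mk_mul_of_mem p hu]⟩, fun q hq p p' => by
      simp only
      rw [QuotientGroup.mk_mul_of_mem p hq, QuotientGroup.mk_mul_of_mem p' hq, sub_self, sub_self]⟩
  map_add' _ _ := rfl
  map_smul' _ _ := rfl

theorem cosf_inj (hU : S.Op U) : Function.Injective (cosf S U hU) := by
  intro f f' h
  funext x
  induction x using QuotientGroup.induction_on with
  | H p => exact congrFun (congrArg Subtype.val h) p

theorem ker_tht (hU : S.Op U) : LinearMap.ker (tht S U) = LinearMap.range (cosf S U hU) := by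
  ext f
  rw [LinearMap.mem_ker, LinearMap.mem_range]
  constructor
  · intro h
    have h1 : ∀ u ∈ U, f.1 u = f.1 1 := by
      intro u hu
      have h2 : f.1 u - f.1 1 = 0 := congrFun (congrArg Subtype.val h) (⟨u, hu⟩ : U)
      exact sub_eq_zero.1 h2
    refine ⟨fun x => Quotient.liftOn' x f.1 fun a b hab => ?_, Subtype.ext rfl⟩
    have h3 : a⁻¹ * b ∈ U := QuotientGroup.leftRel_apply.1 hab
    have h4 := f.2.2 _ h3 a 1
    rw [mul_inv_cancel_left, one_mul, h1 _ h3, sub_self, sub_eq_zero] at h4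
    exact h4.symm
  · rintro ⟨f, rfl⟩
    apply Subtype.ext
    funext u
    change f (QuotientGroup.mk (u : G)) - f (QuotientGroup.mk (1 : G)) = 0
    have : (QuotientGroup.mk (u : G) : G ⧸ U) = QuotientGroup.mk (1 : G) := by
      rw [QuotientGroup.eq]
      simp
    rw [this, sub_self]

theorem tht_surj (hU : S.Op U) : Function.Surjective (tht S U) := by
  rintro ⟨χ, hχ, V, hV, hχV⟩
  have hr : ∀ p : G, ((QuotientGroup.mk p : G ⧸ U).out)⁻¹ * p ∈ U := by
    intro p
    rw [← QuotientGroup.eq, QuotientGroup.out_eq']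
  have h1 : χ 1 = 0 := by
    have := hχ 1 1
    rw [mul_one] at this
    simpa using this
  have key : ∀ (p : G) (u : G) (hu : u ∈ U), χ ⟨_, hr (p * u)⟩ = χ ⟨_, hr p⟩ + χ ⟨u, hu⟩ := by
    intro p u hu
    rw [← hχ]
    congr 1
    apply Subtype.ext
    simp only [Subgroup.coe_mul]
    rw [QuotientGroup.mk_mul_of_mem p hu, mul_assoc]
  refine ⟨⟨fun p => χ ⟨_, hr p⟩, ⟨U ⊓ V, S.inf U V hU hV, fun u hu p => ?_⟩,
    fun q hq p p' => ?_⟩, ?_⟩
  · refine (key p u hu.1).trans ?_
    rw [hχV ⟨u, hu.1⟩ hu.2, add_zero]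
  · simp only
    rw [key p q hq, key p' q hq]
    ring
  · apply Subtype.ext
    funext u
    change χ ⟨_, hr u⟩ - χ ⟨_, hr 1⟩ = χ u
    have h2 := key 1 u u.2
    simp only [one_mul] at h2
    rw [h2]
    ring

theorem finrank_tht (hg : TGen S g) (hU : S.Op U) :
    dd S U + U.index = Module.finrank (ZMod 2) (FQ S U) := by
  have : Fact (Nat.Prime 2) := ⟨Nat.prime_two⟩
  have := finite_FQ S g U hg hU
  obtain ⟨m, hm⟩ := S.idx U hU
  have h0 : U.index ≠ 0 := by rw [hm]; positivity
  have : U.FiniteIndex := ⟨h0⟩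
  have : Finite (G ⧸ U) := inferInstance
  have := Fintype.ofFinite (G ⧸ U)
  rw [← LinearMap.finrank_range_add_finrank_ker (tht S U), ker_tht S U hU,
    LinearMap.finrank_range_of_inj (cosf_inj S U hU), LinearMap.range_eq_top.2 (tht_surj S U hU),
    finrank_top, Module.finrank_fintype_fun_eq_card, Subgroup.index, Nat.card_eq_fintype_card]
  rfl

end ZAux

/-- `dim Z_U + 1 = d(U) + [G : U]`. -/
theorem ln_ZZ (S : OSys G) {g : Fin D → G} (hg : TGen S g) {U : Subgroup G} (hU : S.Op U) :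
    ln ⊥ (ZZ S g U) + 1 = ((dd S U + U.index : ℕ) : ℕ∞) := by
  have := ZAux.finite_ZZ' S g U hU
  rw [ln_bot, ZAux.finrank_tht S g U hg hU, ZAux.finrank_FQ S g U hg hU, add_comm]
  push_cast
  rfl

theorem finite_ZZ (S : OSys G) (g : Fin D → G) {U : Subgroup G} (hU : S.Op U) :
    Module.Finite (ZMod 2) (ZZ S g U) :=
  ZAux.finite_ZZ' S g U hU

theorem finrank_ZZ (S : OSys G) {g : Fin D → G} (hg : TGen S g) {U : Subgroup G} (hU : S.Op U) :
    Module.finrank (ZMod 2) (ZZ S g U) + 1 = dd S U + U.index := by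
  rw [ZAux.finrank_tht S g U hg hU, ZAux.finrank_FQ S g U hg hU, add_comm]

theorem finite_Hm (S : OSys G) {g : Fin D → G} (hg : TGen S g) {U : Subgroup G} (hU : S.Op U) :
    Module.Finite (ZMod 2) (Hm S U) := by
  have := ZAux.finite_FQ S g U hg hU
  exact Module.Finite.of_surjective _ (ZAux.tht_surj S U hU)

end Pool.Agent.EP
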