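import Pool.Agent.EP.KumLayer
import Pool.Agent.EP.Z
import Pool.Agent.KRad.Basic

/-!
# Exact pairs: Galois groups (MP_2429c0, sections 1, 3)

* `gsys`: the open subgroups of a compact group in which open subgroups have index a power of two.
* `kumEquiv`: Kummer theory, `VV K ≃ Hm S U`, where `U` is an open subgroup of `Gal(Ω/F)` and `K` is its fixed field
  (given by a ring homomorphism `K →+* Ω` whose range consists of the elements fixed by `U`).
* `exists_reps`: finitely many representatives of the square classes of the fixed field.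
* `exists_tgen`: topological generators.
-/

namespace Pool.Agent.EP.Kum

open Pool.Agent.EP Pool.Agent.Hhelper2 Pool.Agent.KRad Additive

universe u v w

/-- The open subgroups of a compact group in which open subgroups have index a power of two. -/
def gsys (G : Type*) [Group G] [TopologicalSpace G] [IsTopologicalGroup G] [CompactSpace G]
    (h : ∀ U : Subgroup G, IsOpen (U : Set G) → ∃ n : ℕ, U.index = 2 ^ n) : OSys G where
  Op U := IsOpen (U : Set G)
  top := isOpen_univ
  idx := h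
  up U V hU hle := Subgroup.isOpen_mono hle hU
  inf U V hU hV := hU.inter hV
  core U hU := by
    have := U.quotient_finite_of_isOpen hU
    have : U.FiniteIndex := Subgroup.finiteIndex_of_finite_quotient
    exact Subgroup.isOpen_of_isClosed_of_finiteIndex _
      (U.normalCore_isClosed (U.isClosed_of_isOpen hU))

section Sign

variable {Ω : Type v} [Field Ω]

/-- Signs. -/
def sgn (Ω : Type v) [Field Ω] (c : ZMod 2) : Ω := if c = 0 then 1 else -1

theorem sgn_add (a b : ZMod 2) : sgn Ω (a + b) = sgn Ω a * sgn Ω b := by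
  have key : ∀ c : ZMod 2, c = 0 ∨ c = 1 := by decide
  have h11 : (1 : ZMod 2) + 1 = 0 := by decide
  rcases key a with rfl | rfl <;> rcases key b with rfl | rfl <;> simp [sgn, h11]

theorem sgn_sq (a : ZMod 2) : sgn Ω a ^ 2 = 1 := by
  unfold sgn
  split_ifs <;> ring

theorem sgn_inj (h2 : (2 : Ω) ≠ 0) {a b : ZMod 2} (h : sgn Ω a = sgn Ω b) : a = b := by
  have key : ∀ c : ZMod 2, c = 0 ∨ c = 1 := by decide
  have h1 : (1 : Ω) ≠ -1 := by
    intro h
    apply h2
    linear_combination h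
  rcases key a with rfl | rfl <;> rcases key b with rfl | rfl
  · rfl
  · exact absurd (by simpa [sgn] using h) h1
  · exact absurd (by simpa [sgn] using h.symm) h1
  · rfl

end Sign

section Kummer

variable {F : Type u} {Ω : Type v} [Field F] [Field Ω] [Algebra F Ω]

/-- `χ` is the character of the square root of `y`. -/
def Rel (U : Subgroup Gal(Ω/F)) (y : Ω) (χ : U → ZMod 2) : Prop :=
  ∃ x : Ω, x ≠ 0 ∧ x ^ 2 = y ∧ ∀ s : U, (s : Gal(Ω/F)) x = sgn Ω (χ s) * x

variable {U : Subgroup Gal(Ω/F)}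

theorem Rel.unique (h2 : (2 : Ω) ≠ 0) {y : Ω} {χ χ' : U → ZMod 2} (h : Rel U y χ)
    (h' : Rel U y χ') : χ = χ' := by
  obtain ⟨x, hx, rfl, hs⟩ := h
  obtain ⟨x', hx', hxx, hs'⟩ := h'
  funext s
  have h1 := hs s
  have h3 := hs' s
  rcases sq_eq hxx with rfl | rfl
  · exact sgn_inj h2 (mul_right_cancel₀ hx (h1.symm.trans h3))
  · rw [map_neg, mul_neg, neg_inj] at h3
    exact sgn_inj h2 (mul_right_cancel₀ hx (h1.symm.trans h3))

theorem Rel.mul {y y' : Ω} {χ χ' : U → ZMod 2} (h : Rel U y χ) (h' : Rel U y' χ') :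
    Rel U (y * y') (χ + χ') := by
  obtain ⟨x, hx, rfl, hs⟩ := h
  obtain ⟨x', hx', rfl, hs'⟩ := h'
  refine ⟨x * x', mul_ne_zero hx hx', by ring, fun s => ?_⟩
  rw [map_mul, hs, hs', Pi.add_apply, sgn_add]
  ring

theorem rel_zero {y : Ω} : Rel U y (0 : U → ZMod 2) ↔
    ∃ x : Ω, x ≠ 0 ∧ x ^ 2 = y ∧ ∀ s ∈ U, s x = x := by
  constructor
  · rintro ⟨x, hx, hy, hs⟩
    refine ⟨x, hx, hy, fun s hsU => ?_⟩
    have := hs ⟨s, hsU⟩
    simpa [sgn] using this
  · rintro ⟨x, hx, hy, hs⟩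
    refine ⟨x, hx, hy, fun s => ?_⟩
    rw [hs s s.2]
    simp [sgn]

variable [IsGalois F Ω] (S : OSys Gal(Ω/F))
  (hS : ∀ U : Subgroup Gal(Ω/F), S.Op U ↔ IsOpen (U : Set Gal(Ω/F)))
  (h2 : (2 : Ω) ≠ 0)

include hS h2 in
/-- The character of a square root. -/
theorem exists_rel (hsq : ∀ x : Ω, ∃ y, y ^ 2 = x) {y : Ω} (hy : y ≠ 0)
    (hyU : ∀ s ∈ U, s y = y) : ∃ χ : Hm S U, Rel U y χ := by
  classical
  obtain ⟨x, hx⟩ := hsq y
  have hx0 : x ≠ 0 := by
    rintro rfl
    exact hy (by rw [← hx]; ring)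
  have h1 : ∀ s : U, (s : Gal(Ω/F)) x = x ∨ (s : Gal(Ω/F)) x = -x := by
    intro s
    apply sq_eq
    rw [← map_pow, hx]
    exact hyU s s.2
  set χ : U → ZMod 2 := fun s => if (s : Gal(Ω/F)) x = x then 0 else 1 with hχ
  have h3 : ∀ s : U, (s : Gal(Ω/F)) x = sgn Ω (χ s) * x := by
    intro s
    rw [hχ]
    dsimp only
    split_ifs with h
    · simpa [sgn] using h
    · rw [(h1 s).resolve_left h]
      simp [sgn]
  refine ⟨⟨χ, fun a b => ?_, MulAction.stabilizer Gal(Ω/F) x, (hS _).2 (isOpen_fix x), ?_⟩,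
    x, hx0, hx, h3⟩
  · apply sgn_inj h2
    apply mul_right_cancel₀ hx0
    rw [← h3, Subgroup.coe_mul, AlgEquiv.mul_apply, h3 b, map_mul, h3 a, sgn_add]
    have h4 : (a : Gal(Ω/F)) (sgn Ω (χ b)) = sgn Ω (χ b) := by
      unfold sgn
      split_ifs
      · rw [map_one]
      · rw [map_neg, map_one]
    rw [h4]
    ring
  · intro s hs
    have h4 : (s : Gal(Ω/F)) x = x := hs
    rw [hχ]
    dsimp only
    rw [if_pos h4]

include hS in
/-- Every character comes from a square root. -/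
theorem exists_root_of_char (hU : S.Op U) (χ : Hm S U) :
    ∃ y : Ω, y ≠ 0 ∧ (∀ s ∈ U, s y = y) ∧ Rel U y χ := by
  classical
  obtain ⟨χ, hχ, V, hV, hχV⟩ := χ
  by_cases h0 : χ = 0
  · exact ⟨1, one_ne_zero, fun s _ => map_one s, 1, one_ne_zero, by ring, fun s => by
      rw [map_one]
      show 1 = sgn Ω (χ s) * 1
      rw [h0]
      simp [sgn]⟩
  -- the kernel of `χ`
  have hχ1 : χ 1 = 0 := by
    have := hχ 1 1
    rw [mul_one] at this
    exact left_eq_add.1 this
  have key : ∀ c : ZMod 2, c = 0 ∨ c = 1 := by decide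
  have h11 : (1 : ZMod 2) + 1 = 0 := by decide
  have hinv : ∀ a : U, χ a⁻¹ = χ a := by
    intro a
    have h := hχ a a⁻¹
    rw [mul_inv_cancel, hχ1] at h
    have h3 : χ a + χ a = 0 := by
      rcases key (χ a) with h4 | h4 <;> rw [h4]
      · rfl
      · exact h11
    rw [← h3] at h
    exact (add_left_cancel h).symm
  let W : Subgroup Gal(Ω/F) := {
    carrier := {s | ∃ h : s ∈ U, χ ⟨s, h⟩ = 0}
    one_mem' := ⟨U.one_mem, hχ1⟩
    mul_mem' := by
      rintro a b ⟨ha, ha'⟩ ⟨hb, hb'⟩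
      refine ⟨U.mul_mem ha hb, ?_⟩
      have := hχ ⟨a, ha⟩ ⟨b, hb⟩
      rw [ha', hb', add_zero] at this
      exact this
    inv_mem' := by
      rintro a ⟨ha, ha'⟩
      refine ⟨U.inv_mem ha, ?_⟩
      rw [← ha']
      exact hinv ⟨a, ha⟩ }
  have hW : ∀ s : U, (s : Gal(Ω/F)) ∈ W ↔ χ s = 0 := fun s => ⟨fun h => h.2, fun h => ⟨s.2, h⟩⟩
  have hWo : IsOpen (W : Set Gal(Ω/F)) := by
    have h1 : IsOpen ((U ⊓ V : Subgroup Gal(Ω/F)) : Set Gal(Ω/F)) := (hS _).1 (S.inf _ _ hU hV)
    exact Subgroup.isOpen_mono (H₁ := U ⊓ V) (fun s hs => ⟨hs.1, hχV ⟨s, hs.1⟩ hs.2⟩) h1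
  have hWc : IsClosed (W : Set Gal(Ω/F)) := W.isClosed_of_isOpen hWo
  obtain ⟨τ, hτ⟩ : ∃ τ : U, χ τ ≠ 0 := by
    by_contra h
    push Not at h
    exact h0 (funext h)
  have hτ1 : χ τ = 1 := (key _).resolve_left hτ
  obtain ⟨x, hxW, hxτ⟩ : ∃ x : Ω, (∀ s ∈ W, s x = x) ∧ (τ : Gal(Ω/F)) x ≠ x := by
    by_contra hcon
    push Not at hcon
    have h3 : (τ : Gal(Ω/F)) ∈
        (IntermediateField.fixedField (E := Ω) W).fixingSubgroup := by
      rw [IntermediateField.mem_fixingSubgroup_iff]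
      intro x hx
      exact hcon x fun s hs => (IntermediateField.mem_fixedField_iff W x).1 hx s hs
    have h4 := InfiniteGalois.fixingSubgroup_fixedField (k := F) (K := Ω)
      (⟨W, hWc⟩ : ClosedSubgroup Gal(Ω/F))
    have h5 : (τ : Gal(Ω/F)) ∈ W := by
      rw [h4] at h3
      exact h3
    exact hτ ((hW τ).1 h5)
  set d := x - (τ : Gal(Ω/F)) x with hd
  have hd0 : d ≠ 0 := sub_ne_zero.2 (Ne.symm hxτ)
  have hact : ∀ s : U, (s : Gal(Ω/F)) d = sgn Ω (χ s) * d := by
    intro s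
    rcases key (χ s) with h | h
    · have e1 : (s : Gal(Ω/F)) x = x := hxW _ ((hW s).2 h)
      have e2 : (τ : Gal(Ω/F))⁻¹ * s * τ ∈ W := by
        have := (hW (τ⁻¹ * s * τ)).2 (by
          rw [hχ, hχ, hinv, h, hτ1]
          exact h11)
        exact this
      have e3 : (s : Gal(Ω/F)) ((τ : Gal(Ω/F)) x) = (τ : Gal(Ω/F)) x := by
        have e4 := congrArg (τ : Gal(Ω/F)) (hxW _ e2)
        rw [← AlgEquiv.mul_apply] at e4 ⊢
        convert e4 using 2
        group
      rw [hd, map_sub, e1, e3, h]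
      simp [sgn]
    · have e1 : (s : Gal(Ω/F)) * τ ∈ W := by
        have := (hW (s * τ)).2 (by
          rw [hχ, h, hτ1]
          exact h11)
        exact this
      have e2 : (s : Gal(Ω/F)) ((τ : Gal(Ω/F)) x) = x := by
        rw [← AlgEquiv.mul_apply]
        exact hxW _ e1
      have e3 : (τ : Gal(Ω/F))⁻¹ * s ∈ W := by
        have := (hW (τ⁻¹ * s)).2 (by
          rw [hχ, hinv, h, hτ1]
          exact h11)
        exact this
      have e4 : (s : Gal(Ω/F)) x = (τ : Gal(Ω/F)) x := by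
        have e5 := congrArg (τ : Gal(Ω/F)) (hxW _ e3)
        rw [← AlgEquiv.mul_apply] at e5
        rw [← e5]
        congr 1
        group
      rw [hd, map_sub, e2, e4, h]
      simp [sgn]
  refine ⟨d ^ 2, pow_ne_zero _ hd0, fun s hs => ?_, d, hd0, rfl, hact⟩
  have h3 := hact ⟨s, hs⟩
  have h4 : (s : Gal(Ω/F)) d = sgn Ω (χ ⟨s, hs⟩) * d := h3
  rw [map_pow, h4, mul_pow, sgn_sq, one_mul]

variable (hsq : ∀ x : Ω, ∃ y, y ^ 2 = x) {K : Type w} [Field K] (j : K →+* Ω)
  (hj : ∀ x : Ω, (∀ s ∈ U, s x = x) ↔ ∃ k, j k = x)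

/-- The character of a nonzero element of the fixed field. -/
noncomputable def kumHom : Kˣ →* Multiplicative (Hm S U) where
  toFun k := Multiplicative.ofAdd (Classical.choose (exists_rel S hS h2 hsq (U := U)
    (show j k ≠ 0 from (map_ne_zero j).2 k.ne_zero) ((hj _).2 ⟨k, rfl⟩)))
  map_one' := by
    apply Multiplicative.toAdd.injective
    apply Subtype.ext
    refine Rel.unique h2 (Classical.choose_spec (exists_rel S hS h2 hsq (U := U)
      (show j ((1 : Kˣ) : K) ≠ 0 from (map_ne_zero j).2 (1 : Kˣ).ne_zero) ((hj _).2 ⟨_, rfl⟩))) ?_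
    refine rel_zero.2 ⟨1, one_ne_zero, ?_, fun s _ => map_one s⟩
    rw [Units.val_one, map_one, one_pow]
  map_mul' a b := by
    apply Multiplicative.toAdd.injective
    apply Subtype.ext
    refine Rel.unique h2 (Classical.choose_spec (exists_rel S hS h2 hsq (U := U)
      (show j ((a * b : Kˣ) : K) ≠ 0 from (map_ne_zero j).2 (a * b).ne_zero)
      ((hj _).2 ⟨_, rfl⟩))) ?_
    rw [Units.val_mul, map_mul]
    exact (Classical.choose_spec (exists_rel S hS h2 hsq (U := U)
      (show j a ≠ 0 from (map_ne_zero j).2 a.ne_zero) ((hj _).2 ⟨_, rfl⟩))).mul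
      (Classical.choose_spec (exists_rel S hS h2 hsq (U := U)
      (show j b ≠ 0 from (map_ne_zero j).2 b.ne_zero) ((hj _).2 ⟨_, rfl⟩)))

theorem kumHom_rel (k : Kˣ) :
    Rel U (j k) (Multiplicative.toAdd (kumHom S hS h2 hsq j hj k) : Hm S U).1 :=
  Classical.choose_spec (exists_rel S hS h2 hsq (U := U)
      (show j k ≠ 0 from (map_ne_zero j).2 k.ne_zero) ((hj _).2 ⟨_, rfl⟩))

theorem ker_kumHom : (kumHom S hS h2 hsq j hj).ker = Subgroup.square Kˣ := by
  ext k
  rw [MonoidHom.mem_ker, Subgroup.mem_square]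
  have hk := kumHom_rel S hS h2 hsq j hj k
  constructor
  · intro h
    rw [h] at hk
    obtain ⟨x, hx, hxk, hxU⟩ := rel_zero.1 hk
    obtain ⟨r, rfl⟩ := (hj x).1 hxU
    have hr : r ≠ 0 := (map_ne_zero j).1 hx
    refine ⟨Units.mk0 r hr, ?_⟩
    ext
    apply j.injective
    rw [← hxk, Units.val_mul, Units.val_mk0, map_mul, pow_two]
  · rintro ⟨r, rfl⟩
    apply Multiplicative.toAdd.injective
    apply Subtype.ext
    refine Rel.unique h2 hk (rel_zero.2 ⟨j r, (map_ne_zero j).2 r.ne_zero, ?_, (hj _).2 ⟨_, rfl⟩⟩)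
    rw [Units.val_mul, map_mul, pow_two]

theorem kumHom_surjective (hU : S.Op U) : Function.Surjective (kumHom S hS h2 hsq j hj) := by
  intro χ
  obtain ⟨y, hy, hyU, hrel⟩ := exists_root_of_char S hS hU (Multiplicative.toAdd χ : Hm S U)
  obtain ⟨k, rfl⟩ := (hj y).1 hyU
  have hk : k ≠ 0 := (map_ne_zero j).1 hy
  refine ⟨Units.mk0 k hk, ?_⟩
  apply Multiplicative.toAdd.injective
  apply Subtype.ext
  exact Rel.unique h2 (kumHom_rel S hS h2 hsq j hj (Units.mk0 k hk)) hrel

/-- **Kummer theory.** -/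
noncomputable def kumEquiv (hU : S.Op U) : VV K ≃ₗ[ZMod 2] Hm S U :=
  LinearEquiv.ofBijective
    (((QuotientGroup.lift (Subgroup.square Kˣ) (kumHom S hS h2 hsq j hj)
      (ker_kumHom S hS h2 hsq j hj).ge).toAdditiveLeft : VV K →+ Hm S U).toZModLinearMap 2) <| by
    have hker := ker_kumHom S hS h2 hsq j hj
    constructor
    · rw [AddMonoidHom.coe_toZModLinearMap, injective_iff_map_eq_zero]
      intro a ha
      induction a using Additive.rec with
      | _ a =>
      induction a using QuotientGroup.induction_on with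
      | H k =>
        have h1 : kumHom S hS h2 hsq j hj k = 1 := ha
        rw [← MonoidHom.mem_ker, hker] at h1
        exact (QuotientGroup.eq_one_iff k).2 h1
    · intro χ
      obtain ⟨k, hk⟩ := kumHom_surjective S hS h2 hsq j hj hU (Multiplicative.ofAdd χ)
      exact ⟨ofMul (sqClass k), hk⟩

include hS h2 hsq hj in
theorem dd_eq (hU : S.Op U) : Pool.Agent.EP.dd S U = Module.finrank (ZMod 2) (VV K) :=
  (kumEquiv S hS h2 hsq j hj hU).finrank_eq.symm

include hS h2 hsq hj in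
theorem finite_iff (hU : S.Op U) : Finite (SqClass K) ↔ Module.Finite (ZMod 2) (Hm S U) := by
  have e := kumEquiv S hS h2 hsq j hj hU
  constructor
  · intro h
    have : Finite (VV K) := inferInstance
    have : Finite (Hm S U) := Finite.of_equiv _ e.toEquiv
    exact Module.Finite.of_finite
  · intro h
    have : Finite (Hm S U) := Module.finite_of_finite (ZMod 2)
    exact Finite.of_equiv _ e.toEquiv.symm

include hS h2 hsq in
/-- Representatives of the square classes of the fixed field. -/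
theorem exists_reps (hU : S.Op U) (hfin : Module.Finite (ZMod 2) (Hm S U)) :
    ∃ X : Finset Ω, (∀ x ∈ X, ∀ s ∈ U, s x = x) ∧ ∀ y : Ω, (∀ s ∈ U, s y = y) → y ≠ 0 →
      ∃ x ∈ X, ∃ u : Ω, (∀ s ∈ U, s u = u) ∧ y = x * u ^ 2 := by
  classical
  have : Finite (Hm S U) := Module.finite_of_finite (ZMod 2)
  have := Fintype.ofFinite (Hm S U)
  choose f hf0 hfU hf using exists_root_of_char S hS hU
  refine ⟨Finset.univ.image f, ?_, fun y hy hy0 => ?_⟩
  · intro x hx
    obtain ⟨χ, -, rfl⟩ := Finset.mem_image.1 hx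
    exact hfU χ
  · obtain ⟨χ, a, ha0, hay, ha⟩ := exists_rel S hS h2 hsq hy0 hy
    obtain ⟨b, hb0, hby, hb⟩ := hf χ
    refine ⟨f χ, Finset.mem_image.2 ⟨χ, Finset.mem_univ _, rfl⟩, a / b, fun s hs => ?_, ?_⟩
    · have h3 : s a = sgn Ω (χ.1 ⟨s, hs⟩) * a := ha ⟨s, hs⟩
      have h4 : s b = sgn Ω (χ.1 ⟨s, hs⟩) * b := hb ⟨s, hs⟩
      have h5 : sgn Ω (χ.1 ⟨s, hs⟩) ≠ 0 := by
        intro h
        have := sgn_sq (Ω := Ω) (χ.1 ⟨s, hs⟩)
        rw [h] at this
        norm_num at this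
      rw [map_div₀, h3, h4, mul_div_mul_left _ _ h5]
    · rw [div_pow, ← hay, ← hby, mul_div_cancel₀ _ (pow_ne_zero _ hb0)]

end Kummer

section TGen

variable {G : Type u} [Group G] (S : OSys G)

/-- The quotient by an open normal subgroup is a finite 2-group. -/
theorem isPGroup_quotient {U : Subgroup G} (hU : S.Op U) [U.Normal] :
    Finite (G ⧸ U) ∧ IsPGroup 2 (G ⧸ U) := by
  obtain ⟨n, hn⟩ := S.idx U hU
  have hc : Nat.card (G ⧸ U) = 2 ^ n := hn
  have hf : Finite (G ⧸ U) := Nat.finite_of_card_ne_zero (by rw [hc]; positivity)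
  exact ⟨hf, IsPGroup.of_card hc⟩

/-- A proper open subgroup is contained in a subgroup of index two. -/
theorem exists_index_two {H : Subgroup G} (hH : S.Op H) (hne : H ≠ ⊤) :
    ∃ M : Subgroup G, H ≤ M ∧ M.index = 2 := by
  have : Fact (Nat.Prime 2) := ⟨Nat.prime_two⟩
  set U := H.normalCore with hU
  have hUo : S.Op U := S.core H hH
  have hUn : U.Normal := H.normalCore_normal
  obtain ⟨hfin, hp⟩ := isPGroup_quotient S hUo
  obtain ⟨N, hN⟩ := IsPGroup.iff_card.1 hp
  set H' := H.map (QuotientGroup.mk' U) with hH'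
  have hcomap : H'.comap (QuotientGroup.mk' U) = H := by
    rw [hH', Subgroup.comap_map_eq, QuotientGroup.ker_mk', sup_eq_left]
    exact H.normalCore_le
  obtain ⟨n, hn⟩ := IsPGroup.iff_card.1 (hp.to_subgroup H')
  have hidx : H'.index = H.index := by
    rw [← hcomap, Subgroup.index_comap_of_surjective _ (QuotientGroup.mk'_surjective U)]
  have hmul := H'.card_mul_index
  rw [hn, hN, hidx] at hmul
  have hnN : n < N := by
    rcases Nat.lt_or_ge n N with h | h
    · exact h
    · exfalso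
      have h1 : H.index ≤ 1 := by
        have h3 : 2 ^ N ≤ 2 ^ n := Nat.pow_le_pow_right (by norm_num) h
        rw [← hmul] at h3
        have h4 : 0 < 2 ^ n := by positivity
        by_contra h5
        push Not at h5
        nlinarith
      have h3 : H.index ≠ 0 := by
        obtain ⟨m, hm⟩ := S.idx H hH
        rw [hm]
        positivity
      exact hne (Subgroup.index_eq_one.1 (by omega))
  obtain ⟨K, hK, hHK⟩ := Sylow.exists_subgroup_card_pow_prime_le 2 (m := N - 1)
    (by rw [hN]; exact pow_dvd_pow 2 (by omega)) H' hn (by omega)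
  refine ⟨K.comap (QuotientGroup.mk' U), ?_, ?_⟩
  · rw [← hcomap]
    exact Subgroup.comap_mono hHK
  · rw [Subgroup.index_comap_of_surjective _ (QuotientGroup.mk'_surjective U)]
    have h3 := K.card_mul_index
    rw [hK, hN] at h3
    have h4 : 2 ^ N = 2 ^ (N - 1) * 2 := by
      rw [← pow_succ]
      congr 1
      omega
    rw [h4] at h3
    exact Nat.eq_of_mul_eq_mul_left (by positivity) h3

/-- Topological generators. -/
theorem exists_tgen (hfin : Module.Finite (ZMod 2) (Hm S (⊤ : Subgroup G))) :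
    ∃ (D : ℕ) (g : Fin D → G), TGen S g := by
  classical
  have : Finite (Hm S (⊤ : Subgroup G)) := Module.finite_of_finite (ZMod 2)
  set ev : G → Hm S (⊤ : Subgroup G) → ZMod 2 := fun x χ => χ.1 ⟨x, Subgroup.mem_top x⟩ with hev
  have hr : (Set.range ev).Finite := Set.toFinite _
  have hfin' : Finite (Set.range ev) := hr
  obtain ⟨D, ⟨e⟩⟩ := Finite.exists_equiv_fin (Set.range ev)
  choose f hf using fun y : Set.range ev => y.2
  refine ⟨D, fun k => f (e.symm k), fun U hU hUn => ?_⟩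
  by_contra hne
  have hHo : S.Op (Subgroup.closure (Set.range fun k => f (e.symm k)) ⊔ U) :=
    S.up _ _ hU le_sup_right
  obtain ⟨M, hM, hM2⟩ := exists_index_two S hHo hne
  have hMo : S.Op M := S.up _ _ hHo hM
  set χ : (⊤ : Subgroup G) → ZMod 2 := fun x => if (x : G) ∈ M then 0 else 1 with hχ
  have h11 : (1 : ZMod 2) + 1 = 0 := by decide
  have hχm : χ ∈ Hm S (⊤ : Subgroup G) := by
    refine ⟨fun a b => ?_, M, hMo, fun x hx => by rw [hχ]; exact if_pos hx⟩
    rw [hχ]
    dsimp only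
    rw [Subgroup.coe_mul]
    have h1 := Subgroup.mul_mem_iff_of_index_two hM2 (a := (a : G)) (b := (b : G))
    by_cases ha : (a : G) ∈ M <;> by_cases hb : (b : G) ∈ M <;> simp [h1, ha, hb, h11]
  obtain ⟨x, hx⟩ : ∃ x : G, x ∉ M := by
    by_contra hcon
    push Not at hcon
    have : M = ⊤ := by
      ext x
      simp [hcon x]
    rw [this, Subgroup.index_top] at hM2
    norm_num at hM2
  set y : Set.range ev := ⟨ev x, x, rfl⟩ with hy
  have h1 : ev (f y) ⟨χ, hχm⟩ = ev x ⟨χ, hχm⟩ := by rw [hf y]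
  have h3 : f y ∈ M := by
    apply hM
    apply Subgroup.mem_sup_left
    apply Subgroup.subset_closure
    exact ⟨e y, by simp⟩
  rw [hev] at h1
  simp only [hχ] at h1
  rw [if_pos h3, if_neg hx] at h1
  exact absurd h1 (by decide)

end TGen

end Pool.Agent.EP.Kum
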