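import Mathlib

/-!
# Exact pairs: triangular generators of a torsion-free group modulo two (MP_2429c0)

`M` is an abelian group with an action of `G` by additive maps, `2`-torsion free, `M / 2M` finite, and every
`g ^ 2 ^ N` acts trivially modulo `2M` for some `N`.  Then `M` is generated modulo `2 ^ n M` (all `n`) by elements
`y i`, `i < k`, `2 ^ k = [M : 2M]`, on which `G` acts unitriangularly modulo two.
-/

namespace Pool.Agent.EP.Lay

variable {G M : Type*} [Group G] [AddCommGroup M]

/-- A nontrivial class fixed by `G`. -/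
theorem exists_fixed_class (act : G → M →+ M) (h1 : ∀ x, act 1 x = x)
    (hmul : ∀ g h x, act (g * h) x = act g (act h x)) (W : AddSubgroup M)
    (hW : ∀ g, ∀ x ∈ W, act g x ∈ W) (hN : ∀ g, ∃ N : ℕ, ∀ x, act (g ^ 2 ^ N) x - x ∈ W)
    (hidx : W.index ≠ 0) (heven : 2 ∣ W.index) : ∃ z, z ∉ W ∧ ∀ g, act g z - z ∈ W := by
  have hfi : W.FiniteIndex := ⟨hidx⟩
  have hfin : Finite (M ⧸ W) := inferInstance
  let _ : MulAction G (M ⧸ W) :=
    { smul := fun g x => QuotientAddGroup.map W W (act g) (fun x hx => hW g x hx) x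
      one_smul := fun x => by
        induction x using QuotientAddGroup.induction_on with
        | H x => exact congrArg _ (h1 x)
      mul_smul := fun g h x => by
        induction x using QuotientAddGroup.induction_on with
        | H x => exact congrArg _ (hmul g h x) }
  have hsmul : ∀ (g : G) (x : M), g • (x : M ⧸ W) = ((act g x : M) : M ⧸ W) := fun _ _ => rfl
  set P : Subgroup (Equiv.Perm (M ⧸ W)) := (MulAction.toPermHom G (M ⧸ W)).range with hP
  have hpg : IsPGroup 2 P := by
    rintro ⟨_, g, rfl⟩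
    obtain ⟨N, hN⟩ := hN g
    refine ⟨N, Subtype.ext ?_⟩
    change (MulAction.toPermHom G (M ⧸ W) g) ^ 2 ^ N = 1
    rw [← map_pow]
    ext x
    induction x using QuotientAddGroup.induction_on with
    | H x =>
      rw [MulAction.toPermHom_apply, MulAction.toPerm_apply, hsmul, Equiv.Perm.coe_one, id_eq]
      rw [QuotientAddGroup.eq, ← neg_mem_iff]
      simpa [sub_eq_add_neg, add_comm] using hN x
  have hfact : Fact (Nat.Prime 2) := ⟨Nat.prime_two⟩
  have h0 : (0 : M ⧸ W) ∈ MulAction.fixedPoints P (M ⧸ W) := by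
    rintro ⟨_, g, rfl⟩
    change g • ((0 : M) : M ⧸ W) = ((0 : M) : M ⧸ W)
    rw [hsmul, map_zero]
  have hcard : 2 ∣ Nat.card (M ⧸ W) := heven
  obtain ⟨b, hb, hne⟩ := hpg.exists_fixed_point_of_prime_dvd_card_of_fixed_point (M ⧸ W) hcard h0
  induction b using QuotientAddGroup.induction_on with
  | H z =>
    refine ⟨z, fun hz => hne ?_, fun g => ?_⟩
    · rw [eq_comm, QuotientAddGroup.eq_zero_iff]
      exact hz
    · have h2 : g • (z : M ⧸ W) = (z : M ⧸ W) := hb ⟨_, g, rfl⟩
      rw [hsmul, QuotientAddGroup.eq, ← neg_mem_iff] at h2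
      simpa [sub_eq_add_neg, add_comm] using h2

/-- Triangular generators modulo `W`. -/
theorem exists_tri (act : G → M →+ M) (h1 : ∀ x, act 1 x = x)
    (hmul : ∀ g h x, act (g * h) x = act g (act h x)) :
    ∀ (k : ℕ) (W : AddSubgroup M), (∀ g, ∀ x ∈ W, act g x ∈ W) → (∀ x : M, (2 : ℕ) • x ∈ W) →
      (∀ g, ∃ N : ℕ, ∀ x, act (g ^ 2 ^ N) x - x ∈ W) → W.index = 2 ^ k →
      ∃ y : Fin k → M, (∀ x, ∃ c : Fin k → ℕ, x - ∑ i, c i • y i ∈ W) ∧
        (∀ g i, ∃ m : Fin k → ℕ, Odd (m i) ∧ (∀ j, i < j → Even (m j)) ∧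
          act g (y i) - ∑ j, m j • y j ∈ W) := by
  intro k
  induction k with
  | zero =>
    intro W _ _ _ hidx
    rw [pow_zero, AddSubgroup.index_eq_one] at hidx
    exact ⟨fun i => i.elim0, fun x => ⟨fun i => i.elim0, by rw [hidx]; trivial⟩,
      fun g i => i.elim0⟩
  | succ k ih =>
    intro W hW h2 hN hidx
    have hidx0 : W.index ≠ 0 := by rw [hidx]; positivity
    obtain ⟨z, hzW, hz⟩ := exists_fixed_class act h1 hmul W hW hN hidx0
      (by rw [hidx, pow_succ]; exact dvd_mul_left 2 _)
    set W' : AddSubgroup M := W ⊔ AddSubgroup.zmultiples z with hW'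
    have hmem : ∀ x, x ∈ W' ↔ ∃ w ∈ W, ∃ n : ℕ, n < 2 ∧ x = w + n • z := by
      intro x
      rw [hW', AddSubgroup.mem_sup]
      constructor
      · rintro ⟨w, hw, _, ⟨n, rfl⟩, rfl⟩
        refine ⟨w + (n / 2) • (2 • z), W.add_mem hw (W.zsmul_mem (h2 z) _), (n % 2).toNat, ?_, ?_⟩
        · omega
        · have e1 : ((n % 2).toNat : ℤ) = n % 2 := Int.toNat_of_nonneg (Int.emod_nonneg _ (by norm_num))
          have e2 : (n % 2).toNat • z = (n % 2) • z := by
            rw [← natCast_zsmul, e1]
          have e3 : (2 • z : M) = (2 : ℤ) • z := by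
            rw [ofNat_zsmul]
          rw [e2, e3, smul_smul, add_assoc, ← add_smul]
          congr 2
          change n = n / 2 * 2 + n % 2
          omega
      · rintro ⟨w, hw, n, -, rfl⟩
        exact ⟨w, hw, n • z, AddSubgroup.nsmul_mem _ (AddSubgroup.mem_zmultiples z) n, rfl⟩
    have hle : W ≤ W' := le_sup_left
    have hrel : W.relIndex W' = 2 := by
      rw [AddSubgroup.relIndex_eq_two_iff_exists_notMem_and]
      refine ⟨z, (hmem z).2 ⟨0, W.zero_mem, 1, by norm_num, by simp⟩, hzW, fun b hb => ?_⟩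
      obtain ⟨w, hw, n, hn, rfl⟩ := (hmem b).1 hb
      interval_cases n
      · right
        simpa using hw
      · left
        have e : w + 1 • z + z = w + 2 • z := by
          rw [one_smul, two_smul, add_assoc]
        rw [e]
        exact W.add_mem hw (h2 z)
    have hidx' : W'.index = 2 ^ k := by
      have := AddSubgroup.relIndex_mul_index hle
      rw [hrel, hidx, pow_succ] at this
      omega
    obtain ⟨y, hy1, hy2⟩ := ih W' (by
        intro g x hx
        obtain ⟨w, hw, n, -, rfl⟩ := (hmem x).1 hx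
        have e : act g (w + n • z) = (act g w + n • (act g z - z)) + n • z := by
          rw [map_add, map_nsmul, nsmul_sub]
          abel
        rw [e]
        exact W'.add_mem (hle (W.add_mem (hW g w hw) (W.nsmul_mem (hz g) n)))
          (W'.nsmul_mem ((hmem z).2 ⟨0, W.zero_mem, 1, by norm_num, by simp⟩) n))
      (fun x => hle (h2 x))
      (fun g => by
        obtain ⟨N, hN⟩ := hN g
        exact ⟨N, fun x => hle (hN x)⟩) hidx'
    refine ⟨Fin.cons z y, fun x => ?_, fun g i => ?_⟩
    · obtain ⟨c, hc⟩ := hy1 x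
      obtain ⟨w, hw, n, -, hn⟩ := (hmem _).1 hc
      refine ⟨Fin.cons n c, ?_⟩
      rw [Fin.sum_univ_succ]
      simp only [Fin.cons_zero, Fin.cons_succ]
      have e : x - (n • z + ∑ i, c i • y i) = w := by
        have : x - (n • z + ∑ i, c i • y i) = (x - ∑ i, c i • y i) - n • z := by abel
        rw [this, hn]
        abel
      rw [e]
      exact hw
    · refine Fin.cases ?_ (fun i => ?_) i
      · refine ⟨Fin.cons 1 fun _ => 0, by simp, fun j hj => ?_, ?_⟩
        · obtain ⟨j', rfl⟩ := Fin.exists_succ_eq.2 hj.ne'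
          simp
        · rw [Fin.sum_univ_succ]
          simp only [Fin.cons_zero, Fin.cons_succ, one_smul, zero_smul, Finset.sum_const_zero,
            add_zero]
          exact hz g
      · obtain ⟨m, hm1, hm2, hm3⟩ := hy2 g i
        obtain ⟨w, hw, n, -, hn⟩ := (hmem _).1 hm3
        refine ⟨Fin.cons n m, by simpa using hm1, fun j hj => ?_, ?_⟩
        · obtain ⟨j', rfl⟩ := Fin.exists_succ_eq.2 ((Fin.zero_le _).trans_lt hj).ne'
          simpa using hm2 j' (Fin.succ_lt_succ_iff.1 hj)
        · rw [Fin.sum_univ_succ]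
          simp only [Fin.cons_zero, Fin.cons_succ]
          have e : act g (y i) - (n • z + ∑ j, m j • y j) = w := by
            have : act g (y i) - (n • z + ∑ j, m j • y j) =
                (act g (y i) - ∑ j, m j • y j) - n • z := by abel
            rw [this, hn]
            abel
          rw [e]
          exact hw

/-- Refinement of a representation modulo `2M` to one modulo `2 ^ n M`. -/
theorem refine_level {k : ℕ} (y : Fin k → M)
    (hy : ∀ x : M, ∃ (c : Fin k → ℕ) (z : M), x = ∑ i, c i • y i + 2 • z) (n : ℕ) :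
    ∀ (x : M) (ε : Fin k → ℕ), (∃ z : M, x = ∑ i, ε i • y i + 2 • z) →
      ∃ (c : Fin k → ℕ) (z : M), (∀ i, c i % 2 = ε i % 2) ∧ x = ∑ i, c i • y i + 2 ^ n • z := by
  induction n with
  | zero =>
    rintro x ε ⟨z, hz⟩
    exact ⟨ε, 2 • z, fun _ => rfl, by simpa using hz⟩
  | succ n ih =>
    rintro x ε ⟨z, hz⟩
    obtain ⟨c', z', h'⟩ := hy z
    obtain ⟨c, w, -, hw⟩ := ih z c' ⟨z', h'⟩
    refine ⟨fun i => ε i + 2 * c i, w, fun i => Nat.add_mul_mod_self_left _ _ _, ?_⟩
    rw [hz, hw, nsmul_add, Finset.smul_sum, ← add_assoc, ← Finset.sum_add_distrib]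
    congr 1
    · exact Finset.sum_congr rfl fun i _ => by rw [add_smul, mul_smul]
    · rw [smul_smul, pow_succ, mul_comm]

/-- The subgroup of multiples of `2 ^ n`. -/
def Dn (M : Type*) [AddCommGroup M] (n : ℕ) : AddSubgroup M := (nsmulAddMonoidHom (2 ^ n)).range

theorem mem_Dn {n : ℕ} {x : M} : x ∈ Dn M n ↔ ∃ z, x = 2 ^ n • z := by
  constructor
  · rintro ⟨z, rfl⟩
    exact ⟨z, rfl⟩
  · rintro ⟨z, rfl⟩
    exact ⟨z, rfl⟩

theorem index_Dn (htf : ∀ x : M, 2 • x = 0 → x = 0) {k : ℕ} (hk : (Dn M 1).index = 2 ^ k)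
    (n : ℕ) : (Dn M n).index = 2 ^ (n * k) := by
  induction n with
  | zero =>
    have : Dn M 0 = ⊤ := by
      rw [eq_top_iff]
      intro x _
      exact mem_Dn.2 ⟨x, by simp⟩
    rw [this]
    simp
  | succ n ih =>
    have hinj : Function.Injective (nsmulAddMonoidHom (α := M) (2 ^ n)) := by
      rw [injective_iff_map_eq_zero]
      intro x hx
      have hx' : 2 ^ n • x = 0 := hx
      clear hx ih
      induction n with
      | zero => simpa using hx'
      | succ n ih => 
        rw [pow_succ, mul_comm, mul_smul] at hx'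
        exact ih (htf _ hx')
    have hle : Dn M (n + 1) ≤ Dn M n := by
      intro x hx
      obtain ⟨z, rfl⟩ := mem_Dn.1 hx
      exact mem_Dn.2 ⟨2 • z, by rw [smul_smul, pow_succ]⟩
    have hrel : (Dn M (n + 1)).relIndex (Dn M n) = 2 ^ k := by
      have e1 : Dn M (n + 1) = (Dn M 1).map (nsmulAddMonoidHom (2 ^ n)) := by
        ext x
        rw [AddSubgroup.mem_map]
        constructor
        · intro hx
          obtain ⟨z, rfl⟩ := mem_Dn.1 hx
          exact ⟨2 • z, mem_Dn.2 ⟨z, by simp⟩, by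
            change 2 ^ n • (2 • z) = _
            rw [smul_smul, pow_succ]⟩
        · rintro ⟨w, hw, rfl⟩
          obtain ⟨z, rfl⟩ := mem_Dn.1 hw
          exact mem_Dn.2 ⟨z, by
            change 2 ^ n • (2 ^ 1 • z) = _
            rw [smul_smul, pow_one, pow_succ]⟩
      have e2 : Dn M n = (⊤ : AddSubgroup M).map (nsmulAddMonoidHom (2 ^ n)) := by
        rw [← AddMonoidHom.range_eq_map]
        rfl
      rw [e1, e2, AddSubgroup.relIndex_map_map_of_injective _ _ hinj, AddSubgroup.relIndex_top_right, hk]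
    have := AddSubgroup.relIndex_mul_index hle
    rw [hrel, ih] at this
    rw [← this, ← pow_add]
    congr 1
    ring

end Pool.Agent.EP.Lay
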