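import Pool.Agent.EP.Defs
import Pool.Agent.EP.LayAlg

/-!
# Exact pairs: existence of layers in a profinite 2-group (MP_2429c0)

`A ≥ B` closed normal subgroups of a profinite 2-group `G`, `A / B` abelian and torsion free (`a ^ 2 ∈ B → a ∈ B`),
`A / A ^ 2 B` finite.  Then there is a `Layer S A B h`.

`M = A / B` (additive), `P n = {a ^ 2 ^ n * b | a ∈ A, b ∈ B}` (closed normal subgroup of `G`, compact image),
`[A : P n] = 2 ^ (n h)`; an open normal `W` with `W ∩ A ≤ P n` exists because `P n` is open in `A`; triangular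
generators by `exists_tri` (`G` acts on `M / 2M` through a finite 2-group), lifted to all levels by `refine_level`.
-/

namespace Pool.Agent.EP.Lay

variable {G : Type*} [Group G]

section Alg

variable {A B : Subgroup G} [hA : A.Normal] [hB : B.Normal]

/-- The quotient `A / B`. -/
abbrev QQ (A B : Subgroup G) : Type _ := A ⧸ B.subgroupOf A

omit hA in
theorem QQ_comm (hcomm : ∀ a ∈ A, ∀ b ∈ A, a * b * a⁻¹ * b⁻¹ ∈ B) (x y : QQ A B) :
    x * y = y * x := by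
  induction x using QuotientGroup.induction_on with
  | H x =>
    induction y using QuotientGroup.induction_on with
    | H y =>
      rw [← QuotientGroup.mk_mul, ← QuotientGroup.mk_mul, QuotientGroup.eq, Subgroup.mem_subgroupOf]
      have h1 := hcomm (y : G)⁻¹ (A.inv_mem y.2) (x : G)⁻¹ (A.inv_mem x.2)
      simpa [mul_assoc] using h1

/-- The commutative group structure of `A / B`. -/
@[reducible] noncomputable def commQ (hcomm : ∀ a ∈ A, ∀ b ∈ A, a * b * a⁻¹ * b⁻¹ ∈ B) :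
    CommGroup (QQ A B) :=
  { (inferInstance : Group (QQ A B)) with mul_comm := QQ_comm hcomm }

/-- Conjugation on `A / B`. -/
noncomputable def conjQ (A B : Subgroup G) [A.Normal] [B.Normal] (g : G) : QQ A B →* QQ A B :=
  QuotientGroup.map _ _ (MulAut.conjNormal g : MulAut A).toMonoidHom (by
    intro x hx
    have h1 := (inferInstance : B.Normal).conj_mem x.1 hx g
    exact h1)

theorem conjQ_mk (g : G) (a : A) (ha : g * a * g⁻¹ ∈ A) :
    conjQ A B g (a : QQ A B) = ((⟨g * a * g⁻¹, ha⟩ : A) : QQ A B) := rfl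

theorem conjQ_one (x : QQ A B) : conjQ A B 1 x = x := by
  induction x using QuotientGroup.induction_on with
  | H x =>
    rw [conjQ_mk 1 x (by simp)]
    congr 1
    ext
    simp

theorem conjQ_mul (g h : G) (x : QQ A B) : conjQ A B (g * h) x = conjQ A B g (conjQ A B h x) := by
  induction x using QuotientGroup.induction_on with
  | H x =>
    rw [conjQ_mk h x (hA.conj_mem x x.2 h), conjQ_mk g _ (hA.conj_mem _ (hA.conj_mem x x.2 h) g),
      conjQ_mk (g * h) x (hA.conj_mem x x.2 _)]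
    congr 1
    ext
    simp [mul_assoc]

end Alg

/-- The subgroup `{a ^ 2 ^ n * b}`. -/
theorem exists_P {A B : Subgroup G} (hA : A.Normal) (hB : B.Normal) (hle : B ≤ A)
    (hcomm : ∀ a ∈ A, ∀ b ∈ A, a * b * a⁻¹ * b⁻¹ ∈ B) (n : ℕ) :
    ∃ P : Subgroup G, P.Normal ∧ B ≤ P ∧ P ≤ A ∧
      (∀ x, x ∈ P ↔ ∃ a ∈ A, ∃ b ∈ B, x = a ^ 2 ^ n * b) := by
  let _ : CommGroup (QQ A B) := commQ hcomm
  have hmem : ∀ x, x ∈ (((powMonoidHom (2 ^ n) : QQ A B →* QQ A B).range.comap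
      (QuotientGroup.mk' (B.subgroupOf A))).map A.subtype) ↔
      ∃ a ∈ A, ∃ b ∈ B, x = a ^ 2 ^ n * b := by
    intro x
    constructor
    · rintro ⟨c, ⟨z, hz⟩, rfl⟩
      induction z using QuotientGroup.induction_on with
      | H z =>
        have h1 : (QuotientGroup.mk (z ^ 2 ^ n) : QQ A B) = QuotientGroup.mk c := hz
        rw [QuotientGroup.eq, Subgroup.mem_subgroupOf] at h1
        refine ⟨z, z.2, ((z ^ 2 ^ n)⁻¹ * c : A), h1, ?_⟩
        simp
    · rintro ⟨a, ha, b, hb, rfl⟩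
      refine ⟨⟨a ^ 2 ^ n * b, A.mul_mem (A.pow_mem ha _) (hle hb)⟩, ⟨QuotientGroup.mk ⟨a, ha⟩, ?_⟩,
        rfl⟩
      change (QuotientGroup.mk ((⟨a, ha⟩ : A) ^ 2 ^ n) : QQ A B) = QuotientGroup.mk _
      rw [QuotientGroup.eq, Subgroup.mem_subgroupOf]
      simpa using hb
  refine ⟨_, ⟨fun x hx g => ?_⟩, fun b hb => (hmem b).2 ⟨1, A.one_mem, b, hb, by simp⟩, ?_, hmem⟩
  · rw [hmem] at hx ⊢
    obtain ⟨a, ha, b, hb, rfl⟩ := hx
    refine ⟨g * a * g⁻¹, hA.conj_mem a ha g, g * b * g⁻¹, hB.conj_mem b hb g, ?_⟩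
    rw [conj_pow]
    group
  · intro x hx
    obtain ⟨a, ha, b, hb, rfl⟩ := (hmem x).1 hx
    exact A.mul_mem (A.pow_mem ha _) (hle hb)

theorem mk_mem_Dn {A B : Subgroup G} [A.Normal] [hB : B.Normal]
    (hcomm : ∀ a ∈ A, ∀ b ∈ A, a * b * a⁻¹ * b⁻¹ ∈ B) (n : ℕ) (x : A) :
    let _ : CommGroup (QQ A B) := commQ hcomm
    (∃ z : Additive (QQ A B), Additive.ofMul (QuotientGroup.mk x : QQ A B) = 2 ^ n • z) ↔
      ∃ a ∈ A, ∃ b ∈ B, (x : G) = a ^ 2 ^ n * b := by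
  intro _
  constructor
  · rintro ⟨z, hz⟩
    obtain ⟨z', rfl⟩ := Additive.ofMul.surjective z
    induction z' using QuotientGroup.induction_on with
    | H z' =>
      have h1 : (QuotientGroup.mk x : QQ A B) = QuotientGroup.mk (z' ^ 2 ^ n) := hz
      rw [eq_comm, QuotientGroup.eq, Subgroup.mem_subgroupOf] at h1
      refine ⟨z', z'.2, ((z' ^ 2 ^ n)⁻¹ * x : A), h1, ?_⟩
      simp
  · rintro ⟨a, ha, b, hb, h⟩
    refine ⟨Additive.ofMul (QuotientGroup.mk ⟨a, ha⟩), ?_⟩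
    change Additive.ofMul (QuotientGroup.mk x : QQ A B) =
      Additive.ofMul (QuotientGroup.mk ((⟨a, ha⟩ : A) ^ 2 ^ n) : QQ A B)
    congr 1
    rw [eq_comm, QuotientGroup.eq, Subgroup.mem_subgroupOf]
    simpa [h] using hb

/-- The algebraic part: generators of `A` modulo all `P n`. -/
theorem exists_gens {A B : Subgroup G} [hA : A.Normal] [hB : B.Normal]
    (hcomm : ∀ a ∈ A, ∀ b ∈ A, a * b * a⁻¹ * b⁻¹ ∈ B) (htf : ∀ a ∈ A, a ^ 2 ∈ B → a ∈ B)
    (P : ℕ → Subgroup G) (hP : ∀ n x, x ∈ P n ↔ ∃ a ∈ A, ∃ b ∈ B, x = a ^ 2 ^ n * b)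
    {h : ℕ} (hidx : (P 1).relIndex A = 2 ^ h)
    (hact : ∀ g : G, ∃ N : ℕ, ∀ a ∈ A, g ^ 2 ^ N * a * (g ^ 2 ^ N)⁻¹ * a⁻¹ ∈ P 1) :
    (∀ n, (P n).relIndex A = 2 ^ (n * h)) ∧ ∃ y : Fin h → G, (∀ i, y i ∈ A) ∧
      (∀ n, ∀ a ∈ A, ∃ c : Fin h → ℕ, ∃ p ∈ P n, a = (List.ofFn fun i => y i ^ c i).prod * p) ∧
      (∀ n g i, ∃ m : Fin h → ℕ, Odd (m i) ∧ (∀ k, i < k → Even (m k)) ∧
        ∃ p ∈ P n, g⁻¹ * y i * g = (List.ofFn fun k => y k ^ m k).prod * p) := by
  let _ : CommGroup (QQ A B) := commQ hcomm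
  let M := Additive (QQ A B)
  have hmk : ∀ n (x : A), (Additive.ofMul (QuotientGroup.mk x : QQ A B) : M) ∈ Dn M n ↔
      (x : G) ∈ P n := by
    intro n x
    rw [mem_Dn, hP]
    exact mk_mem_Dn hcomm n x
  -- the index of `Dn`
  have hcomap : ∀ n, (P n).subgroupOf A = (AddSubgroup.toSubgroup' (Dn M n)).comap
      (QuotientGroup.mk' (B.subgroupOf A)) := by
    intro n
    ext x
    rw [Subgroup.mem_subgroupOf, ← hmk n x]
    rfl
  have hindex : ∀ n, (P n).relIndex A = (Dn M n).index := by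
    intro n
    rw [Subgroup.relIndex, hcomap n,
      Subgroup.index_comap_of_surjective _ (QuotientGroup.mk'_surjective _)]
    rfl
  have htf' : ∀ x : M, 2 • x = 0 → x = 0 := by
    intro x hx
    obtain ⟨x', rfl⟩ := Additive.ofMul.surjective x
    induction x' using QuotientGroup.induction_on with
    | H x' =>
      have h1 : (QuotientGroup.mk (x' ^ 2) : QQ A B) = 1 := hx
      rw [QuotientGroup.eq_one_iff, Subgroup.mem_subgroupOf] at h1
      have h2 : (QuotientGroup.mk x' : QQ A B) = 1 := by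
        rw [QuotientGroup.eq_one_iff, Subgroup.mem_subgroupOf]
        exact htf x' x'.2 h1
      exact congrArg Additive.ofMul h2
  let act : G → M →+ M := fun g => MonoidHom.toAdditive (conjQ A B g)
  have hact_mk : ∀ g (a : A), act g (Additive.ofMul (QuotientGroup.mk a : QQ A B)) =
      Additive.ofMul (QuotientGroup.mk (⟨g * a * g⁻¹, hA.conj_mem a a.2 g⟩ : A) : QQ A B) :=
    fun g a => rfl
  have h1 : ∀ x, act 1 x = x := fun x => congrArg Additive.ofMul (conjQ_one (A := A) (B := B) x.toMul)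
  have hmul : ∀ g h x, act (g * h) x = act g (act h x) := fun g h x =>
    congrArg Additive.ofMul (conjQ_mul (A := A) (B := B) g h x.toMul)
  have hPn : ∀ n, (P n).Normal := by
    intro n
    refine ⟨fun x hx g => ?_⟩
    rw [hP] at hx ⊢
    obtain ⟨a, ha, b, hb, rfl⟩ := hx
    refine ⟨g * a * g⁻¹, hA.conj_mem a ha g, g * b * g⁻¹, hB.conj_mem b hb g, ?_⟩
    rw [conj_pow]
    group
  have hW : ∀ g, ∀ x ∈ Dn M 1, act g x ∈ Dn M 1 := by
    intro g x hx
    obtain ⟨z, rfl⟩ := mem_Dn.1 hx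
    exact mem_Dn.2 ⟨act g z, map_nsmul _ _ _⟩
  have hN : ∀ g, ∃ N : ℕ, ∀ x, act (g ^ 2 ^ N) x - x ∈ Dn M 1 := by
    intro g
    obtain ⟨N, hN⟩ := hact g
    refine ⟨N, fun x => ?_⟩
    obtain ⟨x', rfl⟩ := Additive.ofMul.surjective x
    induction x' using QuotientGroup.induction_on with
    | H x' =>
      have h2 := (hmk 1 ⟨g ^ 2 ^ N * x' * (g ^ 2 ^ N)⁻¹ * (x' : G)⁻¹,
        A.mul_mem (hA.conj_mem _ x'.2 _) (A.inv_mem x'.2)⟩).2 (hN x' x'.2)
      rw [sub_eq_add_neg, hact_mk]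
      exact h2
  have h2 : ∀ x : M, (2 : ℕ) • x ∈ Dn M 1 := fun x => mem_Dn.2 ⟨x, by simp⟩
  obtain ⟨y, hy1, hy2⟩ := exists_tri act h1 hmul h (Dn M 1) hW h2 hN (by rw [← hindex, hidx])
  -- lift the generators
  have hlift : ∀ i, ∃ a : A, y i = Additive.ofMul (QuotientGroup.mk a : QQ A B) := by
    intro i
    obtain ⟨a, ha⟩ := QuotientGroup.mk_surjective (Additive.toMul (y i))
    exact ⟨a, by rw [ha]; rfl⟩
  choose a ha using hlift
  have hprod : ∀ c : Fin h → ℕ, ∃ q : A, (q : G) = (List.ofFn fun i => (a i : G) ^ c i).prod ∧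
      Additive.ofMul (QuotientGroup.mk q : QQ A B) = ∑ i, c i • y i := by
    intro c
    refine ⟨(List.ofFn fun i => a i ^ c i).prod, ?_, ?_⟩
    · have := map_list_prod A.subtype (List.ofFn fun i => a i ^ c i)
      rw [Subgroup.coe_subtype] at this
      rw [this, List.map_ofFn]
      rfl
    · have := map_list_prod (QuotientGroup.mk' (B.subgroupOf A)) (List.ofFn fun i => a i ^ c i)
      rw [QuotientGroup.coe_mk'] at this
      rw [this, List.map_ofFn, List.prod_ofFn, ofMul_prod]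
      refine Finset.sum_congr rfl fun i _ => ?_
      rw [ha i]
      rfl
  have hy1' : ∀ x : M, ∃ (c : Fin h → ℕ) (z : M), x = ∑ i, c i • y i + 2 • z := by
    intro x
    obtain ⟨c, hc⟩ := hy1 x
    obtain ⟨z, hz⟩ := mem_Dn.1 hc
    exact ⟨c, z, by rw [pow_one] at hz; rw [← hz]; abel⟩
  have hfin : ∀ n (x : A) (c : Fin h → ℕ) (z : M),
      Additive.ofMul (QuotientGroup.mk x : QQ A B) = ∑ i, c i • y i + 2 ^ n • z →
      ∃ p ∈ P n, (x : G) = (List.ofFn fun i => (a i : G) ^ c i).prod * p := by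
    intro n x c z hx
    obtain ⟨q, hq1, hq2⟩ := hprod c
    refine ⟨(q : G)⁻¹ * x, ?_, by rw [← hq1]; group⟩
    refine (hmk n (q⁻¹ * x)).1 ?_
    rw [mem_Dn]
    refine ⟨z, ?_⟩
    have e : (Additive.ofMul (QuotientGroup.mk (q⁻¹ * x) : QQ A B) : M) =
        - Additive.ofMul (QuotientGroup.mk q : QQ A B) + Additive.ofMul (QuotientGroup.mk x : QQ A B) :=
      rfl
    rw [e, hx, hq2]
    abel
  refine ⟨fun n => ?_, fun i => a i, fun i => (a i).2, fun n x hx => ?_, fun n g i => ?_⟩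
  · rw [hindex]
    exact index_Dn htf' (by rw [← hindex, hidx]) n
  · obtain ⟨c0, z0, h0⟩ := hy1' (Additive.ofMul (QuotientGroup.mk (⟨x, hx⟩ : A) : QQ A B))
    obtain ⟨c, z, -, hc⟩ := refine_level y hy1' n _ c0 ⟨z0, h0⟩
    obtain ⟨p, hp, hxp⟩ := hfin n ⟨x, hx⟩ c z hc
    exact ⟨c, p, hp, hxp⟩
  · obtain ⟨m0, hm1, hm2, hm3⟩ := hy2 g⁻¹ i
    obtain ⟨z0, hz0⟩ := mem_Dn.1 hm3
    rw [pow_one] at hz0
    obtain ⟨m, z, hm4, hm5⟩ := refine_level y hy1' n (act g⁻¹ (y i)) m0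
      ⟨z0, by rw [← hz0]; abel⟩
    have e : act g⁻¹ (y i) = Additive.ofMul (QuotientGroup.mk
        (⟨g⁻¹ * a i * g, by simpa using hA.conj_mem (a i) (a i).2 g⁻¹⟩ : A) : QQ A B) := by
      rw [ha i, hact_mk]
      congr 2
      ext
      simp
    rw [e] at hm5
    obtain ⟨p, hp, hxp⟩ := hfin n _ m z hm5
    refine ⟨m, ?_, fun k hk => ?_, p, hp, hxp⟩
    · rw [Nat.odd_iff] at hm1 ⊢
      rw [hm4 i, hm1]
    · have := hm2 k hk
      rw [Nat.even_iff] at this ⊢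
      rw [hm4 k, this]

section Top

variable [TopologicalSpace G] [IsTopologicalGroup G] [CompactSpace G] [TotallyDisconnectedSpace G]

theorem isClosed_P {A B : Subgroup G} (hAc : IsClosed (A : Set G)) (hBc : IsClosed (B : Set G))
    {n : ℕ} {P : Subgroup G} (hP : ∀ x, x ∈ P ↔ ∃ a ∈ A, ∃ b ∈ B, x = a ^ 2 ^ n * b) :
    IsClosed (P : Set G) := by
  have h1 : (P : Set G) = (fun q : G × G => q.1 ^ 2 ^ n * q.2) '' ((A : Set G) ×ˢ (B : Set G)) := by
    ext x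
    rw [SetLike.mem_coe, hP]
    constructor
    · rintro ⟨a, ha, b, hb, rfl⟩
      exact ⟨(a, b), ⟨ha, hb⟩, rfl⟩
    · rintro ⟨⟨a, b⟩, ⟨ha, hb⟩, rfl⟩
      exact ⟨a, ha, b, hb, rfl⟩
  rw [h1]
  have h2 : IsCompact ((A : Set G) ×ˢ (B : Set G)) := hAc.isCompact.prod hBc.isCompact
  exact (h2.image (by fun_prop)).isClosed

/-- A closed subgroup of finite index in `A` contains the intersection of `A` with an open normal
subgroup. -/
theorem exists_open_inf {A P : Subgroup G} (hPc : IsClosed (P : Set G))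
    (hidx : P.relIndex A ≠ 0) : ∃ W : Subgroup G, IsOpen (W : Set G) ∧ W.Normal ∧ W ⊓ A ≤ P := by
  have hfi : (P.subgroupOf A).FiniteIndex := ⟨hidx⟩
  have h1 : IsClosed ((P.subgroupOf A : Subgroup A) : Set A) := hPc.preimage continuous_subtype_val
  have h2 : IsOpen ((P.subgroupOf A : Subgroup A) : Set A) :=
    Subgroup.isOpen_of_isClosed_of_finiteIndex _ h1
  obtain ⟨O, hO, hO'⟩ := isOpen_induced_iff.1 h2
  have h1O : (1 : G) ∈ O := by
    have : (1 : A) ∈ (Subtype.val ⁻¹' O : Set A) := by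
      rw [hO']
      exact (P.subgroupOf A).one_mem
    exact this
  obtain ⟨H, hH⟩ := ProfiniteGrp.exist_openNormalSubgroup_sub_open_nhds_of_one hO h1O
  refine ⟨H.toSubgroup, H.isOpen', inferInstance, ?_⟩
  rintro x ⟨hx1, hx2⟩
  have h3 : (⟨x, hx2⟩ : A) ∈ (Subtype.val ⁻¹' O : Set A) := hH hx1
  rw [hO'] at h3
  exact h3

/-- **Existence of layers.** -/
theorem exists_layer (S : OSys G) (hS : ∀ U : Subgroup G, S.Op U ↔ IsOpen (U : Set G))
    {A B : Subgroup G} (hA : A.Normal) (hB : B.Normal) (hAc : IsClosed (A : Set G))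
    (hBc : IsClosed (B : Set G)) (hle : B ≤ A)
    (hcomm : ∀ a ∈ A, ∀ b ∈ A, a * b * a⁻¹ * b⁻¹ ∈ B) (htf : ∀ a ∈ A, a ^ 2 ∈ B → a ∈ B)
    (T : Finset G) (hT : ∀ a ∈ A, ∃ t ∈ T, ∃ c ∈ A, ∃ b ∈ B, a = t * c ^ 2 * b) :
    ∃ h : ℕ, Nonempty (Layer S A B h) := by
  classical
  choose P hPn hBP hPA hP using fun n => exists_P hA hB hle hcomm n
  -- finiteness
  have hT' : ∀ a : A, ∃ t ∈ T, t⁻¹ * a ∈ P 1 := by
    intro a
    obtain ⟨t, ht, c, hc, b, hb, h⟩ := hT a a.2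
    refine ⟨t, ht, (hP 1 _).2 ⟨c, hc, b, hb, ?_⟩⟩
    rw [h]
    group
  have hfin : Finite (A ⧸ (P 1).subgroupOf A) := by
    choose t ht htP using hT'
    refine Finite.of_injective (β := T) (fun x => ⟨t x.out, ht x.out⟩) ?_
    intro x y hxy
    have h1 : t x.out = t y.out := congrArg Subtype.val hxy
    have h2 := htP x.out
    have h3 := htP y.out
    rw [h1] at h2
    have h4 : (x.out : G)⁻¹ * y.out ∈ P 1 := by
      have := (P 1).mul_mem ((P 1).inv_mem h2) h3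
      simpa [mul_assoc] using this
    rw [← QuotientGroup.out_eq' x, ← QuotientGroup.out_eq' y, QuotientGroup.eq]
    exact h4
  have hidx0 : (P 1).relIndex A ≠ 0 := by
    rw [Subgroup.relIndex, Subgroup.index]
    exact Nat.card_pos.ne'
  have hfact : Fact (Nat.Prime 2) := ⟨Nat.prime_two⟩
  obtain ⟨h, hh⟩ : ∃ h : ℕ, (P 1).relIndex A = 2 ^ h := by
    have hn := hPn 1
    have hpg : IsPGroup 2 (A ⧸ (P 1).subgroupOf A) := by
      intro x
      refine ⟨1, ?_⟩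
      induction x using QuotientGroup.induction_on with
      | H x =>
        rw [← QuotientGroup.mk_pow, QuotientGroup.eq_one_iff, Subgroup.mem_subgroupOf]
        exact (hP 1 _).2 ⟨x, x.2, 1, B.one_mem, by simp⟩
    exact IsPGroup.iff_card.1 hpg
  have hPc : ∀ n, IsClosed (P n : Set G) := fun n => isClosed_P hAc hBc (hP n)
  have hact : ∀ g : G, ∃ N : ℕ, ∀ a ∈ A, g ^ 2 ^ N * a * (g ^ 2 ^ N)⁻¹ * a⁻¹ ∈ P 1 := by
    obtain ⟨W, hW, hWn, hWA⟩ := exists_open_inf (hPc 1) hidx0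
    obtain ⟨N, hN⟩ := S.idx W ((hS W).2 hW)
    intro g
    refine ⟨N, fun a ha => hWA ⟨?_, A.mul_mem (hA.conj_mem a ha _) (A.inv_mem ha)⟩⟩
    have h1 : g ^ 2 ^ N ∈ W := by
      rw [← hN]
      exact W.pow_index_mem g
    have h2 := hWn.conj_mem _ (W.inv_mem h1) a
    have h3 := W.mul_mem h1 h2
    simpa [mul_assoc] using h3
  obtain ⟨hidx, y, hyA, hy1, hy2⟩ := exists_gens hcomm htf P hP hh hact
  have hPU : ∀ U : Subgroup G, S.Op U → U.Normal → B ≤ U → ∃ N, P N ≤ U := by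
    intro U hU hUn hBU
    obtain ⟨N, hN⟩ := S.idx U hU
    refine ⟨N, fun x hx => ?_⟩
    obtain ⟨a, ha, b, hb, rfl⟩ := (hP N x).1 hx
    refine U.mul_mem ?_ (hBU hb)
    rw [← hN]
    exact U.pow_index_mem a
  refine ⟨h, ⟨⟨hA, hB, hle, y, hyA, fun i j => hcomm _ (hyA i) _ (hyA j), ?_, ?_, ?_⟩⟩⟩
  · intro U hU hUn hBU a ha
    obtain ⟨N, hN⟩ := hPU U hU hUn hBU
    obtain ⟨c, p, hp, rfl⟩ := hy1 N a ha
    refine Subgroup.mul_mem _ ?_ (Subgroup.mem_sup_right (hN hp))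
    refine Subgroup.mem_sup_left (Subgroup.list_prod_mem _ fun z hz => ?_)
    obtain ⟨i, rfl⟩ := (List.mem_ofFn' _ _).1 hz
    exact Subgroup.pow_mem _ (Subgroup.subset_closure (Set.mem_range_self i)) _
  · intro g U hU hUn hBU i
    obtain ⟨N, hN⟩ := hPU U hU hUn hBU
    obtain ⟨m, hm1, hm2, p, hp, hmp⟩ := hy2 N g i
    exact ⟨m, hm1, hm2, p, hN hp, hmp⟩
  · intro n V hV hVn hAV
    have hidxn : (P n).relIndex A ≠ 0 := by rw [hidx n]; positivity
    obtain ⟨W, hW, hWn, hWA⟩ := exists_open_inf (hPc n) hidxn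
    have hn := hPn n
    have hopen : IsOpen ((P n ⊔ W : Subgroup G) : Set G) := Subgroup.isOpen_mono le_sup_right hW
    have hUA : (V ⊓ (P n ⊔ W)) ⊓ A = P n := by
      refine le_antisymm ?_ (le_inf (le_inf ((hPA n).trans hAV) le_sup_left) (hPA n))
      rintro x ⟨⟨-, hx⟩, hxA⟩
      have hx' : x ∈ ((P n ⊔ W : Subgroup G) : Set G) := hx
      rw [Subgroup.normal_mul] at hx'
      obtain ⟨p, hp, w, hw, rfl⟩ := Set.mem_mul.1 hx'
      refine (P n).mul_mem hp (hWA ⟨hw, ?_⟩)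
      have := A.mul_mem (A.inv_mem (hPA n hp)) hxA
      simpa using this
    refine ⟨V ⊓ (P n ⊔ W), (hS _).2 (((hS V).1 hV).inter hopen), inferInstance,
      le_inf (hle.trans hAV) ((hBP n).trans le_sup_left), inf_le_left, fun i => ?_, ?_⟩
    · refine ⟨hAV (A.pow_mem (hyA i) _), Subgroup.mem_sup_left ((hP n _).2 ⟨y i, hyA i, 1, B.one_mem, ?_⟩)⟩
      rw [mul_one]
    · have h1 : (V ⊓ (P n ⊔ W)).relIndex A = 2 ^ (n * h) := by
        rw [← Subgroup.inf_relIndex_right, hUA, hidx n]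
      have h2 := Subgroup.relIndex_mul_index (le_sup_left : V ⊓ (P n ⊔ W) ≤ (V ⊓ (P n ⊔ W)) ⊔ A)
      rw [sup_comm (V ⊓ (P n ⊔ W)) A, Subgroup.relIndex_sup_right, h1] at h2
      rw [← h2, sup_comm (V ⊓ (P n ⊔ W)) A, mul_comm]

end Top

end Pool.Agent.EP.Lay
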