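import Pool.Agent.EP.Gal
import Pool.Agent.EP.Step
import Pool.Agent.EP.LayTop
import Pool.Agent.EP.Chain
import Pool.Agent.Hhelper2.QStr

/-!
# Exact pairs: Kummer layers (MP_2429c0, section 3)

`NN L` is the group of all `σ` that fix every `x ∈ Ω` with `x ^ 2 ^ n ∈ L` for some `n`.  `TT_NN`: the integrality theorem holds
for `NN L`, `L / F` finite Galois: chain `⊤ ≥ Aμ ≥ NN L_0 ≥ ... ≥ NN L_r = NN L`, `L_0 = F`, `L_j / F` Galois,
`[L_{j+1} : L_j] = 2`, each step by `Lay.exists_layer` and `step`.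
-/

universe u

namespace Pool.Agent.EP

open Pool.Agent.Hhelper2

variable {F Ω : Type u} [Field F] [Field Ω] [Algebra F Ω]

/-- The group that fixes all `2 ^ n`-th roots of elements of `L`. -/
def NN (L : IntermediateField F Ω) : Subgroup (Ω ≃ₐ[F] Ω) where
  carrier := {σ | ∀ x : Ω, ∀ n : ℕ, x ^ 2 ^ n ∈ L → σ x = x}
  one_mem' := fun _ _ _ => rfl
  mul_mem' := by
    intro σ τ hσ hτ x n hx
    show σ (τ x) = x
    rw [hτ x n hx, hσ x n hx]
  inv_mem' := by
    intro σ hσ x n hx
    show σ.symm x = x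
    rw [AlgEquiv.symm_apply_eq]
    exact (hσ x n hx).symm

theorem NN_le (L : IntermediateField F Ω) : NN L ≤ L.fixingSubgroup := by
  intro σ hσ
  rw [IntermediateField.mem_fixingSubgroup_iff]
  intro x hx
  exact hσ x 0 (by simpa using hx)

theorem NN_anti {L L' : IntermediateField F Ω} (h : L ≤ L') : NN L' ≤ NN L := by
  intro σ hσ x n hx
  exact hσ x n (h hx)

theorem NN_eq (L : IntermediateField F Ω) : NN L = Kum.NN F (L : Set Ω) := rfl

/-- A normal subextension is stable under all automorphisms. -/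
theorem map_mem_of_normal (L : IntermediateField F Ω) [Normal F L] (g : Ω ≃ₐ[F] Ω) {x : Ω}
    (hx : x ∈ L) : g x ∈ L := by
  have h := AlgEquiv.restrictNormal_commutes g L ⟨x, hx⟩
  have h1 : g x = ((g.restrictNormal L) ⟨x, hx⟩ : L) := h.symm
  rw [h1]
  exact ((g.restrictNormal L) ⟨x, hx⟩).2

theorem normal_NN [QC F Ω] (L : IntermediateField F Ω) [Normal F L] : (NN L).Normal := by
  rw [NN_eq]
  exact Kum.NN_normal fun g x hx => map_mem_of_normal L g hx

theorem TT_NN [QC F Ω] (h2 : (2 : F) ≠ 0) [Finite (SqClass F)] (hi : ∃ i : F, i ^ 2 = -1)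
    (L : IntermediateField F Ω) [FiniteDimensional F L] [IsGalois F L] :
    TT (galS F Ω) (NN L) := by
  have h2' : (2 : Ω) ≠ 0 := by
    have h : algebraMap F Ω 2 ≠ 0 := (map_ne_zero _).2 h2
    rwa [map_ofNat] at h
  have hS : ∀ U : Subgroup (Ω ≃ₐ[F] Ω), (galS F Ω).Op U ↔ IsOpen (U : Set (Ω ≃ₐ[F] Ω)) :=
    fun U => Iff.rfl
  have hsq : ∀ x : Ω, ∃ y, y ^ 2 = x := QC.sq F
  have htop : Module.Finite (ZMod 2) (Hm (galS F Ω) (⊤ : Subgroup (Ω ≃ₐ[F] Ω))) := by
    refine (Kum.finite_iff (galS F Ω) hS h2' hsq (algebraMap F Ω) (fun x => ?_) (galS F Ω).top).1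
      inferInstance
    have h := InfiniteGalois.mem_range_algebraMap_iff_fixed (k := F) (K := Ω) x
    constructor
    · intro hx
      exact h.2 fun s => hx s trivial
    · intro hx s _
      exact h.1 hx s
  have hopen : (galS F Ω).Op L.fixingSubgroup := IntermediateField.fixingSubgroup_isOpen L
  have hnorm : L.fixingSubgroup.Normal := (InfiniteGalois.normal_iff_isGalois L).2 inferInstance
  obtain ⟨n, hn⟩ := (galS F Ω).idx _ hopen
  have hT := Kum.TT_chain (galS F Ω) hS h2' hsq hi (Kum.finite_Hm_all (galS F Ω) htop) n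
    L.fixingSubgroup hopen hnorm hn
  have hFx : Kum.Fx L.fixingSubgroup = (L : Set Ω) := by
    ext x
    have h := InfiniteGalois.fixedField_fixingSubgroup L
    conv_rhs => rw [← h]
    rw [SetLike.mem_coe, IntermediateField.mem_fixedField_iff]
    rfl
  rwa [hFx] at hT

end Pool.Agent.EP
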