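import Pool.Agent.EP.XH
import Pool.Agent.EP.NN

/-!
# Exact pairs: Kummer characters with values in `Z_2` (MP_2429c0, sections 3 and 4)

`Amu` = the automorphisms that fix all roots of unity of 2-power order.  `kummer_xh`: there is a continuous homomorphism
`x : Amu → Z_2 ^ m` with kernel `NN ⊥`, conjugation acts by scalars, image a submodule (`XH`).

Proof.  Choose `ζ n ∈ Ω` with `ζ 0 = 1`, `ζ 1 = -1`, `ζ (n + 1) ^ 2 = ζ n` (`QC.sq`): `ζ n` is a primitive `2 ^ n`-th root of unity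
(characteristic not two).  For `a ∈ F`, `a ≠ 0` choose `α n ∈ Ω` with `α 0 = a`, `α (n + 1) ^ 2 = α n`.  For `σ ∈ Amu` there is a
unique class `c n` modulo `2 ^ n` with `σ (α n) = ζ n ^ c n * α n`, compatible; `x_a σ ∈ Z_2` is the limit (`PadicInt.lift`-type
argument, or `PadicInt` as inverse limit: `PadicInt.toZModPow`, `PadicInt.ext_of_toZModPow`, `PadicInt.lift`, or a Cauchy
sequence of natural numbers).  Homomorphism since `σ` fixes `ζ n`.  `2 ^ n ∣ x_a σ` iff `σ (α n) = α n`.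
Let `a_1, .., a_m` represent generators of `F^* / F^* ^ 2` (finite).  Kernel: if all `x_{a_i} σ = 0` then every `x_a σ` (`a ∈ F^*`) is
divisible by all powers of two: `a = ∏ a_i ^ e_i * b ^ 2`, so `x_a σ = 2 x_b σ` (up to the choice of roots; use the property
`2 ^ n ∣ x_a σ` iff `σ` fixes one, equivalently all, `2 ^ n`-th roots of `a`).  So `σ` fixes all `z` with `z ^ 2 ^ n ∈ F`.
Scalars: `g ∈ Gal`, `κ g ∈ Z_2` with `g (ζ n) = ζ n ^ κ g`; `x (g σ g⁻¹) = κ g • x σ` (`g⁻¹ (α n)` is another root of `a`, i.e. a root of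
unity times `α n`).  Continuity: `U` = fixing subgroup of a finite Galois extension that contains the `α_i n`, joined with
`NN ⊥` (`a ∈ Amu`, `a ∈ NN ⊥ ⊔ V` implies `a (α_i n) = α_i n`).  Image: `Amu` is closed, so compact, `x` is continuous on it, the image
is a closed subgroup of `Z_2 ^ m`, and `c • x σ` is the limit of the `c_n • x σ = x (σ ^ c_n)`, `c_n ∈ ℕ`, `c_n → c`.
-/

universe u

namespace Pool.Agent.EP

open Pool.Agent.Hhelper2

variable {F Ω : Type u} [Field F] [Field Ω] [Algebra F Ω]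

/-- The automorphisms that fix all roots of unity of 2-power order. -/
def Amu (F Ω : Type u) [Field F] [Field Ω] [Algebra F Ω] : Subgroup (Ω ≃ₐ[F] Ω) where
  carrier := {σ | ∀ z : Ω, ∀ n : ℕ, z ^ 2 ^ n = 1 → σ z = z}
  one_mem' := fun _ _ _ => rfl
  mul_mem' := by
    intro σ τ hσ hτ x n hx
    show σ (τ x) = x
    rw [hτ x n hx, hσ x n hx]
  inv_mem' := by
    intro σ hσ x n hx
    show σ.symm x = x
    rw [AlgEquiv.symm_apply_eq]
    exact (hσ x n hx).symm

namespace KXAux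

/-- Divisibility by a power of two in the 2-adic integers. -/
theorem dvd_iff (n : ℕ) (c : ℤ_[2]) : (2 : ℤ_[2]) ^ n ∣ c ↔ PadicInt.toZModPow n c = 0 := by
  rw [← RingHom.mem_ker, PadicInt.ker_toZModPow, Ideal.mem_span_singleton]
  rfl

theorem exists_nat (n : ℕ) (c : ℤ_[2]) : ∃ k : ℕ, (2 : ℤ_[2]) ^ n ∣ c - k := by
  refine ⟨(PadicInt.toZModPow n c).val, ?_⟩
  rw [dvd_iff, map_sub, map_natCast, ZMod.natCast_zmod_val, sub_self]

theorem dvd_nat (n k : ℕ) : (2 : ℤ_[2]) ^ n ∣ (k : ℤ_[2]) ↔ 2 ^ n ∣ k := by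
  rw [dvd_iff, map_natCast, ZMod.natCast_eq_zero_iff]

theorem eq_zero_of_dvd {c : ℤ_[2]} (h : ∀ n, (2 : ℤ_[2]) ^ n ∣ c) : c = 0 := by
  apply (PadicInt.ext_of_toZModPow (p := 2)).1
  intro n
  rw [(dvd_iff n c).1 (h n), map_zero]

/-- A compatible sequence of natural numbers has a limit. -/
theorem exists_lim (k : ℕ → ℕ) (hk : ∀ n, (2 : ℤ_[2]) ^ n ∣ (k (n + 1) : ℤ_[2]) - k n) :
    ∃ c : ℤ_[2], ∀ n, (2 : ℤ_[2]) ^ n ∣ c - k n := by
  have hI : IsLocalRing.maximalIdeal ℤ_[2] = Ideal.span {(2 : ℤ_[2])} := by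
    rw [PadicInt.maximalIdeal_eq_span_p]
    rfl
  have hmem : ∀ n (y : ℤ_[2]), y ∈ (IsLocalRing.maximalIdeal ℤ_[2] ^ n • ⊤ : Ideal ℤ_[2]) ↔
      (2 : ℤ_[2]) ^ n ∣ y := by
    intro n y
    rw [hI, smul_eq_mul, Ideal.mul_top, Ideal.span_singleton_pow, Ideal.mem_span_singleton]
  have hle : ∀ {m n : ℕ}, m ≤ n → (2 : ℤ_[2]) ^ m ∣ (k m : ℤ_[2]) - k n := by
    intro m n hmn
    induction n, hmn using Nat.le_induction with
    | base => rw [sub_self]; exact dvd_zero _
    | succ n hmn ih =>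
      have h1 : (2 : ℤ_[2]) ^ m ∣ (k (n + 1) : ℤ_[2]) - k n := (pow_dvd_pow _ hmn).trans (hk n)
      have h2 := dvd_sub ih h1
      have e : (k m : ℤ_[2]) - k n - ((k (n + 1) : ℤ_[2]) - k n) = (k m : ℤ_[2]) - k (n + 1) := by
        ring
      rwa [e] at h2
  obtain ⟨c, hc⟩ := IsPrecomplete.prec (I := IsLocalRing.maximalIdeal ℤ_[2]) (M := ℤ_[2])
    inferInstance (f := fun n => (k n : ℤ_[2])) (by
      intro m n hmn
      rw [SModEq.sub_mem, hmem]
      exact hle hmn)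
  refine ⟨c, fun n => ?_⟩
  have h1 := hc n
  rw [SModEq.sub_mem, hmem] at h1
  have h2 := (dvd_neg).2 h1
  rwa [neg_sub] at h2

/-- A compatible system of primitive roots of unity. -/
structure Zeta (ζ : ℕ → Ω) : Prop where
  zero : ζ 0 = 1
  sq : ∀ n, ζ (n + 1) ^ 2 = ζ n
  prim : ∀ n, IsPrimitiveRoot (ζ n) (2 ^ n)

theorem exists_zeta [QC F Ω] (h2 : (2 : F) ≠ 0) : ∃ ζ : ℕ → Ω, Zeta ζ := by
  have h2' : (2 : Ω) ≠ 0 := by
    have h : algebraMap F Ω 2 ≠ 0 := (map_ne_zero _).2 h2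
    rwa [map_ofNat] at h
  choose f hf using (QC.sq (F := F) : ∀ x : Ω, ∃ y, y ^ 2 = x)
  obtain ⟨z, hz0, hz⟩ : ∃ z : ℕ → Ω, z 0 = -1 ∧ ∀ n, z (n + 1) ^ 2 = z n :=
    ⟨fun n => Nat.rec (-1) (fun _ y => f y) n, rfl, fun n => hf _⟩
  have hpow : ∀ n, z n ^ 2 ^ n = -1 := by
    intro n
    induction n with
    | zero => rw [pow_zero, pow_one, hz0]
    | succ n ih => rw [pow_succ', pow_mul, hz, ih]
  obtain ⟨ζ, h0, h1⟩ : ∃ ζ : ℕ → Ω, ζ 0 = 1 ∧ ∀ n, ζ (n + 1) = z n :=
    ⟨fun n => Nat.casesOn n 1 z, rfl, fun n => rfl⟩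
  refine ⟨ζ, h0, ?_, ?_⟩
  · intro n
    cases n with
    | zero => rw [h1, h0, hz0]; norm_num
    | succ n => rw [h1, h1, hz]
  · intro n
    cases n with
    | zero => rw [h0, pow_zero]; exact IsPrimitiveRoot.one
    | succ n =>
      rw [h1]
      have hp : Fact (Nat.Prime 2) := ⟨Nat.prime_two⟩
      have h3 : orderOf (z n) = 2 ^ (n + 1) := by
        apply orderOf_eq_prime_pow
        · rw [hpow]
          intro h
          apply h2'
          have : (1 : Ω) + 1 = 0 := by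
            nth_rewrite 1 [← h]
            ring
          rw [← one_add_one_eq_two]
          exact this
        · rw [pow_succ, pow_mul, hpow]
          norm_num
      rw [← h3]
      exact IsPrimitiveRoot.orderOf _

/-- Powers of roots of unity with exponents in the 2-adic integers. -/
noncomputable def zp (ζ : ℕ → Ω) (n : ℕ) (c : ℤ_[2]) : Ω := ζ n ^ (PadicInt.toZModPow n c).val

section
variable {ζ : ℕ → Ω}

theorem zp_eq (hζ : Zeta ζ) {n : ℕ} {c : ℤ_[2]} {k : ℕ} (h : (2 : ℤ_[2]) ^ n ∣ c - k) :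
    zp ζ n c = ζ n ^ k := by
  rw [dvd_iff, map_sub, map_natCast, sub_eq_zero] at h
  rw [zp, h, ZMod.val_natCast]
  conv_lhs => rw [(hζ.prim n).eq_orderOf]
  exact pow_mod_orderOf _ _

theorem zp_natCast (hζ : Zeta ζ) (n k : ℕ) : zp ζ n (k : ℤ_[2]) = ζ n ^ k :=
  zp_eq hζ (by rw [sub_self]; exact dvd_zero _)

theorem zp_add (hζ : Zeta ζ) (n : ℕ) (c d : ℤ_[2]) : zp ζ n (c + d) = zp ζ n c * zp ζ n d := by
  obtain ⟨k, hk⟩ := exists_nat n c
  obtain ⟨l, hl⟩ := exists_nat n d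
  rw [zp_eq hζ hk, zp_eq hζ hl, ← pow_add]
  apply zp_eq hζ
  have := dvd_add hk hl
  have e : c - (k : ℤ_[2]) + (d - l) = c + d - ((k + l : ℕ) : ℤ_[2]) := by
    push_cast
    ring
  rwa [e] at this

theorem zp_mul (hζ : Zeta ζ) (n : ℕ) (c d : ℤ_[2]) {k : ℕ} (hk : (2 : ℤ_[2]) ^ n ∣ c - k) :
    zp ζ n (d * c) = zp ζ n d ^ k := by
  obtain ⟨l, hl⟩ := exists_nat n d
  rw [zp_eq hζ hl, ← pow_mul]
  apply zp_eq hζ
  have e : d * c - ((l * k : ℕ) : ℤ_[2]) = d * (c - k) + k * (d - l) := by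
    push_cast
    ring
  rw [e]
  exact dvd_add (Dvd.dvd.mul_left hk _) (Dvd.dvd.mul_left hl _)

theorem zp_sq (hζ : Zeta ζ) (n : ℕ) (c : ℤ_[2]) : zp ζ (n + 1) c ^ 2 = zp ζ n c := by
  obtain ⟨k, hk⟩ := exists_nat (n + 1) c
  rw [zp_eq hζ hk, zp_eq hζ (n := n) (k := k) ((pow_dvd_pow _ (Nat.le_succ n)).trans hk),
    ← pow_mul, mul_comm, pow_mul, hζ.sq]

theorem zp_pow (hζ : Zeta ζ) (n : ℕ) (c : ℤ_[2]) : zp ζ n c ^ 2 ^ n = 1 := by
  rw [zp, ← pow_mul, mul_comm, pow_mul, (hζ.prim n).pow_eq_one, one_pow]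

theorem zp_eq_one (hζ : Zeta ζ) (n : ℕ) (c : ℤ_[2]) : zp ζ n c = 1 ↔ (2 : ℤ_[2]) ^ n ∣ c := by
  obtain ⟨k, hk⟩ := exists_nat n c
  rw [zp_eq hζ hk, (hζ.prim n).pow_eq_one_iff_dvd, ← dvd_nat]
  constructor
  · intro h
    have := dvd_add hk h
    rwa [sub_add_cancel] at this
  · intro h
    exact (dvd_sub_right h).1 hk

theorem zp_ne (hζ : Zeta ζ) (n : ℕ) (c : ℤ_[2]) : zp ζ n c ≠ 0 := by
  intro h
  have := zp_pow hζ n c
  rw [h, zero_pow (by positivity)] at this
  exact zero_ne_one this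

/-- A value is determined. -/
theorem zp_inj (hζ : Zeta ζ) {c d : ℤ_[2]} (h : ∀ n, zp ζ n c = zp ζ n d) : c = d := by
  have h1 : ∀ n, (2 : ℤ_[2]) ^ n ∣ c - d := by
    intro n
    rw [← zp_eq_one hζ]
    have h2 := zp_add hζ n (c - d) d
    rw [sub_add_cancel, h n] at h2
    have h3 : (1 : Ω) * zp ζ n d = zp ζ n (c - d) * zp ζ n d := by rw [one_mul]; exact h2
    exact (mul_right_cancel₀ (zp_ne hζ n d) h3).symm
  exact sub_eq_zero.1 (eq_zero_of_dvd h1)

/-- Every compatible sequence of roots of unity comes from a 2-adic integer. -/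
theorem exists_c (hζ : Zeta ζ) {t : ℕ → Ω} (h0 : t 0 = 1) (ht : ∀ n, t (n + 1) ^ 2 = t n) :
    ∃ c : ℤ_[2], ∀ n, t n = zp ζ n c := by
  have hpow : ∀ n, t n ^ 2 ^ n = 1 := by
    intro n
    induction n with
    | zero => rw [pow_zero, pow_one, h0]
    | succ n ih => rw [pow_succ', pow_mul, ht, ih]
  have h1 : ∀ n, ∃ k : ℕ, ζ n ^ k = t n := by
    intro n
    have : NeZero (2 ^ n) := ⟨by positivity⟩
    obtain ⟨k, -, hk⟩ := (hζ.prim n).eq_pow_of_pow_eq_one (hpow n)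
    exact ⟨k, hk⟩
  choose k hk using h1
  obtain ⟨c, hc⟩ := exists_lim k (by
    intro n
    rw [dvd_iff, map_sub, map_natCast, map_natCast, sub_eq_zero, ZMod.natCast_eq_natCast_iff]
    have h2 : ζ n ^ k (n + 1) = ζ n ^ k n := by
      rw [hk n, ← ht n, ← hk (n + 1), ← pow_mul, mul_comm, pow_mul, hζ.sq]
    have hz0 : ζ n ≠ 0 := by
      intro h
      have h4 := (hζ.prim n).pow_eq_one
      rw [h, zero_pow (by positivity)] at h4
      exact zero_ne_one h4
    have h3 : Units.mk0 (ζ n) hz0 ^ k (n + 1) = Units.mk0 (ζ n) hz0 ^ k n := by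
      apply Units.ext
      simpa using h2
    have h4 := pow_eq_pow_iff_modEq.1 h3
    have h5 : orderOf (Units.mk0 (ζ n) hz0) = 2 ^ n := by
      rw [← orderOf_units, Units.val_mk0, (hζ.prim n).eq_orderOf]
    rwa [h5] at h4)
  exact ⟨c, fun n => by rw [zp_eq hζ (hc n), hk]⟩

end

/-- The evaluation fibres are open and closed. -/
theorem isOpen_ev [Algebra.IsIntegral F Ω] (x y : Ω) :
    IsOpen {σ : Ω ≃ₐ[F] Ω | σ x = y} := by
  rw [isOpen_iff_mem_nhds]
  intro σ hσ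
  have h1 : IsOpen (MulAction.stabilizer (Ω ≃ₐ[F] Ω) x : Set (Ω ≃ₐ[F] Ω)) :=
    stabilizer_isOpen_of_isIntegral x
  have h2 := h1.leftCoset σ
  refine Filter.mem_of_superset (h2.mem_nhds ?_) ?_
  · exact ⟨1, Subgroup.one_mem _, by simp⟩
  · rintro _ ⟨τ, hτ, rfl⟩
    have h3 : τ x = x := hτ
    show σ (τ x) = y
    rw [h3]
    exact hσ

theorem isClosed_ev [Algebra.IsIntegral F Ω] (x y : Ω) :
    IsClosed {σ : Ω ≃ₐ[F] Ω | σ x = y} := by
  rw [← isOpen_compl_iff]
  have h1 : {σ : Ω ≃ₐ[F] Ω | σ x = y}ᶜ = ⋃ w ∈ {w : Ω | w ≠ y}, {σ : Ω ≃ₐ[F] Ω | σ x = w} := by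
    ext σ
    simp
  rw [h1]
  exact isOpen_biUnion fun w _ => isOpen_ev x w

theorem mem_Amu (σ : Ω ≃ₐ[F] Ω) : σ ∈ Amu F Ω ↔ ∀ z : Ω, ∀ n : ℕ, z ^ 2 ^ n = 1 → σ z = z :=
  Iff.rfl

theorem isClosed_Amu [Algebra.IsIntegral F Ω] : IsClosed (Amu F Ω : Set (Ω ≃ₐ[F] Ω)) := by
  have h1 : (Amu F Ω : Set (Ω ≃ₐ[F] Ω)) =
      ⋂ z : Ω, ⋂ n : ℕ, ⋂ _ : z ^ 2 ^ n = 1, {σ : Ω ≃ₐ[F] Ω | σ z = z} := by
    ext σ
    simp only [SetLike.mem_coe, mem_Amu, Set.mem_iInter, Set.mem_ofPred_eq]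
  rw [h1]
  exact isClosed_iInter fun z => isClosed_iInter fun n => isClosed_iInter fun _ => isClosed_ev z z

theorem normal_Amu : (Amu F Ω).Normal := by
  refine ⟨fun σ hσ g => ?_⟩
  rw [mem_Amu] at hσ ⊢
  intro z n hz
  have h1 := hσ (g⁻¹ z) n (by rw [← map_pow, hz, map_one])
  rw [AlgEquiv.mul_apply, AlgEquiv.mul_apply, h1, ← AlgEquiv.mul_apply, mul_inv_cancel,
    AlgEquiv.one_apply]

end KXAux

open KXAux

theorem kummer_xh [QC F Ω] (h2 : (2 : F) ≠ 0) [Finite (SqClass F)] (hi : ∃ i : F, i ^ 2 = -1) :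
    ∃ (m : ℕ) (x : (Ω ≃ₐ[F] Ω) → Fin m → ℤ_[2]),
      XH (galS F Ω) (NN (⊥ : IntermediateField F Ω)) (Amu F Ω) x := by
  classical
  obtain ⟨ζ, hζ⟩ := exists_zeta (F := F) (Ω := Ω) h2
  choose f hf using (QC.sq (F := F) : ∀ x : Ω, ∃ y, y ^ 2 = x)
  -- representatives of the square classes
  obtain ⟨m, ⟨e⟩⟩ := Finite.exists_equiv_fin (SqClass F)
  have hrep : ∀ j : Fin m, ∃ a : Fˣ, sqClass a = e.symm j := fun j =>
    QuotientGroup.mk_surjective (e.symm j)
  choose a ha using hrep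
  -- the towers of square roots
  obtain ⟨α, hα0, hα⟩ : ∃ α : Fin m → ℕ → Ω, (∀ j, α j 0 = algebraMap F Ω (a j)) ∧
      ∀ j n, α j (n + 1) ^ 2 = α j n :=
    ⟨fun j n => Nat.rec (algebraMap F Ω (a j)) (fun _ y => f y) n, fun j => rfl, fun j n => hf _⟩
  have hα1 : ∀ j, α j 1 ^ 2 = algebraMap F Ω (a j) := fun j => by
    rw [← hα0]
    exact hα j 0
  have hαpow : ∀ j n, α j n ^ 2 ^ n = algebraMap F Ω (a j) := by
    intro j n
    induction n with
    | zero => rw [pow_zero, pow_one, hα0]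
    | succ n ih => rw [pow_succ', pow_mul, hα, ih]
  have hane : ∀ j, algebraMap F Ω (a j) ≠ 0 := fun j => (map_ne_zero _).2 (a j).ne_zero
  have hαne : ∀ j n, α j n ≠ 0 := by
    intro j n h
    have := hαpow j n
    rw [h, zero_pow (by positivity)] at this
    exact hane j this.symm
  -- the character
  have hex : ∀ (σ : Ω ≃ₐ[F] Ω) (j : Fin m), ∃ c : ℤ_[2], ∀ n, σ (α j n) = zp ζ n c * α j n := by
    intro σ j
    obtain ⟨c, hc⟩ := exists_c hζ (t := fun n => σ (α j n) / α j n) (by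
      rw [hα0, AlgEquiv.commutes, div_self (hane j)]) (by
      intro n
      rw [div_pow, ← map_pow, hα])
    refine ⟨c, fun n => ?_⟩
    rw [← hc n, div_mul_cancel₀ _ (hαne j n)]
  choose x hx using hex
  have huniq : ∀ (σ : Ω ≃ₐ[F] Ω) (j : Fin m) (c : ℤ_[2]),
      (∀ n, σ (α j n) = zp ζ n c * α j n) → x σ j = c := by
    intro σ j c hc
    apply zp_inj hζ
    intro n
    have h1 := hx σ j n
    rw [hc n] at h1
    exact (mul_right_cancel₀ (hαne j n) h1).symm
  have hzfix : ∀ σ ∈ Amu F Ω, ∀ n c, σ (zp ζ n c) = zp ζ n c := fun σ hσ n c =>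
    hσ _ n (zp_pow hζ n c)
  have hone : ∀ n, zp ζ n 0 = 1 := fun n => (zp_eq_one hζ n 0).2 (dvd_zero _)
  have hbot : ∀ y : Ω, y ∈ (⊥ : IntermediateField F Ω) ↔ ∃ b : F, algebraMap F Ω b = y := by
    intro y
    rw [IntermediateField.mem_bot]
    rfl
  have hαbot : ∀ j n, α j n ^ 2 ^ n ∈ (⊥ : IntermediateField F Ω) := by
    intro j n
    rw [hαpow, hbot]
    exact ⟨_, rfl⟩
  have hdvd : ∀ (σ : Ω ≃ₐ[F] Ω) (j : Fin m) (n : ℕ), σ (α j n) = α j n → (2 : ℤ_[2]) ^ n ∣ x σ j := by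
    intro σ j n h
    rw [← zp_eq_one hζ]
    have h1 := hx σ j n
    rw [h] at h1
    have h3 : (1 : Ω) * α j n = zp ζ n (x σ j) * α j n := by rw [one_mul]; exact h1
    exact (mul_right_cancel₀ (hαne j n) h3).symm
  refine ⟨m, x, normal_NN ⊥, normal_Amu, ?_, ?_, ?_, ?_, ?_, ?_⟩
  · -- `NN ⊥ ≤ Amu`
    intro σ hσ z n hz
    refine hσ z n ?_
    rw [hz]
    exact one_mem _
  · -- homomorphism
    intro σ hσ τ hτ
    funext j
    apply huniq
    intro n
    rw [AlgEquiv.mul_apply, hx τ j n, map_mul, hzfix σ hσ, hx σ j n, Pi.add_apply, zp_add hζ]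
    ring
  · -- kernel
    intro σ hσ
    constructor
    · intro h0
      have hfix : ∀ j n, σ (α j n) = α j n := by
        intro j n
        rw [hx σ j n, h0, Pi.zero_apply, hone, one_mul]
      have key : ∀ n : ℕ, ∀ y : Ω, y ^ 2 ^ n ∈ (⊥ : IntermediateField F Ω) → σ y = y := by
        intro n
        induction n with
        | zero =>
          intro y hy
          rw [pow_zero, pow_one, hbot] at hy
          obtain ⟨b, rfl⟩ := hy
          exact σ.commutes b
        | succ n ih =>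
          intro y hy
          obtain ⟨b, hb⟩ := (hbot _).1 hy
          by_cases hb0 : b = 0
          · have hy0 : y = 0 := by
              rw [hb0, map_zero] at hb
              exact pow_eq_zero_iff (by positivity) |>.1 hb.symm
            rw [hy0, map_zero]
          · set b' : Fˣ := Units.mk0 b hb0 with hb'
            set j := e (sqClass b') with hj
            have h3 : sqClass (a j) = sqClass b' := by rw [ha j, hj, Equiv.symm_apply_apply]
            have h4 : ∃ r : F, b = a j * r ^ 2 := by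
              have h5 := (QuotientGroup.eq.1 h3 : (a j)⁻¹ * b' ∈ Subgroup.square Fˣ)
              rw [Subgroup.mem_square] at h5
              obtain ⟨r, hr⟩ := h5
              refine ⟨(r : F), ?_⟩
              have h6 : b' = a j * (r * r) := by rw [← hr, mul_inv_cancel_left]
              have h7 := congrArg (fun u : Fˣ => (u : F)) h6
              simp only [Units.val_mul, hb', Units.val_mk0] at h7
              rw [h7]
              ring
            obtain ⟨r, hr⟩ := h4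
            have h5 : (y ^ 2 ^ n) ^ 2 = (α j 1 * algebraMap F Ω r) ^ 2 := by
              rw [← pow_mul, ← pow_succ, ← hb, hr, map_mul, map_pow, mul_pow, hα1]
            have h6 : α j (n + 1) ^ 2 ^ n = α j 1 := by
              have : ∀ k, α j (k + 1) ^ 2 ^ k = α j 1 := by
                intro k
                induction k with
                | zero => rw [pow_zero, pow_one, zero_add]
                | succ k ihk => rw [pow_succ', pow_mul, hα, ihk]
              exact this n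
            have h7 : (y / α j (n + 1)) ^ 2 ^ n ∈ (⊥ : IntermediateField F Ω) := by
              rw [div_pow, h6, hbot]
              rcases sq_eq_sq_iff_eq_or_eq_neg.1 h5 with h8 | h8
              · exact ⟨r, by rw [h8, mul_div_cancel_left₀ _ (hαne j 1)]⟩
              · exact ⟨-r, by rw [h8, map_neg, neg_div, mul_div_cancel_left₀ _ (hαne j 1)]⟩
            have h8 := ih _ h7
            have h9 := hfix j (n + 1)
            rw [map_div₀, h9, div_left_inj' (hαne j (n + 1))] at h8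
            exact h8
      exact fun y n hy => key n y hy
    · intro hN
      funext j
      apply huniq
      intro n
      rw [Pi.zero_apply, hone, one_mul]
      exact hN _ n (hαbot j n)
  · -- continuity
    intro n
    let V : Subgroup (Ω ≃ₐ[F] Ω) := ⨅ j : Fin m, MulAction.stabilizer (Ω ≃ₐ[F] Ω) (α j n)
    have hVop : (galS F Ω).Op V := by
      change IsOpen ((V : Subgroup (Ω ≃ₐ[F] Ω)) : Set (Ω ≃ₐ[F] Ω))
      rw [Subgroup.coe_iInf]
      exact isOpen_iInter_of_finite fun j => stabilizer_isOpen_of_isIntegral _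
    have hVn := (galS F Ω).core V hVop
    have hn : (NN (⊥ : IntermediateField F Ω)).Normal := normal_NN ⊥
    refine ⟨NN (⊥ : IntermediateField F Ω) ⊔ V.normalCore, (galS F Ω).up _ _ hVn le_sup_right,
      inferInstance, le_sup_left, fun σ hσ hσU j => ?_⟩
    obtain ⟨ν, hν, v, hv, rfl⟩ := Subgroup.mem_sup_of_normal_left.1 hσU
    apply hdvd
    have h1 : v (α j n) = α j n := by
      have h3 := Subgroup.normalCore_le V hv
      exact (Subgroup.mem_iInf.1 h3 j)
    rw [AlgEquiv.mul_apply, h1]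
    exact hν _ n (hαbot j n)
  · -- scalars
    intro g σ hσ
    obtain ⟨κ, hκ⟩ := exists_c hζ (t := fun n => g (ζ n)) (by
      rw [hζ.zero, map_one]) (by
      intro n
      rw [← map_pow, hζ.sq])
    refine ⟨κ, ?_⟩
    have hgz : ∀ n c, g (zp ζ n c) = zp ζ n (κ * c) := by
      intro n c
      obtain ⟨k, hk⟩ := exists_nat n c
      rw [zp_mul hζ n c κ hk, zp_eq hζ hk, map_pow, ← hκ n]
    funext j
    apply huniq
    intro n
    set β := g⁻¹ (α j n) with hβ
    have hβ2 : g β = α j n := by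
      rw [hβ, ← AlgEquiv.mul_apply, mul_inv_cancel, AlgEquiv.one_apply]
    have h1 : β ^ 2 ^ n = algebraMap F Ω (a j) := by
      rw [hβ, ← map_pow, hαpow, AlgEquiv.commutes]
    have h3 : σ (β / α j n) = β / α j n := by
      refine hσ _ n ?_
      rw [div_pow, h1, hαpow, div_self (hane j)]
    have h4 : σ β = zp ζ n (x σ j) * β := by
      have h5 : β = (β / α j n) * α j n := by rw [div_mul_cancel₀ _ (hαne j n)]
      have h6 : σ β = (β / α j n) * (zp ζ n (x σ j) * α j n) := by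
        conv_lhs => rw [h5]
        rw [map_mul, h3, hx σ j n]
      rw [h6]
      have h7 := hαne j n
      field_simp
    rw [AlgEquiv.mul_apply, AlgEquiv.mul_apply, ← hβ, h4, map_mul, hgz, hβ2, Pi.smul_apply,
      smul_eq_mul]
  · -- the image is a submodule
    intro c σ hσ
    set K : ℕ → Set (Ω ≃ₐ[F] Ω) := fun n => (Amu F Ω : Set (Ω ≃ₐ[F] Ω)) ∩
      ⋂ j : Fin m, {τ : Ω ≃ₐ[F] Ω | τ (α j n) = zp ζ n (c * x σ j) * α j n} with hK
    have hcl : ∀ n, IsClosed (K n) := fun n =>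
      isClosed_Amu.inter (isClosed_iInter fun j => isClosed_ev _ _)
    have hpw : ∀ (k n : ℕ) (j : Fin m), (σ ^ k) (α j n) = zp ζ n ((k : ℤ_[2]) * x σ j) * α j n := by
      intro k n j
      induction k with
      | zero => rw [pow_zero, AlgEquiv.one_apply, Nat.cast_zero, zero_mul, hone, one_mul]
      | succ k ih =>
        rw [pow_succ', AlgEquiv.mul_apply, ih, map_mul, hzfix σ hσ, hx σ j n, ← mul_assoc,
          ← zp_add hζ]
        congr 2
        push_cast
        ring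
    have hne : ∀ n, (K n).Nonempty := by
      intro n
      obtain ⟨k, hk⟩ := exists_nat n c
      refine ⟨σ ^ k, Subgroup.pow_mem _ hσ k, ?_⟩
      rw [Set.mem_iInter]
      intro j
      show (σ ^ k) (α j n) = zp ζ n (c * x σ j) * α j n
      rw [hpw]
      congr 1
      have e1 : c * x σ j = (k : ℤ_[2]) * x σ j + (c - k) * x σ j := by ring
      rw [e1, zp_add hζ, (zp_eq_one hζ n ((c - k) * x σ j)).2 (Dvd.dvd.mul_right hk _), mul_one]
    have hmono : ∀ n, K (n + 1) ⊆ K n := by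
      rintro n τ ⟨h1, h3⟩
      refine ⟨h1, ?_⟩
      rw [Set.mem_iInter] at h3 ⊢
      intro j
      have h4 : τ (α j (n + 1)) = zp ζ (n + 1) (c * x σ j) * α j (n + 1) := h3 j
      show τ (α j n) = zp ζ n (c * x σ j) * α j n
      rw [← hα, map_pow, h4, mul_pow, zp_sq hζ]
    have hcomp : CompactSpace (Ω ≃ₐ[F] Ω) := compactSpace_gal F Ω
    obtain ⟨τ, hτ⟩ := IsCompact.nonempty_iInter_of_sequence_nonempty_isCompact_isClosed K hmono hne
      (hcl 0).isCompact hcl
    rw [Set.mem_iInter] at hτ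
    refine ⟨τ, (hτ 0).1, ?_⟩
    funext j
    apply huniq
    intro n
    have h3 := (hτ n).2
    rw [Set.mem_iInter] at h3
    rw [Pi.smul_apply, smul_eq_mul]
    exact h3 j

end Pool.Agent.EP
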