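import Pool.Agent.EP.Gal
import Pool.Agent.EP.Z
import Pool.Agent.GoReal.Quad

/-!
# Exact pairs: `d(U)` is the number of square classes of the fixed field (MP_2429c0)

`dd (galS F Ω) U = dim V_K`, `K` the fixed field of the open subgroup `U`: Kummer theory.  `V_K → Hm U`,
`a ↦ (σ ↦ [σ √a ≠ √a])` is a bijection: injective because a class whose square root is fixed by `U` is trivial;
surjective: if `χ : U → F_2` is continuous with kernel `N`, take `y` fixed by `N`, not fixed by `U`, and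
`s = y - u y` with `χ u = 1`.  `finite_sqClass`: a tower of quadratic extensions.
-/

universe u

namespace Pool.Agent.EP

open Pool.Agent.Hhelper2 Pool.Agent.KRad

variable {F Ω : Type u} [Field F] [Field Ω] [Algebra F Ω] [QC F Ω]

namespace KumAux

/-- In a finite 2-group there are intermediate subgroups. -/
theorem exists_index {G : Type*} [Group G] (U N : Subgroup G) [N.Normal] (hN : N ≤ U) {m n : ℕ}
    (hm : N.index = 2 ^ m) (hU : U.index = 2 ^ (n + 1)) :
    ∃ U' : Subgroup G, U ≤ U' ∧ U'.index = 2 ^ n := by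
  have hfin : N.FiniteIndex := ⟨by rw [hm]; positivity⟩
  have : Finite (G ⧸ N) := inferInstance
  have : Fact (Nat.Prime 2) := ⟨Nat.prime_two⟩
  have hcard : Nat.card (G ⧸ N) = 2 ^ m := hm
  set H : Subgroup (G ⧸ N) := U.map (QuotientGroup.mk' N) with hH
  have hHi : H.index = 2 ^ (n + 1) := by
    rw [hH, Subgroup.index_map, QuotientGroup.ker_mk', sup_eq_left.2 hN,
      MonoidHom.range_eq_top.2 (QuotientGroup.mk'_surjective N), Subgroup.index_top, mul_one, hU]
  have h1 := H.card_mul_index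
  rw [hHi, hcard] at h1
  have hle : n + 1 ≤ m := by
    by_contra hcon
    have h2 : 2 ^ m < 2 ^ (n + 1) := Nat.pow_lt_pow_right (by norm_num) (by omega)
    have h3 : 0 < Nat.card H := Nat.card_pos
    nlinarith
  obtain ⟨k, rfl⟩ := Nat.exists_eq_add_of_le hle
  have hHc : Nat.card H = 2 ^ k := by
    have h4 : Nat.card H * 2 ^ (n + 1) = 2 ^ k * 2 ^ (n + 1) := by rw [h1]; ring
    exact Nat.eq_of_mul_eq_mul_right (by positivity) h4
  obtain ⟨H', hH', hle'⟩ := Sylow.exists_subgroup_card_pow_succ (p := 2) (n := k)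
    (by rw [hcard]; exact pow_dvd_pow 2 (by omega)) hHc
  have h5 := H'.card_mul_index
  rw [hH', hcard] at h5
  have h6 : H'.index = 2 ^ n := by
    have h7 : 2 ^ (k + 1) * H'.index = 2 ^ (k + 1) * 2 ^ n := by rw [h5]; ring
    exact Nat.eq_of_mul_eq_mul_left (by positivity) h7
  refine ⟨H'.comap (QuotientGroup.mk' N), ?_, ?_⟩
  · intro x hx
    exact hle' (Subgroup.mem_map_of_mem _ hx)
  · rw [Subgroup.index_comap_of_surjective _ (QuotientGroup.mk'_surjective N), h6]

theorem finite_step {K E : Type u} [Field K] [Field E] [Algebra K E] (h2 : (2 : K) ≠ 0)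
    [Finite (SqClass K)] (hfin : Module.finrank K E = 2) : Finite (SqClass E) := by
  obtain ⟨a, α, hα, hns⟩ := exists_sqrt (K := K) (E := E) h2 hfin
  obtain ⟨q, -, -⟩ := exists_QL h2 hfin a α hα hns
  exact Tower.finite_ext q.toQE

/-- The group homomorphism on square classes of an isomorphism. -/
noncomputable def cong {K L : Type u} [Field K] [Field L] (e : K ≃+* L) :
    SqClass K ≃* SqClass L :=
  QuotientGroup.congr _ _ (Units.mapEquiv e.toMulEquiv) (by
    ext x
    simp only [Subgroup.mem_map, Subgroup.mem_square]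
    constructor
    · rintro ⟨y, ⟨r, hr⟩, rfl⟩
      exact ⟨Units.mapEquiv e.toMulEquiv r, by
        rw [hr]
        exact map_mul _ r r⟩
    · rintro ⟨r, rfl⟩
      refine ⟨(Units.mapEquiv e.toMulEquiv).symm (r * r), ⟨(Units.mapEquiv e.toMulEquiv).symm r,
        map_mul _ r r⟩, ?_⟩
      exact (Units.mapEquiv e.toMulEquiv).apply_symm_apply (r * r))

end KumAux

open KumAux

/-- The square classes are carried along isomorphisms. -/
theorem dd_congr {K L : Type u} [Field K] [Field L] (e : K ≃+* L) :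
    GoReal.dd K = GoReal.dd L := by
  let f : VV K ≃+ VV L := (cong e).toAdditive
  exact LinearEquiv.finrank_eq
    { f with
      map_smul' := fun c x => ZMod.map_smul f.toAddMonoidHom c x }

/-- Square classes of a finite subextension are finite in number. -/
theorem finite_sqClass (h2 : (2 : F) ≠ 0) [Finite (SqClass F)] (K : IntermediateField F Ω)
    [FiniteDimensional F K] : Finite (SqClass K) := by
  obtain ⟨n, hn⟩ := QC.deg K inferInstance
  have key : ∀ n : ℕ, ∀ K : IntermediateField F Ω, FiniteDimensional F K →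
      Module.finrank F K = 2 ^ n → Finite (SqClass K) := by
    intro n
    induction n with
    | zero =>
      intro K hK hn
      rw [pow_zero, IntermediateField.finrank_eq_one_iff] at hn
      subst hn
      exact Finite.of_equiv _ (cong (IntermediateField.botEquiv F Ω).symm.toRingEquiv).toEquiv
    | succ n ih =>
      intro K hK hn
      have hop : (galS F Ω).Op K.fixingSubgroup := K.fixingSubgroup_isOpen
      obtain ⟨m, hm⟩ := index_isOpen (F := F) (Ω := Ω) _ (isOpen_core _ hop)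
      have hi := index_fixingSubgroup K
      rw [hn] at hi
      obtain ⟨U', hU', hi'⟩ := exists_index K.fixingSubgroup _ (Subgroup.normalCore_le _) hm hi
      obtain ⟨h3, h4, h5⟩ := finite_fixedField U' ((galS F Ω).up _ _ hop hU')
      set K' := IntermediateField.fixedField U' with hK'
      have hle : K' ≤ K := by
        rw [← InfiniteGalois.fixedField_fixingSubgroup K]
        exact IntermediateField.fixedField_antitone hU'
      have := ih K' h3 (by rw [h5, hi'])
      let _ : Algebra K' K := (IntermediateField.inclusion hle).toAlgebra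
      have : IsScalarTower F K' K := IsScalarTower.of_algebraMap_eq fun x => rfl
      refine finite_step (K := K') (E := K) ?_ ?_
      · intro h
        apply h2
        apply (algebraMap F K').injective
        rw [map_ofNat, h, map_zero]
      · have h6 := Module.finrank_mul_finrank F K' K
        rw [h5, hi', hn, pow_succ] at h6
        exact Nat.eq_of_mul_eq_mul_left (by positivity) h6
  exact key n K inferInstance hn

namespace KumAux

variable {U : Subgroup (Ω ≃ₐ[F] Ω)}

/-- `χ` is the Kummer character of the class `c` with square root `s`. -/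
def Kum (U : Subgroup (Ω ≃ₐ[F] Ω)) (c : SqClass (IntermediateField.fixedField U))
    (χ : Hm (galS F Ω) U) (s : Ω) : Prop :=
  s ≠ 0 ∧ (∃ a : (IntermediateField.fixedField U)ˣ, sqClass a = c ∧ s ^ 2 = ((a : _) : Ω)) ∧
    ∀ σ : U, (χ.1 σ = 0 ∧ (σ : Ω ≃ₐ[F] Ω) s = s) ∨ (χ.1 σ = 1 ∧ (σ : Ω ≃ₐ[F] Ω) s = -s)

omit [QC F Ω] in
theorem two_ne_big (h2 : (2 : F) ≠ 0) : (2 : Ω) ≠ 0 := by
  intro h
  apply h2
  apply (algebraMap F Ω).injective
  rw [map_ofNat, h, map_zero]

omit [QC F Ω] in
theorem neg_ne (h2 : (2 : F) ≠ 0) {s : Ω} (hs : s ≠ 0) : -s ≠ s := by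
  intro h
  have h3 : 2 * s = 0 := by linear_combination -h
  rcases mul_eq_zero.1 h3 with h4 | h4
  · exact two_ne_big h2 h4
  · exact hs h4

/-- Two roots of the same class give the same character. -/
theorem kum_unique (h2 : (2 : F) ≠ 0) {c : SqClass (IntermediateField.fixedField U)}
    {χ χ' : Hm (galS F Ω) U} {s s' : Ω} (h : Kum U c χ s) (h' : Kum U c χ' s') : χ = χ' := by
  obtain ⟨hs, ⟨a, ha, hsa⟩, h⟩ := h
  obtain ⟨hs', ⟨a', ha', hsa'⟩, h'⟩ := h'
  have h3 : sqClass (a * a') = 1 := by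
    calc sqClass (a * a') = sqClass a * sqClass a' := rfl
      _ = c * c := by rw [ha, ha']
      _ = 1 := (QuadExt.eq_iff_mul c c).1 rfl
  obtain ⟨t, ht⟩ := (QuadExt.one_iff _).1 h3
  have h5 : (s * s') ^ 2 = (t : Ω) ^ 2 := by
    rw [mul_pow, hsa, hsa']
    have := congrArg (fun x : IntermediateField.fixedField U => (x : Ω)) ht
    simpa using this
  have h6 : ∀ σ : U, (σ : Ω ≃ₐ[F] Ω) (s * s') = s * s' := by
    intro σ
    have h7 : (σ : Ω ≃ₐ[F] Ω) (t : Ω) = t :=
      (IntermediateField.mem_fixedField_iff U _).1 t.2 σ σ.2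
    rcases sq_eq_sq_iff_eq_or_eq_neg.1 h5 with h8 | h8
    · rw [h8, h7]
    · rw [h8, map_neg, h7]
  apply Subtype.ext
  funext σ
  have h7 := h6 σ
  rw [map_mul] at h7
  rcases h σ with ⟨e1, e2⟩ | ⟨e1, e2⟩ <;> rcases h' σ with ⟨e3, e4⟩ | ⟨e3, e4⟩
  · rw [e1, e3]
  · exfalso
    rw [e2, e4] at h7
    exact neg_ne h2 (mul_ne_zero hs hs') (by linear_combination h7)
  · exfalso
    rw [e2, e4] at h7
    exact neg_ne h2 (mul_ne_zero hs hs') (by linear_combination h7)
  · rw [e1, e3]

/-- The class is determined by the character. -/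
theorem kum_inj {c c' : SqClass (IntermediateField.fixedField U)}
    {χ : Hm (galS F Ω) U} {s s' : Ω} (h : Kum U c χ s) (h' : Kum U c' χ s') : c = c' := by
  obtain ⟨hs, ⟨a, rfl, hsa⟩, h⟩ := h
  obtain ⟨hs', ⟨a', rfl, hsa'⟩, h'⟩ := h'
  rw [QuadExt.eq_iff_mul]
  change sqClass (a * a') = 1
  rw [QuadExt.one_iff]
  have hmem : s * s' ∈ IntermediateField.fixedField U := by
    rw [IntermediateField.mem_fixedField_iff]
    intro σ hσ
    rw [map_mul]
    have f1 := h ⟨σ, hσ⟩
    have f2 := h' ⟨σ, hσ⟩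
    simp only at f1 f2
    rcases f1 with ⟨e1, e2⟩ | ⟨e1, e2⟩ <;> rcases f2 with ⟨e3, e4⟩ | ⟨e3, e4⟩
    · rw [e2, e4]
    · exfalso
      rw [e1] at e3
      exact absurd e3 (by decide)
    · exfalso
      rw [e1] at e3
      exact absurd e3 (by decide)
    · rw [e2, e4]; ring
  refine ⟨⟨s * s', hmem⟩, Subtype.ext ?_⟩
  change ((a : IntermediateField.fixedField U) : Ω) * ((a' : IntermediateField.fixedField U) : Ω) =
    (s * s') ^ 2
  rw [mul_pow, hsa, hsa']

/-- The stabiliser of an element is open. -/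
theorem exists_open (s : Ω) : ∃ V : Subgroup (Ω ≃ₐ[F] Ω), (galS F Ω).Op V ∧ ∀ σ ∈ V, σ s = s := by
  have hint : IsIntegral F s := Algebra.IsIntegral.isIntegral s
  have hfd : FiniteDimensional F (IntermediateField.adjoin F {s}) :=
    IntermediateField.adjoin.finiteDimensional hint
  refine ⟨(IntermediateField.adjoin F {s}).fixingSubgroup,
    (IntermediateField.adjoin F {s}).fixingSubgroup_isOpen, fun σ hσ => ?_⟩
  exact (IntermediateField.mem_fixingSubgroup_iff _ _).1 hσ s
    (IntermediateField.mem_adjoin_simple_self F s)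

theorem kum_exists_char (h2 : (2 : F) ≠ 0) (c : SqClass (IntermediateField.fixedField U)) :
    ∃ (χ : Hm (galS F Ω) U) (s : Ω), Kum U c χ s := by
  classical
  obtain ⟨a, rfl⟩ := QuadExt.exists_rep c
  obtain ⟨s, hs⟩ := QC.sq (F := F) (((a : IntermediateField.fixedField U) : Ω))
  have ha0 : ((a : IntermediateField.fixedField U) : Ω) ≠ 0 := by
    intro h
    exact a.ne_zero (Subtype.ext h)
  have hs0 : s ≠ 0 := by
    rintro rfl
    apply ha0
    rw [← hs]
    ring
  have hpm : ∀ σ : U, (σ : Ω ≃ₐ[F] Ω) s = s ∨ (σ : Ω ≃ₐ[F] Ω) s = -s := by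
    intro σ
    apply sq_eq_sq_iff_eq_or_eq_neg.1
    rw [← map_pow, hs]
    exact (IntermediateField.mem_fixedField_iff U _).1 (a : IntermediateField.fixedField U).2 σ σ.2
  obtain ⟨V, hV, hVs⟩ := exists_open (F := F) s
  refine ⟨⟨fun σ => if (σ : Ω ≃ₐ[F] Ω) s = s then 0 else 1, ?_, V, hV, ?_⟩, s, hs0, ⟨a, rfl, hs⟩,
    ?_⟩
  · intro σ τ
    have hne := neg_ne h2 hs0
    have e0 : ((σ * τ : U) : Ω ≃ₐ[F] Ω) s = (σ : Ω ≃ₐ[F] Ω) ((τ : Ω ≃ₐ[F] Ω) s) := rfl
    simp only [e0]
    rcases hpm σ with e1 | e1 <;> rcases hpm τ with e2 | e2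
    · simp [e1, e2]
    · simp [e1, e2]
    · simp [e1, e2]
    · simp only [e1, e2, map_neg, neg_neg, if_true, if_neg hne]
      decide
  · intro σ hσ
    simp only
    rw [if_pos (hVs _ hσ)]
  · intro σ
    simp only
    rcases hpm σ with e1 | e1
    · left
      rw [e1]
      simp
    · right
      rw [e1]
      simp [neg_ne h2 hs0]

theorem kum_exists_class (hU : (galS F Ω).Op U) (χ : Hm (galS F Ω) U) :
    ∃ (c : SqClass (IntermediateField.fixedField U)) (s : Ω), Kum U c χ s := by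
  obtain ⟨s, hs0, hs⟩ : ∃ s : Ω, s ≠ 0 ∧ ∀ σ : U, (χ.1 σ = 0 ∧ (σ : Ω ≃ₐ[F] Ω) s = s) ∨
      (χ.1 σ = 1 ∧ (σ : Ω ≃ₐ[F] Ω) s = -s) := by
    obtain ⟨χ, hχ, V, hV, hχV⟩ := χ
    have hχ1 : χ 1 = 0 := by
      have := hχ 1 1
      rw [mul_one] at this
      simpa using this
    have hχi : ∀ a, χ a⁻¹ = χ a := by
      intro a
      have h := hχ a⁻¹ a
      rw [inv_mul_cancel, hχ1] at h
      have h3 : ∀ x y : ZMod 2, 0 = x + y → x = y := by decide
      exact h3 _ _ h
    by_cases h0 : ∀ σ, χ σ = 0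
    · exact ⟨1, one_ne_zero, fun σ => Or.inl ⟨h0 σ, map_one _⟩⟩
    push Not at h0
    obtain ⟨u, hu⟩ := h0
    have hu1 : χ u = 1 := by
      have h3 : ∀ x : ZMod 2, x ≠ 0 → x = 1 := by decide
      exact h3 _ hu
    -- the kernel
    let N : Subgroup (Ω ≃ₐ[F] Ω) :=
      { carrier := {σ | ∃ h : σ ∈ U, χ ⟨σ, h⟩ = 0}
        one_mem' := ⟨U.one_mem, hχ1⟩
        mul_mem' := by
          rintro a b ⟨ha, ha'⟩ ⟨hb, hb'⟩
          refine ⟨U.mul_mem ha hb, ?_⟩
          have := hχ ⟨a, ha⟩ ⟨b, hb⟩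
          rw [ha', hb', add_zero] at this
          exact this
        inv_mem' := by
          rintro a ⟨ha, ha'⟩
          refine ⟨U.inv_mem ha, ?_⟩
          have := hχi ⟨a, ha⟩
          rw [ha'] at this
          exact this }
    have hNop : (galS F Ω).Op N := by
      refine (galS F Ω).up (U ⊓ V) N ((galS F Ω).inf U V hU hV) ?_
      rintro σ ⟨h1, h3⟩
      exact ⟨h1, hχV ⟨σ, h1⟩ h3⟩
    have huN : (u : Ω ≃ₐ[F] Ω) ∉ N := by
      rintro ⟨_, h⟩
      exact hu h
    obtain ⟨-, hfix, -⟩ := finite_fixedField N hNop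
    obtain ⟨y, hyN, hyu⟩ : ∃ y ∈ IntermediateField.fixedField N, (u : Ω ≃ₐ[F] Ω) y ≠ y := by
      by_contra hcon
      push Not at hcon
      apply huN
      rw [← hfix, IntermediateField.mem_fixingSubgroup_iff]
      exact hcon
    have hyN' : ∀ σ : U, χ σ = 0 → (σ : Ω ≃ₐ[F] Ω) y = y := fun σ hσ =>
      (IntermediateField.mem_fixedField_iff N _).1 hyN σ ⟨σ.2, hσ⟩
    have act : ∀ (σ τ : U), (σ : Ω ≃ₐ[F] Ω) ((τ : Ω ≃ₐ[F] Ω) y) = ((σ * τ : U) : Ω ≃ₐ[F] Ω) y :=
      fun σ τ => rfl
    have h01 : ∀ x : ZMod 2, x = 0 ∨ x = 1 := by decide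
    have key : ∀ σ : U, χ σ = 1 → (σ : Ω ≃ₐ[F] Ω) y = (u : Ω ≃ₐ[F] Ω) y := by
      intro σ hσ
      have h3 : ((u⁻¹ * σ : U) : Ω ≃ₐ[F] Ω) y = y := by
        apply hyN'
        rw [hχ, hχi, hu1, hσ]
        decide
      have h4 := congrArg (u : Ω ≃ₐ[F] Ω) h3
      rw [act, mul_inv_cancel_left] at h4
      exact h4
    refine ⟨y - (u : Ω ≃ₐ[F] Ω) y, sub_ne_zero.2 (Ne.symm hyu), fun σ => ?_⟩
    simp only
    rcases h01 (χ σ) with h3 | h3
    · left
      refine ⟨h3, ?_⟩
      rw [map_sub, act, hyN' σ h3, key (σ * u) (by rw [hχ, h3, hu1, zero_add])]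
    · right
      refine ⟨h3, ?_⟩
      rw [map_sub, act, key σ h3, hyN' (σ * u) (by rw [hχ, h3, hu1]; decide)]
      ring
  have hmem : s ^ 2 ∈ IntermediateField.fixedField U := by
    rw [IntermediateField.mem_fixedField_iff]
    intro σ hσ
    rw [map_pow]
    rcases hs ⟨σ, hσ⟩ with ⟨-, e⟩ | ⟨-, e⟩
    · simp only at e
      rw [e]
    · simp only at e
      rw [e]
      ring
  have hne : (⟨s ^ 2, hmem⟩ : IntermediateField.fixedField U) ≠ 0 := by
    intro h
    exact pow_ne_zero 2 hs0 (congrArg Subtype.val h)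
  exact ⟨sqClass (Units.mk0 ⟨s ^ 2, hmem⟩ hne), s, hs0, ⟨_, rfl, rfl⟩, hs⟩

end KumAux

theorem dd_eq (h2 : (2 : F) ≠ 0) [Finite (SqClass F)] {U : Subgroup (Ω ≃ₐ[F] Ω)}
    (hU : (galS F Ω).Op U) : dd (galS F Ω) U = GoReal.dd (IntermediateField.fixedField U) := by
  obtain ⟨hfd, -, -⟩ := finite_fixedField U hU
  have hfin := finite_sqClass h2 (IntermediateField.fixedField U)
  choose f s hf using kum_exists_char (U := U) h2
  have hbij : Function.Bijective f := by
    constructor
    · intro c c' h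
      have h3 := hf c
      rw [h] at h3
      exact kum_inj h3 (hf c')
    · intro χ
      obtain ⟨c, s', hc⟩ := kum_exists_class hU χ
      exact ⟨c, kum_unique h2 (hf c) hc⟩
  have hfin' : Finite (Hm (galS F Ω) U) := Finite.of_surjective f hbij.2
  have h3 : Nat.card (Hm (galS F Ω) U) = Nat.card (VV (IntermediateField.fixedField U)) :=
    (Nat.card_congr (Equiv.ofBijective f hbij)).symm
  rw [natCard_eq_pow, natCard_eq_pow] at h3
  exact Nat.pow_right_injective le_rfl h3

end Pool.Agent.EP
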