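import Pool.Agent.EP.LayTop

/-!
# Exact pairs: the Kummer layers (MP_2429c0, section 3)

`Ω / F` is a Galois extension, `i ∈ F`, every element of `Ω` is a square, all open subgroups of `Gal(Ω/F)` have index a
power of two.  `NN Λ` is the group of all automorphisms that fix every `z` with `z ^ 2 ^ n ∈ Λ` for some `n`.

* `ladder`, `ladder_compact`: if `z (n + 1) ^ 2 = z n` and `A` fixes `i` and `z 0`, then `A` acts on the sequence `z`
  through powers of one element.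
* `kummer_layer`: `A` fixes the roots of unity of 2-power order and the elements of `Λ`, then `A / NN Λ` is a layer.
* `cyc_layer`: the cyclotomic layer.
-/

namespace Pool.Agent.EP.Kum

open Pool.Agent.EP

variable {F Ω : Type*} [Field F] [Field Ω] [Algebra F Ω]

section Ladder

variable {A : Subgroup Gal(Ω/F)} {i : Ω} {z : ℕ → Ω}

theorem sq_eq {x y : Ω} (h : x ^ 2 = y ^ 2) : x = y ∨ x = -y := sq_eq_sq_iff_eq_or_eq_neg.1 h

/-- `A` acts on a sequence of square roots through powers of one element. -/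
theorem ladder (hi : i ^ 2 = -1) (hAi : ∀ a ∈ A, a i = i) (hz : ∀ n, z (n + 1) ^ 2 = z n)
    (hA0 : ∀ a ∈ A, a (z 0) = z 0) :
    ∃ a₀ ∈ A, ∀ N, ∀ b ∈ A, ∃ c : ℕ, b (z N) = (a₀ ^ c : Gal(Ω/F)) (z N) := by
  classical
  by_cases hex : ∃ n, ∃ a ∈ A, a (z n) ≠ z n
  · obtain ⟨a₀, ha₀, hne⟩ := Nat.find_spec hex
    have hmin : ∀ m, m < Nat.find hex → ∀ a ∈ A, a (z m) = z m := by
      intro m hm a ha
      by_contra h
      exact Nat.find_min hex hm ⟨a, ha, h⟩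
    obtain ⟨n₀, hn₀⟩ : ∃ n₀, Nat.find hex = n₀ + 1 := by
      rcases Nat.eq_zero_or_pos (Nat.find hex) with h | h
      · exfalso
        rw [h] at hne
        exact hne (hA0 _ ha₀)
      · exact ⟨Nat.find hex - 1, by omega⟩
    rw [hn₀] at hne hmin
    have hpm : ∀ b ∈ A, b (z (n₀ + 1)) = z (n₀ + 1) ∨ b (z (n₀ + 1)) = -z (n₀ + 1) := by
      intro b hb
      apply sq_eq
      rw [← map_pow, hz]
      exact hmin n₀ (by omega) b hb
    have hK : ∀ k, (a₀ ^ 2 ^ k : Gal(Ω/F)) (z (n₀ + 1 + k)) = -z (n₀ + 1 + k) := by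
      intro k
      induction k with
      | zero => simpa using (hpm a₀ ha₀).resolve_left hne
      | succ k ih =>
        set b : Gal(Ω/F) := a₀ ^ 2 ^ k with hb
        have hbA : b ∈ A := A.pow_mem ha₀ _
        set w := z (n₀ + 1 + (k + 1)) with hw
        have hw2 : w ^ 2 = z (n₀ + 1 + k) := hz _
        have h1 : (b w) ^ 2 = (i * w) ^ 2 := by
          rw [← map_pow, hw2, ih, mul_pow, hi, hw2, neg_one_mul]
        have h2 : (a₀ ^ 2 ^ (k + 1) : Gal(Ω/F)) = b * b := by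
          rw [hb, ← pow_add]
          congr 1
          ring
        rw [h2, AlgEquiv.mul_apply]
        rcases sq_eq h1 with h3 | h3
        · rw [h3, map_mul, hAi b hbA, h3, ← mul_assoc, ← pow_two, hi, neg_one_mul]
        · rw [h3, map_neg, map_mul, hAi b hbA, h3, mul_neg, neg_neg, ← mul_assoc, ← pow_two, hi,
            neg_one_mul]
    refine ⟨a₀, ha₀, fun N b hb => ?_⟩
    rcases Nat.lt_or_ge N (n₀ + 1) with hN | hN
    · exact ⟨0, by rw [hmin N hN b hb]; rfl⟩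
    · obtain ⟨k, rfl⟩ := Nat.exists_eq_add_of_le hN
      clear hN
      induction k with
      | zero =>
        rcases hpm b hb with h | h
        · exact ⟨0, by rw [add_zero, h]; rfl⟩
        · refine ⟨1, ?_⟩
          have := hK 0
          rw [pow_zero] at this
          rw [this]
          exact h
      | succ k ih =>
        obtain ⟨c, hc⟩ := ih
        set w := z (n₀ + 1 + (k + 1)) with hw
        have hw2 : w ^ 2 = z (n₀ + 1 + k) := hz _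
        have h1 : (b w) ^ 2 = ((a₀ ^ c : Gal(Ω/F)) w) ^ 2 := by
          rw [← map_pow, ← map_pow, hw2, hc]
        rcases sq_eq h1 with h3 | h3
        · exact ⟨c, h3⟩
        · refine ⟨c + 2 ^ (k + 1), ?_⟩
          rw [pow_add, AlgEquiv.mul_apply, hK (k + 1), map_neg]
          exact h3
  · push Not at hex
    exact ⟨1, A.one_mem, fun N b hb => ⟨0, by rw [hex N b hb]; rfl⟩⟩

end Ladder

section Compact

variable [IsGalois F Ω]

theorem isOpen_fix (x : Ω) : IsOpen {s : Gal(Ω/F) | s x = x} := stabilizer_isOpen_of_isIntegral x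

theorem isClosed_fix (x : Ω) : IsClosed {s : Gal(Ω/F) | s x = x} :=
  (MulAction.stabilizer Gal(Ω/F) x).isClosed_of_isOpen (isOpen_fix x)

variable {A : Subgroup Gal(Ω/F)} {i : Ω} {z : ℕ → Ω}

theorem ladder_compact (hAc : IsClosed (A : Set Gal(Ω/F))) (hi : i ^ 2 = -1)
    (hAi : ∀ a ∈ A, a i = i) (hz : ∀ n, z (n + 1) ^ 2 = z n) (hA0 : ∀ a ∈ A, a (z 0) = z 0) :
    ∃ T : Finset Gal(Ω/F), (∀ t ∈ T, t ∈ A) ∧ ∀ b ∈ A, ∃ t ∈ T, ∃ c ∈ A, ∃ b' ∈ A,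
      (∀ n, b' (z n) = z n) ∧ b = t * c ^ 2 * b' := by
  classical
  obtain ⟨a₀, ha₀, hl⟩ := ladder hi hAi hz hA0
  refine ⟨{1, a₀}, ?_, fun b hb => ?_⟩
  · intro t ht
    rw [Finset.mem_insert, Finset.mem_singleton] at ht
    rcases ht with rfl | rfl
    · exact A.one_mem
    · exact ha₀
  · set K : ℕ → Set (Gal(Ω/F) × Gal(Ω/F)) := fun N =>
      {p | (p.1 ∈ (({1, a₀} : Finset Gal(Ω/F)) : Set Gal(Ω/F)) ∧ p.2 ∈ A) ∧
        ((p.1 * p.2 ^ 2)⁻¹ * b) (z N) = z N} with hKdef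
    have hcl : ∀ N, IsClosed (K N) := by
      intro N
      refine IsClosed.inter (IsClosed.inter ?_ ?_) ?_
      · exact ((Finset.finite_toSet ({1, a₀} : Finset Gal(Ω/F))).isClosed).preimage continuous_fst
      · exact hAc.preimage continuous_snd
      · have hf : Continuous fun p : Gal(Ω/F) × Gal(Ω/F) => (p.1 * p.2 ^ 2)⁻¹ * b := by fun_prop
        exact (isClosed_fix (F := F) (z N)).preimage hf
    have hne : ∀ N, (K N).Nonempty := by
      intro N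
      obtain ⟨c, hc⟩ := hl N b hb
      obtain ⟨m, hm⟩ : ∃ m, c = 2 * m ∨ c = 2 * m + 1 := ⟨c / 2, by omega⟩
      rcases hm with rfl | rfl
      · refine ⟨(1, a₀ ^ m), ⟨by simp, A.pow_mem ha₀ _⟩, ?_⟩
        show ((1 * (a₀ ^ m) ^ 2)⁻¹ * b : Gal(Ω/F)) (z N) = z N
        rw [AlgEquiv.mul_apply, hc, one_mul, ← pow_mul, mul_comm m 2, ← AlgEquiv.mul_apply,
          inv_mul_cancel, AlgEquiv.one_apply]
      · refine ⟨(a₀, a₀ ^ m), ⟨by simp, A.pow_mem ha₀ _⟩, ?_⟩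
        show ((a₀ * (a₀ ^ m) ^ 2)⁻¹ * b : Gal(Ω/F)) (z N) = z N
        rw [AlgEquiv.mul_apply, hc, ← pow_mul, mul_comm m 2, ← pow_succ', ← AlgEquiv.mul_apply,
          inv_mul_cancel, AlgEquiv.one_apply]
    have hmono : ∀ N, K (N + 1) ⊆ K N := by
      rintro N p ⟨hp1, hp2⟩
      refine ⟨hp1, ?_⟩
      rw [← hz N, map_pow, hp2]
    obtain ⟨p, hp⟩ := IsCompact.nonempty_iInter_of_sequence_nonempty_isCompact_isClosed K hmono hne
      (hcl 0).isCompact hcl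
    rw [Set.mem_iInter] at hp
    obtain ⟨⟨hp1, hp2⟩, -⟩ := hp 0
    refine ⟨p.1, hp1, p.2, hp2, (p.1 * p.2 ^ 2)⁻¹ * b, ?_, fun n => (hp n).2, by group⟩
    refine A.mul_mem (A.inv_mem (A.mul_mem ?_ (A.pow_mem hp2 2))) hb
    rw [Finset.mem_coe, Finset.mem_insert, Finset.mem_singleton] at hp1
    rcases hp1 with h | h
    · rw [h]; exact A.one_mem
    · rw [h]; exact ha₀

end Compact

section Kummer

/-- The automorphisms that fix all `z` with `z ^ 2 ^ n ∈ Λ` for some `n`. -/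
def NN (F : Type*) {Ω : Type*} [Field F] [Field Ω] [Algebra F Ω] (Λ : Set Ω) : Subgroup Gal(Ω/F) where
  carrier := {s | ∀ (z : Ω) (n : ℕ), z ^ 2 ^ n ∈ Λ → s z = z}
  one_mem' := fun _ _ _ => rfl
  mul_mem' := by
    intro a b ha hb z n hz
    rw [AlgEquiv.mul_apply, hb z n hz, ha z n hz]
  inv_mem' := by
    intro a ha z n hz
    have h := ha z n hz
    calc a⁻¹ z = a⁻¹ (a z) := by rw [h]
      _ = z := by rw [← AlgEquiv.mul_apply, inv_mul_cancel, AlgEquiv.one_apply]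

theorem mem_NN {Λ : Set Ω} {s : Gal(Ω/F)} :
    s ∈ NN F Λ ↔ ∀ (z : Ω) (n : ℕ), z ^ 2 ^ n ∈ Λ → s z = z := Iff.rfl

theorem NN_mono {Λ Λ' : Set Ω} (h : Λ ⊆ Λ') : NN F Λ' ≤ NN F Λ :=
  fun _ hs z n hz => hs z n (h hz)

theorem NN_fix {Λ : Set Ω} {s : Gal(Ω/F)} (hs : s ∈ NN F Λ) {x : Ω} (hx : x ∈ Λ) : s x = x :=
  hs x 0 (by simpa using hx)

theorem NN_normal {Λ : Set Ω} (hΛ : ∀ (g : Gal(Ω/F)), ∀ x ∈ Λ, g x ∈ Λ) : (NN F Λ).Normal := by
  constructor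
  intro s hs g z n hz
  have h1 : (g⁻¹ z) ^ 2 ^ n ∈ Λ := by
    rw [← map_pow]
    exact hΛ _ _ hz
  rw [AlgEquiv.mul_apply, AlgEquiv.mul_apply, hs _ n h1, ← AlgEquiv.mul_apply, mul_inv_cancel,
    AlgEquiv.one_apply]

theorem NN_closed [IsGalois F Ω] (Λ : Set Ω) : IsClosed (NN F Λ : Set Gal(Ω/F)) := by
  have h : (NN F Λ : Set Gal(Ω/F)) =
      ⋂ (z : Ω) (n : ℕ) (_ : z ^ 2 ^ n ∈ Λ), {s : Gal(Ω/F) | s z = z} := by
    ext s
    simp only [Set.mem_iInter, SetLike.mem_coe, mem_NN]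
    rfl
  rw [h]
  exact isClosed_iInter fun z => isClosed_iInter fun n => isClosed_iInter fun _ => isClosed_fix z

variable {A : Subgroup Gal(Ω/F)} {Λ : Set Ω}

/-- The standing hypotheses for the Kummer layer. -/
structure KHyp (A : Subgroup Gal(Ω/F)) (Λ : Set Ω) : Prop where
  root : ∀ a ∈ A, ∀ (ζ : Ω) (n : ℕ), ζ ^ 2 ^ n = 1 → a ζ = ζ
  fix : ∀ a ∈ A, ∀ x ∈ Λ, a x = x
  zero : (0 : Ω) ∈ Λ
  neg : ∀ x ∈ Λ, -x ∈ Λ

theorem KHyp.exists_root (h : KHyp A Λ) {a : Gal(Ω/F)} (ha : a ∈ A) {z : Ω} {n : ℕ}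
    (hz : z ^ 2 ^ n ∈ Λ) : ∃ ζ : Ω, ζ ^ 2 ^ n = 1 ∧ a z = ζ * z := by
  by_cases hz0 : z = 0
  · exact ⟨1, one_pow _, by rw [hz0, map_zero, mul_zero]⟩
  · refine ⟨a z / z, ?_, (div_mul_cancel₀ _ hz0).symm⟩
    rw [div_pow, ← map_pow, h.fix a ha _ hz, div_self (pow_ne_zero _ hz0)]

theorem KHyp.comm (h : KHyp A Λ) {a b : Gal(Ω/F)} (ha : a ∈ A) (hb : b ∈ A) :
    a * b * a⁻¹ * b⁻¹ ∈ NN F Λ := by
  intro z n hz
  have key : ∀ w : Ω, w ^ 2 ^ n ∈ Λ → a (b w) = b (a w) := by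
    intro w hw
    obtain ⟨ζ, hζ, hζ'⟩ := h.exists_root ha hw
    obtain ⟨ξ, hξ, hξ'⟩ := h.exists_root hb hw
    rw [hζ', hξ', map_mul, map_mul, h.root a ha ξ n hξ, h.root b hb ζ n hζ, hζ', hξ']
    ring
  have hw : ((a⁻¹ * b⁻¹ : Gal(Ω/F)) z) ^ 2 ^ n ∈ Λ := by
    rw [← map_pow, h.fix _ (A.mul_mem (A.inv_mem ha) (A.inv_mem hb)) _ hz]
    exact hz
  have h1 := key _ hw
  have h2 : (a * b * a⁻¹ * b⁻¹ : Gal(Ω/F)) z = a (b ((a⁻¹ * b⁻¹ : Gal(Ω/F)) z)) := by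
    simp only [← AlgEquiv.mul_apply, mul_assoc]
  have h3 : (b * a * (a⁻¹ * b⁻¹) : Gal(Ω/F)) z = b (a ((a⁻¹ * b⁻¹ : Gal(Ω/F)) z)) := by
    simp only [← AlgEquiv.mul_apply, mul_assoc]
  rw [h2, h1, ← h3]
  have : b * a * (a⁻¹ * b⁻¹) = 1 := by group
  rw [this, AlgEquiv.one_apply]

theorem KHyp.tf (h : KHyp A Λ) (hsq : ∀ x : Ω, ∃ y, y ^ 2 = x) {a : Gal(Ω/F)} (ha : a ∈ A)
    (h2 : a ^ 2 ∈ NN F Λ) : a ∈ NN F Λ := by
  intro z n hz
  by_cases hz0 : z = 0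
  · rw [hz0, map_zero]
  obtain ⟨w, hw⟩ := hsq z
  have hw0 : w ≠ 0 := by
    rintro rfl
    exact hz0 (by rw [← hw]; ring)
  have hwΛ : w ^ 2 ^ (n + 1) ∈ Λ := by
    rw [pow_succ', pow_mul, hw]
    exact hz
  obtain ⟨ζ, hζ, hζ'⟩ := h.exists_root ha hwΛ
  have h3 := h2 w (n + 1) hwΛ
  rw [pow_two, AlgEquiv.mul_apply, hζ', map_mul, h.root a ha ζ _ hζ, hζ', ← mul_assoc] at h3
  have h4 : ζ * ζ = 1 := mul_right_cancel₀ hw0 (by rw [h3, one_mul])
  rw [← hw, map_pow, hζ', mul_pow, pow_two ζ, h4, one_mul]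

/-- `NN Λ` is cut out by the square root sequences of representatives of the square classes. -/
theorem KHyp.mem_NN_of_seq (h : KHyp A Λ) {X : Finset Ω}
    (hX : ∀ y ∈ Λ, y ≠ 0 → ∃ x ∈ X, ∃ u ∈ Λ, y = x * u ^ 2) {zz : Ω → ℕ → Ω}
    (hz : ∀ x n, zz x (n + 1) ^ 2 = zz x n) (hz0 : ∀ x, zz x 0 = x) {s : Gal(Ω/F)} (hs : s ∈ A)
    (hfix : ∀ x ∈ X, ∀ n, s (zz x n) = zz x n) : s ∈ NN F Λ := by
  have hpow : ∀ x n, zz x n ^ 2 ^ n = x := by
    intro x n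
    induction n with
    | zero => simp [hz0]
    | succ n ih => rw [pow_succ', pow_mul, hz, ih]
  intro z n
  induction n generalizing z with
  | zero =>
    intro hz1
    rw [pow_zero, pow_one] at hz1
    exact h.fix s hs z hz1
  | succ n ih =>
    intro hz1
    by_cases hz2 : z = 0
    · rw [hz2, map_zero]
    obtain ⟨x, hx, u, hu, hxu⟩ := hX _ hz1 (pow_ne_zero _ hz2)
    have hx0 : x ≠ 0 := by
      rintro rfl
      rw [zero_mul] at hxu
      exact hz2 (pow_eq_zero_iff (by positivity) |>.1 hxu)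
    set w := zz x (n + 1) with hw
    have hwp : w ^ 2 ^ (n + 1) = x := hpow x (n + 1)
    have hw0 : w ≠ 0 := by
      intro h0
      rw [h0, zero_pow (by positivity)] at hwp
      exact hx0 hwp.symm
    have h1 : ((z / w) ^ 2 ^ n) ^ 2 = u ^ 2 := by
      rw [← pow_mul, ← pow_succ, div_pow, hwp, hxu, mul_div_cancel_left₀ _ hx0]
    have h2 : (z / w) ^ 2 ^ n ∈ Λ := by
      rcases sq_eq h1 with h3 | h3
      · rw [h3]; exact hu
      · rw [h3]; exact h.neg _ hu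
    have h3 := ih _ h2
    rw [map_div₀, hfix x hx (n + 1)] at h3
    exact (div_left_inj' hw0).1 h3

/-- Devissage. -/
theorem KHyp.fin [IsGalois F Ω] (h : KHyp A Λ) (hA : IsClosed (A : Set Gal(Ω/F)))
    (hΛ : ∀ (g : Gal(Ω/F)), ∀ x ∈ Λ, g x ∈ Λ) {i : Ω} (hi : i ^ 2 = -1)
    {zz : Ω → ℕ → Ω} (hz : ∀ x n, zz x (n + 1) ^ 2 = zz x n) (hz0 : ∀ x, zz x 0 = x)
    (l : List Ω) (hl : ∀ x ∈ l, x ∈ Λ) :
    ∃ T : Finset Gal(Ω/F), (∀ t ∈ T, t ∈ A) ∧ ∀ a ∈ A, ∃ t ∈ T, ∃ c ∈ A, ∃ a' ∈ A,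
      (∀ x ∈ l, ∀ n, a' (zz x n) = zz x n) ∧ ∃ b ∈ NN F Λ, a = t * c ^ 2 * a' * b := by
  classical
  have hBn : (NN F Λ).Normal := NN_normal hΛ
  induction l with
  | nil =>
    refine ⟨{1}, by simp, fun a ha => ⟨1, by simp, 1, A.one_mem, a, ha, by simp, 1,
      Subgroup.one_mem _, by group⟩⟩
  | cons x l ih =>
    obtain ⟨T, hT, hT'⟩ := ih fun y hy => hl y (List.mem_cons_of_mem _ hy)
    -- the group of automorphisms that fix the sequences of `l`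
    let A' : Subgroup Gal(Ω/F) := {
      carrier := {a | a ∈ A ∧ ∀ y ∈ l, ∀ n, a (zz y n) = zz y n}
      one_mem' := ⟨A.one_mem, fun _ _ _ => rfl⟩
      mul_mem' := by
        rintro a b ⟨ha, ha'⟩ ⟨hb, hb'⟩
        refine ⟨A.mul_mem ha hb, fun y hy n => ?_⟩
        rw [AlgEquiv.mul_apply, hb' y hy n, ha' y hy n]
      inv_mem' := by
        rintro a ⟨ha, ha'⟩
        refine ⟨A.inv_mem ha, fun y hy n => ?_⟩
        calc a⁻¹ (zz y n) = a⁻¹ (a (zz y n)) := by rw [ha' y hy n]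
          _ = zz y n := by rw [← AlgEquiv.mul_apply, inv_mul_cancel, AlgEquiv.one_apply] }
    have hA'c : IsClosed (A' : Set Gal(Ω/F)) := by
      have : (A' : Set Gal(Ω/F)) = (A : Set Gal(Ω/F)) ∩
          ⋂ (y : Ω) (_ : y ∈ l) (n : ℕ), {s : Gal(Ω/F) | s (zz y n) = zz y n} := by
        ext s
        simp only [Set.mem_inter_iff, Set.mem_iInter, SetLike.mem_coe]
        rfl
      rw [this]
      exact hA.inter (isClosed_iInter fun y => isClosed_iInter fun _ => isClosed_iInter fun n =>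
        isClosed_fix _)
    have hi4 : ∀ a ∈ A', a i = i := by
      intro a ha
      refine h.root a ha.1 i 2 ?_
      have : i ^ 2 ^ 2 = (i ^ 2) ^ 2 := by ring
      rw [this, hi]
      ring
    obtain ⟨T₁, hT₁, hT₁'⟩ := ladder_compact hA'c hi hi4 (hz x) (fun a ha => by
      rw [hz0]
      exact h.fix a ha.1 x (hl x List.mem_cons_self))
    refine ⟨(T ×ˢ T₁).image fun p => p.1 * p.2, ?_, fun a ha => ?_⟩
    · intro t ht
      obtain ⟨p, hp, rfl⟩ := Finset.mem_image.1 ht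
      rw [Finset.mem_product] at hp
      exact A.mul_mem (hT _ hp.1) (hT₁ _ hp.2).1
    · obtain ⟨t, ht, c, hc, a', ha', hfix, b, hb, hab⟩ := hT' a ha
      obtain ⟨t₁, ht₁, c₁, hc₁, a'', ha'', hfix₁, hab₁⟩ := hT₁' a' ⟨ha', hfix⟩
      have ht₁A : t₁ ∈ A := (hT₁ _ ht₁).1
      have hcomm : ∀ x ∈ A, ∀ y ∈ A, ((x : Gal(Ω/F)) : Gal(Ω/F) ⧸ NN F Λ) * (y : Gal(Ω/F)) =
          (y : Gal(Ω/F)) * (x : Gal(Ω/F)) := by
        intro x hx y hy
        rw [← QuotientGroup.mk_mul, ← QuotientGroup.mk_mul, QuotientGroup.eq]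
        have := h.comm (A.inv_mem hy) (A.inv_mem hx)
        simpa [mul_assoc] using this
      have e1 : ((a : Gal(Ω/F)) : Gal(Ω/F) ⧸ NN F Λ) =
          ((t * t₁ * (c * c₁) ^ 2 * a'' : Gal(Ω/F)) : Gal(Ω/F) ⧸ NN F Λ) := by
        rw [hab, hab₁]
        simp only [QuotientGroup.mk_mul, QuotientGroup.mk_pow]
        rw [(QuotientGroup.eq_one_iff b).2 hb, mul_one]
        have h1 := hcomm c hc t₁ ht₁A
        have h2 := hcomm c hc c₁ hc₁.1
        generalize ((c : Gal(Ω/F)) : Gal(Ω/F) ⧸ NN F Λ) = C at *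
        generalize ((t₁ : Gal(Ω/F)) : Gal(Ω/F) ⧸ NN F Λ) = T1 at *
        generalize ((c₁ : Gal(Ω/F)) : Gal(Ω/F) ⧸ NN F Λ) = C1 at *
        have h3 : C ^ 2 * T1 = T1 * C ^ 2 := (Commute.pow_left (h1 : Commute C T1) 2).eq
        have h4 : (C * C1) ^ 2 = C ^ 2 * C1 ^ 2 := Commute.mul_pow h2 2
        rw [h4]
        simp only [mul_assoc]
        rw [← mul_assoc (C ^ 2) T1, h3]
        simp only [mul_assoc]
      refine ⟨t * t₁, Finset.mem_image.2 ⟨(t, t₁), Finset.mem_product.2 ⟨ht, ht₁⟩, rfl⟩, c * c₁,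
        A.mul_mem hc hc₁.1, a'', ha''.1, ?_, (t * t₁ * (c * c₁) ^ 2 * a'')⁻¹ * a,
        QuotientGroup.eq.1 e1.symm, by group⟩
      intro y hy n
      rcases List.mem_cons.1 hy with rfl | hy
      · exact hfix₁ n
      · exact ha''.2 y hy n

/-- **The Kummer layer.** -/
theorem kummer_layer [IsGalois F Ω] (S : OSys Gal(Ω/F))
    (hS : ∀ U : Subgroup Gal(Ω/F), S.Op U ↔ IsOpen (U : Set Gal(Ω/F)))
    (hsq : ∀ x : Ω, ∃ y, y ^ 2 = x) (h : KHyp A Λ) (hA : IsClosed (A : Set Gal(Ω/F)))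
    (hAn : A.Normal) (hΛ : ∀ (g : Gal(Ω/F)), ∀ x ∈ Λ, g x ∈ Λ) (hle : NN F Λ ≤ A)
    (X : Finset Ω) (hXΛ : ∀ x ∈ X, x ∈ Λ)
    (hX : ∀ y ∈ Λ, y ≠ 0 → ∃ x ∈ X, ∃ u ∈ Λ, y = x * u ^ 2) :
    ∃ k : ℕ, Nonempty (Layer S A (NN F Λ) k) := by
  classical
  choose sq hsq' using hsq
  obtain ⟨i, hi⟩ : ∃ i : Ω, i ^ 2 = -1 := ⟨_, hsq' (-1)⟩
  set zz : Ω → ℕ → Ω := fun x n => Nat.rec x (fun _ y => sq y) n with hzz
  have hz : ∀ x n, zz x (n + 1) ^ 2 = zz x n := fun x n => hsq' _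
  have hz0 : ∀ x, zz x 0 = x := fun x => rfl
  obtain ⟨T, hT, hT'⟩ := h.fin hA hΛ hi hz hz0 X.toList fun x hx => hXΛ x (Finset.mem_toList.1 hx)
  refine Lay.exists_layer S hS hAn (NN_normal hΛ) hA (NN_closed Λ) hle
    (fun a ha b hb => h.comm ha hb) (fun a ha h2 => h.tf (fun x => ⟨_, hsq' x⟩) ha h2) T ?_
  intro a ha
  obtain ⟨t, ht, c, hc, a', ha', hfix, b, hb, hab⟩ := hT' a ha
  refine ⟨t, ht, c, hc, a' * b, (NN F Λ).mul_mem ?_ hb, by rw [hab]; group⟩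
  exact h.mem_NN_of_seq hX hz hz0 ha' fun x hx => hfix x (Finset.mem_toList.2 hx)

end Kummer

section Cyc

theorem primitive_seq (h2 : (2 : Ω) ≠ 0) {i : Ω} (hi : i ^ 2 = -1) {z : ℕ → Ω} (hz0 : z 0 = i)
    (hz : ∀ n, z (n + 1) ^ 2 = z n) (n : ℕ) : IsPrimitiveRoot (z n) (2 ^ (n + 2)) := by
  have hpow : ∀ n, z n ^ 2 ^ n = i := by
    intro n
    induction n with
    | zero => simp [hz0]
    | succ n ih => rw [pow_succ', pow_mul, hz, ih]
  have h1 : z n ^ 2 ^ (n + 1) = -1 := by rw [pow_succ, pow_mul, hpow, hi]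
  have h3 : z n ^ 2 ^ (n + 1 + 1) = 1 := by
    rw [pow_succ, pow_mul, h1]
    ring
  have h4 : (-1 : Ω) ≠ 1 := by
    intro h
    apply h2
    have : (1 : Ω) - (-1) = 0 := by rw [h]; ring
    rw [← this]
    ring
  rw [← orderOf_eq_prime_pow (p := 2) (n := n + 1) (by rw [h1]; exact h4) h3]
  exact IsPrimitiveRoot.orderOf _

/-- The 2-power roots of unity are fixed if a coherent sequence of primitive ones is. -/
theorem mem_NN_one_of_seq (h2 : (2 : Ω) ≠ 0) {i : Ω} (hi : i ^ 2 = -1) {z : ℕ → Ω} (hz0 : z 0 = i)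
    (hz : ∀ n, z (n + 1) ^ 2 = z n) {s : Gal(Ω/F)} (hs : ∀ n, s (z n) = z n) :
    s ∈ NN F ({1} : Set Ω) := by
  intro ζ n hζ
  rw [Set.mem_singleton_iff] at hζ
  have hp := primitive_seq h2 hi hz0 hz n
  have hζ' : ζ ^ 2 ^ (n + 2) = 1 := by rw [pow_add, pow_mul, hζ, one_pow]
  have : NeZero (2 ^ (n + 2)) := ⟨by positivity⟩
  obtain ⟨j, -, rfl⟩ := hp.eq_pow_of_pow_eq_one hζ'
  rw [map_pow, hs]

theorem root_pow (s : Gal(Ω/F)) {ζ : Ω} {n : ℕ} (hζ : ζ ^ 2 ^ n = 1) : ∃ m : ℕ, s ζ = ζ ^ m := by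
  have : NeZero (2 ^ n) := ⟨by positivity⟩
  obtain ⟨m, hm⟩ := map_rootsOfUnity_eq_pow_self s (rootsOfUnity.mkOfPowEq ζ hζ)
  exact ⟨m, by simpa using hm⟩

/-- **The cyclotomic layer.** -/
theorem cyc_layer [IsGalois F Ω] (S : OSys Gal(Ω/F))
    (hS : ∀ U : Subgroup Gal(Ω/F), S.Op U ↔ IsOpen (U : Set Gal(Ω/F)))
    (hsq : ∀ x : Ω, ∃ y, y ^ 2 = x) (h2 : (2 : Ω) ≠ 0) (hF : ∃ i : F, i ^ 2 = -1) :
    ∃ k : ℕ, Nonempty (Layer S ⊤ (NN F ({1} : Set Ω)) k) := by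
  classical
  choose sq hsq' using hsq
  obtain ⟨i, hi⟩ := hF
  have hi' : (algebraMap F Ω i) ^ 2 = -1 := by rw [← map_pow, hi, map_neg, map_one]
  have hfi : ∀ a : Gal(Ω/F), a (algebraMap F Ω i) = algebraMap F Ω i := fun a => a.commutes i
  obtain ⟨z, hz, hz0⟩ : ∃ z : ℕ → Ω, (∀ n, z (n + 1) ^ 2 = z n) ∧ z 0 = algebraMap F Ω i :=
    ⟨fun n => Nat.rec (algebraMap F Ω i) (fun _ y => sq y) n, fun n => hsq' _, rfl⟩
  have hzne : ∀ n, z n ≠ 0 := fun n => (primitive_seq h2 hi' hz0 hz n).ne_zero (by positivity)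
  obtain ⟨T, hT, hT'⟩ := ladder_compact (A := (⊤ : Subgroup Gal(Ω/F))) isClosed_univ hi'
    (fun a _ => hfi a) hz (fun a _ => by rw [hz0]; exact hfi a)
  have hstab : ∀ (g : Gal(Ω/F)), ∀ x ∈ ({1} : Set Ω), g x ∈ ({1} : Set Ω) := by
    intro g x hx
    rw [Set.mem_singleton_iff] at hx ⊢
    rw [hx, map_one]
  refine Lay.exists_layer S hS inferInstance (NN_normal hstab) isClosed_univ (NN_closed _) le_top
    ?_ ?_ T ?_
  · intro a _ b _ ζ n hζ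
    rw [Set.mem_singleton_iff] at hζ
    set w : Ω := (a⁻¹ * b⁻¹ : Gal(Ω/F)) ζ with hw
    have hw1 : w ^ 2 ^ n = 1 := by rw [hw, ← map_pow, hζ, map_one]
    obtain ⟨m, hm⟩ := root_pow a hw1
    obtain ⟨m', hm'⟩ := root_pow b hw1
    have h1 : (a * b * a⁻¹ * b⁻¹ : Gal(Ω/F)) ζ = a (b w) := by
      rw [hw]
      simp only [← AlgEquiv.mul_apply, mul_assoc]
    have h3 : (b * a * (a⁻¹ * b⁻¹) : Gal(Ω/F)) ζ = b (a w) := by
      rw [hw]
      simp only [← AlgEquiv.mul_apply, mul_assoc]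
    rw [h1, hm', map_pow, hm, ← pow_mul, mul_comm m m', pow_mul, ← hm', ← map_pow, ← hm, ← h3]
    have : b * a * (a⁻¹ * b⁻¹) = 1 := by group
    rw [this, AlgEquiv.one_apply]
  · intro a _ ha
    refine mem_NN_one_of_seq h2 hi' hz0 hz fun n => ?_
    induction n with
    | zero => rw [hz0]; exact hfi a
    | succ n ih =>
      -- `a z_{n+1} = ± z_{n+1}`; the sign `-` contradicts `a ^ 2 z_{n+2} = z_{n+2}`
      have h1 : (a (z (n + 1))) ^ 2 = z (n + 1) ^ 2 := by rw [← map_pow, hz, ih]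
      rcases sq_eq h1 with h3 | h3
      · exact h3
      · exfalso
        have h4 : (a (z (n + 1 + 1))) ^ 2 = (algebraMap F Ω i * z (n + 1 + 1)) ^ 2 := by
          rw [← map_pow, hz, h3, mul_pow, hi', hz, neg_one_mul]
        have h5 : a (a (z (n + 1 + 1))) = -z (n + 1 + 1) := by
          rcases sq_eq h4 with h6 | h6
          · rw [h6, map_mul, hfi, h6, ← mul_assoc, ← pow_two, hi', neg_one_mul]
          · rw [h6, map_neg, map_mul, hfi, h6, mul_neg, neg_neg, ← mul_assoc, ← pow_two, hi',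
              neg_one_mul]
        have h7 : (a ^ 2 : Gal(Ω/F)) (z (n + 1 + 1)) = z (n + 1 + 1) :=
          ha _ (n + 1 + 1 + 2) (by
            rw [Set.mem_singleton_iff]
            exact (primitive_seq h2 hi' hz0 hz (n + 1 + 1)).pow_eq_one)
        rw [pow_two, AlgEquiv.mul_apply, h5] at h7
        have h8 : 2 * z (n + 1 + 1) = 0 := by
          have := sub_eq_zero.2 h7
          linear_combination -this
        rcases mul_eq_zero.1 h8 with h9 | h9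
        · exact h2 h9
        · exact hzne _ h9
  · intro a ha
    obtain ⟨t, ht, c, hc, b, -, hb, hab⟩ := hT' a ha
    exact ⟨t, ht, c, hc, b, mem_NN_one_of_seq h2 hi' hz0 hz hb, hab⟩

end Cyc

end Pool.Agent.EP.Kum
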