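import Pool.Agent.EP.Mono

/-!
# Exact pairs: elementary properties of the rank (MP_2429c0)

(1) `rk_mono`: `inv Y Y' U ≤ inv Y Y'' U`.
(2) `rk_triangle`: for each open normal `U ≥ Q`: `ln Y (inv Y Y'' U) ≤ ln Y (inv Y Y' U) + ln Y' (inv Y' Y'' U)` by
`ln_triangle`; the infimum of a sum of two antitone families over a directed set is the sum of the infima.
(3) `rk_CC`: for `Q ≤ U` the space `inv ⊥ (CC S Q D) U` consists of the functions that are right invariant under `U`:
all maps `G ⧸ U → Fin D → ZMod 2`, of dimension `D * U.index`.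
(4) `TT_top`: `CC S ⊤ D` are the constant functions (dimension `D`), `Nb S ⊤ = {⊤}` has index one, every subspace of it
is fixed; `rk S ⊤ Y Y' = dim Y' - dim Y`; descending chain condition by finite dimension.
-/

open scoped ENNReal

namespace Pool.Agent.EP

variable {G : Type*} [Group G] {D : ℕ}

theorem ratio_tri {Y Z X : Submodule (ZMod 2) (Fn G D)} (hYZ : Y ≤ Z)
    (U : Subgroup G) : ratio Y X U ≤ ratio Y Z U + ratio Z X U := by
  have h1 : ln Y (inv Y X U) ≤ ln Y (inv Y Z U) + ln Z (inv Z X U) := by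
    refine (ln_triangle Y Z _).trans (add_le_add (ln_mono_right ?_) (ln_mono_right ?_))
    · rintro f ⟨hfZ, _, hf2⟩
      exact ⟨hfZ, hf2⟩
    · rintro f ⟨hf1, hf2⟩
      exact ⟨hf1, fun u hu => hYZ (hf2 u hu)⟩
  unfold ratio
  rw [← ENNReal.add_div]
  refine ENNReal.div_le_div_right ?_ _
  rw [← ENat.toENNReal_add]
  exact ENat.toENNReal_le.2 h1

theorem ratio_mono (Y : Submodule (ZMod 2) (Fn G D)) {Z X : Submodule (ZMod 2) (Fn G D)}
    (h : Z ≤ X) (U : Subgroup G) : ratio Y Z U ≤ ratio Y X U := by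
  unfold ratio
  refine ENNReal.div_le_div_right ?_ _
  exact ENat.toENNReal_le.2 (ln_mono_right fun f hf => ⟨h hf.1, hf.2⟩)

theorem rk_mono (S : OSys G) (Q : Subgroup G) {Y Y' Y'' : Submodule (ZMod 2) (Fn G D)}
    (h : Y' ≤ Y'') : rk S Q Y Y' ≤ rk S Q Y Y'' :=
  iInf_mono fun U => ratio_mono Y h U.1

/-- The rank is subadditive. -/
theorem rk_triangle (S : OSys G) (Q : Subgroup G) {Y Y' Y'' : Submodule (ZMod 2) (Fn G D)}
    (hY : Stable Y) (hY' : Stable Y') (hY'' : Stable Y'') (h : Y ≤ Y') (h' : Y' ≤ Y'') :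
    rk S Q Y Y'' ≤ rk S Q Y Y' + rk S Q Y' Y'' := by
  unfold rk
  rw [ENNReal.iInf_add_iInf]
  · exact iInf_mono fun U => ratio_tri h U.1
  · intro U V
    exact ⟨U.inf V, add_le_add (ratio_anti S hY hY' h U.2.1 (U.inf V).2.1 inf_le_left)
      (ratio_anti S hY' hY'' h' V.2.1 (U.inf V).2.1 inf_le_right)⟩

theorem stable_CC (S : OSys G) (Q : Subgroup G) (hQ : Q.Normal) (D : ℕ) : Stable (CC S Q D) := by
  rintro g f ⟨⟨U, hU, hf⟩, hf'⟩
  refine ⟨⟨U.normalCore, S.core U hU, fun u hu => ?_⟩, fun q hq => ?_⟩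
  · have h1 : g⁻¹ * u * g ∈ U.normalCore := by
      have := U.normalCore_normal.conj_mem u hu g⁻¹
      simpa using this
    have h2 : u * g = g * (g⁻¹ * u * g) := by group
    rw [← rho_mul, h2, rho_mul, hf _ (U.normalCore_le h1)]
  · have h1 : g⁻¹ * q * g ∈ Q := by
      have := hQ.conj_mem q hq g⁻¹
      simpa using this
    have h2 : q * g = g * (g⁻¹ * q * g) := by group
    rw [← rho_mul, h2, rho_mul, hf' _ h1]

theorem stable_bot : Stable (⊥ : Submodule (ZMod 2) (Fn G D)) := by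
  intro g f hf
  rw [Submodule.mem_bot] at hf ⊢
  rw [hf, map_zero]

/-- The `U`-invariant functions. -/
def Fix (U : Subgroup G) (D : ℕ) : Submodule (ZMod 2) (Fn G D) where
  carrier := {f | ∀ u ∈ U, rho u f = f}
  zero_mem' := fun _ _ => rfl
  add_mem' := by
    intro f g hf hg u hu
    rw [map_add, hf u hu, hg u hu]
  smul_mem' := by
    intro c f hf u hu
    rw [map_smul, hf u hu]

theorem inv_bot_CC (S : OSys G) (Q : Subgroup G) (D : ℕ) {U : Subgroup G} (hU : S.Op U)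
    (hQU : Q ≤ U) : inv ⊥ (CC S Q D) U = Fix U D := by
  ext f
  constructor
  · rintro ⟨_, hf⟩ u hu
    have := hf u hu
    rw [Submodule.mem_bot, sub_eq_zero] at this
    exact this
  · intro hf
    refine ⟨⟨⟨U, hU, hf⟩, fun q hq => hf q (hQU hq)⟩, fun u hu => ?_⟩
    rw [Submodule.mem_bot, sub_eq_zero]
    exact hf u hu

/-- Functions on `G ⧸ U`. -/
noncomputable def fixEquiv (U : Subgroup G) (D : ℕ) :
    (G ⧸ U → Fin D → ZMod 2) ≃ₗ[ZMod 2] Fix U D where
  toFun f := ⟨fun p => f (QuotientGroup.mk p), fun u hu => by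
    funext p
    simp only [rho, LinearMap.coe_mk, AddHom.coe_mk]
    congr 1
    exact (QuotientGroup.mk_mul_of_mem p hu)⟩
  invFun f := fun x => Quotient.liftOn' x f.1 fun a b hab => by
    have h1 : a⁻¹ * b ∈ U := QuotientGroup.leftRel_apply.1 hab
    have h2 := congrFun (f.2 _ h1) a
    simp only [rho, LinearMap.coe_mk, AddHom.coe_mk, mul_inv_cancel_left] at h2
    exact h2.symm
  map_add' _ _ := rfl
  map_smul' _ _ := rfl
  left_inv f := by
    funext x
    induction x using QuotientGroup.induction_on with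
    | H p => rfl
  right_inv f := rfl

theorem length_Fix (U : Subgroup G) (D : ℕ) (hU : U.index ≠ 0) :
    Module.length (ZMod 2) (Fix U D) = ((D * U.index : ℕ) : ℕ∞) := by
  have : U.FiniteIndex := ⟨hU⟩
  have : Finite (G ⧸ U) := inferInstance
  have := Fintype.ofFinite (G ⧸ U)
  have : Fact (Nat.Prime 2) := ⟨Nat.prime_two⟩
  rw [← (fixEquiv U D).length_eq, Module.length_eq_finrank]
  congr 1
  rw [Module.finrank_pi_fintype, Finset.sum_const, Module.finrank_fin_fun, smul_eq_mul,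
    Finset.card_univ, mul_comm, Subgroup.index, Nat.card_eq_fintype_card]

/-- The invariants of `U ≥ Q` in `CC S Q D` have dimension `D * [G : U]`. -/
theorem ln_inv_CC (S : OSys G) (Q : Subgroup G) (D : ℕ) {U : Subgroup G} (hU : S.Op U)
    (hQ : Q ≤ U) : ln ⊥ (inv ⊥ (CC S Q D) U) = ((D * U.index : ℕ) : ℕ∞) := by
  obtain ⟨m, hm⟩ := S.idx U hU
  have h0 : U.index ≠ 0 := by rw [hm]; positivity
  have h : (⊥ : Submodule (ZMod 2) (Fn G D)).submoduleOf (Fix U D) = ⊥ := (Fix U D).ker_subtype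
  rw [inv_bot_CC S Q D hU hQ, ln, h, ← length_Fix U D h0]
  exact (Submodule.quotEquivOfEqBot _ rfl).length_eq

theorem CC_mono (S : OSys G) {Q Q' : Subgroup G} (h : Q ≤ Q') (D : ℕ) :
    CC S Q' D ≤ CC S Q D := fun _ hf => ⟨hf.1, fun q hq => hf.2 q (h hq)⟩

theorem ratio_CC (S : OSys G) (Q : Subgroup G) (D : ℕ) {U : Subgroup G} (hU : S.Op U)
    (hQU : Q ≤ U) : ratio ⊥ (CC S Q D) U = D := by
  obtain ⟨m, hm⟩ := S.idx U hU
  have h0 : U.index ≠ 0 := by rw [hm]; positivity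
  rw [ratio, ln_inv_CC S Q D hU hQU, ENat.toENNReal_coe]
  push_cast
  exact ENNReal.mul_div_cancel_right (by exact_mod_cast h0) (ENNReal.natCast_ne_top _)

theorem rk_CC (S : OSys G) (Q : Subgroup G) (D : ℕ) :
    rk S Q ⊥ (CC S Q D) = (D : ℝ≥0∞) := by
  unfold rk
  refine le_antisymm ?_ (le_iInf fun U => (ratio_CC S Q D U.2.1 U.2.2.2).ge)
  exact (iInf_le _ (Classical.arbitrary (Nb S Q))).trans
    (ratio_CC S Q D (Classical.arbitrary (Nb S Q)).2.1 (Classical.arbitrary (Nb S Q)).2.2.2).le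

/-! ### The base case -/

theorem CC_top (S : OSys G) (D : ℕ) : CC S ⊤ D = Fix ⊤ D := by
  ext f
  exact ⟨fun hf => hf.2, fun hf => ⟨⟨⊤, S.top, hf⟩, hf⟩⟩

theorem finite_Fix_top (D : ℕ) : Module.Finite (ZMod 2) (Fix (⊤ : Subgroup G) D) := by
  have : (⊤ : Subgroup G).FiniteIndex := inferInstance
  have : Finite (G ⧸ (⊤ : Subgroup G)) := inferInstance
  have := Fintype.ofFinite (G ⧸ (⊤ : Subgroup G))
  exact Module.Finite.equiv (fixEquiv (⊤ : Subgroup G) D)

theorem finite_of_le {M : Type*} [AddCommGroup M] [Module (ZMod 2) M]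
    {X X' : Submodule (ZMod 2) M} (h : X ≤ X') [Module.Finite (ZMod 2) X'] :
    Module.Finite (ZMod 2) X := by
  have : Fact (Nat.Prime 2) := ⟨Nat.prime_two⟩
  exact Submodule.finiteDimensional_of_le h

theorem ln_eq_sub {M : Type*} [AddCommGroup M] [Module (ZMod 2) M]
    {Y X : Submodule (ZMod 2) M} (h : Y ≤ X) [Module.Finite (ZMod 2) X] :
    ln Y X = ((Module.finrank (ZMod 2) X - Module.finrank (ZMod 2) Y : ℕ) : ℕ∞) := by
  have : Fact (Nat.Prime 2) := ⟨Nat.prime_two⟩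
  rw [ln, Module.length_eq_finrank]
  congr 1
  have h1 := Submodule.finrank_quotient_add_finrank (Y.submoduleOf X)
  have h2 : Module.finrank (ZMod 2) (Y.submoduleOf X) = Module.finrank (ZMod 2) Y :=
    (Submodule.submoduleOfEquivOfLe h).finrank_eq
  omega

theorem rk_top (S : OSys G) {Y Y' : Submodule (ZMod 2) (Fn G D)} (h : Y ≤ Y')
    (h' : Y' ≤ CC S ⊤ D) : rk S ⊤ Y Y' =
      ((Module.finrank (ZMod 2) Y' - Module.finrank (ZMod 2) Y : ℕ) : ℝ≥0∞) := by
  have := finite_Fix_top (G := G) D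
  have : Module.Finite (ZMod 2) (CC S ⊤ D) := by rw [CC_top]; infer_instance
  have := finite_of_le h'
  have h1 : inv Y Y' ⊤ = Y' := by
    ext f
    refine ⟨fun hf => hf.1, fun hf => ⟨hf, fun u _ => ?_⟩⟩
    have h2 := (h' hf).2 u (Subgroup.mem_top u)
    rw [h2, sub_self]
    exact Y.zero_mem
  have h2 : ∀ U : Nb S ⊤, ratio Y Y' U.1 =
      ((Module.finrank (ZMod 2) Y' - Module.finrank (ZMod 2) Y : ℕ) : ℝ≥0∞) := by
    intro U
    have hU : U.1 = ⊤ := top_le_iff.1 U.2.2.2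
    rw [hU, ratio, h1, ln_eq_sub h, ENat.toENNReal_coe, Subgroup.index_top, Nat.cast_one,
      div_one]
  unfold rk
  simp only [h2, ciInf_const]

theorem finrank_bot' {M : Type*} [AddCommGroup M] [Module (ZMod 2) M] :
    Module.finrank (ZMod 2) (⊥ : Submodule (ZMod 2) M) = 0 := by
  have : Fact (Nat.Prime 2) := ⟨Nat.prime_two⟩
  exact finrank_bot _ _

theorem TT_top (S : OSys G) : TT S (⊤ : Subgroup G) := by
  have : Fact (Nat.Prime 2) := ⟨Nat.prime_two⟩
  refine ⟨fun D => ?_, fun D Y Y' hY hY' hle hle' => ?_⟩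
  · have := finite_Fix_top (G := G) D
    have : Module.Finite (ZMod 2) (CC S ⊤ D) := by rw [CC_top]; infer_instance
    have hmono : StrictMono (fun Y : St S ⊤ D => Y.1.submoduleOf (CC S ⊤ D)) := by
      intro Y Y' hYY'
      have h1 : Y.1 < Y'.1 := hYY'
      refine lt_of_le_of_ne (Submodule.comap_mono h1.le) fun heq => h1.ne ?_
      refine le_antisymm h1.le fun f hf => ?_
      have h2 : (⟨f, Y'.2.2 hf⟩ : CC S ⊤ D) ∈ Y'.1.submoduleOf (CC S ⊤ D) := hf
      have h3 : Y.1.submoduleOf (CC S ⊤ D) = Y'.1.submoduleOf (CC S ⊤ D) := heq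
      have h4 : (⟨f, Y'.2.2 hf⟩ : CC S ⊤ D) ∈ Y.1.submoduleOf (CC S ⊤ D) := by
        rw [h3]; exact h2
      exact h4
    exact hmono.wellFoundedLT
  · have := finite_Fix_top (G := G) D
    have : Module.Finite (ZMod 2) (CC S ⊤ D) := by rw [CC_top]; infer_instance
    have := finite_of_le hle'
    have := finite_of_le hle
    refine ⟨Module.finrank (ZMod 2) Y, Module.finrank (ZMod 2) Y', Submodule.finrank_mono hle,
      ?_, ?_, ?_, rk_top S hle hle'⟩
    · have h1 : Module.finrank (ZMod 2) Y' ≤ Module.finrank (ZMod 2) (CC S ⊤ D) :=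
        Submodule.finrank_mono hle'
      have h2 : ((Module.finrank (ZMod 2) (CC S ⊤ D) : ℕ) : ℝ≥0∞) = D := by
        rw [← rk_CC S ⊤ D, rk_top S bot_le le_rfl, finrank_bot', Nat.sub_zero]
      have h3 : Module.finrank (ZMod 2) (CC S ⊤ D) = D := by exact_mod_cast h2
      omega
    · rw [rk_top S bot_le (hle.trans hle'), finrank_bot', Nat.sub_zero]
    · rw [rk_top S bot_le hle', finrank_bot', Nat.sub_zero]

end Pool.Agent.EP
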