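import Pool.Agent.EP.Conj
import Pool.Agent.EP.Filt
import Pool.Agent.EP.RkBasic

/-!
# Exact pairs: leading coefficient spaces, chain condition, truncation (MP_2429c0, section 2 (b)-(d))

`lc L Y e = lcs (dl D L.y) key Y e`, the space of leading coefficients at `e`.
* `lc_le`: `dl e f` (`f ∈ FF e`) is killed by all first differences (`dl_add`), so it lies in `CC S A D`.
* `lc_stable`: `dl_rho`, `dl_rho_zero`.
* `lc_anti` (`e ≤ e'` componentwise implies `Y_{e'} ≤ Y_e`): for `f ∈ Y ∩ FF e'` the element `dl (e' - e) f` lies in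
  `Y ∩ FF e` (`key` is compatible with addition) and `dl e (dl (e' - e) f) = dl e' f`.
* `lc_eq`: `le_of_lcs` with `P = CC S B D` (`dl_support`, and `dl 0 f = f` for `hinj`).
* `dcc_step`: a strictly descending sequence `Y^(m)` gives `e_m` with `Y^(m+1)_{e_m} < Y^(m)_{e_m}`; by Dickson (`ℕ ^ h`
  is partially well ordered, `Pi.isPWO` or `WellQuasiOrderedLE`) pass to a subsequence with `e_m` monotone:
  `Y^(m)_{e_m} > Y^(m+1)_{e_m} ≥ Y^(m')_{e_m} ≥ Y^(m')_{e_{m'}}`: contradiction with the chain condition for `A`.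
* `trunc`: otherwise there are `c_1 < c_2 < ...` and `e^k` with `Y_{e^k} ≠ Y_{min (e^k) c_k}`, so `<`, and
  `c_{k+1} ≥ max e^k`; along a subsequence `e^k` is monotone, `Y_{e^k} ≥ Y_{min (e^{k+1}) c_{k+1}}` because
  `e^k ≤ min (e^{k+1}) c_{k+1}`; contradiction.
-/

namespace Pool.Agent.EP

variable {G : Type*} [Group G] {D h : ℕ}

/-- The leading coefficients of `Y` at the exponent `e`. -/
noncomputable def lc {S : OSys G} {A B : Subgroup G} (L : Layer S A B h)
    (Y : Submodule (ZMod 2) (Fn G D)) (e : Fin h → ℕ) : Submodule (ZMod 2) (Fn G D) :=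
  lcs (dl D L.y) key Y e

theorem lc_mono {S : OSys G} {A B : Subgroup G} (L : Layer S A B h)
    {Y Z : Submodule (ZMod 2) (Fn G D)} (hle : Y ≤ Z) (e : Fin h → ℕ) : lc L Y e ≤ lc L Z e :=
  lcs_mono _ _ hle e

theorem mem_lc {S : OSys G} {A B : Subgroup G} (L : Layer S A B h)
    {Y : Submodule (ZMod 2) (Fn G D)} {e : Fin h → ℕ} {x : Fn G D} :
    x ∈ lc L Y e ↔ ∃ f ∈ Y, (∀ e', key e < key e' → dl D L.y e' f = 0) ∧ dl D L.y e f = x := by
  unfold lc lcs
  rw [Submodule.mem_map]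
  constructor
  · rintro ⟨f, hf, hx⟩
    exact ⟨f, hf.1, hf.2, hx⟩
  · rintro ⟨f, hf, hf', hx⟩
    exact ⟨f, ⟨hf, hf'⟩, hx⟩

theorem lc_le {S : OSys G} {A B : Subgroup G} (L : Layer S A B h)
    {Y : Submodule (ZMod 2) (Fn G D)} (hY : Y ≤ CC S B D) (e : Fin h → ℕ) :
    lc L Y e ≤ CC S A D := by
  intro x hx
  obtain ⟨f, hf, hf', rfl⟩ := (mem_lc L).1 hx
  apply mem_CC_of_dl L (dl_mem (stable_CC S B L.nB D) L.y e (hY hf))
  intro i
  rw [← dl_add L _ _ (hY hf)]
  apply hf'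
  apply key_lt_of_le
  · intro j
    exact Nat.le_add_left _ _
  · intro h0
    have := congrFun h0 i
    simp at this

theorem lc_stable {S : OSys G} {A B : Subgroup G} (L : Layer S A B h)
    {Y : Submodule (ZMod 2) (Fn G D)} (hs : Stable Y) (hY : Y ≤ CC S B D) (e : Fin h → ℕ) :
    Stable (lc L Y e) := by
  intro g x hx
  obtain ⟨f, hf, hf', rfl⟩ := (mem_lc L).1 hx
  rw [mem_lc]
  exact ⟨rho g f, hs g f hf, dl_rho_zero L g e (hY hf) hf', dl_rho L g e (hY hf) hf'⟩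

theorem lc_anti {S : OSys G} {A B : Subgroup G} (L : Layer S A B h)
    {Y : Submodule (ZMod 2) (Fn G D)} (hs : Stable Y) (hY : Y ≤ CC S B D) {e e' : Fin h → ℕ}
    (he : e ≤ e') : lc L Y e' ≤ lc L Y e := by
  intro x hx
  obtain ⟨f, hf, hf', rfl⟩ := (mem_lc L).1 hx
  obtain ⟨c, rfl⟩ : ∃ c, e' = c + e := ⟨e' - e, (tsub_add_cancel_of_le he).symm⟩
  rw [mem_lc]
  refine ⟨dl D L.y c f, dl_mem hs L.y c hf, ?_, ?_⟩
  · intro e'' he''
    rw [← dl_add L _ _ (hY hf)]
    apply hf'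
    rw [add_comm e'' c]
    exact key_add_lt_add_left c he''
  · rw [← dl_add L _ _ (hY hf), add_comm]

theorem lc_eq {S : OSys G} {A B : Subgroup G} (L : Layer S A B h)
    {Y Z : Submodule (ZMod 2) (Fn G D)} (hYZ : Y ≤ Z) (hZ : Z ≤ CC S B D)
    (hle : ∀ e, lc L Z e ≤ lc L Y e) : Z ≤ Y := by
  apply le_of_lcs (dl D L.y) key key_injective (CC S B D) (fun f hf => dl_support L hf) ?_ Y Z
    hYZ hZ hle
  intro f _ h0
  rw [← dl_zero L.y f]
  exact h0 0

theorem not_descending {α : Type*} [PartialOrder α] (hα : WellFoundedLT α) (f : ℕ → α)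
    (hf : ∀ n, f (n + 1) < f n) : False := by
  obtain ⟨a, ⟨n, rfl⟩, hn⟩ := hα.wf.has_min (Set.range f) ⟨f 0, 0, rfl⟩
  exact hn (f (n + 1)) ⟨n + 1, rfl⟩ (hf n)

theorem dickson (e : ℕ → Fin h → ℕ) : ∃ φ : ℕ ↪o ℕ, Monotone (e ∘ φ) := by
  obtain ⟨φ, hφ⟩ := (wellQuasiOrdered_le (α := Fin h → ℕ)).exists_monotone_subseq e
  exact ⟨φ, fun m n hmn => hφ m n hmn⟩

theorem dcc_step {S : OSys G} {A B : Subgroup G} (L : Layer S A B h)
    (hA : WellFoundedLT (St S A D)) : WellFoundedLT (St S B D) := by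
  constructor
  rw [RelEmbedding.wellFounded_iff_isEmpty]
  constructor
  intro F
  have hY : ∀ m, F (m + 1) < F m := fun m => F.map_rel_iff.2 (Nat.lt_succ_self m)
  have hYle : ∀ {m m'}, m ≤ m' → F m' ≤ F m := by
    intro m m' hm
    exact antitone_nat_of_succ_le (fun n => (hY n).le) hm
  have hex : ∀ m, ∃ e : Fin h → ℕ, lc L (F (m + 1)).1 e < lc L (F m).1 e := by
    intro m
    by_contra hcon
    push Not at hcon
    have hle : (F (m + 1)).1 ≤ (F m).1 := (hY m).le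
    have h1 : (F m).1 ≤ (F (m + 1)).1 := by
      apply lc_eq L hle (F m).2.2
      intro e
      rcases lt_or_eq_of_le (lc_mono L hle e) with h2 | h2
      · exact absurd h2 (hcon e)
      · exact h2.ge
    exact (hY m).not_ge h1
  choose e he using hex
  obtain ⟨φ, hφ⟩ := dickson e
  set Z : ℕ → St S A D := fun j => ⟨lc L (F (φ j)).1 (e (φ j)),
    lc_stable L (F (φ j)).2.1 (F (φ j)).2.2 _, lc_le L (F (φ j)).2.2 _⟩ with hZ
  apply not_descending hA Z
  intro j
  have h1 : lc L (F (φ (j + 1))).1 (e (φ (j + 1))) ≤ lc L (F (φ (j + 1))).1 (e (φ j)) :=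
    lc_anti L (F (φ (j + 1))).2.1 (F (φ (j + 1))).2.2 (hφ (Nat.le_succ j))
  have h2 : φ j + 1 ≤ φ (j + 1) := φ.strictMono (Nat.lt_succ_self j)
  have h3 : lc L (F (φ (j + 1))).1 (e (φ j)) ≤ lc L (F (φ j + 1)).1 (e (φ j)) :=
    lc_mono L (hYle h2) _
  have h4 : lc L (F (φ (j + 1))).1 (e (φ (j + 1))) < lc L (F (φ j)).1 (e (φ j)) :=
    lt_of_le_of_lt (h1.trans h3) (he (φ j))
  exact h4

theorem trunc {S : OSys G} {A B : Subgroup G} (L : Layer S A B h)
    (hA : WellFoundedLT (St S A D)) {Y : Submodule (ZMod 2) (Fn G D)} (hs : Stable Y)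
    (hY : Y ≤ CC S B D) : ∃ c : ℕ, ∀ c', c ≤ c' → ∀ e : Fin h → ℕ,
      lc L Y e = lc L Y (fun i => min (e i) c') := by
  by_contra hcon
  push Not at hcon
  choose C hC E hE using hcon
  have hlt : ∀ s, lc L Y (E s) < lc L Y (fun i => min (E s i) (C s)) := by
    intro s
    refine lt_of_le_of_ne (lc_anti L hs hY ?_) (hE s)
    intro i
    exact min_le_left _ _
  -- the recursive sequence of bounds
  let s : ℕ → ℕ := fun k => Nat.rec 0 (fun _ t => max (C t) (Finset.univ.sup (E t))) k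
  have hs1 : ∀ k, s (k + 1) = max (C (s k)) (Finset.univ.sup (E (s k))) := fun k => rfl
  have hs2 : ∀ k, s k ≤ s (k + 1) := fun k => by
    rw [hs1]
    exact (hC (s k)).trans (le_max_left _ _)
  have hsm : Monotone s := monotone_nat_of_le_succ hs2
  have hsE : ∀ k i, E (s k) i ≤ s (k + 1) := by
    intro k i
    rw [hs1]
    exact (Finset.le_sup (f := E (s k)) (Finset.mem_univ i)).trans (le_max_right _ _)
  obtain ⟨φ, hφ⟩ := dickson (fun k => E (s k))
  set Z : ℕ → St S A D := fun j => ⟨lc L Y (E (s (φ j))), lc_stable L hs hY _, lc_le L hY _⟩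
    with hZ
  apply not_descending hA Z
  intro j
  have h1 := hlt (s (φ (j + 1)))
  have h2 : φ j + 1 ≤ φ (j + 1) := φ.strictMono (Nat.lt_succ_self j)
  have h3 : lc L Y (fun i => min (E (s (φ (j + 1))) i) (C (s (φ (j + 1))))) ≤
      lc L Y (E (s (φ j))) := by
    apply lc_anti L hs hY
    intro i
    apply le_min
    · exact hφ (Nat.le_succ j) i
    · exact (hsE (φ j) i).trans ((hsm h2).trans (hC _))
  have h4 : lc L Y (E (s (φ (j + 1)))) < lc L Y (E (s (φ j))) := lt_of_lt_of_le h1 h3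
  exact h4

end Pool.Agent.EP
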