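import Pool.Agent.EP.Defs

/-!
# Exact pairs: the length `ln Y X = dim X / (X ∩ Y)` (MP_2429c0)

Everything follows from `Module.length_eq_add_of_exact` (additivity of the length in short exact sequences),
`Module.length_le_of_injective`, `Module.length_eq_zero_iff`, `Module.length_eq_finrank`.
-/

namespace Pool.Agent.EP

variable {M M' : Type*} [AddCommGroup M] [Module (ZMod 2) M] [AddCommGroup M'] [Module (ZMod 2) M']

theorem ln_eq_zero_iff (Y X : Submodule (ZMod 2) M) : ln Y X = 0 ↔ X ≤ Y := by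
  unfold ln
  rw [Module.length_eq_zero_iff, Submodule.Quotient.subsingleton_iff]
  exact Submodule.submoduleOf_eq_top

/-- An injection `X / (X ∩ Y) → X' / (X' ∩ Y')` induced by a linear map `f`. -/
theorem ln_le_of_map (f : M →ₗ[ZMod 2] M') (Y X : Submodule (ZMod 2) M)
    (Y' X' : Submodule (ZMod 2) M') (hX : ∀ x ∈ X, f x ∈ X') (hi : ∀ x ∈ X, f x ∈ Y' → x ∈ Y) :
    ln Y X ≤ ln Y' X' := by
  unfold ln
  let g : X →ₗ[ZMod 2] (X' ⧸ Y'.submoduleOf X') := (Y'.submoduleOf X').mkQ.comp (f.restrict hX)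
  have hk : LinearMap.ker g ≤ Y.submoduleOf X := by
    intro x hx
    have h1 : (Y'.submoduleOf X').mkQ (f.restrict hX x) = 0 := hx
    rw [Submodule.mkQ_apply, Submodule.Quotient.mk_eq_zero] at h1
    exact hi x.1 x.2 h1
  calc Module.length (ZMod 2) (X ⧸ Y.submoduleOf X)
      ≤ Module.length (ZMod 2) (X ⧸ LinearMap.ker g) :=
        Module.length_le_of_surjective (Submodule.factor hk) (Submodule.factor_surjective hk)
    _ ≤ Module.length (ZMod 2) (X' ⧸ Y'.submoduleOf X') :=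
        Module.length_le_of_injective ((LinearMap.ker g).liftQ g le_rfl)
          (by rw [← LinearMap.ker_eq_bot]; exact Submodule.ker_liftQ_eq_bot' _ _ rfl)

theorem ln_mono_right {Y X X' : Submodule (ZMod 2) M} (h : X ≤ X') : ln Y X ≤ ln Y X' :=
  ln_le_of_map LinearMap.id Y X Y X' (fun _ hx => h hx) (fun _ _ hy => hy)

theorem ln_anti_left {Y Y' X : Submodule (ZMod 2) M} (h : Y ≤ Y') : ln Y' X ≤ ln Y X :=
  ln_le_of_map LinearMap.id Y' X Y X (fun _ hx => hx) (fun _ _ hy => h hy)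

theorem ln_sup (Y X : Submodule (ZMod 2) M) : ln Y (Y ⊔ X) = ln Y X := by
  refine le_antisymm ?_ (ln_mono_right le_sup_right)
  unfold ln
  refine Module.length_le_of_surjective (Submodule.mapQ (Y.submoduleOf X) (Y.submoduleOf (Y ⊔ X))
    (Submodule.inclusion le_sup_right) ?_) ?_
  · intro x hx
    exact hx
  · intro z
    obtain ⟨⟨z, hz⟩, rfl⟩ := Submodule.Quotient.mk_surjective _ z
    obtain ⟨y, hy, x, hx, rfl⟩ := Submodule.mem_sup.1 hz
    refine ⟨Submodule.Quotient.mk ⟨x, hx⟩, ?_⟩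
    rw [Submodule.mapQ_apply, Submodule.Quotient.eq]
    change (x - (y + x) : M) ∈ Y
    have : x - (y + x) = -y := by abel
    rw [this]
    exact Y.neg_mem hy

theorem ln_inf (Y X : Submodule (ZMod 2) M) : ln (Y ⊓ X) X = ln Y X :=
  le_antisymm
    (ln_le_of_map LinearMap.id _ _ _ _ (fun _ hx => hx) (fun _ hx hy => ⟨hy, hx⟩))
    (ln_anti_left inf_le_left)

theorem ln_add {Y X Z : Submodule (ZMod 2) M} (h1 : Y ≤ X) (h2 : X ≤ Z) :
    ln Y Z = ln Y X + ln X Z := by
  unfold ln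
  have hf : Y.submoduleOf X ≤ (Y.submoduleOf Z).comap (Submodule.inclusion h2) := fun x hx => hx
  have hg : Y.submoduleOf Z ≤ X.submoduleOf Z := fun x hx => h1 hx
  refine Module.length_eq_add_of_exact (Submodule.mapQ (Y.submoduleOf X) (Y.submoduleOf Z)
    (Submodule.inclusion h2) hf) (Submodule.factor hg) ?_ (Submodule.factor_surjective hg) ?_
  · rw [injective_iff_map_eq_zero]
    intro x hx
    obtain ⟨x, rfl⟩ := Submodule.Quotient.mk_surjective _ x
    rw [Submodule.mapQ_apply, Submodule.Quotient.mk_eq_zero] at hx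
    rw [Submodule.Quotient.mk_eq_zero]
    exact hx
  · intro z
    obtain ⟨z, rfl⟩ := Submodule.Quotient.mk_surjective _ z
    constructor
    · intro hz
      have hz' : (Submodule.Quotient.mk z : Z ⧸ X.submoduleOf Z) = 0 := hz
      rw [Submodule.Quotient.mk_eq_zero] at hz'
      exact ⟨Submodule.Quotient.mk ⟨z.1, hz'⟩, rfl⟩
    · rintro ⟨x, hx⟩
      obtain ⟨x, rfl⟩ := Submodule.Quotient.mk_surjective _ x
      rw [← hx]
      change (Submodule.Quotient.mk (Submodule.inclusion h2 x) : Z ⧸ X.submoduleOf Z) = 0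
      rw [Submodule.Quotient.mk_eq_zero]
      exact x.2

/-- Kernel and image: `dim X/(X ∩ Y) ≤ dim (X ∩ ker) / (..) + dim f X / (..)`. -/
theorem ln_le_ker_add_map (f : M →ₗ[ZMod 2] M') (Y X : Submodule (ZMod 2) M)
    (Y' X' : Submodule (ZMod 2) M') (hX : ∀ x ∈ X, f x ∈ X')
    (Z : Submodule (ZMod 2) M) (hi : ∀ x ∈ X, f x ∈ Y' → x ∈ Z) :
    ln Y X ≤ ln Y Z + ln Y' X' := by
  set K : Submodule (ZMod 2) M := X ⊓ Y'.comap f with hK
  have h1 : Y ⊓ X ≤ (Y ⊓ X) ⊔ K := le_sup_left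
  have h2 : (Y ⊓ X) ⊔ K ≤ X := sup_le inf_le_right inf_le_left
  rw [← ln_inf Y X, ln_add h1 h2, ln_sup]
  refine add_le_add ?_ ?_
  · exact ln_le_of_map LinearMap.id _ _ _ _ (fun x hx => hi x hx.1 hx.2)
      (fun x hx hy => ⟨hy, hx.1⟩)
  · exact ln_le_of_map f _ _ _ _ hX (fun x hx hy => Submodule.mem_sup_right ⟨hx, hy⟩)

theorem ln_triangle (Y X Z : Submodule (ZMod 2) M) : ln Y Z ≤ ln Y (X ⊓ Z) + ln X Z :=
  ln_le_ker_add_map LinearMap.id Y Z X Z (fun _ hx => hx) (X ⊓ Z) (fun _ hx hy => ⟨hy, hx⟩)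

theorem ln_bot (X : Submodule (ZMod 2) M) [Module.Finite (ZMod 2) X] :
    ln ⊥ X = (Module.finrank (ZMod 2) X : ℕ∞) := by
  have h0 : (⊥ : Submodule (ZMod 2) M).submoduleOf X = ⊥ := by
    rw [eq_bot_iff]
    rintro ⟨x, hx⟩ h
    have : x = 0 := h
    simp [this]
  unfold ln
  rw [(Submodule.quotEquivOfEqBot _ h0).length_eq, Module.length_eq_finrank]

end Pool.Agent.EP
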