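import Pool.Agent.EP.Mono
import Pool.Agent.EP.Act

/-!
# Exact pairs: the difference operators of a layer (MP_2429c0)

`dl y e = ∏ i, (rho (y i) + 1) ^ e i` (ordered product; characteristic two, so `+ 1 = - 1`).  On `CC S B D` the
operators `rho (y i)` commute, because `rho b f = f` for `b ∈ B` and `B` is normal.  `(rho (y i) + 1) ^ 2 ^ n =
rho (y i ^ 2 ^ n) + 1`.  If `f` is fixed by the open normal subgroup `U` of index `2 ^ n`, then `y i ^ 2 ^ n ∈ U`, so
`dl y e f = 0` as soon as some `e i ≥ 2 ^ n`.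
-/

namespace Pool.Agent.EP

open MvPolynomial

variable {G : Type*} [Group G] {D h : ℕ}

/-- The difference operator with exponent `e`. -/
noncomputable def dl (D : ℕ) (y : Fin h → G) (e : Fin h → ℕ) : Module.End (ZMod 2) (Fn G D) :=
  (List.ofFn fun i => ((rho (y i) : Module.End (ZMod 2) (Fn G D)) + 1) ^ e i).prod

/-- The sort key of an exponent: degree first, then lexicographic (smaller index is bigger). -/
def key (e : Fin h → ℕ) : Lex (ℕ × Lex (Fin h → ℕ)) := toLex (∑ i, e i, toLex e)

theorem key_injective : Function.Injective (key : (Fin h → ℕ) → _) := by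
  intro a b hab
  have h1 := toLex.injective hab
  exact toLex.injective (Prod.mk.inj h1).2

theorem key_add (a b : Fin h → ℕ) : key (a + b) = key a + key b := by
  apply ofLex.injective
  show ((∑ i, (a + b) i, toLex (a + b)) : ℕ × Lex (Fin h → ℕ)) =
    (∑ i, a i, toLex a) + (∑ i, b i, toLex b)
  ext1
  · simp [Finset.sum_add_distrib]
  · rfl

theorem key_add_lt_add_left {a b : Fin h → ℕ} (c : Fin h → ℕ) (hab : key a < key b) :
    key (c + a) < key (c + b) := by
  rw [key_add, key_add]
  exact add_lt_add_right hab _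

theorem key_lt_of_le {a b : Fin h → ℕ} (hab : a ≤ b) (hne : a ≠ b) : key a < key b := by
  rw [Prod.Lex.lt_iff]
  left
  show ∑ i, a i < ∑ i, b i
  apply Finset.sum_lt_sum (fun i _ => hab i)
  by_contra hcon
  push Not at hcon
  exact hne (le_antisymm hab fun i => hcon i (Finset.mem_univ i))

instance : WellFoundedLT (Lex (ℕ × Lex (Fin h → ℕ))) := inferInstance

/-- The difference of first order. -/
theorem rho_add_one_apply (g : G) (f : Fn G D) :
    ((rho g : Module.End (ZMod 2) (Fn G D)) + 1) f = rho g f + f := rfl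

theorem dl_mem {Y : Submodule (ZMod 2) (Fn G D)} (hY : Stable Y) (y : Fin h → G) (e : Fin h → ℕ)
    {f : Fn G D} (hf : f ∈ Y) : dl D y e f ∈ Y := by
  have key : ∀ l : List (Module.End (ZMod 2) (Fn G D)), (∀ T ∈ l, ∀ f ∈ Y, T f ∈ Y) →
      ∀ f ∈ Y, l.prod f ∈ Y := by
    intro l
    induction l with
    | nil => intro _ f hf; simpa using hf
    | cons T l ih =>
      intro hl f hf
      rw [List.prod_cons]
      exact hl T List.mem_cons_self _ (ih (fun T' hT' => hl T' (List.mem_cons_of_mem _ hT')) f hf)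
  refine key _ ?_ f hf
  intro T hT f hf
  rw [List.mem_ofFn] at hT
  obtain ⟨i, rfl⟩ := hT
  have h1 : ∀ n : ℕ, ∀ f ∈ Y, (((rho (y i) : Module.End (ZMod 2) (Fn G D)) + 1) ^ n) f ∈ Y := by
    intro n
    induction n with
    | zero => intro f hf; simpa using hf
    | succ n ih =>
      intro f hf
      rw [pow_succ]
      exact ih _ (Y.add_mem (hY (y i) f hf) hf)
  exact h1 _ f hf

theorem dl_zero (y : Fin h → G) (f : Fn G D) : dl D y 0 f = f := by
  have : dl D y 0 = 1 := by
    apply List.prod_eq_one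
    intro T hT
    rw [List.mem_ofFn] at hT
    obtain ⟨i, rfl⟩ := hT
    exact pow_zero _
  rw [this]
  rfl

/-- The polynomial action on `CC S B D`. -/
theorem exists_act {S : OSys G} {A B : Subgroup G} (L : Layer S A B h) (D : ℕ) :
    ∃ φ : MvPolynomial (Fin h) (ZMod 2) →ₐ[ZMod 2] Module.End (ZMod 2) (CC S B D),
      ∀ i, φ (X i) = Aux.rhoC S L.nB D (L.y i) + 1 := by
  apply Aux.exists_aeval_comm
  intro i j
  have h1 := Aux.rhoC_comm S L.nB D (L.y i) (L.y j) (L.comm i j)
  rw [add_mul, mul_add, mul_add, add_mul, mul_add, mul_add, h1]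
  simp only [mul_one, one_mul]
  abel

/-- The polynomial action on `CC S B D`. -/
noncomputable def act {S : OSys G} {A B : Subgroup G} (L : Layer S A B h) (D : ℕ) :
    MvPolynomial (Fin h) (ZMod 2) →ₐ[ZMod 2] Module.End (ZMod 2) (CC S B D) :=
  (exists_act L D).choose

theorem act_X {S : OSys G} {A B : Subgroup G} (L : Layer S A B h) (i : Fin h) :
    act L D (X i) = Aux.rhoC S L.nB D (L.y i) + 1 :=
  (exists_act L D).choose_spec i

/-- The monomial of exponent `e`. -/
noncomputable def mon (e : Fin h → ℕ) : MvPolynomial (Fin h) (ZMod 2) :=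
  monomial (Finsupp.equivFunOnFinite.symm e) 1

theorem mon_eq (e : Fin h → ℕ) : mon e = ∏ i, (X i : MvPolynomial (Fin h) (ZMod 2)) ^ e i := by
  rw [mon, MvPolynomial.monomial_eq, map_one, one_mul, Finsupp.prod_fintype _ _ (by simp)]
  rfl

theorem mon_add (a b : Fin h → ℕ) : mon (a + b) = mon a * mon b := by
  rw [mon_eq, mon_eq, mon_eq, ← Finset.prod_mul_distrib]
  exact Finset.prod_congr rfl fun i _ => pow_add _ _ _

theorem dl_eq_act {S : OSys G} {A B : Subgroup G} (L : Layer S A B h) (e : Fin h → ℕ)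
    (f : CC S B D) : dl D L.y e (f : Fn G D) = (act L D (mon e) f : CC S B D) := by
  rw [mon_eq, Fin.prod_univ_def, map_list_prod, List.map_map, dl, List.ofFn_eq_map]
  induction List.finRange h generalizing f with
  | nil => rfl
  | cons i l ih =>
    rw [List.map_cons, List.prod_cons, List.map_cons, List.prod_cons]
    show _ = (((act L D (X i ^ e i)) * _ : Module.End (ZMod 2) (CC S B D)) f : Fn G D)
    rw [Module.End.mul_apply, Module.End.mul_apply, ih, map_pow, act_X]
    generalize (List.map ((act L D) ∘ fun i => X i ^ e i) l).prod f = f'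
    induction e i generalizing f' with
    | zero => rfl
    | succ n ihn =>
      rw [pow_succ, pow_succ, Module.End.mul_apply, Module.End.mul_apply, ← ihn]
      rfl

theorem dl_add {S : OSys G} {A B : Subgroup G} (L : Layer S A B h) (a b : Fin h → ℕ)
    {f : Fn G D} (hf : f ∈ CC S B D) : dl D L.y (a + b) f = dl D L.y a (dl D L.y b f) := by
  have h1 := dl_eq_act L b ⟨f, hf⟩
  have h2 := dl_eq_act L (a + b) ⟨f, hf⟩
  have h3 := dl_eq_act L a (act L D (mon b) ⟨f, hf⟩)
  simp only at h1 h2
  rw [h2, h1, h3, mon_add, map_mul]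
  rfl

omit [Group G] in
theorem add_one_pow_two_pow (T : Module.End (ZMod 2) (Fn G D)) (n : ℕ) :
    (T + 1) ^ 2 ^ n = T ^ 2 ^ n + 1 := by
  induction n with
  | zero => simp
  | succ n ih =>
    rw [pow_succ, pow_mul, ih, pow_mul T, pow_two, pow_two, mul_add, add_mul, mul_one, one_mul,
      add_assoc, ← add_assoc (T ^ 2 ^ n) (T ^ 2 ^ n) 1]
    have h2 : T ^ 2 ^ n + T ^ 2 ^ n = 0 := by
      ext f p i
      show ((T ^ 2 ^ n) f) p i + ((T ^ 2 ^ n) f) p i = 0
      exact CharTwo.add_self_eq_zero _
    rw [h2, zero_add]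

theorem dl_single (y : Fin h → G) (i : Fin h) (m : ℕ) :
    dl D y (Pi.single i m) = ((rho (y i) : Module.End (ZMod 2) (Fn G D)) + 1) ^ m := by
  have key : ∀ l : List (Fin h), l.Nodup →
      (l.map fun j => ((rho (y j) : Module.End (ZMod 2) (Fn G D)) + 1) ^
        (Pi.single i m : Fin h → ℕ) j).prod =
      if i ∈ l then ((rho (y i) : Module.End (ZMod 2) (Fn G D)) + 1) ^ m else 1 := by
    intro l
    induction l with
    | nil => intro _; simp
    | cons j l ih =>
      intro hl
      rw [List.nodup_cons] at hl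
      rw [List.map_cons, List.prod_cons, ih hl.2]
      by_cases hij : i = j
      · subst hij
        rw [if_neg hl.1, if_pos List.mem_cons_self, Pi.single_eq_same, mul_one]
      · rw [Pi.single_eq_of_ne (Ne.symm hij), pow_zero, one_mul]
        by_cases hil : i ∈ l
        · rw [if_pos hil, if_pos (List.mem_cons_of_mem _ hil)]
        · rw [if_neg hil, if_neg]
          rw [List.mem_cons]
          tauto
  rw [dl, List.ofFn_eq_map, key _ (List.nodup_finRange h), if_pos (List.mem_finRange i)]

theorem dl_single_two_pow (y : Fin h → G) (i : Fin h) (n : ℕ) (f : Fn G D) :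
    dl D y (Pi.single i (2 ^ n)) f = rho (y i ^ 2 ^ n) f - f := by
  rw [dl_single, add_one_pow_two_pow, Aux.rho_pow]
  show ((rho (y i) : Module.End (ZMod 2) (Fn G D)) ^ 2 ^ n) f + f = _
  funext p
  funext j
  show (((rho (y i) : Module.End (ZMod 2) (Fn G D)) ^ 2 ^ n) f) p j + f p j =
    (((rho (y i) : Module.End (ZMod 2) (Fn G D)) ^ 2 ^ n) f) p j - f p j
  rw [CharTwo.sub_eq_add]

/-- All operators with a large exponent kill `f`. -/
theorem dl_bound {S : OSys G} {A B : Subgroup G} (L : Layer S A B h) {f : Fn G D}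
    (hf : f ∈ CC S B D) : ∃ n : ℕ, ∀ e : Fin h → ℕ, (∃ i, 2 ^ n ≤ e i) → dl D L.y e f = 0 := by
  obtain ⟨U, hU, hUn, h1⟩ := Aux.CC_exists_normal hf
  obtain ⟨n, hn⟩ := S.idx U hU
  refine ⟨n, fun e => ?_⟩
  rintro ⟨i, hi⟩
  have h2 : e = (e - Pi.single i (2 ^ n)) + Pi.single i (2 ^ n) := by
    funext j
    show e j = e j - (Pi.single i (2 ^ n) : Fin h → ℕ) j + (Pi.single i (2 ^ n) : Fin h → ℕ) j
    by_cases hij : j = i
    · subst hij
      rw [Pi.single_eq_same]
      omega
    · rw [Pi.single_eq_of_ne hij]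
      omega
  have h3 : L.y i ^ 2 ^ n ∈ U := by
    rw [← hn]
    exact Subgroup.pow_index_mem U _
  rw [h2, dl_add L _ _ hf, dl_single_two_pow, h1 _ h3, sub_self, map_zero]

theorem dl_support {S : OSys G} {A B : Subgroup G} (L : Layer S A B h) {f : Fn G D}
    (hf : f ∈ CC S B D) : {e : Fin h → ℕ | dl D L.y e f ≠ 0}.Finite := by
  obtain ⟨n, hn⟩ := dl_bound L hf
  refine (Set.finite_Iic (fun _ : Fin h => 2 ^ n)).subset fun e he => ?_
  rw [Set.mem_Iic]
  intro i
  by_contra hcon
  exact he (hn e ⟨i, (not_le.1 hcon).le⟩)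

/-- A function killed by all first differences is invariant under `A` (by `L.gen`). -/
theorem mem_CC_of_dl {S : OSys G} {A B : Subgroup G} (L : Layer S A B h) {f : Fn G D}
    (hf : f ∈ CC S B D) (h0 : ∀ i, dl D L.y (Pi.single i 1) f = 0) : f ∈ CC S A D := by
  refine ⟨hf.1, ?_⟩
  obtain ⟨U, hU, hUn, hBU, h1⟩ := Aux.CC_exists_normal' L.nB hf
  let H : Subgroup G :=
    { carrier := {g | rho g f = f}
      one_mem' := Aux.rho_one f
      mul_mem' := by
        intro a b ha hb
        show rho (a * b) f = f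
        rw [Aux.rho_mul, show rho b f = f from hb]
        exact ha
      inv_mem' := by
        intro a ha
        show rho a⁻¹ f = f
        conv_lhs => rw [← show rho a f = f from ha]
        rw [← Aux.rho_mul, inv_mul_cancel, Aux.rho_one] }
  have h2 : Subgroup.closure (Set.range L.y) ⊔ U ≤ H := by
    rw [sup_le_iff]
    constructor
    · rw [Subgroup.closure_le]
      rintro _ ⟨i, rfl⟩
      show rho (L.y i) f = f
      have h3 := h0 i
      have h4 := dl_single_two_pow (D := D) L.y i 0 f
      rw [pow_zero, pow_one, h3] at h4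
      exact (sub_eq_zero.1 h4.symm)
    · intro u hu
      exact h1 u hu
  intro a ha
  exact h2 (L.gen U hU hUn hBU ha)

end Pool.Agent.EP
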