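import Pool.Agent.EP.Defs

/-!
# Exact pairs: the quadratic closure (MP_2429c0), definition
-/

universe u

namespace Pool.Agent.EP

/-- `Ω` is the quadratic closure of `F`. -/
class QC (F Ω : Type u) [Field F] [Field Ω] [Algebra F Ω] : Prop where
  gal : IsGalois F Ω
  sq : ∀ x : Ω, ∃ y, y ^ 2 = x
  deg : ∀ K : IntermediateField F Ω, FiniteDimensional F K → ∃ n : ℕ, Module.finrank F K = 2 ^ n

attribute [instance] QC.gal

end Pool.Agent.EP
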