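import Pool.Agent.EP.D4

/-!
# Exact pairs: homomorphisms to `Z_2 ^ m` (MP_2429c0, section 4, data)

`XH S N A x`: `x : A → Z_2 ^ m` is a continuous homomorphism with kernel `N`, conjugation acts by scalars, the image is a
`Z_2`-submodule.

`XH.basis`: the image `T` is a submodule of the free module `Z_2 ^ m` over a principal ideal domain, so `T ≃ Z_2 ^ h`
(`Submodule.basisOfPid` or `Module.Free` + `Module.finBasis`); `x' = e ∘ x` on `A`.  Continuity: the submodule
`{y | ∃ j, 2 ^ j • y ∈ T}` of `Z_2 ^ m` is finitely generated, so there is `s` with `2 ^ s • y ∈ T` for all its elements; if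
`x a = 2 ^ (s + n) • y` then `2 ^ s • y ∈ T` and `x a = 2 ^ n • (2 ^ s • y)`, so `2 ^ n ∣ x' a`.

`data4_of_abelian`: `A = ⊤`, `x : G → Z_2 ^ (h + 1)` onto: `Gl l = {g | 2 ^ l ∣ x g 0}`, new `A = {g | x g 0 = 0}`, `x γ = e_0`, and the
last `h` coordinates (`Fin.succ`).  `cof`: `U ≥ A` open, normal because `[G, G] ≤ N ≤ A ≤ U`, of index `2 ^ m`: `Gl m ≤ U`: if
`x g 0 = 2 ^ m * c`, take `b` with `x b = c • e_0`; `b ^ 2 ^ m ∈ U`, `g b ^ (-2 ^ m) ∈ A`.
-/

universe u

namespace Pool.Agent.EP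

variable {G : Type u} [Group G]

/-- A continuous homomorphism `A → Z_2 ^ m` with kernel `N`. -/
structure XH (S : OSys G) (N A : Subgroup G) {m : ℕ} (x : G → Fin m → ℤ_[2]) : Prop where
  nN : N.Normal
  nA : A.Normal
  le : N ≤ A
  mul : ∀ a ∈ A, ∀ b ∈ A, x (a * b) = x a + x b
  ker : ∀ a ∈ A, x a = 0 ↔ a ∈ N
  cont : ∀ n : ℕ, ∃ U, S.Op U ∧ U.Normal ∧ N ≤ U ∧ ∀ a ∈ A, a ∈ U → ∀ i, (2 : ℤ_[2]) ^ n ∣ x a i
  scal : ∀ g, ∀ a ∈ A, ∃ c : ℤ_[2], x (g * a * g⁻¹) = c • x a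
  sub : ∀ c : ℤ_[2], ∀ a ∈ A, ∃ b ∈ A, x b = c • x a

namespace XH

variable {S : OSys G} {N A : Subgroup G} {m : ℕ} {x : G → Fin m → ℤ_[2]}

theorem one (hx : XH S N A x) : x 1 = 0 := (hx.ker 1 A.one_mem).2 N.one_mem

theorem inv (hx : XH S N A x) {a : G} (ha : a ∈ A) : x a⁻¹ = - x a := by
  have := hx.mul a ha a⁻¹ (A.inv_mem ha)
  rw [mul_inv_cancel, hx.one] at this
  exact (neg_eq_of_add_eq_zero_right this.symm).symm

/-- The image. -/
def im (hx : XH S N A x) : Submodule ℤ_[2] (Fin m → ℤ_[2]) where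
  carrier := {t | ∃ a ∈ A, x a = t}
  zero_mem' := ⟨1, A.one_mem, hx.one⟩
  add_mem' := by
    rintro _ _ ⟨a, ha, rfl⟩ ⟨b, hb, rfl⟩
    exact ⟨a * b, A.mul_mem ha hb, hx.mul a ha b hb⟩
  smul_mem' := by
    rintro c _ ⟨a, ha, rfl⟩
    exact hx.sub c a ha

theorem mem_im (hx : XH S N A x) {a : G} (ha : a ∈ A) : x a ∈ hx.im := ⟨a, ha, rfl⟩

end XH

/-- The isolator of a submodule of `Z_2 ^ m` has bounded exponent modulo the submodule. -/
theorem exists_exp {m : ℕ} (T : Submodule ℤ_[2] (Fin m → ℤ_[2])) :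
    ∃ s : ℕ, ∀ (j : ℕ) (y : Fin m → ℤ_[2]), (2 : ℤ_[2]) ^ j • y ∈ T → (2 : ℤ_[2]) ^ s • y ∈ T := by
  let f : ℕ →o Submodule ℤ_[2] (Fin m → ℤ_[2]) :=
    { toFun := fun j => T.comap ((2 : ℤ_[2]) ^ j • LinearMap.id)
      monotone' := by
        intro i j hij y hy
        obtain ⟨k, rfl⟩ := Nat.exists_eq_add_of_le hij
        have h1 : (2 : ℤ_[2]) ^ i • y ∈ T := hy
        change (2 : ℤ_[2]) ^ (i + k) • y ∈ T
        rw [pow_add, mul_comm, mul_smul]
        exact T.smul_mem _ h1 }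
  have hN : IsNoetherian ℤ_[2] (Fin m → ℤ_[2]) := inferInstance
  obtain ⟨s, hs⟩ := monotone_stabilizes_iff_noetherian.2 hN f
  refine ⟨s, fun j y hy => ?_⟩
  rcases le_total j s with h | h
  · exact f.monotone h hy
  · have h1 : y ∈ f j := hy
    rw [← hs j h] at h1
    exact h1

theorem XH.basis {S : OSys G} {N A : Subgroup G} {m : ℕ} {x : G → Fin m → ℤ_[2]}
    (hx : XH S N A x) : ∃ (h : ℕ) (x' : G → Fin h → ℤ_[2]), XH S N A x' ∧
      ∀ t, ∃ a ∈ A, x' a = t := by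
  classical
  set T := hx.im with hT
  have e := (Module.finBasis ℤ_[2] T).equivFun
  set x' : G → Fin (Module.finrank ℤ_[2] T) → ℤ_[2] := fun g =>
    if h : g ∈ A then e ⟨x g, hx.mem_im h⟩ else 0 with hx'
  have hx'A : ∀ a (ha : a ∈ A), x' a = e ⟨x a, hx.mem_im ha⟩ := by
    intro a ha
    rw [hx']
    simp only [dif_pos ha]
  obtain ⟨s, hs⟩ := exists_exp T
  refine ⟨_, x', ⟨hx.nN, hx.nA, hx.le, ?_, ?_, ?_, ?_, ?_⟩, ?_⟩
  · intro a ha b hb
    rw [hx'A a ha, hx'A b hb, hx'A _ (A.mul_mem ha hb), ← map_add]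
    congr 1
    exact Subtype.ext (hx.mul a ha b hb)
  · intro a ha
    rw [hx'A a ha, LinearEquiv.map_eq_zero_iff, ← hx.ker a ha]
    exact Subtype.ext_iff
  · intro n
    obtain ⟨U, h1, h2, h3, h4⟩ := hx.cont (s + n)
    refine ⟨U, h1, h2, h3, fun a ha haU i => ?_⟩
    choose y hy using h4 a ha haU
    have h5 : x a = (2 : ℤ_[2]) ^ (s + n) • y := by
      funext i
      exact hy i
    have h6 : (2 : ℤ_[2]) ^ s • y ∈ T := hs (s + n) y (by rw [← h5]; exact hx.mem_im ha)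
    have h7 : (⟨x a, hx.mem_im ha⟩ : T) = (2 : ℤ_[2]) ^ n • (⟨_, h6⟩ : T) := by
      apply Subtype.ext
      change x a = (2 : ℤ_[2]) ^ n • ((2 : ℤ_[2]) ^ s • y)
      rw [h5, smul_smul, ← pow_add, add_comm]
    rw [hx'A a ha, h7, map_smul]
    exact ⟨_, rfl⟩
  · intro g a ha
    obtain ⟨c, hc⟩ := hx.scal g a ha
    refine ⟨c, ?_⟩
    rw [hx'A a ha, hx'A _ (hx.nA.conj_mem a ha g), ← map_smul]
    congr 1
    exact Subtype.ext hc
  · intro c a ha
    obtain ⟨b, hb, hb'⟩ := hx.sub c a ha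
    refine ⟨b, hb, ?_⟩
    rw [hx'A a ha, hx'A b hb, ← map_smul]
    congr 1
    exact Subtype.ext hb'
  · intro t
    obtain ⟨a, ha, ha'⟩ := (e.symm t).2
    refine ⟨a, ha, ?_⟩
    rw [hx'A a ha]
    have h1 : (⟨x a, hx.mem_im ha⟩ : T) = e.symm t := Subtype.ext ha'
    rw [h1, LinearEquiv.apply_symm_apply]

theorem data4_of_abelian {S : OSys G} {N : Subgroup G} {h : ℕ} {x : G → Fin (h + 1) → ℤ_[2]}
    (hx : XH S N ⊤ x) (hs : ∀ t, ∃ a, x a = t) : Nonempty (Data4 S N h) := by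
  have hmul : ∀ a b, x (a * b) = x a + x b := fun a b => hx.mul a trivial b trivial
  have hone : x 1 = 0 := hx.one
  have hinv : ∀ a, x a⁻¹ = - x a := fun a => hx.inv trivial
  have hconj : ∀ g a, x (g * a * g⁻¹) = x a := by
    intro g a
    rw [hmul, hmul, hinv]
    abel
  have hker : ∀ a, x a = 0 ↔ a ∈ N := fun a => hx.ker a trivial
  obtain ⟨γ, hγ⟩ := hs (Pi.single 0 1)
  let A : Subgroup G :=
    { carrier := {g | x g 0 = 0}
      one_mem' := by rw [Set.mem_ofPred_eq, hone]; rfl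
      mul_mem' := by
        intro a b ha hb
        rw [Set.mem_ofPred_eq] at ha hb ⊢
        rw [hmul, Pi.add_apply, ha, hb, add_zero]
      inv_mem' := by
        intro a ha
        rw [Set.mem_ofPred_eq] at ha ⊢
        rw [hinv, Pi.neg_apply, ha, neg_zero] }
  have memA : ∀ g, g ∈ A ↔ x g 0 = 0 := fun g => Iff.rfl
  let Gl : ℕ → Subgroup G := fun l =>
    { carrier := {g | (2 : ℤ_[2]) ^ l ∣ x g 0}
      one_mem' := by rw [Set.mem_ofPred_eq, hone]; exact dvd_zero _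
      mul_mem' := by
        intro a b ha hb
        rw [Set.mem_ofPred_eq] at ha hb ⊢
        rw [hmul]
        exact dvd_add ha hb
      inv_mem' := by
        intro a ha
        rw [Set.mem_ofPred_eq] at ha ⊢
        rw [hinv]
        exact (dvd_neg).2 ha }
  have memGl : ∀ l g, g ∈ Gl l ↔ (2 : ℤ_[2]) ^ l ∣ x g 0 := fun l g => Iff.rfl
  have hAn : A.Normal := ⟨fun a ha g => by
    rw [memA] at ha ⊢
    rw [hconj, ha]⟩
  have hGn : ∀ l, (Gl l).Normal := fun l => ⟨fun a ha g => by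
    rw [memGl] at ha ⊢
    rwa [hconj]⟩
  have hNA : N ≤ A := by
    intro a ha
    rw [memA, (hker a).2 ha]
    rfl
  have hpow : ∀ (b : G) (n : ℕ), x (b ^ n) = (n : ℤ_[2]) • x b := by
    intro b n
    induction n with
    | zero => rw [pow_zero, hone, Nat.cast_zero, zero_smul]
    | succ n ih => rw [pow_succ, hmul, ih, Nat.cast_succ, add_smul, one_smul]
  have hdvd : ∀ (l : ℕ) (t : ℤ_[2]), (2 : ℤ_[2]) ^ l ∣ t ↔ PadicInt.toZModPow l t = 0 := by
    intro l t
    rw [← RingHom.mem_ker, PadicInt.ker_toZModPow, Ideal.mem_span_singleton]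
    rfl
  refine ⟨{
    A := A
    Gl := Gl
    γ := γ
    nN := hx.nN
    nA := hAn
    le := hNA
    Gop := ?_
    Gn := hGn
    Gi := ?_
    Gle := ?_
    Ale := ?_
    cof := ?_
    gen := ?_
    x := fun g i => x g i.succ
    mul := ?_
    ker := ?_
    cont := ?_
    surj := ?_
    scal := ?_ }⟩
  · intro l
    obtain ⟨U, h1, -, -, h4⟩ := hx.cont l
    exact S.up U _ h1 fun a ha => h4 a trivial ha 0
  · intro l
    let f : G →* Multiplicative (ZMod (2 ^ l)) :=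
      { toFun := fun g => Multiplicative.ofAdd (PadicInt.toZModPow l (x g 0))
        map_one' := by rw [hone]; simp
        map_mul' := fun a b => by rw [hmul, Pi.add_apply, map_add, ofAdd_add] }
    have hf : Gl l = f.ker := by
      ext g
      rw [memGl, hdvd, MonoidHom.mem_ker]
      exact Iff.rfl
    have hsurj : Function.Surjective f := by
      intro t
      obtain ⟨z, hz⟩ := ZMod.ringHom_surjective (PadicInt.toZModPow (p := 2) l) t.toAdd
      obtain ⟨a, ha⟩ := hs (Pi.single 0 z)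
      refine ⟨a, ?_⟩
      change Multiplicative.ofAdd (PadicInt.toZModPow l (x a 0)) = t
      rw [ha, Pi.single_eq_same, hz]
      rfl
    rw [hf, Subgroup.index_ker, MonoidHom.range_eq_top.2 hsurj, Subgroup.card_top]
    exact Nat.card_zmod _
  · intro l g hg
    rw [memGl] at hg ⊢
    exact (pow_dvd_pow _ (Nat.le_succ l)).trans hg
  · intro l g hg
    rw [memA] at hg
    rw [memGl, hg]
    exact dvd_zero _
  · intro U hU hAU
    obtain ⟨m, hm⟩ := S.idx U hU
    have hUn : U.Normal := ⟨fun a ha g => by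
      have h1 : g * a * g⁻¹ * a⁻¹ ∈ N := by
        rw [← hker, hmul, hconj, hinv, add_neg_cancel]
      have h2 := U.mul_mem (hAU (hNA h1)) ha
      rwa [inv_mul_cancel_right] at h2⟩
    refine ⟨m, fun g hg => ?_⟩
    obtain ⟨c, hc⟩ := (memGl m g).1 hg
    obtain ⟨b, hb⟩ := hs (Pi.single 0 c)
    have h1 : b ^ 2 ^ m ∈ U := by
      have := U.pow_index_mem b
      rwa [hm] at this
    have h2 : g * (b ^ 2 ^ m)⁻¹ ∈ A := by
      rw [memA, hmul, hinv, hpow, Pi.add_apply, Pi.neg_apply, Pi.smul_apply, hb,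
        Pi.single_eq_same, hc, smul_eq_mul]
      push_cast
      ring
    have h3 := U.mul_mem (hAU h2) h1
    rwa [inv_mul_cancel_right] at h3
  · intro l
    rw [eq_top_iff]
    intro g _
    set n : ℕ := (PadicInt.toZModPow l (x g 0)).val with hn
    have h1 : g * (γ ^ n)⁻¹ ∈ Gl l := by
      rw [memGl, hdvd, hmul, hinv, hpow, Pi.add_apply, Pi.neg_apply, Pi.smul_apply, hγ,
        Pi.single_eq_same, smul_eq_mul, mul_one, map_add, map_neg, map_natCast, hn,
        ZMod.natCast_zmod_val, add_neg_cancel]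
    have h3 := (Subgroup.zpowers γ ⊔ Gl l).mul_mem (Subgroup.mem_sup_right h1)
      (Subgroup.mem_sup_left (Subgroup.npow_mem_zpowers γ n))
    rwa [inv_mul_cancel_right] at h3
  · intro a _ b _
    funext i
    simp only [hmul, Pi.add_apply]
  · intro a ha
    rw [← hker a]
    constructor
    · intro h1
      funext i
      refine Fin.cases ha (fun j => ?_) i
      exact congrFun h1 j
    · intro h1
      funext i
      simp only [h1, Pi.zero_apply]
  · intro n
    obtain ⟨U, h1, h2, h3, h4⟩ := hx.cont n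
    exact ⟨U, h1, h2, h3, fun a _ haU i => h4 a trivial haU i.succ⟩
  · intro t
    obtain ⟨a, ha⟩ := hs (Fin.cons 0 t)
    refine ⟨a, ?_, ?_⟩
    · rw [memA, ha, Fin.cons_zero]
    · funext i
      simp only [ha, Fin.cons_succ]
  · intro g a _
    exact ⟨1, by simp only [hconj, one_smul]⟩

end Pool.Agent.EP
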